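import Pool.Agent.R3S.St2

/-!
# R3S, AIN: the traces are algebraic integers
-/

set_option autoImplicit false

namespace R3S

open Matrix
open Pool.Agent.R3S (IsDVRIn)

/-- algebraic integers are in all valuation subrings -/
theorem AIN_mem {K : Type} [Field K] (O : ValuationSubring K) {y : K} (hy : IsIntegral ℤ y) :
    y ∈ O := by
  have h1 : IsIntegral O y := hy.tower_top
  obtain ⟨z, hz⟩ := (IsIntegrallyClosed.isIntegral_iff (R := O) (K := K)).1 h1
  rw [← hz]
  exact z.2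

theorem AIN_det_inv {R G : Type} [CommRing R] [Group G] (ρ : G →* GL (Fin 3) R) (x : G) :
    (ρ x⁻¹ : Matrix (Fin 3) (Fin 3) R).det * (ρ x : Matrix (Fin 3) (Fin 3) R).det = 1 := by
  rw [← Matrix.det_mul, ← Units.val_mul, ← map_mul, inv_mul_cancel, map_one, Units.val_one,
    Matrix.det_one]

theorem thm_AIN (h1 : St_DVU) (h2 : St_ENT) : St_AIN := by
  classical
  intro G _ n c L hc hL ρ hρ w
  let S : Set ℂ :=
    (Set.range fun i : Fin n × Fin 3 × Fin 3 => (ρ (c i.1) : M ℂ) i.2.1 i.2.2) ∪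
    (Set.range fun i : Fin n × Fin 3 × Fin 3 => ((ρ (c i.1))⁻¹ : M ℂ) i.2.1 i.2.2)
  have hS : S.Finite := (Set.finite_range _).union (Set.finite_range _)
  let A : Subalgebra ℤ ℂ := Algebra.adjoin ℤ S
  obtain ⟨ρ', hρ'⟩ := h2 ℂ A.toSubring G n c ρ hc (fun i k l =>
    ⟨Algebra.subset_adjoin (Or.inl ⟨(i, k, l), rfl⟩),
      Algebra.subset_adjoin (Or.inr ⟨(i, k, l), rfl⟩)⟩)
  let e : A.toSubring →+* A := RingHom.id A
  let ρA : G →* GL (Fin 3) A := (Matrix.GeneralLinearGroup.map e).comp ρ'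
  have hρA : ∀ z k l, (((ρA z : Matrix (Fin 3) (Fin 3) A) k l : A) : ℂ) = (ρ z : M ℂ) k l :=
    fun z k l => hρ' z k l
  have hval : ∀ z, (ρA z : Matrix (Fin 3) (Fin 3) A).map A.val.toRingHom = (ρ z : M ℂ) := by
    intro z
    ext k l
    exact hρA z k l
  have hinj : Function.Injective A.val := Subtype.val_injective
  have hint : ∀ x : A, IsIntegral ℤ (x : ℂ) → IsIntegral ℤ x := fun x hx =>
    (isIntegral_algHom_iff A.val hinj).1 hx
  have htr : ((ρA w : Matrix (Fin 3) (Fin 3) A).trace : ℂ) = (ρ w : M ℂ).trace := by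
    rw [← hval w]
    exact AddMonoidHom.map_trace A.val.toRingHom (ρA w : Matrix (Fin 3) (Fin 3) A)
  rw [← htr]
  refine Pool.Agent.R3S.int_of_dvr S hS _ (ρA w : Matrix (Fin 3) (Fin 3) A).trace.2 ?_
  intro K _ _ O hO θ
  obtain ⟨O', t, hU, hO'⟩ := h1 K O hO
  let ρθ : G →* GL (Fin 3) K := (Matrix.GeneralLinearGroup.map θ).comp ρA
  have hθ : ∀ x, (ρθ x : M K) = (ρA x : Matrix (Fin 3) (Fin 3) A).map θ := fun x => rfl
  have hi : ∀ x : A, IsIntegral ℤ (x : ℂ) → θ x ∈ O' := fun x hx =>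
    AIN_mem O' ((hint x hx).map θ.toIntAlgHom)
  have key := hL K O' t hU ρθ (fun x hx => ?_) w
  · rw [hO', hθ] at key
    have h4 : ((ρA w : Matrix (Fin 3) (Fin 3) A).map θ).trace =
        θ (ρA w : Matrix (Fin 3) (Fin 3) A).trace := (AddMonoidHom.map_trace θ _).symm
    rw [h4] at key
    exact key
  · obtain ⟨hx1, hx2⟩ := hρ x hx
    refine ⟨fun k => ?_, ?_⟩
    · have e1 : (ρθ x : M K).charpoly.coeff k =
          θ ((ρA x : Matrix (Fin 3) (Fin 3) A).charpoly.coeff k) := by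
        rw [hθ, Matrix.charpoly_map, Polynomial.coeff_map]
      rw [e1]
      apply hi
      have e2 : (((ρA x : Matrix (Fin 3) (Fin 3) A).charpoly.coeff k : A) : ℂ) =
          (ρ x : M ℂ).charpoly.coeff k := by
        rw [← hval x, Matrix.charpoly_map, Polynomial.coeff_map]
        rfl
      rw [e2]
      exact hx1 k
    · have e1 : ((ρθ x : M K).det)⁻¹ = θ (ρA x⁻¹ : Matrix (Fin 3) (Fin 3) A).det := by
        have e3 : (ρθ x⁻¹ : M K).det = θ (ρA x⁻¹ : Matrix (Fin 3) (Fin 3) A).det := by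
          rw [hθ]
          exact (RingHom.map_det θ _).symm
        rw [← e3]
        exact (eq_inv_of_mul_eq_one_left (AIN_det_inv ρθ x)).symm
      rw [e1]
      apply hi
      have e2 : (((ρA x⁻¹ : Matrix (Fin 3) (Fin 3) A).det : A) : ℂ) = ((ρ x : M ℂ).det)⁻¹ := by
        have e3 : (((ρA x⁻¹ : Matrix (Fin 3) (Fin 3) A).det : A) : ℂ) = (ρ x⁻¹ : M ℂ).det := by
          rw [← hval x⁻¹]
          exact RingHom.map_det A.val.toRingHom (ρA x⁻¹ : Matrix (Fin 3) (Fin 3) A)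
        rw [e3]
        exact eq_inv_of_mul_eq_one_left (AIN_det_inv ρ x)
      rw [e2]
      exact hx2

end R3S
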