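import Pool.Agent.R3S.Defs

/-!
# R3S: tools for spans and changes of basis
-/

set_option autoImplicit false

namespace R3S

open Matrix

section

variable {K : Type} [Field K] {O : ValuationSubring K} {t : K}

/-! ### Scalars -/

theorem smul_mem_K (N : Submodule O (V K)) {c : K} (hc : c ∈ O) {v : V K} (hv : v ∈ N) :
    c • v ∈ N :=
  N.smul_mem (⟨c, hc⟩ : O) hv

theorem Unif.zpow_ne (h : Unif O t) (n : ℤ) : t ^ n ≠ 0 := zpow_ne_zero _ h.ne

theorem Unif.pow_mem (h : Unif O t) (n : ℕ) : t ^ n ∈ O := _root_.pow_mem h.mem n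

theorem Unif.zpow_mem_of (h : Unif O t) {n : ℤ} (hn : 0 ≤ n) : t ^ n ∈ O := by
  obtain ⟨m, rfl⟩ := Int.eq_ofNat_of_zero_le hn
  rw [zpow_natCast]
  exact h.pow_mem m

theorem Unif.zpow_mem (h : Unif O t) {n : ℤ} : t ^ n ∈ O ↔ 0 ≤ n := by
  refine ⟨fun hn => ?_, h.zpow_mem_of⟩
  by_contra hc
  apply h.nu
  have h1 : t⁻¹ = t ^ n * t ^ (-1 - n) := by
    rw [← zpow_add₀ h.ne]
    have : n + (-1 - n) = -1 := by ring
    rw [this, _root_.zpow_neg_one]
  rw [h1]
  exact mul_mem hn (h.zpow_mem_of (by omega))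

/-- every nonzero element is a unit times a power of `t` -/
theorem Unif.exists_unit (h : Unif O t) {x : K} (hx : x ≠ 0) :
    ∃ (n : ℤ) (u : K), u ∈ O ∧ u⁻¹ ∈ O ∧ u ≠ 0 ∧ x = u * t ^ n := by
  obtain ⟨n, h1, h2⟩ := h.gen x hx
  refine ⟨-n, x * t ^ n, h1, h2, mul_ne_zero hx (h.zpow_ne n), ?_⟩
  rw [mul_assoc, ← zpow_add₀ h.ne, add_neg_cancel, zpow_zero, mul_one]

/-- an element of `O` is a unit or a multiple of `t` -/
theorem Unif.unit_or (h : Unif O t) {x : K} (hx : x ∈ O) : x⁻¹ ∈ O ∧ x ≠ 0 ∨ ∃ y ∈ O, x = t * y := by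
  by_cases h0 : x = 0
  · right
    exact ⟨0, O.zero_mem, by rw [h0, mul_zero]⟩
  · obtain ⟨n, u, hu, hu', hu0, rfl⟩ := h.exists_unit h0
    have hn : 0 ≤ n := by
      rw [← h.zpow_mem]
      have : t ^ n = u⁻¹ * (u * t ^ n) := by
        rw [← mul_assoc, inv_mul_cancel₀ hu0, one_mul]
      rw [this]
      exact mul_mem hu' hx
    rcases hn.eq_or_lt with hn | hn
    · left
      rw [← hn, zpow_zero, mul_one]
      exact ⟨hu', hu0⟩
    · right
      refine ⟨u * t ^ (n - 1), mul_mem hu (h.zpow_mem_of (by omega)), ?_⟩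
      have : t ^ n = t * t ^ (n - 1) := by
        rw [← zpow_one_add₀ h.ne]
        congr 1
        ring
      rw [this]
      ring

/-- a multiple of `t` is not a unit -/
theorem Unif.not_unit (h : Unif O t) {y : K} (hy : y ∈ O) (h0 : t * y ≠ 0) :
    (t * y)⁻¹ ∉ O := by
  intro hc
  apply h.nu
  have hy0 : y ≠ 0 := fun hy => h0 (by rw [hy, mul_zero])
  have : t⁻¹ = y * (t * y)⁻¹ := by
    rw [mul_inv]
    field_simp
  rw [this]
  exact mul_mem hy hc

/-- unit times power: exponents are determined -/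
theorem Unif.zpow_unit (h : Unif O t) {n : ℤ} (h1 : t ^ n ∈ O) (h2 : (t ^ n)⁻¹ ∈ O) : n = 0 := by
  have e1 := h.zpow_mem.1 h1
  rw [← _root_.zpow_neg] at h2
  have e2 := h.zpow_mem.1 h2
  omega

/-! ### Spans -/

theorem mem_sp (f : Fin 3 → V K) (v : V K) :
    v ∈ sp O f ↔ ∃ c : Fin 3 → K, (∀ i, c i ∈ O) ∧ v = ∑ i, c i • f i := by
  rw [sp, Submodule.mem_span_range_iff_exists_fun]
  constructor
  · rintro ⟨c, hc⟩
    exact ⟨fun i => (c i : K), fun i => (c i).2, hc.symm⟩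
  · rintro ⟨c, hc, hv⟩
    exact ⟨fun i => ⟨c i, hc i⟩, hv.symm⟩

theorem self_mem_sp (f : Fin 3 → V K) (i : Fin 3) : f i ∈ sp O f :=
  Submodule.subset_span ⟨i, rfl⟩

theorem sp_le_iff (f : Fin 3 → V K) (N : Submodule O (V K)) : sp O f ≤ N ↔ ∀ i, f i ∈ N := by
  rw [sp, Submodule.span_le]
  constructor
  · exact fun h i => h ⟨i, rfl⟩
  · rintro h _ ⟨i, rfl⟩
    exact h i

/-- coordinates -/
theorem exists_coord {f : Fin 3 → V K} (hf : LinearIndependent K f) (v : V K) :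
    ∃ c : Fin 3 → K, v = ∑ i, c i • f i := by
  have h1 : Submodule.span K (Set.range f) = ⊤ :=
    hf.span_eq_top_of_card_eq_finrank' (by rw [Module.finrank_fin_fun, Fintype.card_fin])
  have h2 : v ∈ Submodule.span K (Set.range f) := by rw [h1]; trivial
  rw [Submodule.mem_span_range_iff_exists_fun] at h2
  obtain ⟨c, hc⟩ := h2
  exact ⟨c, hc.symm⟩

theorem coord_unique {f : Fin 3 → V K} (hf : LinearIndependent K f) {c d : Fin 3 → K}
    (h : ∑ i, c i • f i = ∑ i, d i • f i) : c = d := by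
  have h1 : ∑ i, (c i - d i) • f i = 0 := by
    rw [← sub_eq_zero, ← Finset.sum_sub_distrib] at h
    rw [← h]
    exact Finset.sum_congr rfl fun i _ => sub_smul _ _ _
  funext i
  exact sub_eq_zero.1 (Fintype.linearIndependent_iff.1 hf _ h1 i)

theorem sum_mem_sp_iff {f : Fin 3 → V K} (hf : LinearIndependent K f) (c : Fin 3 → K) :
    ∑ i, c i • f i ∈ sp O f ↔ ∀ i, c i ∈ O := by
  rw [mem_sp]
  constructor
  · rintro ⟨d, hd, h⟩ i
    rw [coord_unique hf h]
    exact hd i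
  · exact fun h => ⟨c, h, rfl⟩

/-- scaling by powers of `t` -/
theorem li_pow {f : Fin 3 → V K} (hf : LinearIndependent K f) (ht : t ≠ 0) (a : Fin 3 → ℤ) :
    LinearIndependent K fun i => t ^ a i • f i := by
  have := hf.units_smul fun i => Units.mk0 (t ^ a i) (zpow_ne_zero _ ht)
  exact this

theorem sum_mem_pow_iff {f : Fin 3 → V K} (hf : LinearIndependent K f) (ht : t ≠ 0)
    (a : Fin 3 → ℤ) (c : Fin 3 → K) :
    ∑ i, c i • f i ∈ sp O (fun i => t ^ (-a i) • f i) ↔ ∀ i, c i * t ^ a i ∈ O := by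
  have h1 : ∑ i, c i • f i = ∑ i, (c i * t ^ a i) • (t ^ (-a i) • f i) := by
    refine Finset.sum_congr rfl fun i _ => ?_
    rw [smul_smul, mul_assoc, ← zpow_add₀ ht, add_neg_cancel, zpow_zero, mul_one]
  rw [h1, sum_mem_sp_iff (li_pow hf ht _)]

theorem Adp.symm (ht : t ≠ 0) {f : Fin 3 → V K} {L L' : Submodule O (V K)} {a : Fin 3 → ℤ}
    (h : Adp t f L L' a) : Adp t (fun i => t ^ (-a i) • f i) L' L (fun i => -a i) := by
  obtain ⟨h1, h2, h3⟩ := h
  refine ⟨li_pow h1 ht _, h3, ?_⟩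
  rw [h2]
  congr 1
  funext i
  rw [smul_smul, ← zpow_add₀ ht, neg_neg, add_neg_cancel, zpow_zero, one_smul]

theorem Adp.isLat {f : Fin 3 → V K} {L L' : Submodule O (V K)} {a : Fin 3 → ℤ}
    (ht : t ≠ 0) (h : Adp t f L L' a) : IsLat O L ∧ IsLat O L' :=
  ⟨⟨f, h.1, h.2.1⟩, ⟨_, li_pow h.1 ht _, h.2.2⟩⟩

/-! ### Matrices over `O` -/

/-- entries in `O` -/
def MO (O : ValuationSubring K) (U : M K) : Prop := ∀ i j, U i j ∈ O

theorem MO_one : MO O (1 : M K) := by
  intro i j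
  rw [Matrix.one_apply]
  split_ifs
  · exact O.one_mem
  · exact O.zero_mem

theorem MO_mul {U W : M K} (hU : MO O U) (hW : MO O W) : MO O (U * W) := by
  intro i j
  rw [Matrix.mul_apply]
  exact sum_mem fun k _ => mul_mem (hU i k) (hW k j)

theorem MO_exists {U : M K} (hU : MO O U) :
    ∃ W : Matrix (Fin 3) (Fin 3) O, U = W.map (algebraMap O K) :=
  ⟨Matrix.of fun i j => ⟨U i j, hU i j⟩, by ext i j; rfl⟩

theorem MO_map (W : Matrix (Fin 3) (Fin 3) O) : MO O (W.map (algebraMap O K)) :=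
  fun i j => (W i j).2

theorem MO_det {U : M K} (hU : MO O U) : U.det ∈ O := by
  obtain ⟨W, rfl⟩ := MO_exists hU
  have h := RingHom.map_det (algebraMap O K) W
  rw [RingHom.mapMatrix_apply] at h
  rw [← h]
  exact W.det.2

theorem MO_adjugate {U : M K} (hU : MO O U) : MO O U.adjugate := by
  obtain ⟨W, rfl⟩ := MO_exists hU
  have h := RingHom.map_adjugate (algebraMap O K) W
  rw [RingHom.mapMatrix_apply, RingHom.mapMatrix_apply] at h
  rw [← h]
  exact MO_map _

theorem MO_inv {U : M K} (hU : MO O U) (hd : (U.det)⁻¹ ∈ O) : MO O U⁻¹ := by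
  intro i j
  rw [Matrix.inv_def, Matrix.smul_apply, Ring.inverse_eq_inv', smul_eq_mul]
  exact mul_mem hd (MO_adjugate hU i j)

/-- the matrix with the given columns -/
def mat (f : Fin 3 → V K) : M K := (Matrix.of f)ᵀ

omit [Field K] in
theorem mat_apply (f : Fin 3 → V K) (i j : Fin 3) : mat f i j = f j i := rfl

theorem mat_mulVec (f : Fin 3 → V K) (c : Fin 3 → K) : mat f *ᵥ c = ∑ i, c i • f i := by
  ext k
  rw [Matrix.mulVec, dotProduct, Finset.sum_apply]
  refine Finset.sum_congr rfl fun i _ => ?_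
  rw [mat_apply, Pi.smul_apply, smul_eq_mul, mul_comm]

theorem li_iff_det (f : Fin 3 → V K) : LinearIndependent K f ↔ (mat f).det ≠ 0 := by
  rw [← isUnit_iff_ne_zero, ← Matrix.isUnit_iff_isUnit_det]
  exact Matrix.linearIndependent_cols_iff_isUnit (A := mat f)

theorem mat_change {f g : Fin 3 → V K} {U : M K} (hg : ∀ j, g j = ∑ i, U i j • f i) :
    mat g = mat f * U := by
  ext k j
  rw [mat_apply, hg, Matrix.mul_apply, Finset.sum_apply]
  refine Finset.sum_congr rfl fun i _ => ?_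
  rw [mat_apply, Pi.smul_apply, smul_eq_mul, mul_comm]

theorem change_of_mat {f g : Fin 3 → V K} {U : M K} (h : mat g = mat f * U) (j : Fin 3) :
    g j = ∑ i, U i j • f i := by
  ext k
  have := congrFun (congrFun h k) j
  rw [mat_apply, Matrix.mul_apply] at this
  rw [this, Finset.sum_apply]
  refine Finset.sum_congr rfl fun i _ => ?_
  rw [mat_apply, Pi.smul_apply, smul_eq_mul, mul_comm]

/-- one inclusion -/
theorem sp_le_of_change {f g : Fin 3 → V K} {U : M K} (hU : MO O U)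
    (hg : ∀ j, g j = ∑ i, U i j • f i) : sp O g ≤ sp O f := by
  rw [sp_le_iff]
  intro j
  rw [hg, mem_sp]
  exact ⟨fun i => U i j, fun i => hU i j, rfl⟩

/-- a change of basis by a matrix in `GL_3(O)` -/
theorem sp_change {f g : Fin 3 → V K} (hf : LinearIndependent K f) {U : M K} (hU : MO O U)
    (h0 : U.det ≠ 0) (hd : (U.det)⁻¹ ∈ O) (hg : ∀ j, g j = ∑ i, U i j • f i) :
    LinearIndependent K g ∧ sp O g = sp O f := by
  have h1 := mat_change hg
  refine ⟨?_, le_antisymm (sp_le_of_change hU hg) ?_⟩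
  · rw [li_iff_det, h1, Matrix.det_mul]
    exact mul_ne_zero ((li_iff_det f).1 hf) h0
  · refine sp_le_of_change (MO_inv hU hd) (fun j => change_of_mat ?_ j)
    rw [h1, Matrix.mul_assoc, Matrix.mul_nonsing_inv _ (isUnit_iff_ne_zero.2 h0), Matrix.mul_one]

/-- inclusions of spans as matrices -/
theorem exists_MO_of_le {f g : Fin 3 → V K} (h : sp O g ≤ sp O f) :
    ∃ U : M K, MO O U ∧ mat g = mat f * U ∧ ∀ j, g j = ∑ i, U i j • f i := by
  rw [sp_le_iff] at h
  choose c hc hv using fun j => (mem_sp f (g j)).1 (h j)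
  exact ⟨Matrix.of fun i j => c j i, fun i j => hc j i,
    mat_change (U := Matrix.of fun i j => c j i) hv, hv⟩

/-- two bases of the same lattice differ by a matrix in `GL_3(O)` -/
theorem exists_change {f g : Fin 3 → V K} (hf : LinearIndependent K f)
    (_ : LinearIndependent K g) (h : sp O g = sp O f) :
    ∃ U : M K, MO O U ∧ MO O U⁻¹ ∧ U.det ≠ 0 ∧ U.det ∈ O ∧ (U.det)⁻¹ ∈ O ∧
      mat g = mat f * U ∧ ∀ j, g j = ∑ i, U i j • f i := by
  obtain ⟨U, hU, h1, h2⟩ := exists_MO_of_le h.le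
  obtain ⟨W, hW, h3, h4⟩ := exists_MO_of_le h.ge
  have hf0 := (li_iff_det f).1 hf
  have h5 : U * W = 1 := by
    have h6 : mat f * (U * W) = mat f * 1 := by
      rw [← Matrix.mul_assoc, ← h1, ← h3, Matrix.mul_one]
    have h7 := congrArg (fun X => (mat f)⁻¹ * X) h6
    simpa [← Matrix.mul_assoc, Matrix.nonsing_inv_mul _ (isUnit_iff_ne_zero.2 hf0)] using h7
  have h6 : U.det * W.det = 1 := by rw [← Matrix.det_mul, h5, Matrix.det_one]
  have h7 : U⁻¹ = W := Matrix.inv_eq_right_inv h5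
  have h8 : (U.det)⁻¹ = W.det := by
    rw [inv_eq_iff_eq_inv]
    exact eq_inv_of_mul_eq_one_left h6
  refine ⟨U, hU, h7 ▸ hW, left_ne_zero_of_mul_eq_one h6, MO_det hU, ?_, h1, h2⟩
  rw [h8]
  exact MO_det hW

/-- coordinates with respect to a lattice basis, of an element of the lattice -/
theorem coord_mem {f : Fin 3 → V K} (hf : LinearIndependent K f) {v : V K} (hv : v ∈ sp O f)
    {c : Fin 3 → K} (hc : v = ∑ i, c i • f i) (i : Fin 3) : c i ∈ O := by
  rw [hc, sum_mem_sp_iff hf] at hv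
  exact hv i

/-- linear dependence on `up` -/
theorem mem_up (W : Submodule O (V K)) (v : V K) : v ∈ up t W ↔ t • v ∈ W := Iff.rfl

theorem up_sp (ht : t ≠ 0) (f : Fin 3 → V K) :
    up t (sp O f) = sp O fun i => t⁻¹ • f i := by
  ext v
  rw [mem_up, mem_sp, mem_sp]
  constructor
  · rintro ⟨c, hc, h⟩
    refine ⟨c, hc, ?_⟩
    have h1 : v = t⁻¹ • (t • v) := by rw [smul_smul, inv_mul_cancel₀ ht, one_smul]
    rw [h1, h, Finset.smul_sum]
    exact Finset.sum_congr rfl fun i _ => smul_comm _ _ _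
  · rintro ⟨c, hc, h⟩
    refine ⟨c, hc, ?_⟩
    rw [h, Finset.smul_sum]
    refine Finset.sum_congr rfl fun i _ => ?_
    rw [smul_smul, smul_smul]
    congr 1
    field_simp

/-! ### Stability -/

theorem Stb.one (L : Submodule O (V K)) : Stb (1 : GL (Fin 3) K) L := by
  intro v
  rw [Units.val_one, Matrix.one_mulVec]

theorem Stb.mul {γ δ : GL (Fin 3) K} {L : Submodule O (V K)} (h1 : Stb γ L) (h2 : Stb δ L) :
    Stb (γ * δ) L := by
  intro v
  rw [Units.val_mul, ← Matrix.mulVec_mulVec, h1, h2]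

theorem Stb.inv {γ : GL (Fin 3) K} {L : Submodule O (V K)} (h : Stb γ L) : Stb γ⁻¹ L := by
  intro v
  rw [← h, Matrix.mulVec_mulVec, ← Units.val_mul, mul_inv_cancel, Units.val_one,
    Matrix.one_mulVec]

/-- it is enough that `γ` and `γ⁻¹` map a basis into the lattice -/
theorem stb_of {γ : GL (Fin 3) K} {f : Fin 3 → V K} (h1 : ∀ i, (γ : M K) *ᵥ f i ∈ sp O f)
    (h2 : ∀ i, ((γ⁻¹ : GL (Fin 3) K) : M K) *ᵥ f i ∈ sp O f) : Stb γ (sp O f) := by
  have key : ∀ δ : GL (Fin 3) K, (∀ i, (δ : M K) *ᵥ f i ∈ sp O f) → ∀ v ∈ sp O f,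
      (δ : M K) *ᵥ v ∈ sp O f := by
    intro δ hδ v hv
    obtain ⟨c, hc, rfl⟩ := (mem_sp f v).1 hv
    rw [Matrix.mulVec_sum]
    refine sum_mem fun i _ => ?_
    rw [Matrix.mulVec_smul]
    exact smul_mem_K _ (hc i) (hδ i)
  intro v
  refine ⟨fun h => ?_, key γ h1 v⟩
  have h3 := key γ⁻¹ h2 _ h
  rwa [Matrix.mulVec_mulVec, ← Units.val_mul, inv_mul_cancel, Units.val_one,
    Matrix.one_mulVec] at h3

/-- scaling a lattice does not change its stabiliser -/
theorem stb_smul {γ : GL (Fin 3) K} {L L' : Submodule O (V K)} {c : K}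
    (h : ∀ v, v ∈ L' ↔ c • v ∈ L) (h1 : Stb γ L) : Stb γ L' := by
  intro v
  rw [h, h, ← Matrix.mulVec_smul, h1]

theorem stb_up {γ : GL (Fin 3) K} {W : Submodule O (V K)} (h : Stb γ W) : Stb γ (up t W) :=
  stb_smul (fun v => mem_up W v) h

end

end R3S
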