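import Pool.Agent.R3S.St
import Pool.Agent.R3S.Tool

/-!
# R3S, module ARC: the group of the `g i⁻¹ g j` has a stable lattice (Theorem A)
-/

set_option autoImplicit false

namespace R3S

open Matrix

section

variable {K : Type} [Field K] {O : ValuationSubring K} {n : ℕ} (g : Fin n → GL (Fin 3) K)

/-- the elements `g i⁻¹ g j`, `i, j` in `I` -/
def ARC_S (I : Set (Fin n)) : Set (GL (Fin 3) K) := {γ | ∃ i ∈ I, ∃ j ∈ I, γ = (g i)⁻¹ * g j}

theorem ARC_lat : ∃ L : Submodule O (V K), IsLat O L :=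
  ⟨_, Pi.basisFun K (Fin 3), (Pi.basisFun K (Fin 3)).linearIndependent, rfl⟩

theorem ARC_bd_mono {S T : Set (GL (Fin 3) K)} (h : S ⊆ T) (hT : Bd O T) : Bd O S := by
  obtain ⟨L, hL, hs⟩ := hT
  exact ⟨L, hL, fun γ hγ => hs γ (h hγ)⟩

theorem ARC_mono {I J : Set (Fin n)} (h : I ⊆ J) : ARC_S g I ⊆ ARC_S g J := by
  rintro γ ⟨i, hi, j, hj, rfl⟩
  exact ⟨i, h hi, j, h hj, rfl⟩

theorem ARC_base {I : Set (Fin n)} (p : Fin n)
    (h : ∃ L : Submodule O (V K), IsLat O L ∧ ∀ j ∈ I, Stb ((g p)⁻¹ * g j) L) :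
    Bd O (ARC_S g I) := by
  obtain ⟨L, hL, hs⟩ := h
  refine ⟨L, hL, ?_⟩
  rintro γ ⟨i, hi, j, hj, rfl⟩
  have h1 : (g i)⁻¹ * g j = ((g p)⁻¹ * g i)⁻¹ * ((g p)⁻¹ * g j) := by group
  rw [h1]
  exact (hs i hi).inv.mul (hs j hj)

/-- pairs -/
theorem ARC_pair (h : ∀ i j, i < j → Bd O {(g i)⁻¹ * g j}) (i j : Fin n) (hij : i ≤ j) :
    Bd O (ARC_S g {i, j}) := by
  apply ARC_base g i
  rcases hij.eq_or_lt with rfl | hlt
  · obtain ⟨L, hL⟩ := ARC_lat (K := K) (O := O)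
    refine ⟨L, hL, fun j hj => ?_⟩
    have hj' : j = i := by simpa using hj
    rw [hj', inv_mul_cancel]
    exact Stb.one L
  · obtain ⟨L, hL, hs⟩ := h i j hlt
    refine ⟨L, hL, fun k hk => ?_⟩
    rcases hk with rfl | rfl
    · rw [inv_mul_cancel]
      exact Stb.one L
    · exact hs _ rfl

/-- triples in order -/
theorem ARC_triple' (h : ∀ i j, i < j → Bd O {(g i)⁻¹ * g j})
    (h' : ∀ i j k, i < j → j < k → Bd O {(g i)⁻¹ * g j, (g j)⁻¹ * g k}) (i j k : Fin n)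
    (hij : i ≤ j) (hjk : j ≤ k) : Bd O (ARC_S g {i, j, k}) := by
  rcases hij.eq_or_lt with rfl | hlt
  · refine ARC_bd_mono (ARC_mono g ?_) (ARC_pair g h i k hjk)
    intro x hx
    rcases hx with rfl | rfl | rfl <;> simp
  rcases hjk.eq_or_lt with rfl | hlt'
  · refine ARC_bd_mono (ARC_mono g ?_) (ARC_pair g h i j hij)
    intro x hx
    rcases hx with rfl | rfl | rfl <;> simp
  apply ARC_base g i
  obtain ⟨L, hL, hs⟩ := h' i j k hlt hlt'
  have h1 := hs _ (Or.inl rfl)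
  have h2 := hs _ (Or.inr rfl)
  refine ⟨L, hL, fun x hx => ?_⟩
  rcases hx with rfl | rfl | rfl
  · rw [inv_mul_cancel]
    exact Stb.one L
  · exact h1
  · have h3 : (g i)⁻¹ * g x = (g i)⁻¹ * g j * ((g j)⁻¹ * g x) := by group
    rw [h3]
    exact h1.mul h2

/-- triples -/
theorem ARC_triple (h : ∀ i j, i < j → Bd O {(g i)⁻¹ * g j})
    (h' : ∀ i j k, i < j → j < k → Bd O {(g i)⁻¹ * g j, (g j)⁻¹ * g k}) (i j k : Fin n) :
    Bd O (ARC_S g {i, j, k}) := by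
  have key : ∀ a b c : Fin n, a ≤ b → b ≤ c → ({i, j, k} : Set (Fin n)) ⊆ {a, b, c} →
      Bd O (ARC_S g {i, j, k}) := fun a b c hab hbc hs =>
    ARC_bd_mono (ARC_mono g hs) (ARC_triple' g h h' a b c hab hbc)
  rcases le_total i j with h1 | h1 <;> rcases le_total j k with h2 | h2 <;>
    rcases le_total i k with h3 | h3
  · exact key i j k h1 h2 subset_rfl
  · exact key i j k h1 h2 subset_rfl
  · exact key i k j h3 h2 (by intro x hx; rcases hx with rfl | rfl | rfl <;> simp)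
  · exact key k i j h3 h1 (by intro x hx; rcases hx with rfl | rfl | rfl <;> simp)
  · exact key j i k h1 h3 (by intro x hx; rcases hx with rfl | rfl | rfl <;> simp)
  · exact key j k i h2 h3 (by intro x hx; rcases hx with rfl | rfl | rfl <;> simp)
  · exact key k j i h2 h1 (by intro x hx; rcases hx with rfl | rfl | rfl <;> simp)
  · exact key k j i h2 h1 (by intro x hx; rcases hx with rfl | rfl | rfl <;> simp)

/-- quadruples -/
theorem ARC_quad {t : K} (ht : Unif O t) (hGG : St_GG) (hBAS : St_BAS)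
    (h3 : ∀ i j k : Fin n, Bd O (ARC_S g {i, j, k})) (e : Fin 4 → Fin n) :
    Bd O (ARC_S g (Set.range e)) := by
  have hgg := hGG K O t ht (fun m => Subgroup.closure (ARC_S g (e '' {m}ᶜ)))
    (fun m m' => Subgroup.closure (ARC_S g (e '' {m, m'}ᶜ))) ?_ ?_ ?_ ?_
  · refine ARC_bd_mono ?_ hgg
    rintro γ ⟨_, ⟨a, rfl⟩, _, ⟨b, rfl⟩, rfl⟩
    have h4 : ∀ a b : Fin 4, ∃ m : Fin 4, a ≠ m ∧ b ≠ m := by decide
    obtain ⟨m, hm1, hm2⟩ := h4 a b
    exact ⟨m, Subgroup.subset_closure ⟨_, ⟨a, hm1, rfl⟩, _, ⟨b, hm2, rfl⟩, rfl⟩⟩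
  · intro m
    apply (hBAS K O).1
    have h4 : ∀ m : Fin 4, ∃ a b c : Fin 4, ∀ x, x ≠ m → x = a ∨ x = b ∨ x = c := by decide
    obtain ⟨a, b, c, hx⟩ := h4 m
    refine ARC_bd_mono (ARC_mono g ?_) (h3 (e a) (e b) (e c))
    rintro _ ⟨x, hxm, rfl⟩
    rcases hx x hxm with rfl | rfl | rfl <;> simp
  · intro i j
    show Subgroup.closure (ARC_S g (e '' {i, j}ᶜ)) = Subgroup.closure (ARC_S g (e '' {j, i}ᶜ))
    rw [Set.pair_comm]
  · intro i j _
    refine Subgroup.closure_mono (ARC_mono g (Set.image_mono ?_))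
    intro x hx hx'
    exact hx (Or.inl hx')
  · intro i j k hij hik hjk
    rw [Subgroup.closure_le]
    have h4 : ∀ i j k : Fin 4, ∃ l : Fin 4, l ≠ i ∧ l ≠ j ∧ l ≠ k := by decide
    obtain ⟨l, hl1, hl2, hl3⟩ := h4 i j k
    have key : ∀ a : Fin 4, a ≠ i → (g (e a))⁻¹ * g (e l) ∈
        Subgroup.closure (ARC_S g (e '' {i, j}ᶜ)) ⊔ Subgroup.closure (ARC_S g (e '' {i, k}ᶜ)) := by
      intro a ha
      by_cases haj : a = j
      · refine Subgroup.mem_sup_right (Subgroup.subset_closure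
          ⟨_, ⟨a, ?_, rfl⟩, _, ⟨l, ?_, rfl⟩, rfl⟩)
        · rintro (h | h)
          · exact ha h
          · exact hjk (haj.symm.trans h)
        · rintro (h | h)
          · exact hl1 h
          · exact hl3 h
      · refine Subgroup.mem_sup_left (Subgroup.subset_closure
          ⟨_, ⟨a, ?_, rfl⟩, _, ⟨l, ?_, rfl⟩, rfl⟩)
        · rintro (h | h)
          · exact ha h
          · exact haj h
        · rintro (h | h)
          · exact hl1 h
          · exact hl2 h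
    rintro γ ⟨_, ⟨a, ha, rfl⟩, _, ⟨b, hb, rfl⟩, rfl⟩
    have h5 : (g (e a))⁻¹ * g (e b) =
        (g (e a))⁻¹ * g (e l) * ((g (e b))⁻¹ * g (e l))⁻¹ := by group
    rw [h5]
    exact mul_mem (key a ha) (inv_mem (key b hb))

end

theorem thm_ARC (h1 : St_GG) (h2 : St_HEL) (h3 : St_TT) (h4 : St_CHB) (h5 : St_BAS) :
    St_ARC := by
  intro K _ O t ht n g hp hq
  have hb : ∀ γ : GL (Fin 3) K, CP O γ → (γ : M K).trace ∈ O := fun γ hγ =>
    ((h5 K O).2.1 γ (h4 K O t ht γ hγ)).1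
  have hpair : ∀ i j, i < j → Bd O {(g i)⁻¹ * g j} := fun i j hij =>
    h4 K O t ht _ (hp i j hij)
  have htri : ∀ i j k, i < j → j < k → Bd O {(g i)⁻¹ * g j, (g j)⁻¹ * g k} := by
    intro i j k hij hjk
    have e1 : (g i)⁻¹ * g j * ((g j)⁻¹ * g k) = (g i)⁻¹ * g k := by group
    have e2 : (g i)⁻¹ * g j * ((g j)⁻¹ * g k)⁻¹ = (g i)⁻¹ * g j * (g k)⁻¹ * g j := by group
    have c1 := hp i k (hij.trans hjk)
    have c2 := hq i j k hij hjk
    rw [← e1] at c1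
    rw [← e2] at c2
    generalize ha : (g i)⁻¹ * g j = a at c1 c2 ⊢
    generalize hb' : (g j)⁻¹ * g k = b at c1 c2 ⊢
    refine h3 K O t ht a b (ha ▸ hpair i j hij) (hb' ▸ hpair j k hjk) (hb _ c1) (hb _ c2) ?_ ?_
    · have c3 := ((h5 K O).2.2 _ c2).2.2 b⁻¹
      have c4 := ((h5 K O).2.2 _ c3).2.1
      have e3 : (b⁻¹ * (a * b⁻¹) * b⁻¹⁻¹)⁻¹ = a⁻¹ * b := by group
      rwa [e3] at c4
    · have c3 := ((h5 K O).2.2 _ c1).2.2 b
      have c4 := ((h5 K O).2.2 _ c3).2.1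
      have e3 : (b * (a * b) * b⁻¹)⁻¹ = a⁻¹ * b⁻¹ := by group
      rwa [e3] at c4
  have h6 := ARC_triple g hpair htri
  rcases Nat.eq_zero_or_pos n with rfl | hn
  · obtain ⟨L, hL⟩ := ARC_lat (K := K) (O := O)
    exact ⟨L, hL, fun γ ⟨i, _⟩ => i.elim0⟩
  · let z : Fin n := ⟨0, hn⟩
    have h7 := h2 K O t ht n (fun j => (g z)⁻¹ * g j) fun i j k => by
      refine ARC_bd_mono ?_ (ARC_quad g ht h1 h5 h6 ![z, i, j, k])
      intro γ hγ
      rcases hγ with rfl | rfl | rfl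
      · exact ⟨z, ⟨0, rfl⟩, i, ⟨1, rfl⟩, rfl⟩
      · exact ⟨z, ⟨0, rfl⟩, j, ⟨2, rfl⟩, rfl⟩
      · exact ⟨z, ⟨0, rfl⟩, k, ⟨3, rfl⟩, rfl⟩
    obtain ⟨L, hL, hs⟩ := h7
    refine ARC_bd_mono ?_ (ARC_base g (I := Set.univ) z ⟨L, hL, fun j _ => hs _ ⟨j, rfl⟩⟩)
    rintro γ ⟨i, j, rfl⟩
    exact ⟨i, trivial, j, trivial, rfl⟩

end R3S
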