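import Pool.Agent.R3S.St
import Pool.Agent.R3S.Tool

/-!
# R3S [BAS]: basic facts on stable lattices and integral characteristic polynomials
-/

set_option autoImplicit false

namespace R3S

open Matrix

section

variable {K : Type} [Field K] {O : ValuationSubring K}

theorem BAS_closure (S : Set (GL (Fin 3) K)) (h : Bd O S) :
    Bd O (Subgroup.closure S : Set (GL (Fin 3) K)) := by
  obtain ⟨L, hL, h⟩ := h
  refine ⟨L, hL, fun γ hγ => ?_⟩
  have hγ' : γ ∈ Subgroup.closure S := hγ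
  induction hγ' using Subgroup.closure_induction with
  | mem x hx => exact h x hx
  | one => exact Stb.one L
  | mul x y hx hy h1 h2 => exact (h1 hx).mul (h2 hy)
  | inv x hx h1 => exact (h1 hx).inv

theorem BAS_charpoly {U : M K} (hU : MO O U) (n : ℕ) : U.charpoly.coeff n ∈ O := by
  obtain ⟨W, rfl⟩ := MO_exists hU
  rw [Matrix.charpoly_map, Polynomial.coeff_map]
  exact (W.charpoly.coeff n).2

theorem BAS_trace {A : M K} (h : ∀ n, A.charpoly.coeff n ∈ O) : A.trace ∈ O := by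
  rw [Matrix.trace_eq_neg_charpoly_coeff]
  exact neg_mem (h _)

theorem BAS_det {A : M K} (h : ∀ n, A.charpoly.coeff n ∈ O) : A.det ∈ O := by
  rw [Matrix.det_eq_sign_charpoly_coeff]
  exact mul_mem (_root_.pow_mem (neg_mem O.one_mem) _) (h 0)

theorem BAS_bd (γ : GL (Fin 3) K) (h : Bd O {γ}) : (γ : M K).trace ∈ O ∧ CP O γ := by
  obtain ⟨L, ⟨f, hf, rfl⟩, h⟩ := h
  have hγ : Stb γ (sp O f) := h γ rfl
  have h1 : sp O (fun j => (γ : M K) *ᵥ f j) = sp O f := by
    refine le_antisymm ?_ ?_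
    · rw [sp_le_iff]
      exact fun i => (hγ _).2 (self_mem_sp f i)
    · intro v hv
      have h2 : ((γ⁻¹ : GL (Fin 3) K) : M K) *ᵥ v ∈ sp O f := (hγ.inv v).2 hv
      obtain ⟨c, hc, h3⟩ := (mem_sp f _).1 h2
      rw [mem_sp]
      refine ⟨c, hc, ?_⟩
      have h4 : v = (γ : M K) *ᵥ (((γ⁻¹ : GL (Fin 3) K) : M K) *ᵥ v) := by
        rw [Matrix.mulVec_mulVec, ← Units.val_mul, mul_inv_cancel, Units.val_one,
          Matrix.one_mulVec]
      rw [h4, h3, Matrix.mulVec_sum]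
      exact Finset.sum_congr rfl fun i _ => Matrix.mulVec_smul _ _ _
  have h0 : mat (fun j => (γ : M K) *ᵥ f j) = (γ : M K) * mat f := by
    ext i j
    rfl
  have hdf := (li_iff_det f).1 hf
  have hdγ : (γ : M K).det ≠ 0 := by
    have := γ.isUnit
    rw [Matrix.isUnit_iff_isUnit_det] at this
    exact this.ne_zero
  have h2 : LinearIndependent K (fun j => (γ : M K) *ᵥ f j) := by
    rw [li_iff_det, h0, Matrix.det_mul]
    exact mul_ne_zero hdγ hdf
  obtain ⟨U, hU, -, hU0, -, hUd, h3, -⟩ := exists_change hf h2 h1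
  rw [h0] at h3
  -- `γ F = F U`
  have h5 : (γ : M K) = mat f * U * (mat f)⁻¹ := by
    rw [← h3, Matrix.mul_assoc, Matrix.mul_nonsing_inv _ (isUnit_iff_ne_zero.2 hdf),
      Matrix.mul_one]
  have h6 : (γ : M K).charpoly = U.charpoly := by
    rw [h5, Matrix.charpoly_mul_comm, ← Matrix.mul_assoc,
      Matrix.nonsing_inv_mul _ (isUnit_iff_ne_zero.2 hdf), Matrix.one_mul]
  have h7 : (γ : M K).det = U.det := by
    rw [Matrix.det_eq_sign_charpoly_coeff, h6, ← Matrix.det_eq_sign_charpoly_coeff]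
  have h8 : ∀ n, (γ : M K).charpoly.coeff n ∈ O := fun n => by
    rw [h6]
    exact BAS_charpoly hU n
  refine ⟨BAS_trace h8, h8, ?_⟩
  rw [h7]
  exact hUd

theorem BAS_inv (γ : GL (Fin 3) K) (h : CP O γ) : CP O γ⁻¹ := by
  have hγ : IsUnit (γ : M K) := γ.isUnit
  constructor
  · intro n
    rw [Matrix.coe_units_inv, Matrix.charpoly_inv _ hγ, ← Matrix.reverse_charpoly]
    have h1 : ((-1 : Polynomial K) ^ Fintype.card (Fin 3) *
        Polynomial.C (Ring.inverse (γ : M K).det)) =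
          Polynomial.C (-(γ : M K).det⁻¹) := by
      rw [Ring.inverse_eq_inv', Fintype.card_fin, Polynomial.C_neg]
      ring
    rw [h1, Polynomial.coeff_C_mul, Polynomial.coeff_reverse]
    exact mul_mem (neg_mem h.2) (h.1 _)
  · have h1 : (((γ⁻¹ : GL (Fin 3) K) : M K).det)⁻¹ = (γ : M K).det := by
      rw [Matrix.coe_units_inv, Matrix.det_nonsing_inv, Ring.inverse_eq_inv', inv_inv]
    rw [h1]
    exact BAS_det h.1

theorem BAS_conj (γ δ : GL (Fin 3) K) (h : CP O γ) : CP O (δ * γ * δ⁻¹) := by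
  have h1 : ((δ * γ * δ⁻¹ : GL (Fin 3) K) : M K).charpoly = (γ : M K).charpoly := by
    rw [Units.val_mul, Units.val_mul, Matrix.coe_units_inv]
    exact Matrix.charpoly_units_conj δ (γ : M K)
  have h2 : ((δ * γ * δ⁻¹ : GL (Fin 3) K) : M K).det = (γ : M K).det := by
    rw [Matrix.det_eq_sign_charpoly_coeff, h1, ← Matrix.det_eq_sign_charpoly_coeff]
  refine ⟨fun n => ?_, ?_⟩
  · rw [h1]
    exact h.1 n
  · rw [h2]
    exact h.2

end

/-- **BAS** -/
theorem thm_BAS : St_BAS := fun _ _ _ => ⟨BAS_closure, BAS_bd, fun γ h =>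
  ⟨BAS_inv γ h, BAS_trace (BAS_inv γ h).1, fun δ => BAS_conj γ δ h⟩⟩

end R3S
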