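import Pool.Agent.R3S.St
import Pool.Agent.R3S.Tool

/-!
# R3S CAB: common adapted bases of two flags
-/

set_option autoImplicit false

namespace R3S

open Matrix

section

variable {K : Type} [Field K] {O : ValuationSubring K} {t : K}

/-- the sublattice between `t L` and `L` given by a set of basis vectors -/
private def CAB_F (O : ValuationSubring K) (t : K) (e : Fin 3 → V K) (T : Finset (Fin 3)) :
    Submodule O (V K) := sp O fun i => (if i ∈ T then (1 : K) else t) • e i

private theorem CAB_F_pow (e : Fin 3 → V K) (T : Finset (Fin 3)) :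
    CAB_F O t e T = sp O fun i => t ^ (-(if i ∈ T then (0 : ℤ) else -1)) • e i := by
  unfold CAB_F
  congr 1
  funext i
  split_ifs <;> simp

private theorem CAB_self {e : Fin 3 → V K} {T : Finset (Fin 3)} {i : Fin 3} (hi : i ∈ T) :
    e i ∈ CAB_F O t e T := by
  have := self_mem_sp (O := O) (fun i => (if i ∈ T then (1 : K) else t) • e i) i
  simp only [hi, if_true, one_smul] at this
  exact this

private theorem CAB_self' {e : Fin 3 → V K} {T : Finset (Fin 3)} {i : Fin 3} (hi : i ∉ T) :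
    t • e i ∈ CAB_F O t e T := by
  have := self_mem_sp (O := O) (fun i => (if i ∈ T then (1 : K) else t) • e i) i
  simp only [hi, if_false] at this
  exact this

private theorem CAB_mem_F (h : Unif O t) {e : Fin 3 → V K} (T : Finset (Fin 3)) (v : V K) :
    v ∈ CAB_F O t e T ↔
      ∃ c : Fin 3 → K, (∀ i, c i ∈ O) ∧ ∃ u ∈ sp O e, v = ∑ i ∈ T, c i • e i + t • u := by
  constructor
  · intro hv
    obtain ⟨c, hc, rfl⟩ := (mem_sp _ v).1 hv
    refine ⟨c, hc, ∑ i ∈ Tᶜ, c i • e i, sum_mem fun i _ => smul_mem_K _ (hc i) (self_mem_sp e i),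
      ?_⟩
    rw [← Finset.sum_add_sum_compl T, Finset.smul_sum]
    congr 1
    · refine Finset.sum_congr rfl fun i hi => ?_
      rw [if_pos hi, one_smul]
    · refine Finset.sum_congr rfl fun i hi => ?_
      rw [if_neg (Finset.mem_compl.1 hi), smul_comm]
  · rintro ⟨c, hc, u, hu, rfl⟩
    refine add_mem (sum_mem fun i hi => smul_mem_K _ (hc i) (CAB_self hi)) ?_
    obtain ⟨d, hd, rfl⟩ := (mem_sp e u).1 hu
    rw [Finset.smul_sum]
    refine sum_mem fun i _ => ?_
    rw [smul_comm]
    refine smul_mem_K _ (hd i) ?_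
    by_cases hi : i ∈ T
    · exact smul_mem_K _ h.mem (CAB_self hi)
    · exact CAB_self' hi

private theorem CAB_le (h : Unif O t) {e : Fin 3 → V K} (he : LinearIndependent K e)
    (T T' : Finset (Fin 3)) : CAB_F O t e T ≤ CAB_F O t e T' ↔ T ⊆ T' := by
  constructor
  · intro hle i hi
    have h2 := hle (CAB_self hi)
    rw [CAB_F_pow] at h2
    have h3 : e i = ∑ j, (if j = i then (1 : K) else 0) • e j := by simp
    rw [h3, sum_mem_pow_iff he h.ne] at h2
    have h4 := h2 i
    simp only [if_true, one_mul] at h4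
    rw [h.zpow_mem] at h4
    by_contra hn
    rw [if_neg hn] at h4
    omega
  · intro hT v hv
    rw [CAB_mem_F h] at hv ⊢
    obtain ⟨c, hc, u, hu, rfl⟩ := hv
    refine ⟨fun i => if i ∈ T then c i else 0, ?_, u, hu, ?_⟩
    · intro i
      dsimp only
      split_ifs
      · exact hc i
      · exact O.zero_mem
    · congr 1
      simp only [ite_smul, zero_smul]
      rw [← Finset.sum_filter, Finset.filter_mem_eq_inter, Finset.inter_eq_right.2 hT]

private theorem CAB_eq (h : Unif O t) {e : Fin 3 → V K} (he : LinearIndependent K e)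
    (T T' : Finset (Fin 3)) : CAB_F O t e T = CAB_F O t e T' ↔ T = T' := by
  rw [le_antisymm_iff, CAB_le h he, CAB_le h he]
  exact ⟨fun h => Finset.Subset.antisymm h.1 h.2, fun h => ⟨h.le, h.ge⟩⟩

private theorem CAB_one (h : Unif O t) (e : Fin 3 → V K) (i : Fin 3) (v : V K) :
    v ∈ CAB_F O t e {i} ↔ ∃ a ∈ O, ∃ u ∈ sp O e, v = a • e i + t • u := by
  rw [CAB_mem_F h]
  constructor
  · rintro ⟨c, hc, u, hu, rfl⟩
    exact ⟨c i, hc i, u, hu, by rw [Finset.sum_singleton]⟩
  · rintro ⟨a, ha, u, hu, rfl⟩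
    exact ⟨fun _ => a, fun _ => ha, u, hu, by rw [Finset.sum_singleton]⟩

private theorem CAB_two (h : Unif O t) (e : Fin 3 → V K) {i j : Fin 3} (hij : i ≠ j) (v : V K) :
    v ∈ CAB_F O t e {i, j} ↔ ∃ a ∈ O, ∃ b ∈ O, ∃ u ∈ sp O e, v = a • e i + b • e j + t • u := by
  rw [CAB_mem_F h]
  constructor
  · rintro ⟨c, hc, u, hu, rfl⟩
    exact ⟨c i, hc i, c j, hc j, u, hu, by rw [Finset.sum_pair hij]⟩
  · rintro ⟨a, ha, b, hb, u, hu, rfl⟩
    refine ⟨fun k => if k = i then a else b, fun k => ?_, u, hu, ?_⟩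
    · dsimp only
      split_ifs
      · exact ha
      · exact hb
    · rw [Finset.sum_pair hij]
      dsimp only
      rw [if_pos rfl, if_neg hij.symm]

private theorem CAB_upd {e : Fin 3 → V K} (he : LinearIndependent K e) (s : Fin 3 → K)
    (hs : ∀ i, s i ≠ 0) (m : Fin 3) (c : Fin 3 → K) (hc : ∀ j, c j * s m / s j ∈ O)
    (hu : (c m)⁻¹ ∈ O) (h0 : c m ≠ 0) :
    LinearIndependent K (fun i => s i • Function.update e m (∑ j, c j • e j) i) ∧
      sp O (fun i => s i • Function.update e m (∑ j, c j • e j) i) =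
        sp O (fun i => s i • e i) := by
  have hf : LinearIndependent K fun i => s i • e i := by
    have := he.units_smul fun i => Units.mk0 (s i) (hs i)
    exact this
  have h0' := hs 0
  have h1' := hs 1
  have h2' := hs 2
  let U : M K := Matrix.of fun j i => if i = m then c j * s m / s j else if j = i then 1 else 0
  have hdet : U.det = c m := by
    rw [det_fin_three]
    fin_cases m <;> simp [U] <;> field_simp
  refine sp_change hf (U := U) ?_ (by rw [hdet]; exact h0) (by rw [hdet]; exact hu) ?_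
  · intro j i
    change (if i = m then c j * s m / s j else if j = i then 1 else 0) ∈ O
    split_ifs
    · exact hc j
    · exact O.one_mem
    · exact O.zero_mem
  · intro i
    by_cases hi : i = m
    · subst hi
      rw [Function.update_self, Finset.smul_sum]
      refine Finset.sum_congr rfl fun j _ => ?_
      change _ = (if i = i then c j * s i / s j else if j = i then 1 else 0) • _
      rw [if_pos rfl, smul_smul, smul_smul, div_mul_cancel₀ _ (hs j), mul_comm]
    · rw [Function.update_of_ne hi]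
      have : ∀ j, U j i • (s j • e j) = if j = i then s i • e i else 0 := by
        intro j
        change (if i = m then c j * s m / s j else if j = i then 1 else 0) • _ = _
        rw [if_neg hi]
        split_ifs with hj
        · rw [hj, one_smul]
        · rw [zero_smul]
      rw [Finset.sum_congr rfl fun j _ => this j]
      simp

private theorem CAB_step (h : Unif O t) {e : Fin 3 → V K} (he : LinearIndependent K e)
    (m : Fin 3) (c : Fin 3 → K) (hc : ∀ i, c i ∈ O) (hu : (c m)⁻¹ ∈ O) (h0 : c m ≠ 0)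
    (hj : ∀ j, m < j → ∃ y ∈ O, c j = t * y) :
    LinearIndependent K (Function.update e m (∑ j, c j • e j)) ∧
      sp O (Function.update e m (∑ j, c j • e j)) = sp O e ∧
      ∀ T : Finset (Fin 3), (∀ i j, i ≤ j → j ∈ T → i ∈ T) →
        CAB_F O t (Function.update e m (∑ j, c j • e j)) T = CAB_F O t e T := by
  have h1 := CAB_upd (O := O) he (fun _ => 1) (fun _ => one_ne_zero) m c
    (fun j => by rw [mul_one, div_one]; exact hc j) hu h0
  simp only [one_smul] at h1
  refine ⟨h1.1, h1.2, fun T hT => ?_⟩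
  refine (CAB_upd (O := O) he (fun i => if i ∈ T then (1 : K) else t) (fun i => ?_) m c
    (fun j => ?_) hu h0).2
  · split_ifs
    · exact one_ne_zero
    · exact h.ne
  · by_cases hm : m ∈ T
    · rw [if_pos hm, mul_one]
      by_cases hjT : j ∈ T
      · rw [if_pos hjT, div_one]
        exact hc j
      · rw [if_neg hjT]
        obtain ⟨y, hy, hy'⟩ := hj j (not_le.1 fun hjm => hjT (hT j m hjm hm))
        rw [hy', mul_div_cancel_left₀ _ h.ne]
        exact hy
    · rw [if_neg hm]
      split_ifs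
      · rw [div_one]
        exact mul_mem (hc j) h.mem
      · rw [mul_div_cancel_right₀ _ h.ne]
        exact hc j

private theorem CAB_last (h : Unif O t) (c : Fin 3 → K) (hc : ∀ i, c i ∈ O)
    (hne : ¬ ∀ i, ∃ y ∈ O, c i = t * y) :
    ∃ m, (c m)⁻¹ ∈ O ∧ c m ≠ 0 ∧ ∀ j, m < j → ∃ y ∈ O, c j = t * y := by
  rcases h.unit_or (hc 2) with h2 | h2
  · refine ⟨2, h2.1, h2.2, fun j hj => ?_⟩
    have := Fin.le_last j
    exact absurd (lt_of_lt_of_le hj this) (lt_irrefl _)
  rcases h.unit_or (hc 1) with h1 | h1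
  · refine ⟨1, h1.1, h1.2, fun j hj => ?_⟩
    have : j = 2 := by
      fin_cases j
      · exact absurd hj (by decide)
      · exact absurd hj (by decide)
      · rfl
    rw [this]
    exact h2
  rcases h.unit_or (hc 0) with h0 | h0
  · refine ⟨0, h0.1, h0.2, fun j hj => ?_⟩
    fin_cases j
    · exact absurd hj (by decide)
    · exact h1
    · exact h2
  · refine absurd (fun i => ?_) hne
    fin_cases i
    · exact h0
    · exact h1
    · exact h2

/-- an element of `t L` has coordinates in `t O` -/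
private theorem CAB_tL {f : Fin 3 → V K} (hf : LinearIndependent K f) {a : Fin 3 → K} {u : V K}
    (hu : u ∈ sp O f) (hv : ∑ i, a i • f i = t • u) (i : Fin 3) : ∃ y ∈ O, a i = t * y := by
  obtain ⟨d, hd, rfl⟩ := (mem_sp f u).1 hu
  refine ⟨d i, hd i, ?_⟩
  rw [Finset.smul_sum] at hv
  have h1 : ∑ i, a i • f i = ∑ i, (t * d i) • f i := by
    rw [hv]
    exact Finset.sum_congr rfl fun i _ => smul_smul _ _ _
  exact congrFun (coord_unique hf h1) i

private theorem CAB_not_one (h : Unif O t) {y : K} (hy : y ∈ O) (h1 : (1 : K) = t * y) :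
    False := by
  apply h.nu
  rw [inv_eq_of_mul_eq_one_right h1.symm]
  exact hy

private theorem CAB_bruhat (h : Unif O t) {f f' : Fin 3 → V K} (hf : LinearIndependent K f)
    (hf' : LinearIndependent K f') (hL : sp O f' = sp O f) :
    ∃ (e : Fin 3 → V K) (m m' : Fin 3), m ≠ m' ∧ LinearIndependent K e ∧ sp O e = sp O f ∧
      CAB_F O t e {0} = CAB_F O t f {0} ∧ CAB_F O t e {0, 1} = CAB_F O t f {0, 1} ∧
      CAB_F O t e {m} = CAB_F O t f' {0} ∧ CAB_F O t e {m, m'} = CAB_F O t f' {0, 1} := by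
  have s0 : ∀ i j : Fin 3, i ≤ j → j ∈ ({0} : Finset (Fin 3)) → i ∈ ({0} : Finset (Fin 3)) := by
    decide
  have s1 : ∀ i j : Fin 3, i ≤ j → j ∈ ({0, 1} : Finset (Fin 3)) →
      i ∈ ({0, 1} : Finset (Fin 3)) := by
    decide
  -- the first vector
  obtain ⟨c, hcw⟩ := exists_coord hf (f' 0)
  have hc : ∀ i, c i ∈ O := coord_mem hf (by rw [← hL]; exact self_mem_sp f' 0) hcw
  have hne : ¬ ∀ i, ∃ y ∈ O, c i = t * y := by
    intro hall
    choose y hy hy' using hall
    have h1 : f' 0 = t • ∑ i, y i • f i := by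
      rw [hcw, Finset.smul_sum]
      exact Finset.sum_congr rfl fun i _ => by rw [hy', smul_smul]
    have h2 : ∑ i, y i • f i ∈ sp O f' := by
      rw [hL, sum_mem_sp_iff hf]
      exact hy
    have h3 : ∑ i, (if i = 0 then (1 : K) else 0) • f' i = t • ∑ i, y i • f i := by
      rw [← h1]
      simp
    obtain ⟨z, hz, hz'⟩ := CAB_tL hf' h2 h3 0
    rw [if_pos rfl] at hz'
    exact CAB_not_one h hz hz'
  obtain ⟨m, hm1, hm2, hm3⟩ := CAB_last h c hc hne
  obtain ⟨e1, e2, e3⟩ := CAB_step h hf m c hc hm1 hm2 hm3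
  rw [← hcw] at e1 e2 e3
  -- the second vector
  obtain ⟨d, hdw⟩ := exists_coord e1 (f' 1)
  have hd : ∀ i, d i ∈ O := coord_mem e1 (by rw [e2, ← hL]; exact self_mem_sp f' 1) hdw
  have hw : ∑ i, Function.update d m 0 i • Function.update f m (f' 0) i = f' 1 - d m • f' 0 := by
    have h1 : ∀ i, Function.update d m 0 i • Function.update f m (f' 0) i =
        d i • Function.update f m (f' 0) i - if i = m then d m • f' 0 else 0 := by
      intro i
      by_cases hi : i = m
      · subst hi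
        rw [Function.update_self, Function.update_self, if_pos rfl, zero_smul, sub_self]
      · rw [Function.update_of_ne hi, if_neg hi, sub_zero]
    rw [Finset.sum_congr rfl fun i _ => h1 i, Finset.sum_sub_distrib, ← hdw]
    simp
  have hc' : ∀ i, Function.update d m 0 i ∈ O := by
    intro i
    by_cases hi : i = m
    · subst hi
      rw [Function.update_self]
      exact O.zero_mem
    · rw [Function.update_of_ne hi]
      exact hd i
  have hne' : ¬ ∀ i, ∃ y ∈ O, Function.update d m 0 i = t * y := by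
    intro hall
    choose y hy hy' using hall
    have h1 : f' 1 - d m • f' 0 = t • ∑ i, y i • Function.update f m (f' 0) i := by
      rw [← hw, Finset.smul_sum]
      exact Finset.sum_congr rfl fun i _ => by rw [hy', smul_smul]
    have h2 : ∑ i, y i • Function.update f m (f' 0) i ∈ sp O f' := by
      rw [hL, ← e2, sum_mem_sp_iff e1]
      exact hy
    have h3 : ∑ i, (![- d m, 1, 0] : Fin 3 → K) i • f' i =
        t • ∑ i, y i • Function.update f m (f' 0) i := by
      rw [← h1, Fin.sum_univ_three]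
      simp [sub_eq_add_neg, add_comm]
    obtain ⟨z, hz, hz'⟩ := CAB_tL hf' h2 h3 1
    exact CAB_not_one h hz hz'
  obtain ⟨m', hm1', hm2', hm3'⟩ := CAB_last h _ hc' hne'
  have hmm : m ≠ m' := by
    intro hmm
    rw [← hmm, Function.update_self] at hm2'
    exact hm2' rfl
  obtain ⟨e1', e2', e3'⟩ := CAB_step h e1 m' _ hc' hm1' hm2' hm3'
  rw [hw] at e1' e2' e3'
  have q0 : Function.update (Function.update f m (f' 0)) m' (f' 1 - d m • f' 0) m = f' 0 := by
    rw [Function.update_of_ne hmm, Function.update_self]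
  have q1 : Function.update (Function.update f m (f' 0)) m' (f' 1 - d m • f' 0) m' =
      f' 1 - d m • f' 0 := Function.update_self _ _ _
  have q2 : sp O (Function.update (Function.update f m (f' 0)) m' (f' 1 - d m • f' 0)) =
      sp O f' := by rw [e2', e2, hL]
  refine ⟨_, m, m', hmm, e1', by rw [e2', e2], by rw [e3' _ s0, e3 _ s0],
    by rw [e3' _ s1, e3 _ s1], ?_, ?_⟩
  · ext v
    rw [CAB_one h, CAB_one h, q0, q2]
  · ext v
    rw [CAB_two h _ hmm, CAB_two h _ (by decide), q0, q1, q2]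
    constructor
    · rintro ⟨a, ha, b, hb, u, hu, rfl⟩
      refine ⟨a - b * d m, sub_mem ha (mul_mem hb (hd m)), b, hb, u, hu, ?_⟩
      rw [smul_sub, sub_smul, mul_smul]
      abel
    · rintro ⟨a, ha, b, hb, u, hu, rfl⟩
      refine ⟨a + b * d m, add_mem ha (mul_mem hb (hd m)), b, hb, u, hu, ?_⟩
      rw [smul_sub, add_smul, mul_smul]
      abel

/-! ### Lifts -/

private theorem CAB_wt (h : Unif O t) {f : Fin 3 → V K} {L L' : Submodule O (V K)}
    {a : Fin 3 → ℤ} (hA : Adp t f L L' a) (c : Fin 3 → K) (hc : ∀ i, c i ∈ O) (n : ℤ)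
    (hn : ∀ i, c i = 0 ∨ n ≤ a i) : t ^ (-n) • ∑ i, c i • f i ∈ L' := by
  obtain ⟨h1, -, h3⟩ := hA
  have h4 : t ^ (-n) • ∑ i, c i • f i = ∑ i, (t ^ (-n) * c i) • f i := by
    rw [Finset.smul_sum]
    exact Finset.sum_congr rfl fun i _ => smul_smul _ _ _
  rw [h3, h4, sum_mem_pow_iff h1 h.ne]
  intro i
  rcases hn i with h0 | h0
  · rw [h0, mul_zero, zero_mul]
    exact O.zero_mem
  · have h5 : t ^ (-n) * c i * t ^ a i = c i * t ^ (a i - n) := by
      rw [mul_comm (t ^ (-n)), mul_assoc, ← zpow_add₀ h.ne]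
      congr 2
      ring
    rw [h5]
    exact mul_mem (hc i) (h.zpow_mem_of (by omega))

/-- the three kinds of lifts -/
private theorem CAB_lifts (h : Unif O t) {f : Fin 3 → V K} {L L' : Submodule O (V K)}
    {p q : ℕ} {s : ℤ} (hA : Adp t f L L' ![p + q + s, q + s, s]) (v : V K) :
    (v ∈ CAB_F O t f {0} → ∃ g, t ^ (-((p : ℤ) + q + s)) • g ∈ L' ∧
      ∃ u ∈ L, g = v + t • u) ∧
    (v ∈ CAB_F O t f {0, 1} → ∃ g, t ^ (-((q : ℤ) + s)) • g ∈ L' ∧ ∃ u ∈ L, g = v + t • u) ∧
    (v ∈ L → ∃ g, t ^ (-s) • g ∈ L' ∧ ∃ u ∈ L, g = v + t • u) := by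
  refine ⟨fun hv => ?_, fun hv => ?_, fun hv => ?_⟩
  · obtain ⟨a, ha, u, hu, rfl⟩ := (CAB_one h f 0 v).1 hv
    refine ⟨a • f 0, ?_, -u, ?_, ?_⟩
    · have := CAB_wt h hA ![a, 0, 0] (fun i => by fin_cases i <;> simp [ha, O.zero_mem])
        ((p : ℤ) + q + s) (fun i => by fin_cases i <;> simp)
      rw [Fin.sum_univ_three] at this
      simpa using this
    · rw [hA.2.1]
      exact neg_mem hu
    · rw [smul_neg]
      abel
  · obtain ⟨a, ha, b, hb, u, hu, rfl⟩ := (CAB_two h f (by decide) v).1 hv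
    refine ⟨a • f 0 + b • f 1, ?_, -u, ?_, ?_⟩
    · have := CAB_wt h hA ![a, b, 0] (fun i => by fin_cases i <;> simp [ha, hb, O.zero_mem])
        ((q : ℤ) + s) (fun i => by fin_cases i <;> simp)
      rw [Fin.sum_univ_three] at this
      simpa using this
    · rw [hA.2.1]
      exact neg_mem hu
    · rw [smul_neg]
      abel
  · have hv' := hv
    rw [hA.2.1] at hv'
    obtain ⟨c, hc, hcv⟩ := (mem_sp f v).1 hv'
    refine ⟨v, ?_, 0, zero_mem _, by rw [smul_zero, add_zero]⟩
    rw [hcv]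
    exact CAB_wt h hA c hc s fun i => by
      right
      fin_cases i
      · simp only [Fin.zero_eta, Matrix.cons_val_zero]
        omega
      · simp only [Fin.mk_one, Matrix.cons_val_one, Matrix.cons_val_zero]
        omega
      · simp

private theorem CAB_det (h : Unif O t) (w : Fin 3 → Fin 3 → O) (U : M K)
    (hU : ∀ i j, U i j = (if i = j then 1 else 0) + t * (w i j : K)) :
    U.det ≠ 0 ∧ (U.det)⁻¹ ∈ O := by
  have hm : ∃ x : O, U.det = 1 + t * (x : K) := by
    refine ⟨w 0 0 + w 1 1 + w 2 2 + ⟨t, h.mem⟩ * (w 0 0 * w 1 1 + w 0 0 * w 2 2 + w 1 1 * w 2 2 -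
      w 0 1 * w 1 0 - w 0 2 * w 2 0 - w 1 2 * w 2 1) + ⟨t, h.mem⟩ * ⟨t, h.mem⟩ *
      (w 0 0 * w 1 1 * w 2 2 - w 0 0 * w 1 2 * w 2 1 - w 0 1 * w 1 0 * w 2 2 +
        w 0 1 * w 1 2 * w 2 0 + w 0 2 * w 1 0 * w 2 1 - w 0 2 * w 1 1 * w 2 0), ?_⟩
    have hd : ∀ i, U i i = 1 + t * (w i i : K) := fun i => by rw [hU, if_pos rfl]
    have ho : ∀ i j, i ≠ j → U i j = t * (w i j : K) := fun i j hij => by
      rw [hU, if_neg hij, zero_add]
    rw [det_fin_three, hd 0, hd 1, hd 2, ho 0 1 (by decide), ho 0 2 (by decide),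
      ho 1 0 (by decide), ho 1 2 (by decide), ho 2 0 (by decide), ho 2 1 (by decide)]
    push_cast
    ring
  obtain ⟨x, hx⟩ := hm
  have h1 : U.det ∈ O := by
    rw [hx]
    exact add_mem O.one_mem (mul_mem h.mem x.2)
  rcases h.unit_or h1 with h2 | ⟨y, hy, hy'⟩
  · exact ⟨h2.2, h2.1⟩
  · exfalso
    refine CAB_not_one h (sub_mem hy x.2) ?_
    rw [mul_sub, ← hy', hx]
    ring

private theorem CAB_adp (h1 : St_LFT) (h : Unif O t) {e f : Fin 3 → V K}
    {L L' : Submodule O (V K)} {a b : Fin 3 → ℤ} (he : LinearIndependent K e) (heL : L = sp O e)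
    (hA : Adp t f L L' a) (hab : ∑ i, a i = ∑ i, b i)
    (hg : ∀ i, ∃ g, t ^ (-b i) • g ∈ L' ∧ ∃ u ∈ L, g = e i + t • u) :
    ∃ g : Fin 3 → V K, Adp t g L L' b ∧ ∀ i, ∃ u ∈ L, g i = e i + t • u := by
  choose g hg1 u hu hg2 using hg
  have hw : ∀ j, ∃ c : Fin 3 → K, (∀ i, c i ∈ O) ∧ u j = ∑ i, c i • e i := by
    intro j
    have := hu j
    rw [heL, mem_sp] at this
    exact this
  choose c hc hcu using hw
  let w : Fin 3 → Fin 3 → O := fun i j => ⟨c j i, hc j i⟩
  let U : M K := Matrix.of fun i j => (if i = j then 1 else 0) + t * (w i j : K)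
  obtain ⟨d1, d2⟩ := CAB_det h w U fun i j => rfl
  have hUO : MO O U := by
    intro i j
    change (if i = j then (1 : K) else 0) + t * (w i j : K) ∈ O
    refine add_mem ?_ (mul_mem h.mem (w i j).2)
    split_ifs
    · exact O.one_mem
    · exact O.zero_mem
  have hgU : ∀ j, g j = ∑ i, U i j • e i := by
    intro j
    have h3 : ∀ i, U i j • e i = (if i = j then e j else 0) + t • (c j i • e i) := by
      intro i
      change ((if i = j then (1 : K) else 0) + t * c j i) • e i = _
      rw [add_smul, mul_smul]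
      congr 1
      split_ifs with hij
      · rw [hij, one_smul]
      · rw [zero_smul]
    rw [Finset.sum_congr rfl fun i _ => h3 i, Finset.sum_add_distrib, ← Finset.smul_sum, ← hcu,
      hg2]
    simp
  obtain ⟨l1, l2⟩ := sp_change he hUO d1 d2 hgU
  exact ⟨g, h1 K O t h f g L L' a b hA l1 (heL.trans l2.symm) hg1 hab,
    fun i => ⟨u i, hu i, hg2 i⟩⟩

private theorem CAB_e2 (h : Unif O t) {e : Fin 3 → V K} (he : LinearIndependent K e)
    (T T' : Finset (Fin 3)) : e2 (CAB_F O t e T) (CAB_F O t e T') = if T = T' then 2 else -1 := by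
  unfold e2
  exact if_congr (CAB_eq h he T T') rfl rfl

private theorem CAB_i1 (h : Unif O t) {e : Fin 3 → V K} (he : LinearIndependent K e)
    (T T' : Finset (Fin 3)) :
    i1 (CAB_F O t e T ≤ CAB_F O t e T') = if T ⊆ T' then 1 else -2 := by
  classical
  unfold i1
  exact if_congr (CAB_le h he T T') rfl rfl

end

theorem thm_CAB (h1 : St_LFT) : St_CAB := by
  intro K _ O t h L L' L'' p q p' q' P l P' l' hD hD'
  obtain ⟨f, s, hA, hP, hl⟩ := hD
  obtain ⟨f', s', hA', hP', hl'⟩ := hD'
  have eP : ∀ f : Fin 3 → V K, sp O ![f 0, t • f 1, t • f 2] = CAB_F O t f {0} := by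
    intro f
    unfold CAB_F
    congr 1
    funext i
    fin_cases i <;> simp
  have el : ∀ f : Fin 3 → V K, sp O ![f 0, f 1, t • f 2] = CAB_F O t f {0, 1} := by
    intro f
    unfold CAB_F
    congr 1
    funext i
    fin_cases i <;> simp
  rw [eP] at hP hP'
  rw [el] at hl hl'
  obtain ⟨e, m, m', hmm, he, heL, b1, b2, b3, b4⟩ := CAB_bruhat h hA.1 hA'.1
    (hA'.2.1.symm.trans hA.2.1)
  rw [← b1] at hP
  rw [← b2] at hl
  rw [← b3] at hP'
  rw [← b4] at hl'
  have heL' : L = sp O e := hA.2.1.trans heL.symm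
  have h01 : (0 : Fin 3) ≠ 1 := by decide
  -- the first flag
  obtain ⟨g, hg, hgu⟩ := CAB_adp h1 h he heL' hA (b := ![p + q + s, q + s, s]) rfl (by
    intro i
    fin_cases i
    · exact (CAB_lifts h hA (e 0)).1 (by rw [← b1]; exact CAB_self (by simp))
    · exact (CAB_lifts h hA (e 1)).2.1 (by rw [← b2]; exact CAB_self (by simp))
    · exact (CAB_lifts h hA (e 2)).2.2 (by rw [heL']; exact self_mem_sp e 2))
  -- the second flag
  obtain ⟨k, hk, hku⟩ := CAB_adp h1 h he heL' hA'
    (b := fun i => if i = m then (p' : ℤ) + q' + s' else if i = m' then (q' : ℤ) + s' else s')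
    (by
      rw [Fin.sum_univ_three, Fin.sum_univ_three]
      fin_cases m <;> fin_cases m' <;> simp at hmm ⊢ <;> ring) (by
    intro i
    by_cases hi : i = m
    · rw [if_pos hi, hi]
      exact (CAB_lifts h hA' (e m)).1 (by rw [← b3]; exact CAB_self (by simp))
    · rw [if_neg hi]
      by_cases hi' : i = m'
      · rw [if_pos hi', hi']
        exact (CAB_lifts h hA' (e m')).2.1 (by rw [← b4]; exact CAB_self (by simp))
      · rw [if_neg hi']
        exact (CAB_lifts h hA' (e i)).2.2 (by rw [heL']; exact self_mem_sp e i))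
  refine ⟨g, k, _, _, hg, hk, fun i => ?_, ?_⟩
  · obtain ⟨u, hu, hu'⟩ := hgu i
    obtain ⟨u₁, hu₁, hu₁'⟩ := hku i
    refine ⟨u - u₁, sub_mem hu hu₁, ?_⟩
    rw [hu', hu₁', smul_sub]
    abel
  · rw [hP, hl, hP', hl', CAB_e2 h he, CAB_e2 h he, CAB_i1 h he, CAB_i1 h he, Fin.sum_univ_three,
      Fin.sum_univ_three, Fin.sum_univ_three]
    fin_cases m <;> fin_cases m' <;> first | exact absurd rfl hmm | skip
    all_goals
      simp (decide := true) only [if_true, if_false,
        Matrix.cons_val_zero, Matrix.cons_val_one, Matrix.cons_val]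
      ring

end R3S
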