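import Pool.Agent.R3S.St
import Pool.Agent.R3S.Tool

/-!
# R3S: an element with integral characteristic polynomial stabilises a lattice
-/

set_option autoImplicit false

namespace R3S

open Matrix

section

variable {K : Type} [Field K] {O : ValuationSubring K} {t : K}

/-- Cayley-Hamilton for three by three matrices -/
theorem CHB_ch (A : M K) : A ^ 3 + A.charpoly.coeff 2 • A ^ 2 + A.charpoly.coeff 1 • A +
    A.charpoly.coeff 0 • (1 : M K) = 0 := by
  have h1 := Matrix.aeval_self_charpoly A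
  have h2 : A.charpoly.natDegree = 3 := by
    rw [Matrix.charpoly_natDegree_eq_dim, Fintype.card_fin]
  have h3 : A.charpoly.coeff 3 = 1 := by
    have := (Matrix.charpoly_monic A).coeff_natDegree
    rwa [h2] at this
  rw [Polynomial.aeval_eq_sum_range, h2] at h1
  simp only [Finset.sum_range_succ, Finset.sum_range_zero, zero_add, pow_zero, pow_one, h3,
    one_smul] at h1
  rw [← h1]
  abel

theorem CHB_det (A : M K) : A.det = - A.charpoly.coeff 0 := by
  rw [Matrix.det_eq_sign_charpoly_coeff, Fintype.card_fin]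
  norm_num

theorem CHB_pow (h : Unif O t) (x : K) : ∃ n : ℕ, ∀ m ≥ n, t ^ m * x ∈ O := by
  by_cases hx : x = 0
  · refine ⟨0, fun m _ => ?_⟩
    rw [hx, mul_zero]
    exact O.zero_mem
  · obtain ⟨k, hk, -⟩ := h.gen x hx
    refine ⟨k.toNat, fun m hm => ?_⟩
    have e1 : t ^ m * x = t ^ ((m : ℤ) - k) * (x * t ^ k) := by
      rw [zpow_sub₀ h.ne, zpow_natCast]
      field_simp [h.zpow_ne k]
    rw [e1]
    exact mul_mem (h.zpow_mem_of (by omega)) hk

theorem CHB_bd (h : Unif O t) {ι : Type} [Finite ι] (x : ι → K) :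
    ∃ n : ℕ, ∀ i, t ^ n * x i ∈ O := by
  cases nonempty_fintype ι
  choose n hn using fun i => CHB_pow h (x i)
  exact ⟨Finset.univ.sup n, fun i => hn i _ (Finset.le_sup (Finset.mem_univ i))⟩

/-- the generators of the lattice -/
def CHB_w (A : M K) (p : Fin 3 × Fin 3) : V K := (A ^ (p.1 : ℕ)) *ᵥ Pi.single p.2 1

theorem CHB_key (N : Submodule O (V K)) {ι : Type} (w : ι → V K)
    (hN : N = Submodule.span O (Set.range w)) (δ : M K) (h : ∀ i, δ *ᵥ w i ∈ N) :
    ∀ v ∈ N, δ *ᵥ v ∈ N := by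
  intro v hv
  rw [hN] at hv
  induction hv using Submodule.span_induction with
  | mem x hx =>
    obtain ⟨i, rfl⟩ := hx
    exact h i
  | zero => rw [Matrix.mulVec_zero]; exact N.zero_mem
  | add x y _ _ hx hy => rw [Matrix.mulVec_add]; exact N.add_mem hx hy
  | smul c x _ hx =>
    have e1 : δ *ᵥ (c • x) = (c : K) • δ *ᵥ x := Matrix.mulVec_smul δ (c : K) x
    rw [e1]
    exact smul_mem_K N c.2 hx

end

theorem thm_CHB (hLAT : St_LAT) : St_CHB := by
  intro K _ O t h γ hγ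
  obtain ⟨hc, hd⟩ := hγ
  set A : M K := (γ : M K) with hA
  set N : Submodule O (V K) := Submodule.span O (Set.range (CHB_w A)) with hN
  have hdet : A.det ≠ 0 := by
    have := γ.det.isUnit.ne_zero
    simpa using this
  have hmem : ∀ (k : ℕ) (_ : k < 3) (i : Fin 3), (A ^ k) *ᵥ Pi.single i 1 ∈ N := fun k hk i =>
    Submodule.subset_span ⟨(⟨k, hk⟩, i), rfl⟩
  have hch := CHB_ch A
  have h3 : ∀ i : Fin 3, (A ^ 3) *ᵥ Pi.single i 1 ∈ N := by
    intro i
    have e1 : A ^ 3 = -(A.charpoly.coeff 2 • A ^ 2 + A.charpoly.coeff 1 • A ^ 1 +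
        A.charpoly.coeff 0 • A ^ 0) := by
      rw [pow_zero, pow_one, eq_neg_iff_add_eq_zero, ← hch]
      abel
    rw [e1, Matrix.neg_mulVec, Matrix.add_mulVec, Matrix.add_mulVec, Matrix.smul_mulVec,
      Matrix.smul_mulVec, Matrix.smul_mulVec]
    exact N.neg_mem (N.add_mem (N.add_mem (smul_mem_K N (hc 2) (hmem 2 (by norm_num) i))
      (smul_mem_K N (hc 1) (hmem 1 (by norm_num) i))) (smul_mem_K N (hc 0)
      (hmem 0 (by norm_num) i)))
  have hinv : ((γ⁻¹ : GL (Fin 3) K) : M K) * A = 1 := by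
    rw [hA, ← Units.val_mul, inv_mul_cancel, Units.val_one]
  have hneg : ∀ i : Fin 3, ((γ⁻¹ : GL (Fin 3) K) : M K) *ᵥ Pi.single i 1 ∈ N := by
    intro i
    have e0 : A.charpoly.coeff 0 ≠ 0 := by
      intro e
      apply hdet
      rw [CHB_det, e, neg_zero]
    have e1 : ((γ⁻¹ : GL (Fin 3) K) : M K) = (A.det)⁻¹ • (A ^ 2 + A.charpoly.coeff 2 • A ^ 1 +
        A.charpoly.coeff 1 • A ^ 0) := by
      have e2 : A.charpoly.coeff 0 • ((γ⁻¹ : GL (Fin 3) K) : M K) = -(A ^ 2 +
          A.charpoly.coeff 2 • A ^ 1 + A.charpoly.coeff 1 • A ^ 0) := by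
        rw [eq_neg_iff_add_eq_zero]
        have e3 := congrArg (fun X => ((γ⁻¹ : GL (Fin 3) K) : M K) * X) hch
        simp only [Matrix.mul_add, Matrix.mul_smul, Matrix.mul_zero, Matrix.mul_one] at e3
        have e4 : ((γ⁻¹ : GL (Fin 3) K) : M K) * A ^ 3 = A ^ 2 := by
          rw [pow_succ' A 2, ← Matrix.mul_assoc, hinv, Matrix.one_mul]
        have e5 : ((γ⁻¹ : GL (Fin 3) K) : M K) * A ^ 2 = A ^ 1 := by
          rw [pow_succ' A 1, ← Matrix.mul_assoc, hinv, Matrix.one_mul]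
        rw [e4, e5, hinv] at e3
        rw [pow_zero, ← e3]
        abel
      have e6 : ((γ⁻¹ : GL (Fin 3) K) : M K) = (A.charpoly.coeff 0)⁻¹ •
          (A.charpoly.coeff 0 • ((γ⁻¹ : GL (Fin 3) K) : M K)) := by
        rw [smul_smul, inv_mul_cancel₀ e0, one_smul]
      rw [e6, e2, CHB_det, smul_neg, inv_neg, neg_smul]
    rw [e1, Matrix.smul_mulVec, Matrix.add_mulVec, Matrix.add_mulVec, Matrix.smul_mulVec,
      Matrix.smul_mulVec]
    exact smul_mem_K N hd (N.add_mem (N.add_mem (hmem 2 (by norm_num) i)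
      (smul_mem_K N (hc 2) (hmem 1 (by norm_num) i))) (smul_mem_K N (hc 1)
      (hmem 0 (by norm_num) i)))
  have hpos : ∀ v ∈ N, A *ᵥ v ∈ N := by
    refine CHB_key N (CHB_w A) hN A fun p => ?_
    rw [CHB_w, Matrix.mulVec_mulVec, ← pow_succ']
    obtain ⟨⟨k, hk⟩, i⟩ := p
    change (A ^ (k + 1)) *ᵥ _ ∈ N
    rcases (by omega : k + 1 < 3 ∨ k = 2) with hk' | rfl
    · exact hmem _ hk' i
    · exact h3 i
  have hneg' : ∀ v ∈ N, ((γ⁻¹ : GL (Fin 3) K) : M K) *ᵥ v ∈ N := by
    refine CHB_key N (CHB_w A) hN _ fun p => ?_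
    obtain ⟨⟨k, hk⟩, i⟩ := p
    rw [CHB_w]
    change ((γ⁻¹ : GL (Fin 3) K) : M K) *ᵥ (A ^ k) *ᵥ Pi.single i 1 ∈ N
    cases k with
    | zero =>
      rw [pow_zero, Matrix.one_mulVec]
      exact hneg i
    | succ k =>
      rw [Matrix.mulVec_mulVec, pow_succ', ← Matrix.mul_assoc, hinv, Matrix.one_mul]
      exact hmem k (by omega) i
  have hlat : IsLat O N := by
    obtain ⟨n, hn⟩ := CHB_bd h fun p : (Fin 3 × Fin 3) × Fin 3 => CHB_w A p.1 p.2
    refine hLAT K O t h (fun i => Pi.single i 1) n N ?_ (fun i => ?_) fun v hv => ?_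
    · have e1 : (fun i => Pi.single i 1 : Fin 3 → V K) = ⇑(Pi.basisFun K (Fin 3)) :=
        funext fun i => (Pi.basisFun_apply K (Fin 3) i).symm
      rw [e1]
      exact (Pi.basisFun K (Fin 3)).linearIndependent
    · have := hmem 0 (by norm_num) i
      rw [pow_zero, Matrix.one_mulVec] at this
      exact smul_mem_K N (h.pow_mem n) this
    · rw [hN] at hv
      induction hv using Submodule.span_induction with
      | mem x hx =>
        obtain ⟨p, rfl⟩ := hx
        rw [mem_sp]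
        refine ⟨fun j => t ^ n * CHB_w A p j, fun j => hn (p, j), ?_⟩
        ext k
        simp [Finset.sum_apply, Pi.single_apply]
      | zero => rw [smul_zero]; exact Submodule.zero_mem _
      | add x y _ _ hx hy => rw [smul_add]; exact Submodule.add_mem _ hx hy
      | smul c x _ hx =>
        rw [smul_comm]
        exact Submodule.smul_mem _ c hx
  refine ⟨N, hlat, fun δ hδ => ?_⟩
  rw [Set.mem_singleton_iff] at hδ
  rw [hδ]
  intro v
  refine ⟨fun hv => ?_, hpos v⟩
  have := hneg' _ hv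
  rwa [Matrix.mulVec_mulVec, ← hA, hinv, Matrix.one_mulVec] at this

end R3S
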