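import Pool.Agent.R3S.St2

/-!
# R3S, module CHI: finitely many vanishing cycles of a chain detect boundedness
-/

set_option autoImplicit false

namespace R3S

open Matrix
open Pool.Agent.H2R (IsVanishing Twisted twist)

/-- the products of the first generators -/
private def CHI_g (n : ℕ) (i : ℕ) : FreeGroup (Fin n) :=
  Nat.rec 1 (fun i x => if h : i < n then x * FreeGroup.of ⟨i, h⟩ else x) i

private theorem CHI_g_succ (n : ℕ) (i : Fin n) :
    CHI_g n ((i : ℕ) + 1) = CHI_g n i * FreeGroup.of i :=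
  dif_pos i.2

/-- the words -/
private def CHI_L (n : ℕ) : Set (FreeGroup (Fin n)) :=
  {w | (∃ i j : ℕ, i < j ∧ j ≤ n ∧ w = (CHI_g n i)⁻¹ * CHI_g n j) ∨
    ∃ i j k : ℕ, i < j ∧ j < k ∧ k ≤ n ∧
      w = (CHI_g n i)⁻¹ * CHI_g n j * (CHI_g n k)⁻¹ * CHI_g n j}

private theorem CHI_fin (n : ℕ) : (CHI_L n).Finite := by
  have h1 : (Set.range fun p : Fin (n + 1) × Fin (n + 1) =>
      (CHI_g n p.1)⁻¹ * CHI_g n p.2).Finite := Set.finite_range _
  have h2 : (Set.range fun p : Fin (n + 1) × Fin (n + 1) × Fin (n + 1) =>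
      (CHI_g n p.1)⁻¹ * CHI_g n p.2.1 * (CHI_g n p.2.2)⁻¹ * CHI_g n p.2.1).Finite :=
    Set.finite_range _
  refine (h1.union h2).subset ?_
  rintro w (⟨i, j, hij, hj, rfl⟩ | ⟨i, j, k, hij, hjk, hk, rfl⟩)
  · exact Or.inl ⟨(⟨i, by omega⟩, ⟨j, by omega⟩), rfl⟩
  · exact Or.inr ⟨(⟨i, by omega⟩, ⟨j, by omega⟩, ⟨k, by omega⟩), rfl⟩

theorem thm_CHI (h1 : St_ARC) (h2 : St_BAS) (h3 : St_VAN) : St_CHI := by
  intro n
  obtain ⟨v1, v2⟩ := h3 (FreeGroup (Fin n)) n FreeGroup.of (CHI_g n) (CHI_g_succ n)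
  refine ⟨CHI_L n, CHI_fin n, ?_, ?_⟩
  · rintro w (⟨i, j, hij, hj, rfl⟩ | ⟨i, j, k, hij, hjk, hk, rfl⟩)
    · exact v1 i j hij hj
    · exact v2 i j k hij hjk hk
  · intro K _ O t hU G _ c ρ hCP
    have hA : Bd O {γ : GL (Fin 3) K | ∃ i j : Fin (n + 1),
        γ = (ρ (FreeGroup.lift c (CHI_g n i)))⁻¹ * ρ (FreeGroup.lift c (CHI_g n j))} := by
      refine h1 K O t hU (n + 1) (fun i => ρ (FreeGroup.lift c (CHI_g n i))) ?_ ?_
      · intro i j hij
        have h := hCP ((CHI_g n i)⁻¹ * CHI_g n j) (Or.inl ⟨i, j, hij, by omega, rfl⟩)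
        rw [map_mul, map_inv, map_mul, map_inv] at h
        exact h
      · intro i j k hij hjk
        have h := hCP ((CHI_g n i)⁻¹ * CHI_g n j * (CHI_g n k)⁻¹ * CHI_g n j)
          (Or.inr ⟨i, j, k, hij, hjk, by omega, rfl⟩)
        simp only [map_mul, map_inv] at h
        exact h
    obtain ⟨L, hL, hs⟩ := (h2 K O).1 _ hA
    refine ⟨L, hL, ?_⟩
    rintro γ ⟨x, hx, rfl⟩
    apply hs
    have hle : Subgroup.closure (Set.range c) ≤ (Subgroup.closure {γ : GL (Fin 3) K |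
        ∃ i j : Fin (n + 1), γ = (ρ (FreeGroup.lift c (CHI_g n i)))⁻¹ *
          ρ (FreeGroup.lift c (CHI_g n j))}).comap ρ := by
      rw [Subgroup.closure_le]
      rintro _ ⟨i, rfl⟩
      refine Subgroup.subset_closure ⟨i.castSucc, i.succ, ?_⟩
      rw [Fin.val_castSucc, Fin.val_succ, CHI_g_succ, map_mul, map_mul, FreeGroup.lift_apply_of,
        inv_mul_cancel_left]
    exact hle hx

end R3S
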