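import Pool.Agent.R3S.St2

/-!
# R3S, module DVU: discrete valuation subrings are valuation subrings with a uniformiser
-/

set_option autoImplicit false

namespace R3S

open Pool.Agent.R3S (IsDVRIn)

/-- nonzero elements are units times powers of the uniformiser -/
private theorem DVU_form {K : Type} [Field K] (O : Subring K) [IsDiscreteValuationRing O]
    [IsFractionRing O K] {p : O} (hp : Irreducible p) (x : K) (hx : x ≠ 0) :
    ∃ (m n : ℕ) (u : Oˣ), x * (p : K) ^ n = ((u : O) : K) * (p : K) ^ m := by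
  obtain ⟨a, b, hb, rfl⟩ := IsFractionRing.div_surjective (A := O) x
  have hb0 : b ≠ 0 := nonZeroDivisors.ne_zero hb
  have ha0 : a ≠ 0 := by
    rintro rfl
    exact hx (by rw [map_zero, zero_div])
  obtain ⟨m, u, hu⟩ := IsDiscreteValuationRing.eq_unit_mul_pow_irreducible ha0 hp
  obtain ⟨n, v, hv⟩ := IsDiscreteValuationRing.eq_unit_mul_pow_irreducible hb0 hp
  refine ⟨m, n, u * v⁻¹, ?_⟩
  have hb1 : (b : K) ≠ 0 := fun h => hb0 (Subtype.ext h)
  have h1 : (a : K) = ((u : O) : K) * (p : K) ^ m := congrArg Subtype.val hu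
  have h2 : (b : K) = ((v : O) : K) * (p : K) ^ n := congrArg Subtype.val hv
  have h3 : ((v : O) : K) * (((v⁻¹ : Oˣ) : O) : K) = 1 := congrArg Subtype.val v.mul_inv
  change (a : K) / (b : K) * (p : K) ^ n = ((u : O) : K) * (((v⁻¹ : Oˣ) : O) : K) * (p : K) ^ m
  rw [div_mul_eq_mul_div, div_eq_iff hb1, h1, h2]
  linear_combination (-((u : O) : K) * (p : K) ^ m * (p : K) ^ n) * h3

/-- **DVU** -/
theorem thm_DVU : St_DVU := by
  intro K _ O hO
  have := hO.dvr
  have := hO.frac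
  obtain ⟨p, hp⟩ := IsDiscreteValuationRing.exists_irreducible O
  have hp0 : (p : K) ≠ 0 := fun h => hp.ne_zero (Subtype.ext h)
  have hu : ∀ u : Oˣ, ((u : O) : K) ≠ 0 ∧ ((u : O) : K)⁻¹ = (((u⁻¹ : Oˣ) : O) : K) := by
    intro u
    have h : ((u : O) : K) * (((u⁻¹ : Oˣ) : O) : K) = 1 := congrArg Subtype.val u.mul_inv
    exact ⟨left_ne_zero_of_mul_eq_one h, inv_eq_of_mul_eq_one_right h⟩
  have hmi : ∀ x : K, x ∈ O ∨ x⁻¹ ∈ O := by
    intro x
    by_cases hx : x = 0
    · exact Or.inl (hx ▸ O.zero_mem)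
    · obtain ⟨m, n, u, h⟩ := DVU_form O hp x hx
      obtain h1 | h1 := le_total n m
      · left
        have h2 : x = ((u : O) : K) * (p : K) ^ (m - n) := by
          have h3 : (p : K) ^ m = (p : K) ^ (m - n) * (p : K) ^ n := by
            rw [← pow_add, Nat.sub_add_cancel h1]
          rw [h3, ← mul_assoc] at h
          exact mul_right_cancel₀ (pow_ne_zero n hp0) h
        rw [h2]
        exact O.mul_mem (u : O).2 (O.pow_mem p.2 _)
      · right
        have h2 : x * (p : K) ^ (n - m) = ((u : O) : K) := by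
          have h3 : (p : K) ^ n = (p : K) ^ (n - m) * (p : K) ^ m := by
            rw [← pow_add, Nat.sub_add_cancel h1]
          rw [h3, ← mul_assoc] at h
          exact mul_right_cancel₀ (pow_ne_zero m hp0) h
        have h4 : x⁻¹ = (p : K) ^ (n - m) * (((u⁻¹ : Oˣ) : O) : K) := by
          rw [← (hu u).2, ← h2, mul_inv, mul_comm x⁻¹, mul_inv_cancel_left₀ (pow_ne_zero _ hp0)]
        rw [h4]
        exact O.mul_mem (O.pow_mem p.2 _) ((u⁻¹ : Oˣ) : O).2
  refine ⟨⟨O, hmi⟩, p, ⟨hp0, p.2, ?_, ?_⟩, fun x => Iff.rfl⟩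
  · intro h
    have h1 : (p : K)⁻¹ ∈ O := h
    exact hp.not_isUnit (IsUnit.of_mul_eq_one (⟨(p : K)⁻¹, h1⟩ : O)
      (Subtype.ext (mul_inv_cancel₀ hp0)))
  · intro x hx
    obtain ⟨m, n, u, h⟩ := DVU_form O hp x hx
    have h1 : x * (p : K) ^ ((n : ℤ) - m) = ((u : O) : K) := by
      rw [zpow_sub₀ hp0, zpow_natCast, zpow_natCast, ← mul_div_assoc, h,
        mul_div_cancel_right₀ _ (pow_ne_zero m hp0)]
    refine ⟨(n : ℤ) - m, ?_, ?_⟩
    · rw [h1]
      exact (u : O).2
    · rw [h1, (hu u).2]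
      exact ((u⁻¹ : Oˣ) : O).2

end R3S
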