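import Mathlib

/-!
# R3S: representations of rank three, vanishing cycles and lattices.  Definitions.

`K` is a field, `O` a valuation ring of `K` with uniformiser `t` (a discrete valuation ring).
Lattices of `V = K^3` are the `O`-submodules with a `K`-basis of `V` as basis. For two lattices `L`,
`L'` there are a basis `f` of `L` and integers `a i` such that the `t ^ (- a i) • f i` are a basis of
`L'` (`Adp`). The flag of `L'` in `L / t L` consists of the classes of the `f i` with `n ≤ a i`; its
members are described by sublattices between `t L` and `L`.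

See /team-store/R3S.md for the paper proof.
-/

set_option autoImplicit false

namespace R3S

open Matrix

/-- the space of columns -/
abbrev V (K : Type) : Type := Fin 3 → K

/-- matrices -/
abbrev M (K : Type) : Type := Matrix (Fin 3) (Fin 3) K

section

variable {K : Type} [Field K]

/-- `t` is a uniformiser of `O`, which is a discrete valuation ring -/
structure Unif (O : ValuationSubring K) (t : K) : Prop where
  ne : t ≠ 0
  mem : t ∈ O
  nu : t⁻¹ ∉ O
  gen : ∀ x : K, x ≠ 0 → ∃ n : ℤ, x * t ^ n ∈ O ∧ (x * t ^ n)⁻¹ ∈ O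

variable (O : ValuationSubring K) (t : K)

/-- the `O`-module spanned by three vectors -/
def sp (f : Fin 3 → V K) : Submodule O (V K) := Submodule.span O (Set.range f)

/-- lattices -/
def IsLat (L : Submodule O (V K)) : Prop :=
  ∃ f : Fin 3 → V K, LinearIndependent K f ∧ L = sp O f

variable {O}

/-- `γ` stabilises `L` -/
def Stb (γ : GL (Fin 3) K) (L : Submodule O (V K)) : Prop :=
  ∀ v : V K, (γ : M K) *ᵥ v ∈ L ↔ v ∈ L

/-- `f` is a basis of `L` and the `t ^ (- a i) • f i` are a basis of `L'` -/
def Adp (f : Fin 3 → V K) (L L' : Submodule O (V K)) (a : Fin 3 → ℤ) : Prop :=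
  LinearIndependent K f ∧ L = sp O f ∧ L' = sp O fun i => t ^ (-a i) • f i

/-- The lattice `L'` has the weights `p + q + s`, `q + s`, `s` with respect to `L`; `P` is the
member of dimension one and `l` the member of dimension two of its flag (`P` is an arbitrary point
of `l` if `p = 0`, and `l` an arbitrary line through `P` if `q = 0`). -/
def Dat (L L' : Submodule O (V K)) (p q : ℕ) (P l : Submodule O (V K)) : Prop :=
  ∃ (f : Fin 3 → V K) (s : ℤ), Adp t f L L' ![p + q + s, q + s, s] ∧
    P = sp O ![f 0, t • f 1, t • f 2] ∧ l = sp O ![f 0, f 1, t • f 2]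

/-- `W` is a point of `L / t L` -/
def Pt (L W : Submodule O (V K)) : Prop :=
  ∃ f : Fin 3 → V K, LinearIndependent K f ∧ L = sp O f ∧ W = sp O ![f 0, t • f 1, t • f 2]

/-- `W` is a line of `L / t L` -/
def Ln (L W : Submodule O (V K)) : Prop :=
  ∃ f : Fin 3 → V K, LinearIndependent K f ∧ L = sp O f ∧ W = sp O ![f 0, f 1, t • f 2]

/-- the lattice `t⁻¹ W` -/
def up (W : Submodule O (V K)) : Submodule O (V K) where
  carrier := {v | t • v ∈ W}
  add_mem' := fun {a b} ha hb => by
    rw [Set.mem_setOf_eq, smul_add]
    exact W.add_mem ha hb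
  zero_mem' := by
    rw [Set.mem_setOf_eq, smul_zero]
    exact W.zero_mem
  smul_mem' := fun c v hv => by
    rw [Set.mem_setOf_eq, smul_comm]
    exact W.smul_mem c hv

/-- Three times the square of the distance of two lattices: `3 ∑ a i ^ 2 - (∑ a i) ^ 2`, which is
`2 (p ^ 2 + p q + q ^ 2)`. -/
noncomputable def en (L L' : Submodule O (V K)) : ℕ :=
  sInf {e : ℕ | ∃ (f : Fin 3 → V K) (a : Fin 3 → ℤ), Adp t f L L' a ∧
    (e : ℤ) = 3 * ∑ i, a i ^ 2 - (∑ i, a i) ^ 2}

/-- there is a lattice which is stable under `S` -/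
def Bd (O : ValuationSubring K) (S : Set (GL (Fin 3) K)) : Prop :=
  ∃ L : Submodule O (V K), IsLat O L ∧ ∀ γ ∈ S, Stb γ L

/-- the characteristic polynomial is integral, the determinant is a unit -/
def CP (O : ValuationSubring K) (γ : GL (Fin 3) K) : Prop :=
  (∀ n, (γ : M K).charpoly.coeff n ∈ O) ∧ ((γ : M K).det)⁻¹ ∈ O

end

/-! ### Weights -/

section

variable {X : Type}

open Classical in
/-- `2` if `x = y`, else `-1` -/
noncomputable def e2 (x y : X) : ℤ := if x = y then 2 else -1

open Classical in
/-- `1` if `R`, else `-2` -/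
noncomputable def i1 (R : Prop) : ℤ := if R then 1 else -2

end

/-! ### Groups -/

section

variable {G : Type} [Group G]

/-- integrality of the traces is implied by integrality of the characteristic polynomials of the
elements of `L` -/
def Int3 (L : Set G) : Prop :=
  ∀ (K : Type) [Field K] (O : ValuationSubring K) (t : K), Unif O t → ∀ ρ : G →* GL (Fin 3) K,
    (∀ x ∈ L, CP O (ρ x)) → ∀ w, (ρ w : M K).trace ∈ O

/-- all eigenvalues are roots of unity -/
def Qu (A : M ℂ) : Prop := ∀ z : ℂ, A.charpoly.IsRoot z → ∃ k : ℕ, 0 < k ∧ z ^ k = 1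

/-- the character -/
noncomputable def chr {K : Type} [Field K] (ρ : G →* GL (Fin 3) K) : G → K :=
  fun x => (ρ x : M K).trace

end

end R3S
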