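import Pool.Agent.R3S.St2

/-!
# R3S, [ENT]: representations with entries in a subring
-/

set_option autoImplicit false

namespace R3S

open Matrix

private theorem ENT_mul {B : Type} [CommRing B] (A : Subring B) {X Y : Matrix (Fin 3) (Fin 3) B}
    (hX : ∀ k l, X k l ∈ A) (hY : ∀ k l, Y k l ∈ A) (k l : Fin 3) : (X * Y) k l ∈ A := by
  rw [Matrix.mul_apply]
  exact A.sum_mem fun j _ => A.mul_mem (hX k j) (hY j l)

private theorem ENT_one {B : Type} [CommRing B] (A : Subring B) (k l : Fin 3) :
    (1 : Matrix (Fin 3) (Fin 3) B) k l ∈ A := by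
  rw [Matrix.one_apply]
  split_ifs
  · exact A.one_mem
  · exact A.zero_mem

theorem thm_ENT : St_ENT := by
  intro B _ A G _ n c ρ hc h
  have key : ∀ z ∈ Subgroup.closure (Set.range c),
      (∀ k l, (ρ z : Matrix (Fin 3) (Fin 3) B) k l ∈ A) ∧
      ∀ k l, (ρ z⁻¹ : Matrix (Fin 3) (Fin 3) B) k l ∈ A := by
    intro z hz
    induction hz using Subgroup.closure_induction with
    | mem x hx =>
      obtain ⟨i, rfl⟩ := hx
      refine ⟨fun k l => (h i k l).1, fun k l => ?_⟩
      rw [map_inv, Matrix.coe_units_inv]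
      exact (h i k l).2
    | one =>
      rw [inv_one, map_one]
      exact ⟨fun k l => ENT_one A k l, fun k l => ENT_one A k l⟩
    | mul x y _ _ hx hy =>
      rw [_root_.mul_inv_rev, map_mul, map_mul]
      exact ⟨fun k l => ENT_mul A hx.1 hy.1 k l, fun k l => ENT_mul A hy.2 hx.2 k l⟩
    | inv x _ hx =>
      rw [inv_inv]
      exact ⟨hx.2, hx.1⟩
  have hall : ∀ z k l, (ρ z : Matrix (Fin 3) (Fin 3) B) k l ∈ A := fun z =>
    (key z (by rw [hc]; exact Subgroup.mem_top z)).1
  let m : G →* Matrix (Fin 3) (Fin 3) A :=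
    { toFun := fun z => Matrix.of fun k l => ⟨(ρ z : Matrix (Fin 3) (Fin 3) B) k l, hall z k l⟩
      map_one' := by
        ext k l
        simp only [map_one, Units.val_one, Matrix.of_apply, Matrix.one_apply]
        split_ifs <;> rfl
      map_mul' := fun x y => by
        ext k l
        simp only [map_mul, Units.val_mul, Matrix.of_apply, Matrix.mul_apply]
        push_cast
        rfl }
  refine ⟨m.toHomUnits, fun z k l => ?_⟩
  rw [MonoidHom.coe_toHomUnits]
  rfl

end R3S
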