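import Pool.Agent.R3S.St
import Pool.Agent.R3S.Tool

/-!
# R3S, module EV: the value of `en` does not depend on the adapted basis
-/

set_option autoImplicit false

namespace R3S

open Matrix

section

variable {K : Type} [Field K] {O : ValuationSubring K} {t : K}

/-- a matrix over `O` whose determinant is a unit has a transversal of units -/
theorem EV_perm (h : Unif O t) {U : M K} (hU : MO O U) (h0 : U.det ≠ 0) (hd : (U.det)⁻¹ ∈ O) :
    ∃ σ : Equiv.Perm (Fin 3), ∀ i, (U (σ i) i)⁻¹ ∈ O ∧ U (σ i) i ≠ 0 := by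
  by_contra hc
  push Not at hc
  have key : ∀ σ : Equiv.Perm (Fin 3), ∃ y ∈ O, ∏ i, U (σ i) i = t * y := by
    intro σ
    obtain ⟨i, hi⟩ := hc σ
    rcases h.unit_or (hU (σ i) i) with h1 | ⟨y, hy, h1⟩
    · exact absurd (hi h1.1) h1.2
    · refine ⟨y * ∏ j ∈ Finset.univ.erase i, U (σ j) j, mul_mem hy
        (prod_mem fun j _ => hU _ _), ?_⟩
      rw [← Finset.mul_prod_erase Finset.univ _ (Finset.mem_univ i), h1]
      ring
  choose y hy h1 using key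
  have h2 : U.det = t * ∑ σ : Equiv.Perm (Fin 3), ((Equiv.Perm.sign σ : ℤ) : K) * y σ := by
    rw [Matrix.det_apply', Finset.mul_sum]
    refine Finset.sum_congr rfl fun σ _ => ?_
    rw [h1]
    ring
  have h3 : ∑ σ : Equiv.Perm (Fin 3), ((Equiv.Perm.sign σ : ℤ) : K) * y σ ∈ O :=
    sum_mem fun σ _ => mul_mem (intCast_mem O _) (hy σ)
  rw [h2] at h0 hd
  exact h.not_unit h3 h0 hd

theorem EV_le (h : Unif O t) {f g : Fin 3 → V K} {L L' : Submodule O (V K)} {a b : Fin 3 → ℤ}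
    (hf : Adp t f L L' a) (hg : Adp t g L L' b) :
    ∃ σ : Equiv.Perm (Fin 3), ∀ j, b j ≤ a (σ j) := by
  obtain ⟨f1, f2, f3⟩ := hf
  obtain ⟨g1, g2, g3⟩ := hg
  obtain ⟨U, hU, -, h0, -, hd, -, hc⟩ := exists_change f1 g1 (g2.symm.trans f2)
  obtain ⟨σ, hσ⟩ := EV_perm h hU h0 hd
  refine ⟨σ, fun j => ?_⟩
  have h1 : t ^ (-b j) • g j ∈ L' := by
    rw [g3]
    exact self_mem_sp (O := O) (fun i => t ^ (-b i) • g i) j
  have h2 : t ^ (-b j) • g j = ∑ i, (t ^ (-b j) * U i j) • f i := by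
    rw [hc, Finset.smul_sum]
    exact Finset.sum_congr rfl fun i _ => smul_smul _ _ _
  rw [h2, f3, sum_mem_pow_iff f1 h.ne] at h1
  have h3 := mul_mem (h1 (σ j)) (hσ j).1
  have h4 : t ^ (-b j) * U (σ j) j * t ^ a (σ j) * (U (σ j) j)⁻¹ = t ^ (a (σ j) - b j) := by
    have h5 : t ^ (a (σ j) - b j) = t ^ (-b j) * t ^ a (σ j) := by
      rw [← zpow_add₀ h.ne]
      congr 1
      ring
    rw [h5]
    have h6 := (hσ j).2
    field_simp
  rw [h4, h.zpow_mem] at h3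
  omega

theorem EV_sum (σ : Equiv.Perm (Fin 3)) (a : Fin 3 → ℤ) : ∑ i, a (σ i) = ∑ i, a i :=
  Equiv.sum_comp σ a

theorem EV_eq (h : Unif O t) {f g : Fin 3 → V K} {L L' : Submodule O (V K)} {a b : Fin 3 → ℤ}
    (hf : Adp t f L L' a) (hg : Adp t g L L' b) :
    ∃ σ : Equiv.Perm (Fin 3), ∀ j, b j = a (σ j) := by
  obtain ⟨σ, h1⟩ := EV_le h hf hg
  obtain ⟨τ, h2⟩ := EV_le h hg hf
  have h3 : ∑ j, b j ≤ ∑ j, a (σ j) := Finset.sum_le_sum fun j _ => h1 j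
  have h4 : ∑ j, a j ≤ ∑ j, b (τ j) := Finset.sum_le_sum fun j _ => h2 j
  rw [EV_sum] at h3 h4
  have h5 : ∑ j, (a (σ j) - b j) = 0 := by
    rw [Finset.sum_sub_distrib, EV_sum]
    omega
  refine ⟨σ, fun j => ?_⟩
  have h6 := (Finset.sum_eq_zero_iff_of_nonneg fun j _ => by
    have := h1 j
    omega).1 h5 j (Finset.mem_univ j)
  omega

theorem EV_val (h : Unif O t) {f g : Fin 3 → V K} {L L' : Submodule O (V K)} {a b : Fin 3 → ℤ}
    (hf : Adp t f L L' a) (hg : Adp t g L L' b) :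
    3 * ∑ i, b i ^ 2 - (∑ i, b i) ^ 2 = 3 * ∑ i, a i ^ 2 - (∑ i, a i) ^ 2 := by
  obtain ⟨σ, hσ⟩ := EV_eq h hf hg
  have h1 : ∑ i, b i = ∑ i, a i := by
    rw [← EV_sum σ a]
    exact Finset.sum_congr rfl fun i _ => hσ i
  have h2 : ∑ i, b i ^ 2 = ∑ i, a i ^ 2 := by
    rw [← EV_sum σ fun i => a i ^ 2]
    exact Finset.sum_congr rfl fun i _ => by rw [hσ i]
  rw [h1, h2]

end

theorem thm_EV : St_EV := by
  intro K _ O t h f L L' a hf
  have h0 : 0 ≤ 3 * ∑ i, a i ^ 2 - (∑ i, a i) ^ 2 := by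
    rw [Fin.sum_univ_three, Fin.sum_univ_three]
    nlinarith [sq_nonneg (a 0 - a 1), sq_nonneg (a 1 - a 2), sq_nonneg (a 0 - a 2)]
  have h1 : (3 * ∑ i, a i ^ 2 - (∑ i, a i) ^ 2).toNat ∈
      {e : ℕ | ∃ (f : Fin 3 → V K) (a : Fin 3 → ℤ), Adp t f L L' a ∧
        (e : ℤ) = 3 * ∑ i, a i ^ 2 - (∑ i, a i) ^ 2} :=
    ⟨f, a, hf, Int.toNat_of_nonneg h0⟩
  obtain ⟨g, b, hg, h2⟩ := Nat.sInf_mem ⟨_, h1⟩
  unfold en
  rw [h2]
  exact EV_val h hf hg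

end R3S
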