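import Pool.Agent.R3S.St2

/-!
# R3S, FIN: finitely many characters with given characteristic polynomials
-/

set_option autoImplicit false

namespace R3S

open Matrix
open Pool.Agent.R3S (IsDVRIn)

section

variable {G : Type} [Group G]

/-- the representations with the characteristic polynomials `p` on `L` -/
def FIN_T (L : Set G) (p : G → Polynomial ℂ) : Type :=
  {τ : G →* GL (Fin 3) ℂ // ∀ x ∈ L, (τ x : M ℂ).charpoly = p x}

/-- the tautological representation, as a homomorphism to matrices -/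
def FIN_m (L : Set G) (p : G → Polynomial ℂ) :
    G →* Matrix (Fin 3) (Fin 3) (FIN_T L p → ℂ) where
  toFun z := Matrix.of fun k l => fun τ => (τ.1 z : M ℂ) k l
  map_one' := by
    ext k l τ
    rw [Matrix.of_apply, map_one, Units.val_one, Matrix.one_apply, Matrix.one_apply]
    split_ifs <;> rfl
  map_mul' y z := by
    ext k l τ
    rw [Matrix.of_apply, map_mul, Units.val_mul, Matrix.mul_apply, Matrix.mul_apply,
      Finset.sum_apply]
    rfl

/-- the tautological representation -/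
def FIN_r (L : Set G) (p : G → Polynomial ℂ) : G →* GL (Fin 3) (FIN_T L p → ℂ) :=
  (FIN_m L p).toHomUnits

theorem FIN_r_apply (L : Set G) (p : G → Polynomial ℂ) (z : G) (k l : Fin 3) (τ : FIN_T L p) :
    (FIN_r L p z : Matrix (Fin 3) (Fin 3) (FIN_T L p → ℂ)) k l τ = (τ.1 z : M ℂ) k l := rfl

/-- evaluation at a representation -/
theorem FIN_eval (L : Set G) (p : G → Polynomial ℂ) (z : G) (τ : FIN_T L p) :
    (FIN_r L p z : Matrix (Fin 3) (Fin 3) (FIN_T L p → ℂ)).map
      (Pi.evalRingHom (fun _ => ℂ) τ) = (τ.1 z : M ℂ) := by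
  ext k l
  rfl

theorem FIN_inv_apply (L : Set G) (p : G → Polynomial ℂ) (z : G) :
    ((FIN_r L p z)⁻¹ : Matrix (Fin 3) (Fin 3) (FIN_T L p → ℂ)) =
      (FIN_r L p z⁻¹ : Matrix (Fin 3) (Fin 3) (FIN_T L p → ℂ)) := by
  rw [map_inv, ← Matrix.coe_units_inv]

/-- the case of fixed characteristic polynomials -/
theorem FIN_fixed (h1 : St_DVU) (h2 : St_ENT) {n : ℕ} (c : Fin n → G) (L : Set G)
    (hc : Subgroup.closure (Set.range c) = ⊤) (hL : Int3 L) (p : G → Polynomial ℂ) :
    {χ : G → ℂ | ∃ ρ : G →* GL (Fin 3) ℂ,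
      (∀ x ∈ L, (ρ x : M ℂ).charpoly = p x) ∧ χ = chr ρ}.Finite := by
  classical
  let T := FIN_T L p
  let S : Set (T → ℂ) :=
    (Set.range fun i : Fin n × Fin 3 × Fin 3 =>
      (FIN_r L p (c i.1) : Matrix (Fin 3) (Fin 3) (T → ℂ)) i.2.1 i.2.2) ∪
    (Set.range fun i : Fin n × Fin 3 × Fin 3 =>
      ((FIN_r L p (c i.1))⁻¹ : Matrix (Fin 3) (Fin 3) (T → ℂ)) i.2.1 i.2.2)
  have hS : S.Finite := (Set.finite_range _).union (Set.finite_range _)
  let A : Subalgebra ℂ (T → ℂ) := Algebra.adjoin ℂ S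
  have hft : Algebra.FiniteType ℂ A :=
    (Subalgebra.fg_iff_finiteType _).1 (Subalgebra.fg_def.2 ⟨S, hS, rfl⟩)
  obtain ⟨ρ', hρ'⟩ := h2 (T → ℂ) A.toSubring G n c (FIN_r L p) hc (fun i k l =>
    ⟨Algebra.subset_adjoin (Or.inl ⟨(i, k, l), rfl⟩),
      Algebra.subset_adjoin (Or.inr ⟨(i, k, l), rfl⟩)⟩)
  let e : A.toSubring →+* A := RingHom.id A
  let ρA : G →* GL (Fin 3) A := (Matrix.GeneralLinearGroup.map e).comp ρ'
  have hρA : ∀ z k l, (((ρA z : Matrix (Fin 3) (Fin 3) A) k l : A) : T → ℂ) =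
      (FIN_r L p z : Matrix (Fin 3) (Fin 3) (T → ℂ)) k l := fun z k l => hρ' z k l
  have hval : ∀ z, (ρA z : Matrix (Fin 3) (Fin 3) A).map A.val.toRingHom =
      (FIN_r L p z : Matrix (Fin 3) (Fin 3) (T → ℂ)) := by
    intro z
    ext k l τ
    exact congrFun (hρA z k l) τ
  -- evaluations
  let ev : T → A →+* ℂ := fun τ => (Pi.evalRingHom (fun _ => ℂ) τ).comp A.val.toRingHom
  have hev : ∀ (τ : T) z, (ρA z : Matrix (Fin 3) (Fin 3) A).map (ev τ) = (τ.1 z : M ℂ) := by
    intro τ z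
    ext k l
    exact congrFun (hρA z k l) τ
  have hext : ∀ x y : A, (∀ τ, ev τ x = ev τ y) → x = y := by
    intro x y h
    apply Subtype.ext
    funext τ
    exact h τ
  have hevC : ∀ (τ : T) (y : ℂ), ev τ (algebraMap ℂ A y) = y := fun τ y => rfl
  -- the traces
  let u : G → A := fun z => (ρA z : Matrix (Fin 3) (Fin 3) A).trace
  have hu : ∀ (τ : T) z, ev τ (u z) = (τ.1 z : M ℂ).trace := by
    intro τ z
    rw [← hev τ z]
    exact AddMonoidHom.map_trace (ev τ) _
  have hchar : ∀ x ∈ L, ∀ k, (ρA x : Matrix (Fin 3) (Fin 3) A).charpoly.coeff k =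
      algebraMap ℂ A ((p x).coeff k) := by
    intro x hx k
    apply hext
    intro τ
    rw [hevC, ← τ.2 x hx, ← hev τ x, Matrix.charpoly_map, Polynomial.coeff_map]
  -- the traces take finitely many values
  have hfin : ∀ z, (Set.range fun τ : T => ev τ (u z)).Finite := by
    intro z
    by_cases hex : ∃ q : Polynomial ℂ, q ≠ 0 ∧ Polynomial.aeval (u z) q = 0
    · obtain ⟨q, hq0, hq⟩ := hex
      refine (q.rootSet_finite ℂ).subset ?_
      rintro _ ⟨τ, rfl⟩
      rw [Polynomial.mem_rootSet]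
      refine ⟨hq0, ?_⟩
      let evA : A →ₐ[ℂ] ℂ := { ev τ with commutes' := fun y => rfl }
      have h3 : Polynomial.aeval (evA (u z)) q = 0 := by
        rw [Polynomial.aeval_algHom_apply, hq, map_zero]
      exact h3
    · exfalso
      have hu' : ∀ q : Polynomial ℂ, Polynomial.aeval (u z) q = 0 → q = 0 := by
        intro q hq
        by_contra h0
        exact hex ⟨q, h0, hq⟩
      obtain ⟨K, iK, iA, O, θ, hO, hC, hnot⟩ :=
        Pool.Agent.R3S.exists_point ℂ hft (u z) hu'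
      obtain ⟨O', t, hU, hO'⟩ := h1 K O hO
      let ρθ : G →* GL (Fin 3) K := (Matrix.GeneralLinearGroup.map θ.toRingHom).comp ρA
      have hθ : ∀ x, (ρθ x : M K) = (ρA x : Matrix (Fin 3) (Fin 3) A).map θ.toRingHom :=
        fun x => rfl
      apply hnot
      have key := hL K O' t hU ρθ (fun x hx => ?_) z
      · rw [hO', hθ] at key
        have h4 : ((ρA z : Matrix (Fin 3) (Fin 3) A).map θ.toRingHom).trace = θ (u z) :=
          (AddMonoidHom.map_trace θ.toRingHom _).symm
        rwa [h4] at key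
      · have hco : ∀ k, (ρθ x : M K).charpoly.coeff k = algebraMap ℂ K ((p x).coeff k) := by
          intro k
          rw [hθ, Matrix.charpoly_map, Polynomial.coeff_map, hchar x hx]
          exact θ.commutes _
        refine ⟨fun k => ?_, ?_⟩
        · rw [hO', hco]
          exact hC _
        · rw [hO', Matrix.det_eq_sign_charpoly_coeff, hco, Fintype.card_fin]
          have h5 : ((-1 : K) ^ 3 * algebraMap ℂ K ((p x).coeff 0))⁻¹ =
              algebraMap ℂ K ((-1) ^ 3 * (p x).coeff 0)⁻¹ := by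
            rw [map_inv₀, map_mul, map_pow, map_neg, map_one]
          rw [h5]
          exact hC _
  -- minimal primes
  have hN : IsNoetherianRing A := Algebra.FiniteType.isNoetherianRing ℂ A
  have hmin : (minimalPrimes A).Finite := minimalPrimes.finite_of_isNoetherianRing A
  have hP : ∀ P : Ideal A, P.IsPrime → ∀ z, ∃ y : ℂ, u z - algebraMap ℂ A y ∈ P := by
    intro P hP z
    have h3 : ∏ y ∈ (hfin z).toFinset, (u z - algebraMap ℂ A y) = 0 := by
      apply hext
      intro τ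
      rw [map_prod, map_zero]
      refine Finset.prod_eq_zero (i := ev τ (u z)) ?_ ?_
      · rw [Set.Finite.mem_toFinset]
        exact ⟨τ, rfl⟩
      · rw [map_sub, hevC, sub_self]
    have h4 : ∏ y ∈ (hfin z).toFinset, (u z - algebraMap ℂ A y) ∈ P := by
      rw [h3]
      exact P.zero_mem
    rw [Ideal.IsPrime.prod_mem_iff] at h4
    obtain ⟨y, -, hy⟩ := h4
    exact ⟨y, hy⟩
  let f : Ideal A → G → ℂ := fun P z =>
    if h : ∃ y : ℂ, u z - algebraMap ℂ A y ∈ P then Classical.choose h else 0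
  refine (hmin.image f).subset ?_
  rintro _ ⟨ρ, hρ, rfl⟩
  let τ : T := ⟨ρ, hρ⟩
  have hk : (RingHom.ker (ev τ)).IsPrime := RingHom.ker_isPrime (ev τ)
  obtain ⟨P, hPm, hle⟩ := Ideal.exists_minimalPrimes_le (I := (⊥ : Ideal A))
    (J := RingHom.ker (ev τ)) bot_le
  refine ⟨P, hPm, ?_⟩
  funext z
  have hPp : P.IsPrime := hPm.1.1
  have hex := hP P hPp z
  have h6 : f P z = Classical.choose hex := dif_pos hex
  have h7 := hle (Classical.choose_spec hex)
  rw [RingHom.mem_ker, map_sub, hevC, sub_eq_zero] at h7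
  rw [h6, ← h7]
  exact hu τ z

end

theorem thm_FIN (h1 : St_DVU) (h2 : St_ENT) : St_FIN := by
  classical
  intro G _ n c L hc hLf hL F hF
  have : Finite L := hLf
  have : Finite F := hF
  have hU : (⋃ q : L → F, {χ : G → ℂ | ∃ ρ : G →* GL (Fin 3) ℂ,
      (∀ x ∈ L, (ρ x : M ℂ).charpoly =
        (fun y : G => if hy : y ∈ L then ((q ⟨y, hy⟩ : F) : Polynomial ℂ) else 0) x) ∧
        χ = chr ρ}).Finite :=
    Set.finite_iUnion fun q => FIN_fixed h1 h2 c L hc hL _
  refine hU.subset ?_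
  rintro _ ⟨ρ, hρ, rfl⟩
  rw [Set.mem_iUnion]
  refine ⟨fun x => ⟨_, hρ x x.2⟩, ρ, fun x hx => ?_, rfl⟩
  show _ = dite _ _ _
  rw [dif_pos hx]

end R3S
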