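import Mathlib

/-!
# From discrete valuation rings to the complex numbers

A polynomial function on a complex algebraic set which is integral at all points with values in
fraction fields of discrete valuation rings over `ℂ` takes only finitely many values, and a complex
number in a finitely generated ring all of whose images in fraction fields of discrete valuation
rings are integral is an algebraic integer.
-/

set_option autoImplicit false

namespace Pool.Agent.R3S

open Polynomial IsDedekindDomain

/-- `O` is a discrete valuation ring with fraction field `K`. -/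
structure IsDVRIn {K : Type*} [Field K] (O : Subring K) : Prop where
  dvr : IsDiscreteValuationRing O
  frac : IsFractionRing O K

/-- An element of a finite extension which is not integral over a Dedekind domain is not in some
discrete valuation ring. -/
theorem exists_dvr (D k L : Type) [CommRing D] [IsDomain D] [IsDedekindDomain D] [Field k]
    [Algebra D k] [IsFractionRing D k] [Field L] [Algebra k L] [Algebra D L]
    [IsScalarTower D k L] [FiniteDimensional k L] [Algebra.IsSeparable k L] (z : L)
    (hz : ¬ IsIntegral D z) :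
    ∃ O : Subring L, IsDVRIn O ∧ (∀ d, algebraMap D L d ∈ O) ∧ z ∉ O := by
  have hB : IsDedekindDomain (integralClosure D L) := integralClosure.isDedekindDomain D k L
  have hF : IsFractionRing (integralClosure D L) L :=
    integralClosure.isFractionRing_of_finite_extension k L
  have h1 : z ∉ (⨅ v : HeightOneSpectrum (integralClosure D L),
      Localization.subalgebra.ofField L _ v.asIdeal.primeCompl_le_nonZeroDivisors) := by
    rw [HeightOneSpectrum.iInf_localization_eq_bot]
    rintro ⟨b, hb⟩
    apply hz
    rw [← hb]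
    exact b.2
  rw [Algebra.mem_iInf] at h1
  push Not at h1
  obtain ⟨v, hv⟩ := h1
  set S := Localization.subalgebra.ofField L _ v.asIdeal.primeCompl_le_nonZeroDivisors with hS
  have hloc : IsLocalization.AtPrime S v.asIdeal := by
    rw [hS]
    exact Localization.subalgebra.isLocalization_ofField L _ _
  have hd : IsDiscreteValuationRing S :=
    IsLocalization.AtPrime.isDiscreteValuationRing_of_dedekind_domain (integralClosure D L)
      v.ne_bot S
  have hfr : IsFractionRing S L := by
    rw [hS]
    exact Localization.subalgebra.isFractionRing_ofField L _ _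
  refine ⟨S.toSubring, ⟨hd, hfr⟩, fun d => ?_, hv⟩
  have h2 : algebraMap D L d = algebraMap (integralClosure D L) L (algebraMap D _ d) := rfl
  rw [h2]
  exact S.algebraMap_mem _

section Point

variable (F : Type) [Field F] [CharZero F] {A : Type} [CommRing A] [Algebra F A]

/-- The nonzero polynomials in `u`. -/
noncomputable def polyM (u : A) : Submonoid A :=
  Submonoid.map (Polynomial.aeval (R := F) u) (nonZeroDivisors F[X])

/-- A transcendental element of an algebra of finite type has a pole at some point over a
discrete valuation ring. -/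
theorem exists_point (hA : Algebra.FiniteType F A) (u : A)
    (hu : ∀ p : F[X], Polynomial.aeval u p = 0 → p = 0) :
    ∃ (L : Type) (_ : Field L) (_ : Algebra F L) (O : Subring L) (θ : A →ₐ[F] L),
      IsDVRIn O ∧ (∀ c : F, algebraMap F L c ∈ O) ∧ θ u ∉ O := by
  classical
  have h0 : (0 : A) ∉ polyM F u := by
    rintro ⟨p, hp, hp0⟩
    exact (mem_nonZeroDivisors_iff_ne_zero.1 hp) (hu p hp0)
  have hnt : Nontrivial (Localization (polyM F u)) := by
    by_contra hc
    rw [not_nontrivial_iff_subsingleton] at hc
    exact h0 ((IsLocalization.subsingleton_iff (S := Localization (polyM F u))).1 hc)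
  obtain ⟨m, hm⟩ := Ideal.exists_maximal (Localization (polyM F u))
  let L := Localization (polyM F u) ⧸ m
  letI : Field L := Ideal.Quotient.field m
  let θ : A →ₐ[F] L := (Ideal.Quotient.mkₐ F m).comp
    (IsScalarTower.toAlgHom F A (Localization (polyM F u)))
  have hθM : ∀ p : F[X], p ≠ 0 → Polynomial.aeval (θ u) p ≠ 0 := by
    intro p hp
    have h1 : IsUnit (algebraMap A (Localization (polyM F u)) (Polynomial.aeval u p)) :=
      IsLocalization.map_units (M := polyM F u) _
        (⟨Polynomial.aeval u p, ⟨p, mem_nonZeroDivisors_iff_ne_zero.2 hp, rfl⟩⟩ : polyM F u)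
    have h2 : IsUnit (θ (Polynomial.aeval u p)) := h1.map (Ideal.Quotient.mk m)
    rw [Polynomial.aeval_algHom_apply]
    exact h2.ne_zero
  have hθu : θ u ≠ 0 := by
    have := hθM X X_ne_zero
    rwa [aeval_X] at this
  set s : L := (θ u)⁻¹ with hs
  have hs0 : s ≠ 0 := inv_ne_zero hθu
  have hsp : ∀ p : F[X], p ≠ 0 → Polynomial.aeval s p ≠ 0 := by
    intro p hp
    letI : Invertible s := invertibleOfNonzero hs0
    have h1 := Polynomial.eval₂_reverse_mul_pow (algebraMap F L) s p
    rw [Polynomial.aeval_def, ← h1, invOf_eq_inv, hs, inv_inv]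
    refine mul_ne_zero ?_ (pow_ne_zero _ hs0)
    have h2 := hθM p.reverse (by rwa [Ne, Polynomial.reverse_eq_zero])
    rwa [Polynomial.aeval_def] at h2
  letI algX : Algebra F[X] L := (Polynomial.aeval s : F[X] →ₐ[F] L).toRingHom.toAlgebra
  have hmap : ∀ p : F[X], algebraMap F[X] L p = Polynomial.aeval s p := fun p => rfl
  have hinj : Function.Injective (algebraMap F[X] L) := by
    rw [injective_iff_map_eq_zero]
    intro p hp
    by_contra hp0
    exact hsp p hp0 hp
  letI algk : Algebra (FractionRing F[X]) L := (IsFractionRing.lift hinj).toAlgebra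
  have hlift : ∀ p : F[X], algebraMap (FractionRing F[X]) L (algebraMap F[X] _ p) =
      Polynomial.aeval s p := fun p => IsFractionRing.lift_algebraMap hinj p
  haveI : IsScalarTower F[X] (FractionRing F[X]) L :=
    IsScalarTower.of_algebraMap_eq fun p => (hlift p).symm
  haveI : FaithfulSMul F[X] L := (faithfulSMul_iff_algebraMap_injective _ _).2 hinj
  have hXk : algebraMap (FractionRing F[X]) L (algebraMap F[X] _ X) = s := by
    rw [hlift, aeval_X]
  have hFk : ∀ c : F, algebraMap F L c = algebraMap (FractionRing F[X]) L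
      (algebraMap F[X] _ (C c)) := by
    intro c
    rw [hlift, aeval_C]
  -- finite type over the field of rational functions
  have hft : Algebra.FiniteType (FractionRing F[X]) L := by
    obtain ⟨G, hG⟩ := hA.out
    refine ⟨⟨G.image θ, ?_⟩⟩
    rw [eq_top_iff]
    rintro y -
    set T := Algebra.adjoin (FractionRing F[X]) ((G.image θ : Finset L) : Set L) with hT
    have hθT : ∀ a : A, θ a ∈ T := by
      intro a
      have ha : a ∈ Algebra.adjoin F (G : Set A) := by rw [hG]; trivial
      induction ha using Algebra.adjoin_induction with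
      | mem x hx =>
        exact Algebra.subset_adjoin (by
          rw [Finset.coe_image]
          exact ⟨x, hx, rfl⟩)
      | algebraMap c =>
        rw [AlgHom.commutes, hFk]
        exact T.algebraMap_mem _
      | add x y _ _ hx hy => rw [map_add]; exact T.add_mem hx hy
      | mul x y _ _ hx hy => rw [map_mul]; exact T.mul_mem hx hy
    obtain ⟨b, rfl⟩ := Ideal.Quotient.mk_surjective y
    obtain ⟨⟨a, q⟩, hab⟩ := IsLocalization.surj (polyM F u) b
    obtain ⟨p, hp, hpq⟩ := q.2
    have hp0 : p ≠ 0 := mem_nonZeroDivisors_iff_ne_zero.1 hp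
    have h1 : (Ideal.Quotient.mk m b : L) * θ (q : A) = θ a := by
      have := congrArg (Ideal.Quotient.mk m) hab
      rw [map_mul] at this
      exact this
    have h2 : θ (q : A) ≠ 0 := by
      rw [← hpq]
      change θ (Polynomial.aeval u p) ≠ 0
      rw [← Polynomial.aeval_algHom_apply]
      exact hθM p hp0
    have h3 : ∃ c : FractionRing F[X], algebraMap _ L c = θ (q : A) := by
      refine ⟨Polynomial.aeval ((algebraMap F[X] (FractionRing F[X]) X)⁻¹) p, ?_⟩
      have e1 : θ (q : A) = Polynomial.eval₂ (algebraMap F L) (θ u) p := by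
        rw [← hpq]
        change θ (Polynomial.aeval u p) = _
        rw [← Polynomial.aeval_algHom_apply, Polynomial.aeval_def]
      rw [e1, Polynomial.aeval_def, Polynomial.hom_eval₂, map_inv₀, hXk, hs, inv_inv]
      congr 1
      ext c
      rw [RingHom.comp_apply, hFk]
      rfl
    obtain ⟨c, hc⟩ := h3
    have h4 : (Ideal.Quotient.mk m b : L) = θ a * algebraMap (FractionRing F[X]) L c⁻¹ := by
      rw [map_inv₀, hc, ← h1, mul_assoc, mul_inv_cancel₀ h2, mul_one]
    rw [h4]
    exact T.mul_mem (hθT a) (T.algebraMap_mem _)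
  have hfin : Module.Finite (FractionRing F[X]) L :=
    finite_of_finite_type_of_isJacobsonRing _ _
  have hchar : CharZero (FractionRing F[X]) :=
    charZero_of_injective_algebraMap (IsFractionRing.injective F[X] (FractionRing F[X]))
  have hsep : Algebra.IsSeparable (FractionRing F[X]) L := inferInstance
  have hz : ¬ IsIntegral F[X] (θ u) := by
    intro hint
    have h1 : θ u = algebraMap (FractionRing F[X]) L ((algebraMap F[X] _ X)⁻¹) := by
      rw [map_inv₀, hXk, hs, inv_inv]
    rw [h1, isIntegral_algebraMap_iff (algebraMap (FractionRing F[X]) L).injective] at hint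
    obtain ⟨y, hy⟩ := (IsIntegrallyClosed.isIntegral_iff (R := F[X])).1 hint
    have h2 : X * y = (1 : F[X]) := by
      apply IsFractionRing.injective F[X] (FractionRing F[X])
      rw [map_mul, hy, map_one]
      exact mul_inv_cancel₀ (by
        rw [Ne, FaithfulSMul.algebraMap_eq_zero_iff]
        exact X_ne_zero)
    exact Polynomial.not_isUnit_X (IsUnit.of_mul_eq_one y h2)
  obtain ⟨O, hO, hDO, hzO⟩ := exists_dvr F[X] (FractionRing F[X]) L (θ u) hz
  refine ⟨L, inferInstance, inferInstance, O, θ, hO, fun c => ?_, hzO⟩
  have := hDO (C c)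
  rw [hmap, aeval_C] at this
  exact this

end Point

/-- A polynomial function on a complex algebraic set which is integral at all points over discrete
valuation rings which contain `ℂ` takes only finitely many values. -/
theorem fin_of_dvr {σ : Type} [Fintype σ] (J : Set (MvPolynomial σ ℂ)) (f : MvPolynomial σ ℂ)
    (h : ∀ (K : Type) [Field K] [Algebra ℂ K] (O : Subring K), IsDVRIn O →
      (∀ c : ℂ, algebraMap ℂ K c ∈ O) → ∀ x : σ → K,
      (∀ p ∈ J, MvPolynomial.aeval x p = 0) → MvPolynomial.aeval x f ∈ O) :
    {z : ℂ | ∃ x : σ → ℂ, (∀ p ∈ J, MvPolynomial.eval x p = 0) ∧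
      z = MvPolynomial.eval x f}.Finite := by
  classical
  set I : Ideal (MvPolynomial σ ℂ) := Ideal.span J with hI
  by_cases hex : ∃ p : Polynomial ℂ, p ≠ 0 ∧
      Polynomial.aeval (Ideal.Quotient.mk I f) p = 0
  · obtain ⟨p, hp0, hp⟩ := hex
    refine (p.rootSet_finite ℂ).subset ?_
    rintro z ⟨x, hx, rfl⟩
    rw [Polynomial.mem_rootSet]
    refine ⟨hp0, ?_⟩
    have hxI : ∀ q ∈ I, MvPolynomial.aeval x q = (0 : ℂ) := by
      intro q hq
      have hle : I ≤ RingHom.ker (MvPolynomial.aeval (R := ℂ) x).toRingHom := by
        rw [hI, Ideal.span_le]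
        intro r hr
        have := hx r hr
        simpa [RingHom.mem_ker, MvPolynomial.coe_aeval_eq_eval] using this
      exact hle hq
    let ψ : (MvPolynomial σ ℂ ⧸ I) →ₐ[ℂ] ℂ :=
      Ideal.Quotient.liftₐ I (MvPolynomial.aeval x) hxI
    have hψ : ψ (Ideal.Quotient.mk I f) = MvPolynomial.eval x f := by
      have : ψ (Ideal.Quotient.mk I f) = MvPolynomial.aeval x f :=
        Ideal.Quotient.liftₐ_apply I (MvPolynomial.aeval x) hxI (Ideal.Quotient.mk I f)
      rw [this]
      exact RingHom.congr_fun (MvPolynomial.coe_aeval_eq_eval x) f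
    have h4 : Polynomial.aeval (ψ (Ideal.Quotient.mk I f)) p = 0 := by
      rw [Polynomial.aeval_algHom_apply, hp, map_zero]
    rwa [hψ] at h4
  · exfalso
    have hu : ∀ p : Polynomial ℂ, Polynomial.aeval (Ideal.Quotient.mk I f) p = 0 → p = 0 := by
      intro p hp
      by_contra h0
      exact hex ⟨p, h0, hp⟩
    obtain ⟨L, iL, iA, O, θ, hO, hC, hnot⟩ := exists_point ℂ
      (A := MvPolynomial σ ℂ ⧸ I) inferInstance (Ideal.Quotient.mk I f) hu
    apply hnot
    have hev : ∀ p : MvPolynomial σ ℂ,
        MvPolynomial.aeval (fun i => θ (Ideal.Quotient.mk I (MvPolynomial.X i))) p =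
          θ (Ideal.Quotient.mk I p) := by
      intro p
      have h1 : (MvPolynomial.aeval (R := ℂ) fun i =>
          θ (Ideal.Quotient.mk I (MvPolynomial.X i))) =
          θ.comp (Ideal.Quotient.mkₐ ℂ I) := by
        apply MvPolynomial.algHom_ext
        intro i
        rw [MvPolynomial.aeval_X]
        rfl
      exact AlgHom.congr_fun h1 p
    rw [← hev]
    refine h L O hO hC _ fun p hp => ?_
    rw [hev, Ideal.Quotient.eq_zero_iff_mem.2 (Ideal.subset_span hp), map_zero]

/-- An algebra of finite type has a point over a finite extension. -/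
theorem exists_fin_point (F A : Type) [Field F] [CommRing A] [Algebra F A] [Nontrivial A]
    (hA : Algebra.FiniteType F A) :
    ∃ (L : Type) (_ : Field L) (_ : Algebra F L) (_ : A →ₐ[F] L), Module.Finite F L := by
  obtain ⟨m, hm⟩ := Ideal.exists_maximal A
  let L := A ⧸ m
  letI : Field L := Ideal.Quotient.field m
  let θ : A →ₐ[F] L := Ideal.Quotient.mkₐ F m
  have h1 : Algebra.FiniteType F L := Algebra.FiniteType.of_surjective θ
    (Ideal.Quotient.mkₐ_surjective F m)
  exact ⟨L, inferInstance, inferInstance, θ, finite_of_finite_type_of_isJacobsonRing F L⟩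

/-- A complex number in a finitely generated ring is an algebraic integer if all its images in
fraction fields of discrete valuation rings are in these rings. -/
theorem int_of_dvr (S : Set ℂ) (hS : S.Finite) (z : ℂ) (hz : z ∈ Algebra.adjoin ℤ S)
    (h : ∀ (K : Type) [Field K] [CharZero K] (O : Subring K), IsDVRIn O →
      ∀ θ : Algebra.adjoin ℤ S →+* K, θ ⟨z, hz⟩ ∈ O) : IsIntegral ℤ z := by
  classical
  by_contra hint
  have hle : Algebra.adjoin ℤ S ≤ (Algebra.adjoin ℚ S).restrictScalars ℤ :=
    Algebra.adjoin_le Algebra.subset_adjoin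
  let ι : Algebra.adjoin ℤ S →+* Algebra.adjoin ℚ S := (Subalgebra.inclusion hle).toRingHom
  have hft : Algebra.FiniteType ℚ (Algebra.adjoin ℚ S) :=
    (Subalgebra.fg_iff_finiteType _).1 (Subalgebra.fg_def.2 ⟨S, hS, rfl⟩)
  have hzι : ι ⟨z, hz⟩ = ⟨z, hle hz⟩ := rfl
  by_cases htr : ∀ p : Polynomial ℚ, Polynomial.aeval z p = 0 → p = 0
  · have hu : ∀ p : Polynomial ℚ,
        Polynomial.aeval (⟨z, hle hz⟩ : Algebra.adjoin ℚ S) p = 0 → p = 0 := by
      intro p hp
      apply htr
      have h1 := congrArg (Subalgebra.val (Algebra.adjoin ℚ S)) hp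
      rw [← Polynomial.aeval_algHom_apply, map_zero] at h1
      exact h1
    obtain ⟨L, iL, iA, O, θ, hO, -, hnot⟩ := exists_point ℚ hft _ hu
    have : CharZero L := charZero_of_injective_algebraMap (algebraMap ℚ L).injective
    exact hnot (h L O hO (θ.toRingHom.comp ι))
  · push Not at htr
    obtain ⟨p0, hp0, hp0'⟩ := htr
    have halg : IsIntegral ℚ z := by
      rw [← isAlgebraic_iff_isIntegral]
      exact ⟨p0, hp0', hp0⟩
    obtain ⟨L, iL, iA, θ, hfin⟩ := exists_fin_point ℚ (Algebra.adjoin ℚ S) hft
    have : CharZero L := charZero_of_injective_algebraMap (algebraMap ℚ L).injective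
    set y : L := θ ⟨z, hle hz⟩ with hy
    have hroot : Polynomial.aeval y (minpoly ℚ z) = 0 := by
      rw [hy, Polynomial.aeval_algHom_apply]
      have h1 : Polynomial.aeval (⟨z, hle hz⟩ : Algebra.adjoin ℚ S) (minpoly ℚ z) = 0 := by
        apply Subtype.ext
        have h2 := Polynomial.aeval_algHom_apply (Subalgebra.val (Algebra.adjoin ℚ S))
          ⟨z, hle hz⟩ (minpoly ℚ z)
        have h3 : Polynomial.aeval z (minpoly ℚ z) = 0 := minpoly.aeval ℚ z
        exact h2.symm.trans h3
      rw [h1, map_zero]
    have hmin : minpoly ℚ y = minpoly ℚ z :=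
      (minpoly.eq_of_irreducible_of_monic (minpoly.irreducible halg) hroot
        (minpoly.monic halg)).symm
    have hni : ¬ IsIntegral ℤ y := by
      intro hyi
      apply hint
      have h1 := minpoly.isIntegrallyClosed_eq_field_fractions' ℚ hyi
      refine ⟨minpoly ℤ y, minpoly.monic hyi, ?_⟩
      have h2 : Polynomial.aeval z (minpoly ℚ y) = 0 := by
        rw [hmin]
        exact minpoly.aeval ℚ z
      rw [h1, Polynomial.aeval_map_algebraMap] at h2
      exact h2
    obtain ⟨O, hO, -, hnot⟩ := exists_dvr ℤ ℚ L y hni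
    exact hnot (h L O hO (θ.toRingHom.comp ι))

end Pool.Agent.R3S
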