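import Pool.Agent.R3S.St
import Pool.Agent.R3S.Tool

/-!
# R3S GG: Lemma G
-/

set_option autoImplicit false

namespace R3S

open Matrix

section

variable {K : Type} [Field K] {O : ValuationSubring K} {t : K}

/-- the stabiliser of a lattice -/
private def GG_stab (W : Submodule O (V K)) : Subgroup (GL (Fin 3) K) where
  carrier := {γ | Stb γ W}
  mul_mem' h1 h2 := Stb.mul h1 h2
  one_mem' := Stb.one W
  inv_mem' h := Stb.inv h

/-- the energy at the vertex `i` -/
private noncomputable def GG_A (t : K) (L : Fin 4 → Submodule O (V K)) (i : Fin 4) : ℕ :=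
  ∑ k : Fin 3, en t (L i) (L (i.succAbove k))

/-- the energy of the opposite triangle -/
private noncomputable def GG_R (t : K) (L : Fin 4 → Submodule O (V K)) (i : Fin 4) : ℕ :=
  en t (L (i.succAbove 0)) (L (i.succAbove 1)) + en t (L (i.succAbove 0)) (L (i.succAbove 2)) +
    en t (L (i.succAbove 1)) (L (i.succAbove 2))

private theorem GG_sum (h : Unif O t) (hSYM : St_SYM) {L : Fin 4 → Submodule O (V K)}
    (hL : ∀ i, IsLat O (L i)) :
    (∀ i, GG_A t L i + GG_R t L i = GG_A t L 0 + GG_R t L 0) ∧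
      ∑ i, GG_A t L i = ∑ i, GG_R t L i := by
  have hs : ∀ i j, en t (L i) (L j) = en t (L j) (L i) := fun i j =>
    (hSYM K O t h (L i) (L j) (hL i) (hL j)).1
  have a00 : (Fin.succAbove (0 : Fin 4) (0 : Fin 3)) = 1 := rfl
  have a01 : (Fin.succAbove (0 : Fin 4) (1 : Fin 3)) = 2 := rfl
  have a02 : (Fin.succAbove (0 : Fin 4) (2 : Fin 3)) = 3 := rfl
  have a10 : (Fin.succAbove (1 : Fin 4) (0 : Fin 3)) = 0 := rfl
  have a11 : (Fin.succAbove (1 : Fin 4) (1 : Fin 3)) = 2 := rfl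
  have a12 : (Fin.succAbove (1 : Fin 4) (2 : Fin 3)) = 3 := rfl
  have a20 : (Fin.succAbove (2 : Fin 4) (0 : Fin 3)) = 0 := rfl
  have a21 : (Fin.succAbove (2 : Fin 4) (1 : Fin 3)) = 1 := rfl
  have a22 : (Fin.succAbove (2 : Fin 4) (2 : Fin 3)) = 3 := rfl
  have a30 : (Fin.succAbove (3 : Fin 4) (0 : Fin 3)) = 0 := rfl
  have a31 : (Fin.succAbove (3 : Fin 4) (1 : Fin 3)) = 1 := rfl
  have a32 : (Fin.succAbove (3 : Fin 4) (2 : Fin 3)) = 2 := rfl
  have A0 : GG_A t L 0 = en t (L 0) (L 1) + en t (L 0) (L 2) + en t (L 0) (L 3) := by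
    rw [GG_A, Fin.sum_univ_three, a00, a01, a02]
  have A1 : GG_A t L 1 = en t (L 0) (L 1) + en t (L 1) (L 2) + en t (L 1) (L 3) := by
    rw [GG_A, Fin.sum_univ_three, a10, a11, a12, hs 1 0]
  have A2 : GG_A t L 2 = en t (L 0) (L 2) + en t (L 1) (L 2) + en t (L 2) (L 3) := by
    rw [GG_A, Fin.sum_univ_three, a20, a21, a22, hs 2 0, hs 2 1]
  have A3 : GG_A t L 3 = en t (L 0) (L 3) + en t (L 1) (L 3) + en t (L 2) (L 3) := by
    rw [GG_A, Fin.sum_univ_three, a30, a31, a32, hs 3 0, hs 3 1, hs 3 2]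
  have R0 : GG_R t L 0 = en t (L 1) (L 2) + en t (L 1) (L 3) + en t (L 2) (L 3) := by
    rw [GG_R, a00, a01, a02]
  have R1 : GG_R t L 1 = en t (L 0) (L 2) + en t (L 0) (L 3) + en t (L 2) (L 3) := by
    rw [GG_R, a10, a11, a12]
  have R2 : GG_R t L 2 = en t (L 0) (L 1) + en t (L 0) (L 3) + en t (L 1) (L 3) := by
    rw [GG_R, a20, a21, a22]
  have R3 : GG_R t L 3 = en t (L 0) (L 1) + en t (L 0) (L 2) + en t (L 1) (L 2) := by
    rw [GG_R, a30, a31, a32]
  refine ⟨?_, ?_⟩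
  · intro i
    fin_cases i
    · rfl
    · change GG_A t L 1 + GG_R t L 1 = _
      rw [A0, R0, A1, R1]
      ring
    · change GG_A t L 2 + GG_R t L 2 = _
      rw [A0, R0, A2, R2]
      ring
    · change GG_A t L 3 + GG_R t L 3 = _
      rw [A0, R0, A3, R3]
      ring
  · rw [Fin.sum_univ_four, Fin.sum_univ_four, A0, A1, A2, A3, R0, R1, R2, R3]
    ring

private theorem GG_upd (i : Fin 4) (L : Fin 4 → Submodule O (V K)) (W : Submodule O (V K)) :
    GG_A t (Function.update L i W) i = ∑ k : Fin 3, en t W (L (i.succAbove k)) ∧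
      GG_R t (Function.update L i W) i = GG_R t L i := by
  have h1 : ∀ k : Fin 3, Function.update L i W (i.succAbove k) = L (i.succAbove k) := fun k =>
    Function.update_of_ne (Fin.succAbove_ne i k) _ _
  constructor
  · rw [GG_A, Function.update_self]
    exact Finset.sum_congr rfl fun k _ => by rw [h1]
  · rw [GG_R, GG_R, h1, h1, h1]

private theorem GG_en (hEV : St_EV) (h : Unif O t) {L L' : Submodule O (V K)} {p q : ℕ}
    {P l : Submodule O (V K)} (hD : Dat t L L' p q P l) :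
    (en t L L' : ℤ) = 2 * (p ^ 2 + p * q + q ^ 2) := by
  obtain ⟨f, s, hA, -, -⟩ := hD
  rw [hEV K O t h f L L' _ hA, Fin.sum_univ_three, Fin.sum_univ_three]
  simp only [Matrix.cons_val_zero, Matrix.cons_val_one, Matrix.cons_val]
  ring

private theorem GG_Pt {L L' : Submodule O (V K)} {p q : ℕ}
    {P l : Submodule O (V K)} (hD : Dat t L L' p q P l) : Pt t L P ∧ Ln t L l := by
  obtain ⟨f, s, hA, hP, hl⟩ := hD
  exact ⟨⟨f, hA.1, hA.2.1, hP⟩, ⟨f, hA.1, hA.2.1, hl⟩⟩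

private theorem GG_le (h : Unif O t) {L L' : Submodule O (V K)} {p q : ℕ}
    {P l : Submodule O (V K)} (hD : Dat t L L' p q P l) : P ≤ l := by
  obtain ⟨f, s, hA, hP, hl⟩ := hD
  rw [hP, sp_le_iff]
  have h0 : f 0 ∈ l := by
    rw [hl]
    exact self_mem_sp (O := O) ![f 0, f 1, t • f 2] 0
  have h1 : f 1 ∈ l := by
    rw [hl]
    exact self_mem_sp (O := O) ![f 0, f 1, t • f 2] 1
  have h2 : t • f 2 ∈ l := by
    rw [hl]
    exact self_mem_sp (O := O) ![f 0, f 1, t • f 2] 2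
  intro i
  fin_cases i
  · exact h0
  · exact smul_mem_K _ h.mem h1
  · exact h2

end

theorem thm_GG (hSNF : St_SNF) (hEV : St_EV) (hSYM : St_SYM) (hSTB : St_STB) (hMVP : St_MVP)
    (hMVL : St_MVL) (hTRI : St_TRI) (hLOC : St_LOC) : St_GG := by
  intro K _ O t h H E hB hsym hE hgen
  classical
  -- a minimal family
  let Good : (Fin 4 → Submodule O (V K)) → Prop := fun L =>
    ∀ i, IsLat O (L i) ∧ ∀ γ ∈ H i, Stb γ (L i)
  have hex : ∃ n : ℕ, ∃ L, Good L ∧ GG_A t L 0 + GG_R t L 0 = n := by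
    choose L hL using hB
    exact ⟨_, L, fun i => hL i, rfl⟩
  obtain ⟨L, hL, hn⟩ := Nat.find_spec hex
  have hmin : ∀ L', Good L' → GG_A t L 0 + GG_R t L 0 ≤ GG_A t L' 0 + GG_R t L' 0 := by
    intro L' hL'
    rw [hn]
    exact Nat.find_min' hex ⟨L', hL', rfl⟩
  have hlat : ∀ i, IsLat O (L i) := fun i => (hL i).1
  -- moving one vertex
  have hmove : ∀ (i : Fin 4) (W : Submodule O (V K)), IsLat O W → (∀ γ ∈ H i, Stb γ W) →
      ∑ k : Fin 3, en t (L i) (L (i.succAbove k)) ≤ ∑ k : Fin 3, en t W (L (i.succAbove k)) := by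
    intro i W hW hW'
    have hG : Good (Function.update L i W) := by
      intro j
      by_cases hj : j = i
      · subst hj
        rw [Function.update_self]
        exact ⟨hW, hW'⟩
      · rw [Function.update_of_ne hj]
        exact hL j
    have h1 := hmin _ hG
    rw [← (GG_sum h hSYM hlat).1 i, ← (GG_sum h hSYM fun j => (hG j).1).1 i,
      (GG_upd i L W).1, (GG_upd i L W).2] at h1
    have h2 : GG_A t L i = ∑ k : Fin 3, en t (L i) (L (i.succAbove k)) := rfl
    omega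
  -- the data
  have hdat : ∀ (i : Fin 4) (k : Fin 3), ∃ p q P l, Dat t (L i) (L (i.succAbove k)) p q P l :=
    fun i k => hSNF K O t h _ _ (hlat i) (hlat _)
  choose p q P l hD using hdat
  have hstab : ∀ (i : Fin 4) (k : Fin 3), ∀ γ ∈ E i (i.succAbove k),
      (0 < p i k → Stb γ (P i k)) ∧ (0 < q i k → Stb γ (l i k)) := by
    intro i k γ hγ
    refine hSTB K O t h _ _ _ _ _ _ (hD i k) γ ((hL i).2 γ (hE i _ (Fin.succAbove_ne i k).symm hγ))
      ((hL _).2 γ (hE _ i (Fin.succAbove_ne i k) ?_))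
    rw [← hsym]
    exact hγ
  have hshare : ∀ (i : Fin 4) (k k' : Fin 3), k ≠ k' → ∀ W : Submodule O (V K),
      (∀ γ ∈ E i (i.succAbove k), Stb γ W) → (∀ γ ∈ E i (i.succAbove k'), Stb γ W) →
      ∀ γ ∈ H i, Stb γ W := by
    intro i k k' hk W h1 h2
    have h3 : H i ≤ GG_stab W := by
      refine (hgen i (i.succAbove k) (i.succAbove k') (Fin.succAbove_ne i k).symm
        (Fin.succAbove_ne i k').symm fun h => hk (Fin.succAbove_right_injective h)).trans
        (sup_le h1 h2)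
    exact h3
  have hN : ∀ i : Fin 4, ((GG_A t L i : ℕ) : ℤ) =
      ∑ k, (2 * (p i k ^ 2 + p i k * q i k + q i k ^ 2) : ℤ) := by
    intro i
    rw [GG_A, Nat.cast_sum]
    exact Finset.sum_congr rfl fun k _ => GG_en hEV h (hD i k)
  let S : Fin 4 → ℤ := fun i =>
    sc (fun x y : Submodule O (V K) => x ≤ y) (P i) (l i) (p i) (q i) 0 1 +
      sc (fun x y : Submodule O (V K) => x ≤ y) (P i) (l i) (p i) (q i) 0 2 +
      sc (fun x y : Submodule O (V K) => x ≤ y) (P i) (l i) (p i) (q i) 1 2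
  have hloc : ∀ i : Fin 4, 0 < ((GG_A t L i : ℕ) : ℤ) → 2 * S i < ((GG_A t L i : ℕ) : ℤ) := by
    intro i hi
    rw [hN] at hi ⊢
    refine hLOC _ _ (fun x y : Submodule O (V K) => x ≤ y) (P i) (l i) (p i) (q i)
      (fun k => GG_le h (hD i k)) ?_ ?_ hi
    · intro k k' hkk hP hk hk'
      have hW : ∀ γ ∈ H i, Stb γ (P i k) := hshare i k k' hkk _
        (fun γ hγ => (hstab i k γ hγ).1 hk)
        (fun γ hγ => by rw [hP]; exact (hstab i k' γ hγ).1 hk')
      have hPt := (GG_Pt (hD i k)).1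
      have h1 := fun j => hMVP K O t h _ _ _ _ _ _ (hD i j) _ hPt
      have h2 := hmove i (up t (P i k)) (h1 k).1 fun γ hγ => stb_up (hW γ hγ)
      have h3 : ((∑ j : Fin 3, en t (L i) (L (i.succAbove j)) : ℕ) : ℤ) ≤
          ((∑ j : Fin 3, en t (up t (P i k)) (L (i.succAbove j)) : ℕ) : ℤ) := by exact_mod_cast h2
      rw [Nat.cast_sum, Nat.cast_sum, Finset.sum_congr rfl fun j _ => (h1 j).2,
        Fin.sum_univ_three, Fin.sum_univ_three] at h3
      rw [Fin.sum_univ_three]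
      linarith
    · intro k k' hkk hP hk hk'
      have hW : ∀ γ ∈ H i, Stb γ (l i k) := hshare i k k' hkk _
        (fun γ hγ => (hstab i k γ hγ).2 hk)
        (fun γ hγ => by rw [hP]; exact (hstab i k' γ hγ).2 hk')
      have hLn := (GG_Pt (hD i k)).2
      have h1 := fun j => hMVL K O t h _ _ _ _ _ _ (hD i j) _ hLn
      have h2 := hmove i (up t (l i k)) (h1 k).1 fun γ hγ => stb_up (hW γ hγ)
      have h3 : ((∑ j : Fin 3, en t (L i) (L (i.succAbove j)) : ℕ) : ℤ) ≤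
          ((∑ j : Fin 3, en t (up t (l i k)) (L (i.succAbove j)) : ℕ) : ℤ) := by exact_mod_cast h2
      rw [Nat.cast_sum, Nat.cast_sum, Finset.sum_congr rfl fun j _ => (h1 j).2,
        Fin.sum_univ_three, Fin.sum_univ_three] at h3
      rw [Fin.sum_univ_three]
      linarith
  have hloc0 : ∀ i : Fin 4, 2 * S i ≤ ((GG_A t L i : ℕ) : ℤ) := by
    intro i
    rcases Nat.eq_zero_or_pos (GG_A t L i) with h0 | h0
    · have h1 := hN i
      rw [h0] at h1
      have hpq : ∀ k, p i k = 0 ∧ q i k = 0 := by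
        intro k
        have h2 : ∀ j : Fin 3, (0 : ℤ) ≤ 2 * (p i j ^ 2 + p i j * q i j + q i j ^ 2) := fun j => by
          positivity
        have h3 := (Finset.sum_eq_zero_iff_of_nonneg fun j _ => h2 j).1 h1.symm k
          (Finset.mem_univ k)
        have h4 : (p i k ^ 2 + p i k * q i k + q i k ^ 2 : ℕ) = 0 := by
          have : (2 : ℤ) * ((p i k ^ 2 + p i k * q i k + q i k ^ 2 : ℕ) : ℤ) = 0 := by
            push_cast
            exact h3
          omega
        have h5 : p i k ^ 2 = 0 := by omega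
        have h6 : q i k ^ 2 = 0 := by omega
        exact ⟨pow_eq_zero_iff (two_ne_zero) |>.1 h5, pow_eq_zero_iff (two_ne_zero) |>.1 h6⟩
      have hS : S i = 0 := by
        change sc _ _ _ _ _ 0 1 + sc _ _ _ _ _ 0 2 + sc _ _ _ _ _ 1 2 = 0
        simp only [sc, (hpq 0).1, (hpq 0).2, (hpq 1).1, (hpq 1).2, Nat.cast_zero, zero_mul,
          add_zero]
      rw [hS, h0]
      simp
    · exact (hloc i (by exact_mod_cast h0)).le
  have htri : ∀ i : Fin 4, 2 * ((GG_A t L i : ℕ) : ℤ) - 2 * S i ≤ ((GG_R t L i : ℕ) : ℤ) := by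
    intro i
    have h1 := hTRI K O t h _ _ _ _ _ _ _ _ _ _ _ (hD i 0) (hD i 1)
    have h2 := hTRI K O t h _ _ _ _ _ _ _ _ _ _ _ (hD i 0) (hD i 2)
    have h3 := hTRI K O t h _ _ _ _ _ _ _ _ _ _ _ (hD i 1) (hD i 2)
    rw [GG_A, GG_R, Fin.sum_univ_three]
    push_cast
    change _ - 2 * (sc _ _ _ _ _ 0 1 + sc _ _ _ _ _ 0 2 + sc _ _ _ _ _ 1 2) ≤ _
    simp only [sc]
    linarith
  have hsum := (GG_sum h hSYM hlat).2
  have hsum' : ∑ i, ((GG_A t L i : ℕ) : ℤ) = ∑ i, ((GG_R t L i : ℕ) : ℤ) := by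
    exact_mod_cast hsum
  have hle : ∑ i, ((GG_A t L i : ℕ) : ℤ) ≤ ∑ i, 2 * S i := by
    have h1 := Finset.sum_le_sum fun i (_ : i ∈ Finset.univ) => htri i
    rw [← hsum', Finset.sum_sub_distrib, ← Finset.mul_sum] at h1
    linarith
  have hzero : ∀ i, GG_A t L i = 0 := by
    by_contra hne
    push Not at hne
    obtain ⟨i, hi⟩ := hne
    have h1 : ∑ i, 2 * S i < ∑ i, ((GG_A t L i : ℕ) : ℤ) :=
      Finset.sum_lt_sum (fun j _ => hloc0 j)
        ⟨i, Finset.mem_univ i, hloc i (by exact_mod_cast Nat.pos_of_ne_zero hi)⟩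
    exact absurd hle (not_le.2 h1)
  refine ⟨L 0, hlat 0, ?_⟩
  rintro γ ⟨i, hγ⟩
  by_cases hi : i = 0
  · subst hi
    exact (hL 0).2 γ hγ
  · obtain ⟨k, hk⟩ := Fin.exists_succAbove_eq (x := 0) (y := i) (Ne.symm hi)
    have h1 : en t (L i) (L (i.succAbove k)) = 0 := by
      have h2 := hzero i
      rw [GG_A, Finset.sum_eq_zero_iff] at h2
      exact h2 k (Finset.mem_univ k)
    rw [hk] at h1
    exact (hSYM K O t h _ _ (hlat i) (hlat 0)).2 h1 γ ((hL i).2 γ hγ)

end R3S
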