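import Pool.Agent.R3S.St

/-!
# R3S, module HEL: Helly property, triples are enough
-/

set_option autoImplicit false

namespace R3S

theorem HEL_mono {K : Type} [Field K] {O : ValuationSubring K} {S T : Set (GL (Fin 3) K)}
    (h : T ⊆ S) (hS : Bd O S) : Bd O T := by
  obtain ⟨L, hL, h1⟩ := hS
  exact ⟨L, hL, fun γ hγ => h1 γ (h hγ)⟩

theorem HEL_empty {K : Type} [Field K] (O : ValuationSubring K) :
    Bd O (∅ : Set (GL (Fin 3) K)) := by
  refine ⟨sp O (fun i => Pi.basisFun K (Fin 3) i), ⟨_, ?_, rfl⟩, fun γ hγ => absurd hγ (by simp)⟩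
  exact (Pi.basisFun K (Fin 3)).linearIndependent

theorem HEL_fin (h1 : St_GG) (h2 : St_BAS) {K : Type} [Field K] {O : ValuationSubring K} {t : K}
    (ht : Unif O t) {n : ℕ} {y : Fin n → GL (Fin 3) K}
    (hy : ∀ i j k, Bd O {y i, y j, y k}) (c : ℕ) :
    ∀ I : Finset (Fin n), I.card = c → Bd O (y '' (I : Set (Fin n))) := by
  induction c using Nat.strong_induction_on with
  | _ c ih =>
    intro I hI
    by_cases h4 : 4 ≤ c
    · obtain ⟨J, hJI, hJ⟩ := Finset.exists_subset_card_eq (hI ▸ h4)
      let e : Fin 4 ≃ J := (Finset.equivFinOfCardEq hJ).symm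
      let d : Fin 4 → Fin n := fun m => (e m).1
      have hd : ∀ m, d m ∈ I := fun m => hJI (e m).2
      have hinj : ∀ m m', m ≠ m' → d m ≠ d m' := fun m m' h h' =>
        h (e.injective (Subtype.ext h'))
      let H : Fin 4 → Subgroup (GL (Fin 3) K) := fun m =>
        Subgroup.closure (y '' ((I.erase (d m) : Finset (Fin n)) : Set (Fin n)))
      let E : Fin 4 → Fin 4 → Subgroup (GL (Fin 3) K) := fun m m' =>
        Subgroup.closure (y '' (((I.erase (d m)).erase (d m') : Finset (Fin n)) : Set (Fin n)))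
      have hH : ∀ i, Bd O (H i : Set (GL (Fin 3) K)) := fun i => by
        refine (h2 K O).1 _ (ih (c - 1) (by omega) (I.erase (d i)) ?_)
        rw [Finset.card_erase_of_mem (hd i), hI]
      have hE : ∀ i j, E i j = E j i := fun i j => by
        change Subgroup.closure (y '' _) = Subgroup.closure (y '' _)
        rw [Finset.erase_right_comm]
      have hEH : ∀ i j, i ≠ j → E i j ≤ H i := fun i j _ => by
        refine Subgroup.closure_mono (Set.image_mono ?_)
        exact Finset.coe_subset.2 (Finset.erase_subset _ _)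
      have hgen : ∀ i j k, i ≠ j → i ≠ k → j ≠ k → H i ≤ E i j ⊔ E i k := by
        intro i j k _ _ hjk
        refine (Subgroup.closure_le _).2 ?_
        rintro _ ⟨a, ha, rfl⟩
        have ha' : a ∈ I.erase (d i) := ha
        by_cases haj : a = d j
        · refine (le_sup_right : E i k ≤ E i j ⊔ E i k) (Subgroup.subset_closure ⟨a, ?_, rfl⟩)
          refine Finset.mem_coe.2 (Finset.mem_erase.2 ⟨?_, ha'⟩)
          rw [haj]
          exact hinj j k hjk
        · refine (le_sup_left : E i j ≤ E i j ⊔ E i k) (Subgroup.subset_closure ⟨a, ?_, rfl⟩)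
          exact Finset.mem_coe.2 (Finset.mem_erase.2 ⟨haj, ha'⟩)
      have hG := h1 K O t ht H E hH hE hEH hgen
      refine HEL_mono ?_ hG
      rintro _ ⟨a, ha, rfl⟩
      have ha' : a ∈ I := ha
      by_cases ha0 : a = d 0
      · refine ⟨1, Subgroup.subset_closure ⟨a, ?_, rfl⟩⟩
        refine Finset.mem_coe.2 (Finset.mem_erase.2 ⟨?_, ha'⟩)
        rw [ha0]
        exact hinj 0 1 (by decide)
      · exact ⟨0, Subgroup.subset_closure ⟨a, Finset.mem_coe.2
          (Finset.mem_erase.2 ⟨ha0, ha'⟩), rfl⟩⟩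
    · have hc : c = 0 ∨ c = 1 ∨ c = 2 ∨ c = 3 := by omega
      rcases hc with rfl | rfl | rfl | rfl
      · rw [Finset.card_eq_zero.1 hI]
        rw [Finset.coe_empty, Set.image_empty]
        exact HEL_empty O
      · obtain ⟨i, rfl⟩ := Finset.card_eq_one.1 hI
        refine HEL_mono ?_ (hy i i i)
        rintro _ ⟨a, ha, rfl⟩
        have ha' : a = i := by simpa using ha
        rw [ha']
        simp
      · obtain ⟨i, j, _, rfl⟩ := Finset.card_eq_two.1 hI
        refine HEL_mono ?_ (hy i i j)
        rintro _ ⟨a, ha, rfl⟩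
        have ha' : a = i ∨ a = j := by simpa using ha
        rcases ha' with rfl | rfl <;> simp
      · obtain ⟨i, j, k, _, _, _, rfl⟩ := Finset.card_eq_three.1 hI
        refine HEL_mono ?_ (hy i j k)
        rintro _ ⟨a, ha, rfl⟩
        have ha' : a = i ∨ a = j ∨ a = k := by simpa using ha
        rcases ha' with rfl | rfl | rfl <;> simp

theorem thm_HEL (h1 : St_GG) (h2 : St_BAS) : St_HEL := by
  intro K _ O t ht n y hy
  have h := HEL_fin h1 h2 ht hy _ Finset.univ rfl
  rwa [Finset.coe_univ, Set.image_univ] at h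

end R3S
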