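import Pool.Agent.R3S.St2

/-!
# R3S: hyperelliptic curves
-/

set_option autoImplicit false

namespace R3S

open Matrix
open Pool.Agent.H2R (IsVanishing)
open Pool.Agent.Helper33.RT

theorem thm_HYI (h1 : St_CHI) (h2 : St_BAS) : St_HYI := by
  intro g _
  obtain ⟨L, hfin, hL, h⟩ := h1 (2 * g)
  have h0 : 2 * g < 2 * g + 2 := by omega
  refine ⟨FreeGroup.lift (cC (2 * g + 2) (2 * g) h0) '' L, hfin.image _, ?_, ?_⟩
  · rintro _ ⟨w, hw, rfl⟩
    refine loop_of_vanishing h0 _ ?_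
    have h3 := (hL w hw).map (FreeGroup.lift (cC (2 * g + 2) (2 * g) h0))
    have e : (fun i => FreeGroup.lift (cC (2 * g + 2) (2 * g) h0) (FreeGroup.of i)) =
        cC (2 * g + 2) (2 * g) h0 := by
      funext i
      exact FreeGroup.lift_apply_of
    rwa [e] at h3
  · intro K _ O t ht ρ hρ y
    obtain ⟨Λ, hΛ, hs⟩ := h K O t ht _ (cC (2 * g + 2) (2 * g) h0) ρ fun w hw => hρ _ ⟨w, hw, rfl⟩
    refine ((h2 K O).2.1 (ρ y) ⟨Λ, hΛ, fun γ hγ => ?_⟩).1
    rw [Set.mem_singleton_iff] at hγ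
    refine hs γ ⟨y, ?_, hγ⟩
    rw [closure_cC g h0]
    exact Subgroup.mem_top y

end R3S
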