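import Pool.Agent.R3S.St
import Pool.Agent.R3S.Tool

/-!
# R3S: lifting of adapted bases
-/

set_option autoImplicit false

namespace R3S

open Matrix

section

variable {K : Type} [Field K] {O : ValuationSubring K} {t : K}

theorem LFT_det (ht : t ≠ 0) (f : Fin 3 → V K) (a : Fin 3 → ℤ) :
    (mat fun i => t ^ (-a i) • f i).det = t ^ (-∑ i, a i) * (mat f).det := by
  have h1 : (mat fun i => t ^ (-a i) • f i) = Matrix.of fun i j => t ^ (-a j) * mat f i j := by
    ext i j
    rfl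
  rw [h1, Matrix.det_mul_row]
  congr 1
  rw [Fin.prod_univ_three, Fin.sum_univ_three, ← zpow_add₀ ht, ← zpow_add₀ ht]
  congr 1
  ring

end

theorem thm_LFT : St_LFT := by
  intro K _ O t h f g L L' a b hA hg hL hmem hs
  obtain ⟨hf, hLf, hL'⟩ := hA
  refine ⟨hg, hL, ?_⟩
  obtain ⟨U, -, -, hU0, -, hUi, hUm, -⟩ := exists_change hf hg (hL.symm.trans hLf)
  rw [hL'] at hmem
  obtain ⟨W, hW, hWm, hWc⟩ := exists_MO_of_le ((sp_le_iff _ _).2 hmem)
  have hf0 := (li_iff_det f).1 hf
  have hdet : W.det = U.det := by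
    have e1 := congrArg Matrix.det hWm
    rw [Matrix.det_mul, LFT_det h.ne, LFT_det h.ne, hUm, Matrix.det_mul, hs] at e1
    have e2 : t ^ (-∑ i, b i) * (mat f).det ≠ 0 := mul_ne_zero (h.zpow_ne _) hf0
    apply mul_left_cancel₀ e2
    rw [← e1]
    ring
  rw [hL']
  exact (sp_change (li_pow hf h.ne _) hW (by rw [hdet]; exact hU0) (by rw [hdet]; exact hUi)
    hWc).2.symm

end R3S
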