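import Pool.Agent.R3S.St

/-!
# R3S [LOC]: the local inequality (helper72)

The numerical lemmas are proved from certificates: the difference is a combination with nonnegative
coefficients of squares and of products of two constraints. In fact four times the sum of the inner
products is at most the sum of the squares.
-/

set_option autoImplicit false
set_option linter.unusedVariables false

namespace R3S

/-! ### Numerical lemmas -/

private theorem loc_D0 (p1 p2 p3 q1 q2 q3 : ℤ) (gp1 : 0 ≤ p1 - 1) (gp2 : 0 ≤ p2 - 1)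
    (gp3 : 0 ≤ p3) (gq1 : 0 ≤ q1) (gq2 : 0 ≤ q2) (gq3 : 0 ≤ q3)
    (hc0 : 0 ≤ 3 - (2 * p1 + 2 * p2 - p3 + q1 + q2 + 1 * q3)) :
    2 * ((2 * p1 * p2 + p1 * q2 + q1 * p2 + (-1) * q1 * q2) +
      (-(p1 * p3) + 1 * p1 * q3 + 1 * q1 * p3 - q1 * q3) +
      (-(p2 * p3) + 1 * p2 * q3 + 1 * q2 * p3 - q2 * q3)) ≤
    (p1 ^ 2 + p1 * q1 + q1 ^ 2) + (p2 ^ 2 + p2 * q2 + q2 ^ 2) + (p3 ^ 2 + p3 * q3 + q3 ^ 2) := by
  linarith [
    mul_nonneg hc0 gp2,
    mul_nonneg gp1 gp1,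
    mul_nonneg gp2 gp2,
    sq_nonneg ((1) * p3 + (-1) * q1 + (-1) * q2 + (1) * q3),
    mul_nonneg gp1 gp2,
    mul_nonneg hc0 gp1,
    mul_nonneg gp1 gq1,
    mul_nonneg gp2 gq2,
    mul_nonneg gq1 gq3,
    sq_nonneg ((1) * p1 + (1) * p2 + (1) * p3 + (-1) * q1 + (-1) * q2 + (-1) * q3),
    mul_nonneg gq2 gq3]

private theorem loc_D1 (p1 p2 p3 q1 q2 q3 : ℤ) (gp1 : 0 ≤ p1 - 1) (gp2 : 0 ≤ p2 - 1)
    (gp3 : 0 ≤ p3) (gq1 : 0 ≤ q1) (gq2 : 0 ≤ q2) (gq3 : 0 ≤ q3)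
    (hc0 : 0 ≤ 3 - (2 * p1 + 2 * p2 - p3 + q1 + q2 + (-2) * q3)) :
    2 * ((2 * p1 * p2 + p1 * q2 + q1 * p2 + (-1) * q1 * q2) +
      (-(p1 * p3) + (-2) * p1 * q3 + 1 * q1 * p3 - q1 * q3) +
      (-(p2 * p3) + (-2) * p2 * q3 + 1 * q2 * p3 - q2 * q3)) ≤
    (p1 ^ 2 + p1 * q1 + q1 ^ 2) + (p2 ^ 2 + p2 * q2 + q2 ^ 2) + (p3 ^ 2 + p3 * q3 + q3 ^ 2) := by
  linarith [
    sq_nonneg ((1) * p2 + (1) * p3 + (-1) * q1 + (-1) * q2),
    sq_nonneg ((1) * p1 + (-1) * p2 + (1) * p3 + (-1) * q1 + (-1) * q2 + (-1) * q3),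
    mul_nonneg gp2 gq2,
    mul_nonneg gq2 gq3,
    sq_nonneg ((1) * p2 + (-1) * p3 + (1) * q1 + (1) * q2 + (1) * q3),
    mul_nonneg gp3 gq3,
    sq_nonneg ((1) * p2 + (1) * q3),
    mul_nonneg hc0 gp2,
    mul_nonneg gp1 gp1,
    mul_nonneg gp1 gq1,
    mul_nonneg hc0 gp1,
    mul_nonneg gp1 gp2,
    mul_nonneg gp2 gp2,
    mul_nonneg gq1 gq3,
    sq_nonneg ((1) * p1 + (-1) * p2 + (-1) * p3 + (1) * q1 + (1) * q2 + (-1) * q3)]

private theorem loc_E10 (p1 p2 p3 q1 q2 q3 : ℤ) (gp1 : 0 ≤ p1 - 1) (gp2 : 0 ≤ p2 - 1)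
    (gp3 : 0 ≤ p3) (gq1 : 0 ≤ q1 - 1) (gq2 : 0 ≤ q2 - 1) (gq3 : 0 ≤ q3)
    (hc0 : 0 ≤ 3 - (2 * p1 + 2 * p2 - p3 + q1 + q2 + (-2) * q3))
    (hc1 : 0 ≤ 3 - (2 * q1 + 2 * q2 - q3 + p1 + p2 + 1 * p3)) :
    2 * ((2 * p1 * p2 + p1 * q2 + q1 * p2 + 2 * q1 * q2) +
      (-(p1 * p3) + (-2) * p1 * q3 + 1 * q1 * p3 - q1 * q3) +
      (-(p2 * p3) + (-2) * p2 * q3 + 1 * q2 * p3 - q2 * q3)) ≤
    (p1 ^ 2 + p1 * q1 + q1 ^ 2) + (p2 ^ 2 + p2 * q2 + q2 ^ 2) + (p3 ^ 2 + p3 * q3 + q3 ^ 2) := by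
  linarith [
    mul_nonneg hc1 gq2,
    sq_nonneg ((1) * p1 + (1) * p2 + (1) * p3 + (1) * q1 + (1) * q2 + (1) * q3),
    sq_nonneg ((1) * p1 + (1) * p2 + (1) * p3 + (1) * q1 + (1) * q2),
    sq_nonneg ((1) * p2 + (1) * p3 + (1) * q2),
    mul_nonneg gp1 gq3,
    sq_nonneg ((1) * p1 + (-1) * p2 + (1) * p3 + (1) * q1 + (-1) * q3),
    mul_nonneg hc0 gp1,
    mul_nonneg hc0 gp2,
    sq_nonneg ((1) * p1 + (-1) * p2 + (1) * q1 + (-1) * q2),
    sq_nonneg ((1) * p1 + (-1) * p2 + (-1) * q1 + (-1) * q2 + (-1) * q3),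
    mul_nonneg gp2 gq3,
    sq_nonneg ((1) * p1 + (1) * p2 + (1) * p3 + (-1) * q2),
    sq_nonneg ((1) * p1 + (1) * p2 + (1) * p3 + (-1) * q1 + (-1) * q2 + (-1) * q3),
    sq_nonneg ((1) * p2 + (1) * p3 + (1) * q1 + (-1) * q2 + (1) * q3),
    mul_nonneg hc1 gq1,
    sq_nonneg ((1) * p1 + (-1) * p2 + (1) * p3 + (1) * q1 + (1) * q2),
    sq_nonneg ((1) * p1 + (-1) * p3 + (1) * q1 + (-1) * q2 + (-1) * q3),
    sq_nonneg ((1) * p1 + (-1) * p2 + (1) * p3 + (1) * q1 + (-1) * q2 + (1) * q3),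
    sq_nonneg ((1) * p2 + (1) * p3 + (1) * q1 + (-1) * q2),
    mul_nonneg hc1 gp3,
    sq_nonneg ((1) * p2 + (-1) * p3 + (1) * q1 + (1) * q2 + (1) * q3),
    sq_nonneg ((1) * p1 + (1) * p2 + (1) * p3 + (-1) * q1 + (1) * q2),
    sq_nonneg ((1) * p1 + (-1) * p2 + (1) * p3 + (-1) * q1 + (1) * q2 + (-1) * q3)]

private theorem loc_E01 (p1 p2 p3 q1 q2 q3 : ℤ) (gp1 : 0 ≤ p1 - 1) (gp2 : 0 ≤ p2 - 1)
    (gp3 : 0 ≤ p3) (gq1 : 0 ≤ q1 - 1) (gq2 : 0 ≤ q2 - 1) (gq3 : 0 ≤ q3)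
    (hc0 : 0 ≤ 3 - (2 * p1 + 2 * p2 - p3 + q1 + q2 + 1 * q3))
    (hc1 : 0 ≤ 3 - (2 * q1 + 2 * q2 - q3 + p1 + p2 + (-2) * p3)) :
    2 * ((2 * p1 * p2 + p1 * q2 + q1 * p2 + 2 * q1 * q2) +
      (-(p1 * p3) + 1 * p1 * q3 + (-2) * q1 * p3 - q1 * q3) +
      (-(p2 * p3) + 1 * p2 * q3 + (-2) * q2 * p3 - q2 * q3)) ≤
    (p1 ^ 2 + p1 * q1 + q1 ^ 2) + (p2 ^ 2 + p2 * q2 + q2 ^ 2) + (p3 ^ 2 + p3 * q3 + q3 ^ 2) := by
  linarith [
    sq_nonneg ((1) * p1 + (-1) * p2 + (1) * q1 + (1) * q2 + (1) * q3),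
    sq_nonneg ((1) * p1 + (1) * p2 + (1) * q1 + (-1) * q2 + (-1) * q3),
    sq_nonneg ((1) * p2 + (-1) * p3 + (-1) * q1 + (-1) * q2 + (1) * q3),
    sq_nonneg ((1) * p1 + (1) * p2 + (1) * q1 + (1) * q2 + (1) * q3),
    sq_nonneg ((1) * p1 + (-1) * p2 + (-1) * p3 + (-1) * q1 + (1) * q3),
    mul_nonneg hc0 gp2,
    sq_nonneg ((1) * p1 + (-1) * p2 + (-1) * p3 + (-1) * q1 + (1) * q2),
    sq_nonneg ((1) * q1 + (1) * q2 + (1) * q3),
    sq_nonneg ((1) * p2 + (-1) * q1 + (1) * q2),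
    mul_nonneg hc0 gp1,
    sq_nonneg ((1) * p1 + (-1) * p2 + (-1) * p3 + (-1) * q1 + (-1) * q2),
    sq_nonneg ((1) * p1 + (-1) * p2 + (-1) * q1 + (1) * q2 + (-1) * q3),
    sq_nonneg ((1) * p1 + (-1) * p3 + (1) * q1 + (-1) * q2 + (1) * q3),
    sq_nonneg ((1) * p1 + (-1) * p2 + (1) * q1 + (-1) * q2 + (-1) * q3),
    mul_nonneg hc1 gq2,
    sq_nonneg ((1) * p1 + (1) * p2 + (1) * q1 + (-1) * q2 + (1) * q3),
    sq_nonneg ((1) * p1 + (-1) * p2 + (-1) * p3 + (-1) * q1 + (-1) * q2 + (-1) * q3),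
    mul_nonneg hc1 gq1,
    mul_nonneg gp1 gp3,
    sq_nonneg ((1) * p2 + (1) * p3 + (1) * q1 + (1) * q2 + (1) * q3),
    sq_nonneg ((1) * p1 + (-1) * p2 + (-1) * p3 + (-1) * q2 + (1) * q3),
    mul_nonneg gp3 gq1,
    mul_nonneg hc0 gq3,
    sq_nonneg ((1) * p1 + (-1) * p2 + (-1) * p3 + (1) * q1 + (1) * q3)]

private theorem loc_E11 (p1 p2 p3 q1 q2 q3 : ℤ) (gp1 : 0 ≤ p1 - 1) (gp2 : 0 ≤ p2 - 1)
    (gp3 : 0 ≤ p3) (gq1 : 0 ≤ q1 - 1) (gq2 : 0 ≤ q2 - 1) (gq3 : 0 ≤ q3)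
    (hc0 : 0 ≤ 3 - (2 * p1 + 2 * p2 - p3 + q1 + q2 + (-2) * q3))
    (hc1 : 0 ≤ 3 - (2 * q1 + 2 * q2 - q3 + p1 + p2 + (-2) * p3)) :
    2 * ((2 * p1 * p2 + p1 * q2 + q1 * p2 + 2 * q1 * q2) +
      (-(p1 * p3) + (-2) * p1 * q3 + (-2) * q1 * p3 - q1 * q3) +
      (-(p2 * p3) + (-2) * p2 * q3 + (-2) * q2 * p3 - q2 * q3)) ≤
    (p1 ^ 2 + p1 * q1 + q1 ^ 2) + (p2 ^ 2 + p2 * q2 + q2 ^ 2) + (p3 ^ 2 + p3 * q3 + q3 ^ 2) := by
  linarith [
    sq_nonneg ((1) * p1 + (-1) * p2 + (1) * q2 + (-1) * q3),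
    mul_nonneg gp3 gq2,
    sq_nonneg ((1) * p1 + (-1) * p2 + (1) * q1 + (-1) * q3),
    mul_nonneg gp3 gq1,
    sq_nonneg ((1) * p2 + (1) * p3 + (1) * q1 + (1) * q2 + (1) * q3),
    sq_nonneg ((1) * p1 + (-1) * p2 + (1) * q1 + (-1) * q2),
    sq_nonneg ((1) * p1 + (-1) * p2 + (-1) * p3 + (-1) * q1 + (-1) * q2 + (-1) * q3),
    mul_nonneg gp2 gq3,
    mul_nonneg hc0 gp1,
    mul_nonneg hc0 gp2,
    sq_nonneg ((1) * p2 + (-1) * q1 + (-1) * q2),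
    sq_nonneg ((1) * p1 + (-1) * q1 + (1) * q2 + (-1) * q3),
    sq_nonneg ((1) * p2 + (1) * p3 + (1) * q1 + (1) * q2),
    sq_nonneg ((1) * p1 + (-1) * p2 + (1) * q1 + (-1) * q2 + (-1) * q3),
    mul_nonneg hc1 gq2,
    sq_nonneg ((1) * p2 + (1) * q1 + (-1) * q2),
    sq_nonneg ((1) * p2 + (1) * p3 + (-1) * q1 + (1) * q2 + (-1) * q3),
    mul_nonneg hc1 gq1,
    mul_nonneg gp1 gp3,
    sq_nonneg ((1) * p1 + (-1) * p2 + (1) * p3 + (1) * q1 + (1) * q2 + (-1) * q3),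
    sq_nonneg ((1) * p2 + (-1) * q1 + (1) * q2),
    sq_nonneg ((1) * p2 + (1) * q1 + (1) * q2 + (1) * q3),
    sq_nonneg ((1) * p1 + (-1) * p2 + (1) * p3 + (1) * q1 + (1) * q2),
    mul_nonneg gp1 gq3]

/-- Two points are equal. `a` is `e2` of the points `1, 3`, `b` are the `e2` of the lines, `r` is `i1`
of the points `1`, `2` and the line `3`, `s1`, `s2` are `i1` of the point `3` and the lines `1`, `2`. -/
private theorem loc_num (p1 p2 p3 q1 q2 q3 a b12 b13 b23 r s1 s2 : ℤ) (hp1 : 1 ≤ p1) (hp2 : 1 ≤ p2)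
    (hp3 : 0 ≤ p3) (hq1 : 0 ≤ q1) (hq2 : 0 ≤ q2) (hq3 : 0 ≤ q3) (ha : a = 2 ∨ a = -1)
    (h12 : b12 = 2 ∨ b12 = -1) (h13 : b13 = 2 ∨ b13 = -1) (h23 : b23 = 2 ∨ b23 = -1)
    (hr : r = 1 ∨ r = -2) (hs1 : s1 = 1 ∨ s1 = -2) (hs2 : s2 = 1 ∨ s2 = -2)
    (hc : 2 * p1 + 2 * p2 + a * p3 + q1 + q2 + r * q3 ≤ 3) (har : a = 2 → r = 1)
    (e12 : b12 = 2 → s1 = s2)
    (l12 : b12 = 2 → 0 < q1 → 0 < q2 → 2 * q1 + 2 * q2 + b13 * q3 + p1 + p2 + s1 * p3 ≤ 3)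
    (l13 : b13 = 2 → 0 < q1 → 0 < q3 → r = 1 ∧ 2 * q1 + 2 * q3 + b12 * q2 + p1 + p2 + p3 ≤ 3)
    (l23 : b23 = 2 → 0 < q2 → 0 < q3 → r = 1 ∧ 2 * q2 + 2 * q3 + b12 * q1 + p1 + p2 + p3 ≤ 3) :
    2 * ((2 * p1 * p2 + p1 * q2 + q1 * p2 + b12 * q1 * q2) +
      (a * p1 * p3 + r * p1 * q3 + s1 * q1 * p3 + b13 * q1 * q3) +
      (a * p2 * p3 + r * p2 * q3 + s2 * q2 * p3 + b23 * q2 * q3)) ≤
    (p1 ^ 2 + p1 * q1 + q1 ^ 2) + (p2 ^ 2 + p2 * q2 + q2 ^ 2) + (p3 ^ 2 + p3 * q3 + q3 ^ 2) := by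
  have ha' : a = -1 := by
    rcases ha with h | h
    · exfalso
      have h1 := har h
      rw [h, h1] at hc
      linarith
    · exact h
  subst ha'
  have low : ∀ b q : ℤ, b = 2 ∨ b = -1 → 0 ≤ q → -q ≤ b * q := by
    intro b q hb hq
    rcases hb with rfl | rfl <;> linarith
  have e13 : b13 * q1 * q3 = -(q1 * q3) := by
    rcases h13 with h | h
    · by_cases h1 : 0 < q1 ∧ 0 < q3
      · exfalso
        obtain ⟨h2, h3⟩ := l13 h h1.1 h1.2
        have h4 := low b12 q2 h12 hq2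
        rw [h2] at hc
        linarith [h1.1, h1.2]
      · have h2 : q1 * q3 = 0 := by
          rcases hq1.eq_or_lt with h3 | h3
          · rw [← h3, zero_mul]
          · rcases hq3.eq_or_lt with h4 | h4
            · rw [← h4, mul_zero]
            · exact absurd ⟨h3, h4⟩ h1
        rw [mul_assoc, h2, mul_zero, neg_zero]
    · rw [h]
      ring
  have e23 : b23 * q2 * q3 = -(q2 * q3) := by
    rcases h23 with h | h
    · by_cases h1 : 0 < q2 ∧ 0 < q3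
      · exfalso
        obtain ⟨h2, h3⟩ := l23 h h1.1 h1.2
        have h4 := low b12 q1 h12 hq1
        rw [h2] at hc
        linarith [h1.1, h1.2]
      · have h2 : q2 * q3 = 0 := by
          rcases hq2.eq_or_lt with h3 | h3
          · rw [← h3, zero_mul]
          · rcases hq3.eq_or_lt with h4 | h4
            · rw [← h4, mul_zero]
            · exact absurd ⟨h3, h4⟩ h1
        rw [mul_assoc, h2, mul_zero, neg_zero]
    · rw [h]
      ring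
  rw [e13, e23]
  by_cases hE : b12 = 2 ∧ 0 < q1 ∧ 0 < q2
  · obtain ⟨h, g1, g2⟩ := hE
    have hl := l12 h g1 g2
    have h4 := low b13 q3 h13 hq3
    have h5 := e12 h
    subst h5
    subst h
    rcases hr with rfl | rfl
    · rcases hs1 with rfl | rfl
      · exfalso
        linarith [g1, g2]
      · have := loc_E01 p1 p2 p3 q1 q2 q3 (by linarith) (by linarith) hp3 (by linarith)
          (by linarith) hq3 (by linarith) (by linarith)
        linarith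
    · rcases hs1 with rfl | rfl
      · have := loc_E10 p1 p2 p3 q1 q2 q3 (by linarith) (by linarith) hp3 (by linarith)
          (by linarith) hq3 (by linarith) (by linarith)
        linarith
      · have := loc_E11 p1 p2 p3 q1 q2 q3 (by linarith) (by linarith) hp3 (by linarith)
          (by linarith) hq3 (by linarith) (by linarith)
        linarith
  · have h6 : b12 * q1 * q2 = -(q1 * q2) := by
      rcases h12 with h | h
      · have h2 : q1 * q2 = 0 := by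
          rcases hq1.eq_or_lt with h3 | h3
          · rw [← h3, zero_mul]
          · rcases hq2.eq_or_lt with h4 | h4
            · rw [← h4, mul_zero]
            · exact absurd ⟨h, h3, h4⟩ hE
        rw [mul_assoc, h2, mul_zero, neg_zero]
      · rw [h]
        ring
    rw [h6]
    have h7 : s1 * q1 * p3 ≤ q1 * p3 := by
      rcases hs1 with rfl | rfl
      · linarith
      · linarith [mul_nonneg hq1 hp3]
    have h8 : s2 * q2 * p3 ≤ q2 * p3 := by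
      rcases hs2 with rfl | rfl
      · linarith
      · linarith [mul_nonneg hq2 hp3]
    rcases hr with rfl | rfl
    · have := loc_D0 p1 p2 p3 q1 q2 q3 (by linarith) (by linarith) hp3 hq1 hq2 hq3 (by linarith)
      linarith
    · have := loc_D1 p1 p2 p3 q1 q2 q3 (by linarith) (by linarith) hp3 hq1 hq2 hq3 (by linarith)
      linarith

/-! ### The relation -/

private theorem loc_sum (f : Fin 3 → ℤ) (i j k : Fin 3) (hij : i ≠ j) (hik : i ≠ k) (hjk : j ≠ k) :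
    ∑ x, f x = f i + f j + f k := by
  rw [Fin.sum_univ_three]
  fin_cases i <;> fin_cases j <;> fin_cases k <;> simp at hij hik hjk ⊢ <;> ring

private theorem loc_e2_or {X : Type} (x y : X) : e2 x y = 2 ∨ e2 x y = -1 := by
  unfold e2
  split_ifs
  · exact Or.inl rfl
  · exact Or.inr rfl

private theorem loc_i1_or (R : Prop) : i1 R = 1 ∨ i1 R = -2 := by
  unfold i1
  split_ifs
  · exact Or.inl rfl
  · exact Or.inr rfl

private theorem loc_e2_eq {X : Type} {x y : X} : e2 x y = 2 ↔ x = y := by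
  unfold e2
  split_ifs with h
  · exact ⟨fun _ => h, fun _ => rfl⟩
  · exact ⟨fun h1 => absurd h1 (by norm_num), fun h1 => absurd h1 h⟩

private theorem loc_e2_comm {X : Type} (x y : X) : e2 x y = e2 y x := by
  unfold e2
  by_cases h : x = y
  · rw [if_pos h, if_pos h.symm]
  · rw [if_neg h, if_neg fun h1 => h h1.symm]

private theorem loc_i1_true {R : Prop} (h : R) : i1 R = 1 := by
  unfold i1
  rw [if_pos h]

/-- the hypotheses -/
private def LocH (X Y : Type) (R : X → Y → Prop) (P : Fin 3 → X) (l : Fin 3 → Y)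
    (p q : Fin 3 → ℕ) : Prop :=
  (∀ i, R (P i) (l i)) ∧
  (∀ i j, i ≠ j → P i = P j → 0 < p i → 0 < p j →
    ∑ k, ((p k : ℤ) * e2 (P i) (P k) + q k * i1 (R (P i) (l k))) ≤ 3) ∧
  (∀ i j, i ≠ j → l i = l j → 0 < q i → 0 < q j →
    ∑ k, ((q k : ℤ) * e2 (l i) (l k) + p k * i1 (R (P k) (l i))) ≤ 3)

private theorem loc_pair (X Y : Type) (R : X → Y → Prop) (P : Fin 3 → X) (l : Fin 3 → Y)
    (p q : Fin 3 → ℕ) (h : LocH X Y R P l p q) (i j k : Fin 3) (hij : i ≠ j) (hik : i ≠ k)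
    (hjk : j ≠ k) (hP : P i = P j) (hi : 0 < p i) (hj : 0 < p j) :
    2 * (sc R P l p q i j + sc R P l p q i k + sc R P l p q j k) ≤
      ((p i : ℤ) ^ 2 + p i * q i + (q i : ℤ) ^ 2) + ((p j : ℤ) ^ 2 + p j * q j + (q j : ℤ) ^ 2) +
      ((p k : ℤ) ^ 2 + p k * q k + (q k : ℤ) ^ 2) := by
  obtain ⟨h0, h1, h2⟩ := h
  have hc := h1 i j hij hP hi hj
  rw [loc_sum _ i j k hij hik hjk] at hc
  have rij : i1 (R (P i) (l j)) = 1 := loc_i1_true (by rw [hP]; exact h0 j)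
  have rji : i1 (R (P j) (l i)) = 1 := loc_i1_true (by rw [← hP]; exact h0 i)
  have rii : ∀ i, i1 (R (P i) (l i)) = 1 := fun i => loc_i1_true (h0 i)
  have eii : e2 (P i) (P i) = 2 := loc_e2_eq.2 rfl
  have eij : e2 (P i) (P j) = 2 := loc_e2_eq.2 hP
  have ell : ∀ i, e2 (l i) (l i) = 2 := fun i => loc_e2_eq.2 rfl
  rw [eii, eij, rii, rij] at hc
  have key := loc_num (p i) (p j) (p k) (q i) (q j) (q k) (e2 (P i) (P k)) (e2 (l i) (l j))
    (e2 (l i) (l k)) (e2 (l j) (l k)) (i1 (R (P i) (l k))) (i1 (R (P k) (l i)))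
    (i1 (R (P k) (l j))) (by exact_mod_cast hi) (by exact_mod_cast hj) (Int.natCast_nonneg _)
    (Int.natCast_nonneg _) (Int.natCast_nonneg _) (Int.natCast_nonneg _) (loc_e2_or _ _)
    (loc_e2_or _ _) (loc_e2_or _ _) (loc_e2_or _ _) (loc_i1_or _) (loc_i1_or _) (loc_i1_or _)
    (by linarith) (fun h3 => loc_i1_true (by rw [loc_e2_eq.1 h3]; exact h0 k))
    (fun h3 => by rw [loc_e2_eq.1 h3]) ?_ ?_ ?_
  · have s1 : sc R P l p q i j = 2 * (p i : ℤ) * p j + p i * q j + q i * p j +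
        e2 (l i) (l j) * q i * q j := by
      unfold sc
      rw [eij, rij, rji]
      ring
    have s2 : sc R P l p q i k = e2 (P i) (P k) * (p i : ℤ) * p k +
        i1 (R (P i) (l k)) * p i * q k + i1 (R (P k) (l i)) * q i * p k +
        e2 (l i) (l k) * q i * q k := by
      unfold sc
      ring
    have s3 : sc R P l p q j k = e2 (P i) (P k) * (p j : ℤ) * p k +
        i1 (R (P i) (l k)) * p j * q k + i1 (R (P k) (l j)) * q j * p k +
        e2 (l j) (l k) * q j * q k := by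
      unfold sc
      rw [← hP]
      ring
    rw [s1, s2, s3]
    exact key
  · intro h3 h4 h5
    have h6 := h2 i j hij (loc_e2_eq.1 h3) (by exact_mod_cast h4) (by exact_mod_cast h5)
    rw [loc_sum _ i j k hij hik hjk] at h6
    rw [ell, h3, rii, rji] at h6
    linarith
  · intro h3 h4 h5
    have h6 := h2 i k hik (loc_e2_eq.1 h3) (by exact_mod_cast h4) (by exact_mod_cast h5)
    rw [loc_sum _ i j k hij hik hjk] at h6
    have rki : i1 (R (P k) (l i)) = 1 := loc_i1_true (by rw [loc_e2_eq.1 h3]; exact h0 k)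
    have rik : i1 (R (P i) (l k)) = 1 := loc_i1_true (by rw [← loc_e2_eq.1 h3]; exact h0 i)
    rw [ell, h3, rii, rji, rki] at h6
    refine ⟨rik, ?_⟩
    linarith
  · intro h3 h4 h5
    have h6 := h2 j k hjk (loc_e2_eq.1 h3) (by exact_mod_cast h4) (by exact_mod_cast h5)
    rw [loc_sum _ i j k hij hik hjk] at h6
    have rkj : i1 (R (P k) (l j)) = 1 := loc_i1_true (by rw [loc_e2_eq.1 h3]; exact h0 k)
    have rik : i1 (R (P i) (l k)) = 1 := loc_i1_true (by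
      rw [← loc_e2_eq.1 h3, hP]; exact h0 j)
    rw [ell, h3, rii, rij, rkj, loc_e2_comm (l j) (l i)] at h6
    refine ⟨rik, ?_⟩
    linarith

private theorem loc_dual_sc {X Y : Type} (R : X → Y → Prop) (P : Fin 3 → X) (l : Fin 3 → Y)
    (p q : Fin 3 → ℕ) (i j : Fin 3) :
    sc (fun y x => R x y) l P q p i j = sc R P l p q i j := by
  unfold sc
  ring

private theorem loc_comm_sc {X Y : Type} (R : X → Y → Prop) (P : Fin 3 → X) (l : Fin 3 → Y)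
    (p q : Fin 3 → ℕ) (i j : Fin 3) : sc R P l p q i j = sc R P l p q j i := by
  unfold sc
  rw [loc_e2_comm (P i) (P j), loc_e2_comm (l i) (l j)]
  ring

/-- the statement with the constant `4` -/
private theorem loc_main (X Y : Type) (R : X → Y → Prop) (P : Fin 3 → X) (l : Fin 3 → Y)
    (p q : Fin 3 → ℕ) (h : LocH X Y R P l p q) (hh : ∃ i j k : Fin 3, i ≠ j ∧ i ≠ k ∧ j ≠ k ∧
      P i = P j ∧ 0 < p i ∧ 0 < p j) :
    2 * (sc R P l p q 0 1 + sc R P l p q 0 2 + sc R P l p q 1 2) ≤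
      ∑ k, ((p k : ℤ) ^ 2 + p k * q k + (q k : ℤ) ^ 2) := by
  obtain ⟨i, j, k, hij, hik, hjk, hP, hi, hj⟩ := hh
  have key := loc_pair X Y R P l p q h i j k hij hik hjk hP hi hj
  rw [loc_sum (fun k => ((p k : ℤ) ^ 2 + p k * q k + (q k : ℤ) ^ 2)) i j k hij hik hjk]
  refine le_trans (le_of_eq ?_) key
  have c01 := loc_comm_sc R P l p q 0 1
  have c02 := loc_comm_sc R P l p q 0 2
  have c12 := loc_comm_sc R P l p q 1 2
  fin_cases i <;> fin_cases j <;> fin_cases k <;> simp at hij hik hjk ⊢ <;> linarith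

/-- [LOC] -/
theorem thm_LOC : St_LOC := by
  intro X Y R P l p q hR hP hL hN
  by_cases h1 : ∃ i j k : Fin 3, i ≠ j ∧ i ≠ k ∧ j ≠ k ∧ P i = P j ∧ 0 < p i ∧ 0 < p j
  · have h2 := loc_main X Y R P l p q ⟨hR, hP, hL⟩ h1
    have h3 : ∑ k, (2 * (p k ^ 2 + p k * q k + q k ^ 2) : ℤ) =
        2 * ∑ k, ((p k : ℤ) ^ 2 + p k * q k + (q k : ℤ) ^ 2) := by
      rw [Finset.mul_sum]
    rw [h3] at hN ⊢
    linarith
  by_cases h2 : ∃ i j k : Fin 3, i ≠ j ∧ i ≠ k ∧ j ≠ k ∧ l i = l j ∧ 0 < q i ∧ 0 < q j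
  · have h2 := loc_main Y X (fun y x => R x y) l P q p ⟨hR, hL, hP⟩ h2
    rw [loc_dual_sc R P l p q 0 1, loc_dual_sc R P l p q 0 2, loc_dual_sc R P l p q 1 2] at h2
    have h3 : ∑ k, (2 * (p k ^ 2 + p k * q k + q k ^ 2) : ℤ) =
        2 * ∑ k, ((q k : ℤ) ^ 2 + q k * p k + (p k : ℤ) ^ 2) := by
      rw [Finset.mul_sum]
      refine Finset.sum_congr rfl fun k _ => ?_
      ring
    rw [h3] at hN ⊢
    linarith
  · have hp : ∀ i j k : Fin 3, i ≠ j → i ≠ k → j ≠ k →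
        (p i : ℤ) * p j * e2 (P i) (P j) = -(p i * p j) := by
      intro i j k hij hik hjk
      rcases loc_e2_or (P i) (P j) with h | h
      · have h3 : p i * p j = 0 := by
          rcases Nat.eq_zero_or_pos (p i) with h4 | h4
          · rw [h4, zero_mul]
          · rcases Nat.eq_zero_or_pos (p j) with h5 | h5
            · rw [h5, mul_zero]
            · exact absurd ⟨i, j, k, hij, hik, hjk, loc_e2_eq.1 h, h4, h5⟩ h1
        have h4 : (p i : ℤ) * p j = 0 := by exact_mod_cast h3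
        rw [h4]
        ring
      · rw [h]
        ring
    have hq : ∀ i j k : Fin 3, i ≠ j → i ≠ k → j ≠ k →
        (q i : ℤ) * q j * e2 (l i) (l j) = -(q i * q j) := by
      intro i j k hij hik hjk
      rcases loc_e2_or (l i) (l j) with h | h
      · have h3 : q i * q j = 0 := by
          rcases Nat.eq_zero_or_pos (q i) with h4 | h4
          · rw [h4, zero_mul]
          · rcases Nat.eq_zero_or_pos (q j) with h5 | h5
            · rw [h5, mul_zero]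
            · exact absurd ⟨i, j, k, hij, hik, hjk, loc_e2_eq.1 h, h4, h5⟩ h2
        have h4 : (q i : ℤ) * q j = 0 := by exact_mod_cast h3
        rw [h4]
        ring
      · rw [h]
        ring
    have hi : ∀ (a b : ℕ) (S : Prop), (a : ℤ) * b * i1 S ≤ a * b := by
      intro a b S
      have h3 : (0 : ℤ) ≤ (a : ℤ) * b := by positivity
      rcases loc_i1_or S with h | h
      · rw [h, mul_one]
      · rw [h]
        linarith
    have hs : ∀ i j k : Fin 3, i ≠ j → i ≠ k → j ≠ k →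
        sc R P l p q i j ≤ -(p i * p j) + p i * q j + q i * p j - q i * q j := by
      intro i j k hij hik hjk
      unfold sc
      have h3 := hp i j k hij hik hjk
      have h4 := hq i j k hij hik hjk
      have h5 := hi (p i) (q j) (R (P i) (l j))
      have h6 := hi (q i) (p j) (R (P j) (l i))
      linarith
    have h01 := hs 0 1 2 (by decide) (by decide) (by decide)
    have h02 := hs 0 2 1 (by decide) (by decide) (by decide)
    have h12 := hs 1 2 0 (by decide) (by decide) (by decide)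
    rw [Fin.sum_univ_three] at hN ⊢
    have n0 : (0 : ℤ) ≤ (p 0 : ℤ) * q 0 := by positivity
    have n1 : (0 : ℤ) ≤ (p 1 : ℤ) * q 1 := by positivity
    have n2 : (0 : ℤ) ≤ (p 2 : ℤ) * q 2 := by positivity
    nlinarith [sq_nonneg ((p 0 : ℤ) - q 0), sq_nonneg ((p 1 : ℤ) - q 1),
      sq_nonneg ((p 2 : ℤ) - q 2),
      sq_nonneg ((p 0 : ℤ) - q 0 + (p 1 - q 1) + (p 2 - q 2))]

end R3S
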