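import Pool.Agent.R3S.St
import Pool.Agent.R3S.Tool

/-!
# R3S, module MVL: moving a lattice towards a line
-/

set_option autoImplicit false

namespace R3S

open Matrix

section

variable {K : Type} [Field K] {O : ValuationSubring K} {t : K}

/-- the functional of a line -/
private theorem MVL_phi (hU : Unif O t) {L W : Submodule O (V K)} (hW : Ln t L W) :
    ∃ φ : V K →ₗ[K] K, (∀ v ∈ L, φ v ∈ O) ∧
      (∀ v, v ∈ W ↔ v ∈ L ∧ ∃ y ∈ O, φ v = t * y) ∧ ∃ v ∈ L, φ v = 1 := by
  obtain ⟨h, hli, hL, hWe⟩ := hW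
  have hcard : Fintype.card (Fin 3) = Module.finrank K (V K) := by
    rw [Module.finrank_fin_fun, Fintype.card_fin]
  have hbe := coe_basisOfLinearIndependentOfCardEqFinrank hli hcard
  set b := basisOfLinearIndependentOfCardEqFinrank hli hcard with hbdef
  have hb : ∀ i, b.coord 2 (h i) = if i = 2 then 1 else 0 := by
    intro i
    rw [← congrFun hbe i, Module.Basis.coord_apply, Module.Basis.repr_self_apply]
  have key : ∀ c : Fin 3 → K, b.coord 2 (∑ i, c i • h i) = c 2 := by
    intro c
    rw [map_sum, Fin.sum_univ_three]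
    simp only [map_smul, hb, smul_eq_mul]
    simp
  have keyL : ∀ v ∈ L, b.coord 2 v ∈ O := by
    intro v hv
    rw [hL, mem_sp] at hv
    obtain ⟨c, hc, rfl⟩ := hv
    rw [key]
    exact hc 2
  refine ⟨b.coord 2, keyL, fun v => ?_, h 2, ?_, ?_⟩
  · rw [hWe, hL, mem_sp]
    constructor
    · rintro ⟨c, hc, rfl⟩
      have e : ∑ i, c i • (![h 0, h 1, t • h 2] : Fin 3 → V K) i =
          c 0 • h 0 + c 1 • h 1 + c 2 • (t • h 2) := by
        rw [Fin.sum_univ_three]
        rfl
      rw [e]
      refine ⟨?_, c 2, hc 2, ?_⟩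
      · have e2 : c 0 • h 0 + c 1 • h 1 + c 2 • (t • h 2) ∈ sp O ![h 0, h 1, t • h 2] := by
          rw [← e, mem_sp]
          exact ⟨c, hc, rfl⟩
        rw [← hWe] at e2
        rw [← hL]
        have hle : W ≤ L := by
          rw [hWe, sp_le_iff]
          intro i
          rw [hL]
          fin_cases i
          · exact self_mem_sp h 0
          · exact self_mem_sp h 1
          · exact smul_mem_K _ hU.mem (self_mem_sp h 2)
        exact hle e2
      · have e3 : c 0 • h 0 + c 1 • h 1 + c 2 • (t • h 2) =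
            ∑ i, (![c 0, c 1, c 2 * t] : Fin 3 → K) i • h i := by
          rw [Fin.sum_univ_three, smul_smul]
          rfl
        rw [e3, key]
        simp [mul_comm]
    · rintro ⟨hv, y, hy, hφ⟩
      rw [mem_sp] at hv
      obtain ⟨c, hc, rfl⟩ := hv
      rw [key] at hφ
      refine ⟨![c 0, c 1, y], ?_, ?_⟩
      · intro i
        fin_cases i
        · exact hc 0
        · exact hc 1
        · exact hy
      · rw [Fin.sum_univ_three, Fin.sum_univ_three]
        simp only [Matrix.cons_val_zero, Matrix.cons_val_one, Matrix.cons_val]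
        rw [smul_smul, hφ, mul_comm t y]
  · rw [hL]
    exact self_mem_sp h 2
  · rw [hb]
    simp

/-- the line in a basis in which the functional is a unit at one place only -/
private theorem MVL_span {L W : Submodule O (V K)} {φ : V K →ₗ[K] K}
    (hO : ∀ v ∈ L, φ v ∈ O) (hWφ : ∀ v, v ∈ W ↔ v ∈ L ∧ ∃ y ∈ O, φ v = t * y)
    (hU : Unif O t) {g : Fin 3 → V K} (hL : L = sp O g) (m : Fin 3) (hm : (φ (g m))⁻¹ ∈ O)
    (hm0 : φ (g m) ≠ 0) (hother : ∀ i, i ≠ m → ∃ y ∈ O, φ (g i) = t * y) :
    W = sp O (Function.update g m (t • g m)) := by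
  have hgL : ∀ i, g i ∈ L := fun i => by
    rw [hL]
    exact self_mem_sp g i
  apply le_antisymm
  · intro v hv
    obtain ⟨hvL, y, hy, hφ⟩ := (hWφ v).1 hv
    rw [hL, mem_sp] at hvL
    obtain ⟨c, hc, rfl⟩ := hvL
    choose! z hz hz' using hother
    have e1 : ∃ w ∈ O, c m = t * w := by
      have e2 : φ (∑ i, c i • g i) = c m * φ (g m) +
          ∑ i ∈ Finset.univ.erase m, c i * φ (g i) := by
        rw [map_sum, ← Finset.add_sum_erase Finset.univ _ (Finset.mem_univ m)]
        simp only [map_smul, smul_eq_mul]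
      have e3 : ∑ i ∈ Finset.univ.erase m, c i * φ (g i) =
          t * ∑ i ∈ Finset.univ.erase m, c i * z i := by
        rw [Finset.mul_sum]
        refine Finset.sum_congr rfl fun i hi => ?_
        rw [hz' i (Finset.ne_of_mem_erase hi)]
        ring
      refine ⟨(y - ∑ i ∈ Finset.univ.erase m, c i * z i) * (φ (g m))⁻¹, ?_, ?_⟩
      · refine mul_mem (sub_mem hy (sum_mem fun i hi => ?_)) hm
        exact mul_mem (hc i) (hz i (Finset.ne_of_mem_erase hi))
      · rw [e2, e3] at hφ
        have e4 : c m * φ (g m) = t * (y - ∑ i ∈ Finset.univ.erase m, c i * z i) := by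
          rw [mul_sub]
          linear_combination hφ
        rw [← mul_assoc, ← e4, mul_assoc, mul_inv_cancel₀ hm0, mul_one]
    obtain ⟨w, hw, hcw⟩ := e1
    rw [mem_sp]
    refine ⟨Function.update c m w, fun i => ?_, Finset.sum_congr rfl fun i _ => ?_⟩
    · by_cases e : i = m
      · rw [e, Function.update_self]
        exact hw
      · rw [Function.update_of_ne e]
        exact hc i
    · by_cases e : i = m
      · rw [e, Function.update_self, Function.update_self, hcw, smul_smul, mul_comm t w]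
      · rw [Function.update_of_ne e, Function.update_of_ne e]
  · rw [sp_le_iff]
    intro i
    rw [hWφ]
    by_cases e : i = m
    · rw [e, Function.update_self]
      refine ⟨smul_mem_K _ hU.mem (hgL m), φ (g m), hO _ (hgL m), ?_⟩
      rw [map_smul, smul_eq_mul]
    · rw [Function.update_of_ne e]
      exact ⟨hgL i, hother i e⟩

/-- the new energy -/
private theorem MVL_en (h1 : St_EV) (hU : Unif O t) {g : Fin 3 → V K} {L L' W : Submodule O (V K)}
    {a : Fin 3 → ℤ} (hg : Adp t g L L' a) (m : Fin 3)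
    (hW : W = sp O (Function.update g m (t • g m))) :
    IsLat O (up t W) ∧ (en t (up t W) L' : ℤ) = en t L L' +
      (6 * ∑ i, a i * (if i = m then 0 else -1) + 4 * ∑ i, a i + 2) := by
  obtain ⟨g1, g2, g3⟩ := hg
  have e1 : up t W = sp O fun i => t ^ (if i = m then 0 else -1 : ℤ) • g i := by
    rw [hW, up_sp hU.ne]
    congr 1
    funext i
    by_cases e : i = m
    · rw [e, Function.update_self, if_pos rfl, zpow_zero, one_smul, smul_smul,
        inv_mul_cancel₀ hU.ne, one_smul]
    · rw [Function.update_of_ne e, if_neg e, _root_.zpow_neg_one]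
  have e2 : LinearIndependent K fun i => t ^ (if i = m then 0 else -1 : ℤ) • g i :=
    li_pow g1 hU.ne _
  have e3 : Adp t (fun i => t ^ (if i = m then 0 else -1 : ℤ) • g i) (up t W) L'
      (fun i => a i + if i = m then 0 else -1) := by
    refine ⟨e2, e1, ?_⟩
    rw [g3]
    congr 1
    funext i
    rw [smul_smul, ← zpow_add₀ hU.ne]
    congr 2
    ring
  refine ⟨⟨_, e2, e1⟩, ?_⟩
  rw [h1 K O t hU _ _ _ _ e3, h1 K O t hU _ _ _ _ ⟨g1, g2, g3⟩]
  simp only [Fin.sum_univ_three]
  fin_cases m <;> simp <;> ring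

private theorem MVL_mem (hU : Unif O t) {f : Fin 3 → V K} {L L' : Submodule O (V K)}
    {a : Fin 3 → ℤ} (hf : Adp t f L L' a) {i : Fin 3} {n : ℤ} (h : n ≤ a i) :
    t ^ (-n) • f i ∈ L' := by
  have e : t ^ (-n) • f i = t ^ (a i - n) • (t ^ (-a i) • f i) := by
    rw [smul_smul, ← zpow_add₀ hU.ne]
    congr 2
    ring
  rw [e]
  refine smul_mem_K _ (hU.zpow_mem_of (by omega)) ?_
  rw [hf.2.2]
  exact self_mem_sp (O := O) (fun i => t ^ (-a i) • f i) i

end

theorem thm_MVL (h1 : St_EV) (h2 : St_LFT) : St_MVL := by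
  intro K _ O t hU L L' p q P l hD W hW
  obtain ⟨f, s, hA, hP, hl⟩ := hD
  obtain ⟨φ, hO, hWφ, v0, hv0, hv1⟩ := MVL_phi hU hW
  have hL : L = sp O f := hA.2.1
  have hfL : ∀ i, f i ∈ L := fun i => by
    rw [hL]
    exact self_mem_sp f i
  have htO : ∀ v ∈ L, t • v ∈ W := by
    intro v hv
    rw [hWφ]
    refine ⟨smul_mem_K _ hU.mem hv, φ v, hO v hv, ?_⟩
    rw [map_smul, smul_eq_mul]
  have hnot : ∀ v : V K, (φ v)⁻¹ ∈ O → φ v ≠ 0 → v ∉ W := by
    intro v h3 h4 h5
    obtain ⟨_, y, hy, h6⟩ := (hWφ v).1 h5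
    rw [h6] at h3 h4
    exact hU.not_unit hy h4 h3
  have ha0 : (![(p : ℤ) + q + s, q + s, s] : Fin 3 → ℤ) 0 = p + q + s := rfl
  have ha1 : (![(p : ℤ) + q + s, q + s, s] : Fin 3 → ℤ) 1 = q + s := rfl
  have ha2 : (![(p : ℤ) + q + s, q + s, s] : Fin 3 → ℤ) 2 = s := rfl
  have hPmem : f 0 ∈ P := by
    rw [hP]
    exact self_mem_sp (O := O) ![f 0, t • f 1, t • f 2] 0
  have hlmem0 : f 0 ∈ l := by
    rw [hl]
    exact self_mem_sp (O := O) ![f 0, f 1, t • f 2] 0
  have hlmem1 : f 1 ∈ l := by
    rw [hl]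
    exact self_mem_sp (O := O) ![f 0, f 1, t • f 2] 1
  have hPW : f 0 ∈ W → P ≤ W := by
    intro h
    rw [hP, sp_le_iff]
    intro i
    fin_cases i
    · exact h
    · exact htO _ (hfL 1)
    · exact htO _ (hfL 2)
  rcases hU.unit_or (hO _ (hfL 0)) with ⟨u0, u0'⟩ | ⟨y0, hy0, hy0'⟩
  · -- the functional is a unit at `f 0`
    have hn0 : f 0 ∉ W := hnot _ u0 u0'
    have hWl : W ≠ l := fun h => hn0 (h ▸ hlmem0)
    have hPW' : ¬ P ≤ W := fun h => hn0 (h hPmem)
    set r1 := φ (f 1) * (φ (f 0))⁻¹ with hr1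
    set r2 := φ (f 2) * (φ (f 0))⁻¹ with hr2
    have hr1O : r1 ∈ O := mul_mem (hO _ (hfL 1)) u0
    have hr2O : r2 ∈ O := mul_mem (hO _ (hfL 2)) u0
    set g : Fin 3 → V K := ![f 0, f 1 - r1 • f 0, f 2 - r2 • f 0] with hg
    have hUg : LinearIndependent K g ∧ sp O g = sp O f := by
      refine sp_change (U := !![1, -r1, -r2; 0, 1, 0; 0, 0, 1]) hA.1 ?_ ?_ ?_ ?_
      · intro i j
        fin_cases i <;> fin_cases j <;> simp [hr1O, hr2O, O.zero_mem, O.one_mem]
      · simp [Matrix.det_fin_three]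
      · simp [Matrix.det_fin_three]
      · intro j
        rw [Fin.sum_univ_three]
        fin_cases j
        · simp [hg]
        · simp [hg]
          abel
        · simp [hg]
          abel
    have hAg : Adp t g L L' ![(p : ℤ) + q + s, q + s, s] := by
      refine h2 K O t hU f g L L' _ _ hA hUg.1 (hL.trans hUg.2.symm) ?_ rfl
      intro i
      fin_cases i
      · exact MVL_mem hU hA (i := 0) le_rfl
      · show t ^ (-((q : ℤ) + s)) • (f 1 - r1 • f 0) ∈ L'
        rw [smul_sub, smul_comm]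
        refine sub_mem (MVL_mem hU hA (i := 1) (by rw [ha1])) (smul_mem_K _ hr1O
          (MVL_mem hU hA (i := 0) (by rw [ha0]; omega)))
      · show t ^ (-(s : ℤ)) • (f 2 - r2 • f 0) ∈ L'
        rw [smul_sub, smul_comm]
        refine sub_mem (MVL_mem hU hA (i := 2) (by rw [ha2])) (smul_mem_K _ hr2O
          (MVL_mem hU hA (i := 0) (by rw [ha0]; omega)))
    have hsp := MVL_span hO hWφ hU (g := g) (hL.trans hUg.2.symm) 0 u0 u0' (by
      intro i hi
      refine ⟨0, O.zero_mem, ?_⟩
      fin_cases i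
      · exact absurd rfl hi
      · show φ (f 1 - r1 • f 0) = t * 0
        rw [map_sub, map_smul, smul_eq_mul, hr1, mul_assoc, inv_mul_cancel₀ u0']
        ring
      · show φ (f 2 - r2 • f 0) = t * 0
        rw [map_sub, map_smul, smul_eq_mul, hr2, mul_assoc, inv_mul_cancel₀ u0']
        ring)
    obtain ⟨q1, q2⟩ := MVL_en h1 hU hAg 0 hsp
    refine ⟨q1, ?_⟩
    rw [q2, e2, if_neg hWl, i1, if_neg hPW']
    simp only [Fin.sum_univ_three, ha0, ha1, ha2]
    simp
    ring
  · have hW0 : f 0 ∈ W := (hWφ _).2 ⟨hfL 0, y0, hy0, hy0'⟩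
    have hPW' : P ≤ W := hPW hW0
    rcases hU.unit_or (hO _ (hfL 1)) with ⟨u1, u1'⟩ | ⟨y1, hy1, hy1'⟩
    · -- the functional is a unit at `f 1`
      have hn1 : f 1 ∉ W := hnot _ u1 u1'
      have hWl : W ≠ l := fun h => hn1 (h ▸ hlmem1)
      set r := φ (f 2) * (φ (f 1))⁻¹ with hr
      have hrO : r ∈ O := mul_mem (hO _ (hfL 2)) u1
      set g : Fin 3 → V K := ![f 0, f 1, f 2 - r • f 1] with hg
      have hUg : LinearIndependent K g ∧ sp O g = sp O f := by
        refine sp_change (U := !![1, 0, 0; 0, 1, -r; 0, 0, 1]) hA.1 ?_ ?_ ?_ ?_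
        · intro i j
          fin_cases i <;> fin_cases j <;> simp [hrO, O.zero_mem, O.one_mem]
        · simp [Matrix.det_fin_three]
        · simp [Matrix.det_fin_three]
        · intro j
          rw [Fin.sum_univ_three]
          fin_cases j
          · simp [hg]
          · simp [hg]
          · simp [hg]
            abel
      have hAg : Adp t g L L' ![(p : ℤ) + q + s, q + s, s] := by
        refine h2 K O t hU f g L L' _ _ hA hUg.1 (hL.trans hUg.2.symm) ?_ rfl
        intro i
        fin_cases i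
        · exact MVL_mem hU hA (i := 0) le_rfl
        · exact MVL_mem hU hA (i := 1) le_rfl
        · show t ^ (-(s : ℤ)) • (f 2 - r • f 1) ∈ L'
          rw [smul_sub, smul_comm]
          refine sub_mem (MVL_mem hU hA (i := 2) (by rw [ha2])) (smul_mem_K _ hrO
            (MVL_mem hU hA (i := 1) (by rw [ha1]; omega)))
      have hsp := MVL_span hO hWφ hU (g := g) (hL.trans hUg.2.symm) 1 u1 u1' (by
        intro i hi
        fin_cases i
        · exact ⟨y0, hy0, hy0'⟩
        · exact absurd rfl hi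
        · refine ⟨0, O.zero_mem, ?_⟩
          show φ (f 2 - r • f 1) = t * 0
          rw [map_sub, map_smul, smul_eq_mul, hr, mul_assoc, inv_mul_cancel₀ u1']
          ring)
      obtain ⟨q1, q2⟩ := MVL_en h1 hU hAg 1 hsp
      refine ⟨q1, ?_⟩
      rw [q2, e2, if_neg hWl, i1, if_pos hPW']
      simp only [Fin.sum_univ_three, ha0, ha1, ha2]
      simp
      ring
    · rcases hU.unit_or (hO _ (hfL 2)) with ⟨u2, u2'⟩ | ⟨y2, hy2, hy2'⟩
      · have hsp := MVL_span hO hWφ hU (g := f) hL 2 u2 u2' (by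
          intro i hi
          fin_cases i
          · exact ⟨y0, hy0, hy0'⟩
          · exact ⟨y1, hy1, hy1'⟩
          · exact absurd rfl hi)
        have hWl : W = l := by
          rw [hsp, hl]
          congr 1
          funext i
          fin_cases i <;> simp [Function.update]
        obtain ⟨q1, q2⟩ := MVL_en h1 hU hA 2 hsp
        refine ⟨q1, ?_⟩
        rw [q2, e2, if_pos hWl, i1, if_pos hPW']
        simp only [Fin.sum_univ_three, ha0, ha1, ha2]
        simp
        ring
      · -- impossible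
        exfalso
        rw [hL, mem_sp] at hv0
        obtain ⟨c, hc, rfl⟩ := hv0
        rw [map_sum, Fin.sum_univ_three] at hv1
        simp only [map_smul, smul_eq_mul, hy0', hy1', hy2'] at hv1
        have e : t * (c 0 * y0 + c 1 * y1 + c 2 * y2) = 1 := by
          rw [← hv1]
          ring
        apply hU.nu
        rw [inv_eq_of_mul_eq_one_right e]
        exact add_mem (add_mem (mul_mem (hc 0) hy0) (mul_mem (hc 1) hy1))
          (mul_mem (hc 2) hy2)

end R3S
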