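import Pool.Agent.R3S.St
import Pool.Agent.R3S.Tool

/-!
# R3S, MVP: moving a lattice towards a point
-/

set_option autoImplicit false

namespace R3S

open Matrix

section

variable {K : Type} [Field K] {O : ValuationSubring K} {t : K}

/-- replacing one member of a basis -/
theorem MVP_repl {f : Fin 3 → V K} (hf : LinearIndependent K f) (m : Fin 3) {c : Fin 3 → K}
    (hc : ∀ i, c i ∈ O) (h0 : c m ≠ 0) (h1 : (c m)⁻¹ ∈ O) :
    LinearIndependent K (Function.update f m (∑ i, c i • f i)) ∧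
      sp O (Function.update f m (∑ i, c i • f i)) = sp O f := by
  have hdet : ((1 : M K).updateCol m c).det = c m := by
    rw [← Matrix.cramer_apply, Matrix.cramer_one]
    rfl
  refine sp_change hf (U := (1 : M K).updateCol m c) ?_ ?_ ?_ ?_
  · intro i j
    rw [Matrix.updateCol_apply]
    split_ifs
    · exact hc i
    · exact MO_one i j
  · rw [hdet]
    exact h0
  · rw [hdet]
    exact h1
  · intro j
    by_cases hj : j = m
    · subst hj
      rw [Function.update_self]
      exact Finset.sum_congr rfl fun i _ => by rw [Matrix.updateCol_self]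
    · rw [Function.update_of_ne hj, Finset.sum_eq_single j]
      · rw [Matrix.updateCol_ne hj, Matrix.one_apply_eq, one_smul]
      · intro i _ hi
        rw [Matrix.updateCol_ne hj, Matrix.one_apply_ne hi, zero_smul]
      · intro h
        exact absurd (Finset.mem_univ j) h

/-- replacing one member of an adapted basis -/
theorem MVP_adp (h2 : St_LFT) (hU : Unif O t) {f : Fin 3 → V K} {L L' : Submodule O (V K)}
    {a : Fin 3 → ℤ} (h : Adp t f L L' a) (m : Fin 3) {c : Fin 3 → K} (hc : ∀ i, c i ∈ O)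
    (h0 : c m ≠ 0) (h1 : (c m)⁻¹ ∈ O) (hm : ∀ i, c i * t ^ (a i - a m) ∈ O) :
    Adp t (Function.update f m (∑ i, c i • f i)) L L' a := by
  obtain ⟨g1, g2⟩ := MVP_repl h.1 m hc h0 h1
  refine h2 K O t hU f _ L L' a a h g1 (h.2.1.trans g2.symm) (fun i => ?_) rfl
  rw [h.2.2]
  by_cases hi : i = m
  · subst hi
    rw [Function.update_self, Finset.smul_sum]
    simp only [smul_smul]
    rw [sum_mem_pow_iff h.1 hU.ne]
    intro j
    have e : t ^ (-a i) * c j * t ^ a j = c j * t ^ (a j - a i) := by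
      rw [zpow_sub₀ hU.ne, _root_.zpow_neg]
      ring
    rw [e]
    exact hm j
  · rw [Function.update_of_ne hi]
    exact self_mem_sp (fun i => t ^ (-a i) • f i) i

/-- the sublattice of `L = sp g` between `t L` and `L` spanned by the members with `e i = 1` -/
def MVP_sub (O : ValuationSubring K) (t : K) (g : Fin 3 → V K) (e : Fin 3 → ℤ) :
    Submodule O (V K) :=
  sp O fun i => t ^ (1 - e i) • g i

theorem MVP_up (ht : t ≠ 0) (g : Fin 3 → V K) (e : Fin 3 → ℤ) :
    up t (MVP_sub O t g e) = sp O fun i => t ^ (-e i) • g i := by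
  rw [MVP_sub, up_sp ht]
  congr 1
  funext i
  rw [smul_smul, ← _root_.zpow_neg_one, ← zpow_add₀ ht]
  congr 2
  ring

theorem MVP_up_adp (ht : t ≠ 0) {g : Fin 3 → V K} {L L' : Submodule O (V K)} {a : Fin 3 → ℤ}
    (h : Adp t g L L' a) (e : Fin 3 → ℤ) :
    Adp t (fun i => t ^ (-e i) • g i) (up t (MVP_sub O t g e)) L' (fun i => a i - e i) := by
  refine ⟨li_pow h.1 ht _, MVP_up ht g e, ?_⟩
  rw [h.2.2]
  congr 1
  funext i
  rw [smul_smul, ← zpow_add₀ ht]
  congr 2
  ring

theorem MVP_up_en (h1 : St_EV) (hU : Unif O t) {g : Fin 3 → V K} {L L' : Submodule O (V K)}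
    {a : Fin 3 → ℤ} (h : Adp t g L L' a) (e : Fin 3 → ℤ) :
    IsLat O (up t (MVP_sub O t g e)) ∧
    (en t (up t (MVP_sub O t g e)) L' : ℤ) = en t L L' - 2 * (3 * ∑ i, a i * e i -
      (∑ i, a i) * ∑ i, e i) + (3 * ∑ i, e i ^ 2 - (∑ i, e i) ^ 2) := by
  have h3 := MVP_up_adp hU.ne h e
  refine ⟨(h3.isLat hU.ne).1, ?_⟩
  rw [h1 K O t hU _ _ _ _ h3, h1 K O t hU _ _ _ _ h]
  simp only [Fin.sum_univ_three]
  ring

/-- membership in a sublattice -/
theorem MVP_mem_sub (ht : t ≠ 0) {g : Fin 3 → V K} (hg : LinearIndependent K g) (e : Fin 3 → ℤ)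
    (c : Fin 3 → K) : ∑ i, c i • g i ∈ MVP_sub O t g e ↔ ∀ i, c i * t ^ (e i - 1) ∈ O := by
  have h1 : MVP_sub O t g e = sp O fun i => t ^ (-(fun i => e i - 1) i) • g i := by
    rw [MVP_sub]
    congr 1
    funext i
    congr 2
    ring
  rw [h1, sum_mem_pow_iff hg ht]

theorem MVP_t_mem (hU : Unif O t) {c : K} : c * t ^ ((0 : ℤ) - 1) ∈ O ↔ ∃ d ∈ O, c = t * d := by
  have e : c * t ^ ((0 : ℤ) - 1) = c * t⁻¹ := by
    rw [zero_sub, _root_.zpow_neg_one]
  rw [e]
  constructor
  · intro h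
    refine ⟨_, h, ?_⟩
    rw [mul_comm c, ← mul_assoc, mul_inv_cancel₀ hU.ne, one_mul]
  · rintro ⟨d, hd, rfl⟩
    rw [mul_comm t d, mul_assoc, mul_inv_cancel₀ hU.ne, mul_one]
    exact hd

/-- the lattice `sp ![g 0, t g 1, t g 2]` and the like -/
theorem MVP_pt_eq (g : Fin 3 → V K) :
    sp O ![g 0, t • g 1, t • g 2] = MVP_sub O t g ![1, 0, 0] := by
  rw [MVP_sub]
  congr 1
  funext i
  fin_cases i
  · show g 0 = t ^ ((1 : ℤ) - 1) • g 0
    rw [sub_self, zpow_zero, one_smul]
  · show t • g 1 = t ^ ((1 : ℤ) - 0) • g 1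
    rw [sub_zero, zpow_one]
  · show t • g 2 = t ^ ((1 : ℤ) - 0) • g 2
    rw [sub_zero, zpow_one]

theorem MVP_ln_eq (g : Fin 3 → V K) :
    sp O ![g 0, g 1, t • g 2] = MVP_sub O t g ![1, 1, 0] := by
  rw [MVP_sub]
  congr 1
  funext i
  fin_cases i
  · show g 0 = t ^ ((1 : ℤ) - 1) • g 0
    rw [sub_self, zpow_zero, one_smul]
  · show g 1 = t ^ ((1 : ℤ) - 1) • g 1
    rw [sub_self, zpow_zero, one_smul]
  · show t • g 2 = t ^ ((1 : ℤ) - 0) • g 2
    rw [sub_zero, zpow_one]

/-- membership in a point of `L / t L` -/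
theorem MVP_mem_single (ht : t ∈ O) (g : Fin 3 → V K) (m : Fin 3) (v : V K) :
    v ∈ MVP_sub O t g (Pi.single m 1) ↔
      ∃ e ∈ O, ∃ u ∈ sp O g, v = e • g m + t • u := by
  rw [MVP_sub, mem_sp]
  constructor
  · rintro ⟨c, hc, rfl⟩
    refine ⟨c m, hc m, ∑ i, (if i = m then 0 else c i) • g i, ?_, ?_⟩
    · rw [mem_sp]
      refine ⟨_, fun i => ?_, rfl⟩
      split_ifs
      · exact O.zero_mem
      · exact hc i
    · have e1 : c m • g m = ∑ i, (if i = m then c i else 0) • g i := by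
        rw [Finset.sum_eq_single m]
        · rw [if_pos rfl]
        · intro i _ hi
          rw [if_neg hi, zero_smul]
        · intro h
          exact absurd (Finset.mem_univ m) h
      rw [e1, Finset.smul_sum, ← Finset.sum_add_distrib]
      refine Finset.sum_congr rfl fun i _ => ?_
      by_cases hi : i = m
      · subst hi
        rw [Pi.single_eq_same, if_pos rfl, if_pos rfl, sub_self, zpow_zero, one_smul, zero_smul,
          smul_zero, add_zero]
      · rw [Pi.single_eq_of_ne hi, if_neg hi, if_neg hi, sub_zero, zpow_one, zero_smul, zero_add,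
          smul_comm]
  · rintro ⟨e, he, u, hu, rfl⟩
    obtain ⟨d, hd, rfl⟩ := (mem_sp g u).1 hu
    refine ⟨fun i => if i = m then e + t * d i else d i, fun i => ?_, ?_⟩
    · dsimp only
      split_ifs
      · exact add_mem he (mul_mem ht (hd i))
      · exact hd i
    · have e1 : e • g m = ∑ i, (if i = m then e else 0) • g i := by
        rw [Finset.sum_eq_single m]
        · rw [if_pos rfl]
        · intro i _ hi
          rw [if_neg hi, zero_smul]
        · intro h
          exact absurd (Finset.mem_univ m) h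
      rw [e1, Finset.smul_sum, ← Finset.sum_add_distrib]
      refine Finset.sum_congr rfl fun i _ => ?_
      dsimp only
      by_cases hi : i = m
      · subst hi
        rw [Pi.single_eq_same, if_pos rfl, if_pos rfl, sub_self, zpow_zero, one_smul, smul_smul,
          ← add_smul]
      · rw [Pi.single_eq_of_ne hi, if_neg hi, if_neg hi, sub_zero, zpow_one, zero_smul, zero_add,
          smul_comm]

/-- points of `L / t L` with the same class -/
theorem MVP_sub_eq (ht : t ∈ O) {g g' : Fin 3 → V K} (h : sp O g = sp O g') (m m' : Fin 3)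
    {ε : K} (h1 : ε ∈ O) (h2 : ε⁻¹ ∈ O) (h0 : ε ≠ 0) {u : V K} (hu : u ∈ sp O g)
    (e : g' m' = ε • g m + t • u) :
    MVP_sub O t g' (Pi.single m' 1) = MVP_sub O t g (Pi.single m 1) := by
  ext v
  rw [MVP_mem_single ht, MVP_mem_single ht]
  constructor
  · rintro ⟨d, hd, z, hz, rfl⟩
    refine ⟨d * ε, mul_mem hd h1, d • u + z, add_mem (smul_mem_K _ hd hu) (h ▸ hz), ?_⟩
    rw [e, smul_add, smul_smul, smul_add, smul_comm d t u, add_assoc]
  · rintro ⟨d, hd, z, hz, rfl⟩
    refine ⟨d * ε⁻¹, mul_mem hd h2, z - (d * ε⁻¹) • u,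
      sub_mem (h ▸ hz) (smul_mem_K _ (mul_mem hd h2) (h ▸ hu)), ?_⟩
    rw [e, smul_add, smul_smul, mul_assoc, inv_mul_cancel₀ h0, mul_one, smul_sub,
      smul_comm t (d * ε⁻¹) u]
    abel

/-- a member of a basis is not divisible by `t` -/
theorem MVP_unit_coord (hU : Unif O t) {f g : Fin 3 → V K} (hf : LinearIndependent K f)
    (hg : LinearIndependent K g) (h : sp O g = sp O f) (j : Fin 3) :
    ∃ c : Fin 3 → K, (∀ i, c i ∈ O) ∧ g j = ∑ i, c i • f i ∧
      ¬ ∀ i, ∃ d ∈ O, c i = t * d := by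
  obtain ⟨U, u1, u2, u0, -, -, -, u3⟩ := exists_change hf hg h
  refine ⟨fun i => U i j, fun i => u1 i j, u3 j, fun hc => hU.nu ?_⟩
  choose d hd hd' using hc
  have e1 : (U⁻¹ * U) j j = 1 := by
    rw [Matrix.nonsing_inv_mul _ (isUnit_iff_ne_zero.2 u0), Matrix.one_apply_eq]
  rw [Matrix.mul_apply] at e1
  have e2 : t * ∑ i, U⁻¹ j i * d i = 1 := by
    rw [← e1, Finset.mul_sum]
    refine Finset.sum_congr rfl fun i _ => ?_
    have := hd' i
    dsimp only at this
    rw [this]
    ring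
  rw [inv_eq_of_mul_eq_one_right e2]
  exact sum_mem fun i _ => mul_mem (u2 j i) (hd i)

theorem MVP_le_of (hU : Unif O t) {f g : Fin 3 → V K} (h : sp O g = sp O f) (e : Fin 3 → ℤ)
    (he : ∀ i, e i ≤ 1) {m : Fin 3} (hm : g m ∈ MVP_sub O t f e) (he' : ∀ i, 0 ≤ e i) :
    MVP_sub O t g (Pi.single m 1) ≤ MVP_sub O t f e := by
  intro v hv
  rw [MVP_mem_single hU.mem] at hv
  obtain ⟨d, hd, z, hz, rfl⟩ := hv
  refine add_mem (smul_mem_K _ hd hm) ?_
  rw [h] at hz
  obtain ⟨c, hc, rfl⟩ := (mem_sp f z).1 hz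
  rw [Finset.smul_sum, MVP_sub, mem_sp]
  refine ⟨fun i => c i * t ^ (e i), fun i => mul_mem (hc i) (hU.zpow_mem_of (he' i)), ?_⟩
  refine Finset.sum_congr rfl fun i _ => ?_
  rw [smul_smul, smul_smul]
  congr 1
  have e1 : c i * t ^ e i * t ^ (1 - e i) = c i * (t ^ e i * t ^ (1 - e i)) := by ring
  rw [e1, ← zpow_add₀ hU.ne, add_sub_cancel, zpow_one, mul_comm]

end

theorem MVP_e10 : (![1, 0, 0] : Fin 3 → ℤ) = Pi.single 0 1 := by
  funext i
  fin_cases i <;> rfl

theorem thm_MVP (h1 : St_EV) (h2 : St_LFT) : St_MVP := by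
  intro K _ O t hU L L' p q P l hD W hW
  obtain ⟨f, s, hf, hP, hl⟩ := hD
  obtain ⟨f', hf', hL', hW⟩ := hW
  rw [MVP_pt_eq] at hP hW
  rw [MVP_ln_eq] at hl
  rw [MVP_e10] at hP hW
  have hsp : sp O f' = sp O f := hL'.symm.trans hf.2.1
  obtain ⟨c, hc, hw, hc0⟩ := MVP_unit_coord hU hf.1 hf' hsp 0
  -- `P ≤ l`
  have hPl : P ≤ l := by
    rw [hP, hl]
    refine MVP_le_of hU rfl _ (fun i => by fin_cases i <;> decide) ?_
      (fun i => by fin_cases i <;> decide)
    rw [MVP_sub, mem_sp]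
    refine ⟨Pi.single 0 1, fun i => ?_, ?_⟩
    · fin_cases i
      · exact O.one_mem
      · exact O.zero_mem
      · exact O.zero_mem
    · rw [Fin.sum_univ_three]
      simp
  -- membership of `w`
  have hwW : f' 0 ∈ W := by
    rw [hW, MVP_mem_single hU.mem]
    exact ⟨1, O.one_mem, 0, Submodule.zero_mem _, by rw [one_smul, smul_zero, add_zero]⟩
  have hWl : W ≤ l ↔ ∃ d ∈ O, c 2 = t * d := by
    constructor
    · intro h
      have h3 := h hwW
      rw [hw, hl, MVP_mem_sub hU.ne hf.1] at h3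
      exact (MVP_t_mem hU).1 (h3 2)
    · intro h
      rw [hW, hl]
      refine MVP_le_of hU hsp _ (fun i => by fin_cases i <;> decide) ?_
        (fun i => by fin_cases i <;> decide)
      rw [hw, MVP_mem_sub hU.ne hf.1]
      intro i
      fin_cases i
      · show c 0 * t ^ ((1 : ℤ) - 1) ∈ O
        rw [sub_self, zpow_zero, mul_one]
        exact hc 0
      · show c 1 * t ^ ((1 : ℤ) - 1) ∈ O
        rw [sub_self, zpow_zero, mul_one]
        exact hc 1
      · exact (MVP_t_mem hU).2 h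
  have hWP : f' 0 ∈ P → ∃ d ∈ O, c 1 = t * d := by
    intro h3
    rw [hw, hP, MVP_mem_sub hU.ne hf.1] at h3
    exact (MVP_t_mem hU).1 (h3 1)
  by_cases c2 : ∃ d ∈ O, c 2 = t * d
  · have hle := hWl.2 c2
    by_cases c1 : ∃ d ∈ O, c 1 = t * d
    · -- the point `P`
      obtain ⟨d1, hd1, e1⟩ := c1
      obtain ⟨d2, hd2, e2'⟩ := c2
      have c0 : (c 0)⁻¹ ∈ O ∧ c 0 ≠ 0 := by
        rcases hU.unit_or (hc 0) with h | h
        · exact h
        · exfalso
          apply hc0
          intro i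
          fin_cases i
          · exact h
          · exact ⟨d1, hd1, e1⟩
          · exact ⟨d2, hd2, e2'⟩
      have hWeq : W = P := by
        rw [hW, hP]
        refine MVP_sub_eq hU.mem hsp.symm 0 0 (hc 0) c0.1 c0.2 (u := d1 • f 1 + d2 • f 2)
          (add_mem (smul_mem_K _ hd1 (self_mem_sp f 1)) (smul_mem_K _ hd2 (self_mem_sp f 2))) ?_
        rw [hw, Fin.sum_univ_three, e1, e2', smul_add, smul_smul, smul_smul, add_assoc]
      have k := MVP_up_en h1 hU hf (Pi.single 0 1)
      rw [← hP, ← hWeq] at k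
      refine ⟨k.1, ?_⟩
      rw [k.2, e2, if_pos hWeq, i1, if_pos hle]
      simp only [Fin.sum_univ_three, Matrix.cons_val_zero, Matrix.cons_val_one,
        Matrix.cons_val_two, Matrix.head_cons, Matrix.tail_cons, Matrix.cons_val]
      simp
      ring
    · -- a point of `l`
      obtain ⟨d2, hd2, e2'⟩ := c2
      have c1' : (c 1)⁻¹ ∈ O ∧ c 1 ≠ 0 := by
        rcases hU.unit_or (hc 1) with h | h
        · exact h
        · exact absurd h c1
      have hne : W ≠ P := by
        intro h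
        exact c1 (hWP (h ▸ hwW))
      have hg := MVP_adp h2 hU hf 1 (c := ![c 0, c 1, 0]) (fun i => by
        fin_cases i
        · exact hc 0
        · exact hc 1
        · exact O.zero_mem) c1'.2 c1'.1 (fun i => by
        fin_cases i
        · show c 0 * t ^ ((p : ℤ) + q + s - (q + s)) ∈ O
          exact mul_mem (hc 0) (hU.zpow_mem_of (by omega))
        · show c 1 * t ^ ((q : ℤ) + s - (q + s)) ∈ O
          exact mul_mem (hc 1) (hU.zpow_mem_of (by omega))
        · show 0 * t ^ (s - ((q : ℤ) + s)) ∈ O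
          rw [zero_mul]
          exact O.zero_mem)
      have hWeq : W = MVP_sub O t (Function.update f 1 (∑ i, ![c 0, c 1, 0] i • f i))
          (Pi.single 1 1) := by
        rw [hW]
        refine MVP_sub_eq hU.mem ((hg.2.1.symm.trans hL').trans rfl) 1 0 O.one_mem
          (by rw [inv_one]; exact O.one_mem) one_ne_zero (u := d2 • f 2) ?_ ?_
        · rw [← hg.2.1, hf.2.1]
          exact smul_mem_K _ hd2 (self_mem_sp f 2)
        · rw [Function.update_self, hw, Fin.sum_univ_three, Fin.sum_univ_three, one_smul]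
          show c 0 • f 0 + c 1 • f 1 + c 2 • f 2 = c 0 • f 0 + c 1 • f 1 + (0 : K) • f 2 +
            t • d2 • f 2
          rw [e2', zero_smul, add_zero, smul_smul]
      have k := MVP_up_en h1 hU hg (Pi.single 1 1)
      rw [← hWeq] at k
      refine ⟨k.1, ?_⟩
      rw [k.2, e2, if_neg hne, i1, if_pos hle]
      simp only [Fin.sum_univ_three, Matrix.cons_val_zero, Matrix.cons_val_one,
        Matrix.cons_val_two, Matrix.head_cons, Matrix.tail_cons, Matrix.cons_val]
      simp
      ring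
  · -- a point outside `l`
    have hnle : ¬ W ≤ l := fun h => c2 (hWl.1 h)
    have hne : W ≠ P := fun h => hnle (h ▸ hPl)
    have c2' : (c 2)⁻¹ ∈ O ∧ c 2 ≠ 0 := by
      rcases hU.unit_or (hc 2) with h | h
      · exact h
      · exact absurd h c2
    have hg := MVP_adp h2 hU hf 2 (c := c) hc c2'.2 c2'.1 (fun i => by
      fin_cases i
      · show c 0 * t ^ ((p : ℤ) + q + s - s) ∈ O
        exact mul_mem (hc 0) (hU.zpow_mem_of (by omega))
      · show c 1 * t ^ ((q : ℤ) + s - s) ∈ O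
        exact mul_mem (hc 1) (hU.zpow_mem_of (by omega))
      · show c 2 * t ^ (s - s) ∈ O
        exact mul_mem (hc 2) (hU.zpow_mem_of (by omega)))
    have hWeq : W = MVP_sub O t (Function.update f 2 (∑ i, c i • f i)) (Pi.single 2 1) := by
      rw [hW]
      refine MVP_sub_eq hU.mem (hg.2.1.symm.trans hL') 2 0 O.one_mem
        (by rw [inv_one]; exact O.one_mem) one_ne_zero (u := 0) (Submodule.zero_mem _) ?_
      rw [Function.update_self, hw, one_smul, smul_zero, add_zero]
    have k := MVP_up_en h1 hU hg (Pi.single 2 1)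
    rw [← hWeq] at k
    refine ⟨k.1, ?_⟩
    rw [k.2, e2, if_neg hne, i1, if_neg hnle]
    simp only [Fin.sum_univ_three, Matrix.cons_val_zero, Matrix.cons_val_one,
      Matrix.cons_val_two, Matrix.head_cons, Matrix.tail_cons, Matrix.cons_val]
    simp
    ring

end R3S
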