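import Pool.Agent.R3S.St2

/-!
# R3S [QUI]: roots of unity

Matrices whose eigenvalues are roots of unity have an integral characteristic polynomial, and in a
finitely generated group they have finitely many characteristic polynomials.
-/

set_option autoImplicit false

namespace R3S

open Matrix Polynomial

/-- the characteristic polynomial is a product of linear factors -/
private theorem QUI_prod (A : M ℂ) :
    A.charpoly = (A.charpoly.roots.map fun z => (X - C z : ℂ[X])).prod := by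
  have h1 := (IsAlgClosed.splits A.charpoly).eq_prod_roots_of_monic A.charpoly_monic
  exact h1

private theorem QUI_coeff (s : Multiset ℂ) (hs : ∀ z ∈ s, IsIntegral ℤ z) :
    ∀ n, IsIntegral ℤ ((s.map fun z => (X - C z : ℂ[X])).prod.coeff n) := by
  induction s using Multiset.induction_on with
  | empty =>
    intro n
    rw [Multiset.map_zero, Multiset.prod_zero, coeff_one]
    split_ifs
    · exact isIntegral_one
    · exact isIntegral_zero
  | cons a s ih =>
    intro n
    have h1 := ih fun z hz => hs z (Multiset.mem_cons_of_mem hz)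
    have h2 := hs a (Multiset.mem_cons_self a s)
    rw [Multiset.map_cons, Multiset.prod_cons, sub_mul, coeff_sub, coeff_C_mul]
    refine IsIntegral.sub ?_ (h2.mul (h1 n))
    cases n with
    | zero =>
      rw [coeff_X_mul_zero]
      exact isIntegral_zero
    | succ n =>
      rw [coeff_X_mul]
      exact h1 n

private theorem QUI_int {z : ℂ} (h : ∃ k : ℕ, 0 < k ∧ z ^ k = 1) : IsIntegral ℤ z := by
  obtain ⟨k, hk, hz⟩ := h
  exact IsIntegral.of_pow hk (by rw [hz]; exact isIntegral_one)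

/-- the roots of unity among the eigenvalues of a finitely generated group have bounded order -/
private theorem QUI_order {G : Type} [Group G] {n : ℕ} (c : Fin n → G)
    (hc : Subgroup.closure (Set.range c) = ⊤) (ρ : G →* GL (Fin 3) ℂ) :
    ∃ N : ℕ, 0 < N ∧ ∀ (x : G) (z : ℂ), (ρ x : M ℂ).charpoly.IsRoot z →
      (∃ n : ℕ, 0 < n ∧ z ^ n = 1) → z ^ N = 1 := by
  have hfg : (MonoidHom.range ρ).FG := by
    rw [Subgroup.fg_iff]
    refine ⟨ρ '' Set.range c, ?_, (Set.finite_range c).image _⟩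
    rw [← MonoidHom.map_closure, hc, MonoidHom.range_eq_map]
  obtain ⟨F, _, _, π, hπ⟩ := Helper12.Sc.exists_finite_quotient 3 (MonoidHom.range ρ) hfg
  refine ⟨Nat.card F, Nat.card_pos, fun x z hz hn => ?_⟩
  obtain ⟨n, hn, hzn⟩ := hn
  have hmem : ρ x ∈ MonoidHom.range ρ := ⟨x, rfl⟩
  refine hπ (⟨ρ x, hmem⟩ ^ Nat.card F) ?_ (z ^ Nat.card F) ?_ n hn ?_
  · rw [map_pow, pow_card_eq_one']
  · rw [← Matrix.mem_spectrum_iff_isRoot_charpoly] at hz ⊢
    have h1 := spectrum.pow_mem_pow (ρ x : M ℂ) (Nat.card F) hz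
    have h2 : (((⟨ρ x, hmem⟩ : MonoidHom.range ρ) ^ Nat.card F : MonoidHom.range ρ) :
        GL (Fin 3) ℂ) = (ρ x) ^ Nat.card F := rfl
    rw [h2, Units.val_pow_eq_pow_val]
    exact h1
  · rw [← pow_mul, mul_comm, pow_mul, hzn, one_pow]

private theorem QUI_fin (N : ℕ) (hN : 0 < N) : {P : ℂ[X] | ∃ A : M ℂ,
    (∀ z : ℂ, A.charpoly.IsRoot z → z ^ N = 1) ∧ P = A.charpoly}.Finite := by
  classical
  let Z : Finset ℂ := (nthRoots N (1 : ℂ)).toFinset
  have hfin : (Set.range fun F : Fin 3 → Z => ∏ i, (X - C (F i : ℂ) : ℂ[X])).Finite :=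
    Set.finite_range _
  refine hfin.subset ?_
  rintro P ⟨U, hU, rfl⟩
  have hcard : U.charpoly.roots.card = 3 := by
    have h1 := (IsAlgClosed.splits U.charpoly).natDegree_eq_card_roots
    rw [Matrix.charpoly_natDegree_eq_dim, Fintype.card_fin] at h1
    exact h1.symm
  have hroot : ∀ c ∈ U.charpoly.roots, c ∈ Z := by
    intro c hc
    have h1 := hU c (isRoot_of_mem_roots hc)
    simp only [Z]
    rw [Multiset.mem_toFinset, mem_nthRoots hN]
    exact h1
  have hprod := QUI_prod U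
  obtain ⟨x, y, z, hxyz⟩ := Multiset.card_eq_three.1 hcard
  have hx : x ∈ Z := hroot x (by rw [hxyz]; simp)
  have hy : y ∈ Z := hroot y (by rw [hxyz]; simp)
  have hz : z ∈ Z := hroot z (by rw [hxyz]; simp)
  refine ⟨![⟨x, hx⟩, ⟨y, hy⟩, ⟨z, hz⟩], ?_⟩
  rw [hprod, hxyz]
  simp only [Fin.prod_univ_three, Matrix.cons_val_zero, Matrix.cons_val_one, Matrix.cons_val]
  simp [mul_assoc]

/-- [QUI] Roots of unity. -/
theorem thm_QUI : St_QUI := by
  refine ⟨fun A hA => ⟨?_, ?_⟩, ?_⟩
  · rw [QUI_prod A]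
    exact QUI_coeff _ fun z hz => QUI_int (hA z (isRoot_of_mem_roots hz))
  · apply QUI_int
    have h1 : ∃ k : ℕ, 0 < k ∧ A.det ^ k = 1 := by
      rw [Matrix.det_eq_prod_roots_charpoly A]
      refine Multiset.prod_induction (fun z : ℂ => ∃ k : ℕ, 0 < k ∧ z ^ k = 1) _ ?_
        ⟨1, one_pos, one_pow 1⟩ fun z hz => hA z (isRoot_of_mem_roots hz)
      rintro a b ⟨k, hk, ha⟩ ⟨l, hl, hb⟩
      refine ⟨k * l, Nat.mul_pos hk hl, ?_⟩
      rw [mul_pow, pow_mul, ha, one_pow, mul_comm k l, pow_mul, hb, one_pow, one_mul]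
    obtain ⟨k, hk, h⟩ := h1
    exact ⟨k, hk, by rw [inv_pow, h, inv_one]⟩
  · intro G _ n c hc ρ
    obtain ⟨N, hN, h⟩ := QUI_order c hc ρ
    refine (QUI_fin N hN).subset ?_
    rintro P ⟨x, hx, rfl⟩
    exact ⟨(ρ x : M ℂ), fun z hz => h x z hz (hx z hz), rfl⟩

end R3S
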