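import Pool.Agent.R3S.St
import Pool.Agent.R3S.Tool

/-!
# R3S: adapted bases of two lattices
-/

set_option autoImplicit false

namespace R3S

open Matrix Module

section

variable {K : Type} [Field K] {O : ValuationSubring K} {t : K}

private theorem SNF_unit (x : O) (h0 : (x : K) ≠ 0) (h1 : (x : K)⁻¹ ∈ O) : IsUnit x :=
  IsUnit.of_mul_eq_one ⟨_, h1⟩ (Subtype.ext (mul_inv_cancel₀ h0))

private theorem SNF_dvr (h : Unif O t) : IsDiscreteValuationRing O := by
  refine IsDiscreteValuationRing.ofHasUnitMulPowIrreducibleFactorization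
    ⟨⟨t, h.mem⟩, ⟨?_, ?_⟩, ?_⟩
  · intro hu
    obtain ⟨b, hb⟩ := hu.exists_right_inv
    apply h.nu
    have h1 : t * (b : K) = 1 := congrArg Subtype.val hb
    rw [inv_eq_of_mul_eq_one_right h1]
    exact b.2
  · intro a b hab
    have h1 : t = (a : K) * (b : K) := congrArg Subtype.val hab
    rcases h.unit_or a.2 with h2 | ⟨y, hy, h2⟩
    · exact Or.inl (SNF_unit a h2.2 h2.1)
    · right
      have h3 : y * (b : K) = 1 := by
        have h4 : t * (y * (b : K)) = t * 1 := by
          rw [← mul_assoc, ← h2, ← h1, mul_one]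
        exact mul_left_cancel₀ h.ne h4
      refine SNF_unit b (right_ne_zero_of_mul_eq_one h3) ?_
      rw [inv_eq_of_mul_eq_one_left h3]
      exact hy
  · intro x hx
    have hx0 : (x : K) ≠ 0 := fun h0 => hx (Subtype.ext h0)
    obtain ⟨n, u, hu, hu', hu0, e⟩ := h.exists_unit hx0
    have hn : 0 ≤ n := by
      rw [← h.zpow_mem]
      have h1 : t ^ n = u⁻¹ * (x : K) := by
        rw [e, ← mul_assoc, inv_mul_cancel₀ hu0, one_mul]
      rw [h1]
      exact mul_mem hu' x.2
    obtain ⟨m, rfl⟩ := Int.eq_ofNat_of_zero_le hn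
    refine ⟨m, (SNF_unit ⟨u, hu⟩ hu0 hu').unit, ?_⟩
    apply Subtype.ext
    change t ^ m * u = (x : K)
    rw [e, zpow_natCast, mul_comm]

private theorem SNF_bd1 (h : Unif O t) (x : K) : ∃ n : ℕ, ∀ m : ℕ, n ≤ m → x * t ^ m ∈ O := by
  by_cases hx : x = 0
  · exact ⟨0, fun m _ => by rw [hx, zero_mul]; exact O.zero_mem⟩
  · obtain ⟨k, hk, _⟩ := h.gen x hx
    refine ⟨k.toNat, fun m hm => ?_⟩
    have h1 : x * t ^ m = x * t ^ k * t ^ ((m : ℤ) - k) := by
      rw [mul_assoc, ← zpow_add₀ h.ne]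
      have : k + ((m : ℤ) - k) = (m : ℤ) := by ring
      rw [this, zpow_natCast]
    rw [h1]
    exact mul_mem hk (h.zpow_mem_of (by omega))

private theorem SNF_bd (h : Unif O t) {ι : Type} [Fintype ι] (x : ι → K) :
    ∃ N : ℕ, ∀ i, x i * t ^ N ∈ O := by
  choose n hn using fun i => SNF_bd1 h (x i)
  exact ⟨∑ i, n i, fun i => hn i _ (Finset.single_le_sum (f := n) (fun _ _ => Nat.zero_le _)
    (Finset.mem_univ i))⟩

private theorem SNF_scale_le (c : K) {A B : Fin 3 → V K} (h : sp O A ≤ sp O B) :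
    sp O (fun i => c • A i) ≤ sp O (fun i => c • B i) := by
  rw [sp_le_iff] at h ⊢
  intro i
  obtain ⟨d, hd, e⟩ := (mem_sp B (A i)).1 (h i)
  rw [mem_sp]
  refine ⟨d, hd, ?_⟩
  rw [e, Finset.smul_sum]
  exact Finset.sum_congr rfl fun j _ => smul_comm _ _ _

private theorem SNF_scale (c : K) {A B : Fin 3 → V K} (h : sp O A = sp O B) :
    sp O (fun i => c • A i) = sp O (fun i => c • B i) :=
  le_antisymm (SNF_scale_le c h.le) (SNF_scale_le c h.ge)

private theorem SNF_units (u : Fin 3 → K) (h1 : ∀ i, u i ∈ O) (h2 : ∀ i, (u i)⁻¹ ∈ O)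
    (h3 : ∀ i, u i ≠ 0) (B : Fin 3 → V K) : sp O (fun i => u i • B i) = sp O B := by
  apply le_antisymm
  · rw [sp_le_iff]
    exact fun i => smul_mem_K _ (h1 i) (self_mem_sp B i)
  · rw [sp_le_iff]
    intro i
    have h4 : B i = (u i)⁻¹ • (u i • B i) := by
      rw [smul_smul, inv_mul_cancel₀ (h3 i), one_smul]
    rw [h4]
    exact smul_mem_K _ (h2 i) (self_mem_sp (fun i => u i • B i) i)

/-- the Smith normal form, for `L' ≤ L` -/
private theorem SNF_le (h : Unif O t) {f g : Fin 3 → V K} (hf : LinearIndependent K f)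
    (hg : LinearIndependent K g) (hle : sp O g ≤ sp O f) :
    ∃ (F : Fin 3 → V K) (m : Fin 3 → ℤ), LinearIndependent K F ∧ sp O F = sp O f ∧
      sp O g = sp O (fun i => t ^ m i • F i) := by
  haveI := SNF_dvr h
  have hfO : LinearIndependent O f := (LinearIndependent.iff_fractionRing O K).2 hf
  have hgO : LinearIndependent O g := (LinearIndependent.iff_fractionRing O K).2 hg
  let b : Basis (Fin 3) O ↥(sp O f) := Basis.span hfO
  let S : Submodule O ↥(sp O f) := (sp O g).comap (sp O f).subtype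
  have hS : finrank O S = finrank O ↥(sp O f) := by
    have e1 : finrank O S = finrank O ↥(sp O g) :=
      LinearEquiv.finrank_eq (Submodule.comapSubtypeEquivOfLe hle)
    rw [e1, finrank_eq_card_basis b]
    exact finrank_span_eq_card hgO
  obtain ⟨b', a, ab', hab⟩ := Submodule.exists_smith_normal_form_of_rank_eq b hS
  let F : Fin 3 → V K := fun i => (b' i : V K)
  have hFO : LinearIndependent O F :=
    b'.linearIndependent.map' (sp O f).subtype (Submodule.ker_subtype _)
  have hF : LinearIndependent K F := (LinearIndependent.iff_fractionRing O K).1 hFO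
  have hspF : sp O F = sp O f := by
    have e1 : Set.range F = (sp O f).subtype '' Set.range b' := by
      rw [← Set.range_comp]
      rfl
    rw [sp, e1, Submodule.span_image, b'.span_eq, Submodule.map_top, Submodule.range_subtype]
  have hspG : sp O g = sp O (fun i => (a i : K) • F i) := by
    have e1 : Set.range (fun i => (a i : K) • F i) =
        (sp O f).subtype '' (S.subtype '' Set.range ab') := by
      rw [← Set.range_comp, ← Set.range_comp]
      congr 1
      funext i
      change (a i : K) • F i = ((ab' i : ↥(sp O f)) : V K)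
      rw [hab i]
      rfl
    rw [sp.eq_1 O (fun i => (a i : K) • F i), e1, Submodule.span_image, Submodule.span_image,
      ab'.span_eq, Submodule.map_top, Submodule.range_subtype, Submodule.map_comap_subtype]
    exact (inf_eq_right.2 hle).symm
  have ha : ∀ i, (a i : K) ≠ 0 := by
    intro i h0
    apply ab'.ne_zero i
    apply Subtype.ext
    rw [hab i]
    have h1 : a i = 0 := Subtype.ext h0
    rw [h1, zero_smul]
    rfl
  choose m u hu hu' hu0 he using fun i => h.exists_unit (ha i)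
  refine ⟨F, m, hF, hspF, ?_⟩
  rw [hspG, ← SNF_units u hu hu' hu0 (fun i => t ^ m i • F i)]
  congr 1
  funext i
  rw [smul_smul, ← he i]

end

theorem thm_SNF : St_SNF := by
  intro K _ O t ht L L' hL hL'
  obtain ⟨f, hf, rfl⟩ := hL
  obtain ⟨g, hg, rfl⟩ := hL'
  choose c hc using fun j => exists_coord hf (g j)
  obtain ⟨N, hN⟩ := SNF_bd ht (fun x : Fin 3 × Fin 3 => c x.1 x.2)
  have hle : sp O (fun j => t ^ (N : ℤ) • g j) ≤ sp O f := by
    rw [sp_le_iff]
    intro j
    rw [mem_sp]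
    refine ⟨fun i => c j i * t ^ N, fun i => hN (j, i), ?_⟩
    rw [hc j, Finset.smul_sum]
    refine Finset.sum_congr rfl fun i _ => ?_
    rw [smul_smul, zpow_natCast, mul_comm]
  obtain ⟨F, m, hF, h1, h2⟩ := SNF_le ht hf (li_pow hg ht.ne (fun _ => (N : ℤ))) hle
  have h3 : sp O g = sp O (fun i => t ^ (-((N : ℤ) - m i)) • F i) := by
    have h4 := SNF_scale (t ^ (-(N : ℤ))) h2
    have e1 : (fun i => t ^ (-(N : ℤ)) • (t ^ (N : ℤ) • g i)) = g := by
      funext i
      rw [smul_smul, ← zpow_add₀ ht.ne, neg_add_cancel, zpow_zero, one_smul]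
    have e2 : (fun i => t ^ (-(N : ℤ)) • (t ^ m i • F i)) =
        fun i => t ^ (-((N : ℤ) - m i)) • F i := by
      funext i
      rw [smul_smul, ← zpow_add₀ ht.ne]
      congr 2
      ring
    rw [e1, e2] at h4
    exact h4
  let w : Fin 3 → ℤ := fun i => (N : ℤ) - m i
  let σ : Equiv.Perm (Fin 3) := Tuple.sort (fun i => -w i)
  have hmono : Monotone ((fun i => -w i) ∘ σ) := Tuple.monotone_sort _
  have a01 : w (σ 1) ≤ w (σ 0) := by
    have := hmono (show (0 : Fin 3) ≤ 1 by decide)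
    change -w (σ 0) ≤ -w (σ 1) at this
    linarith
  have a12 : w (σ 2) ≤ w (σ 1) := by
    have := hmono (show (1 : Fin 3) ≤ 2 by decide)
    change -w (σ 1) ≤ -w (σ 2) at this
    linarith
  have hperm : ∀ G : Fin 3 → V K, sp O (fun i => G (σ i)) = sp O G := by
    intro G
    have : Set.range (fun i => G (σ i)) = Set.range G := σ.surjective.range_comp G
    rw [sp, this]
    rfl
  refine ⟨(w (σ 0) - w (σ 1)).toNat, (w (σ 1) - w (σ 2)).toNat, _, _, fun i => F (σ i), w (σ 2),
    ⟨hF.comp σ σ.injective, ?_, ?_⟩, rfl, rfl⟩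
  · rw [hperm F, h1]
  · rw [h3, ← hperm (fun i => t ^ (-((N : ℤ) - m i)) • F i)]
    congr 1
    funext i
    have hp : (((w (σ 0) - w (σ 1)).toNat : ℕ) : ℤ) = w (σ 0) - w (σ 1) :=
      Int.toNat_of_nonneg (by linarith)
    have hq : (((w (σ 1) - w (σ 2)).toNat : ℕ) : ℤ) = w (σ 1) - w (σ 2) :=
      Int.toNat_of_nonneg (by linarith)
    have e3 : ((N : ℤ) - m (σ i)) = (![(((w (σ 0) - w (σ 1)).toNat : ℕ) : ℤ) +
        (((w (σ 1) - w (σ 2)).toNat : ℕ) : ℤ) + w (σ 2),
        (((w (σ 1) - w (σ 2)).toNat : ℕ) : ℤ) + w (σ 2), w (σ 2)] : Fin 3 → ℤ) i := by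
      rw [hp, hq]
      fin_cases i
      · change w (σ 0) = w (σ 0) - w (σ 1) + (w (σ 1) - w (σ 2)) + w (σ 2)
        ring
      · change w (σ 1) = w (σ 1) - w (σ 2) + w (σ 2)
        ring
      · rfl
    rw [e3]

end R3S
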