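import Pool.Agent.R3S.St2
import Pool.Agent.SpQ.Front

/-!
# R3S: module SPC, compactness of the set of spin structures
-/

set_option autoImplicit false

namespace R3S

open Helper12.Sc Helper12.Sc.SurfaceGroup SpQ

private theorem SPC_cont {A B : Type} [TopologicalSpace B] [DiscreteTopology B]
    (f : B → B → B) (x y : A) : Continuous fun w : A → B => f (w x) (w y) := by
  have h1 : Continuous fun z : B × B => f z.1 z.2 := continuous_of_discreteTopology
  have h2 : Continuous fun w : A → B => (w x, w y) :=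
    (continuous_apply x).prodMk (continuous_apply y)
  exact h1.comp h2

/-- the set of spin structures is closed -/
private theorem SPC_closed (g k : ℕ) [TopologicalSpace (ZMod k)] [DiscreteTopology (ZMod k)] :
    IsClosed {w : SurfaceGroup g → ZMod k | IsSpinStructure k w} := by
  have h0 : {w : SurfaceGroup g → ZMod k | IsSpinStructure k w} =
      ({w | ∀ x : SurfaceGroup g, IsNonseparatingSimple x → w x⁻¹ = -w x} ∩
        {w | ∀ x h : SurfaceGroup g, IsNonseparatingSimple x → w (h * x * h⁻¹) = w x}) ∩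
      ({w | ∀ φ : SurfaceGroup g ≃* SurfaceGroup g, IsOrientationPreserving φ → ∀ i : Fin g,
        w (φ (b i * a i)) = w (φ (b i)) + w (φ (a i))} ∩
        {w | ∀ φ : SurfaceGroup g ≃* SurfaceGroup g, IsOrientationPreserving φ →
          ∀ i j : Fin g, (j : ℕ) = i + 1 →
            w (φ (a i * a j)) = w (φ (a i)) + w (φ (a j)) + 1}) := by
    ext w
    constructor
    · intro h
      exact ⟨⟨h.inv, h.conj⟩, ⟨h.twist, h.pants⟩⟩
    · rintro ⟨⟨h1, h2⟩, ⟨h3, h4⟩⟩
      exact ⟨h1, h2, h3, h4⟩
  rw [h0]
  refine (IsClosed.inter ?_ ?_).inter (IsClosed.inter ?_ ?_)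
  · simp only [Set.ofPred_forall]
    refine isClosed_iInter fun x => isClosed_iInter fun _ => ?_
    exact isClosed_eq (continuous_apply _) (SPC_cont (fun y z => -y) x x)
  · simp only [Set.ofPred_forall]
    refine isClosed_iInter fun x => isClosed_iInter fun h => isClosed_iInter fun _ => ?_
    exact isClosed_eq (continuous_apply _) (continuous_apply _)
  · simp only [Set.ofPred_forall]
    refine isClosed_iInter fun φ => isClosed_iInter fun _ => isClosed_iInter fun i => ?_
    exact isClosed_eq (continuous_apply _)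
      (SPC_cont (fun y z => y + z) (φ (b i)) (φ (a i)))
  · simp only [Set.ofPred_forall]
    refine isClosed_iInter fun φ => isClosed_iInter fun _ => isClosed_iInter fun i =>
      isClosed_iInter fun j => isClosed_iInter fun _ => ?_
    exact isClosed_eq (continuous_apply _)
      (SPC_cont (fun y z => y + z + 1) (φ (a i)) (φ (a j)))

/-- Compactness: finitely many finite sets for all spin structures. -/
theorem thm_SPC (h1 : St_SPI) : St_SPC := by
  intro g k w hg hk hw hgk
  have : NeZero k := ⟨hk.ne'⟩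
  let _ : TopologicalSpace (ZMod k) := ⊥
  have : DiscreteTopology (ZMod k) := ⟨rfl⟩
  let X : Set (SurfaceGroup g → ZMod k) := {w | IsSpinStructure k w}
  have hX : IsCompact X := (SPC_closed g k).isCompact
  have hL : ∀ w' ∈ X, ∃ L : Set (SurfaceGroup g), L.Finite ∧
      (∀ x ∈ L, IsNonseparatingSimple x ∧ w' x = 0) ∧ Int3 L := by
    intro w' hw'
    refine h1 g k w' hg hw' ?_
    rcases hgk with h | h
    · exact Or.inl h
    · exact Or.inr (Or.inl h)
  choose L hL1 hL2 hL3 using hL
  obtain ⟨t, ht⟩ := hX.elim_nhds_subcover' (fun w' hw' => {w'' | ∀ x ∈ L w' hw', w'' x = 0}) (by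
    intro w' hw'
    refine IsOpen.mem_nhds ?_ fun x hx => (hL2 w' hw' x hx).2
    have e : {w'' : SurfaceGroup g → ZMod k | ∀ x ∈ L w' hw', w'' x = 0} =
        ⋂ x ∈ L w' hw', (fun w'' : SurfaceGroup g → ZMod k => w'' x) ⁻¹' {0} := by
      ext w''
      simp
    rw [e]
    exact (hL1 w' hw').isOpen_biInter fun x _ =>
      (isOpen_discrete ({0} : Set (ZMod k))).preimage (continuous_apply x))
  refine ⟨(fun w' : X => L w'.1 w'.2) '' (t : Set X), t.finite_toSet.image _, ?_, ?_⟩
  · rintro _ ⟨w', -, rfl⟩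
    exact ⟨hL1 _ _, hL3 _ _⟩
  · intro φ hφ
    have h2 : (fun x => w (φ x)) ∈ X := spin_comp hw hφ
    have h3 := ht h2
    rw [Set.mem_iUnion₂] at h3
    obtain ⟨w', hw't, hw'⟩ := h3
    refine ⟨_, ⟨w', hw't, rfl⟩, fun x hx => ⟨(hL2 _ _ x hx).1, hw' x hx⟩⟩

end R3S
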