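import Pool.Agent.R3S.St2

/-!
# R3S, module SPI: spin structures
-/

set_option autoImplicit false

namespace R3S

open Matrix
open Helper12.Sc Helper12.Sc.SurfaceGroup
open Pool.Agent.H2R (IsVanishing)
open SpQ (IsSpinStructure)

theorem thm_SPI (h1 : St_CHI) (h2 : St_HEL) (h3 : St_BAS) : St_SPI := by
  intro g k w hg2 hw hg
  obtain ⟨m, hm, hm2, φ, -, h⟩ := SpQ.exists_three hg2 hw hg
  obtain ⟨L, hfin, hL, hmain⟩ := h1 (2 * m)
  have hex : ∀ i : Fin g × Fin g × Fin g, ∃ c : Fin (2 * m) → SurfaceGroup g,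
      (∀ x, IsVanishing c x → IsNonseparatingSimple x ∧ w x = 0) ∧
      ∀ j, (j = i.1 ∨ j = i.2.1 ∨ j = i.2.2) →
        φ (a j) ∈ Subgroup.closure (Set.range c) ∧ φ (b j) ∈ Subgroup.closure (Set.range c) := by
    intro i
    obtain ⟨φ', hφ', hτ, hmem⟩ := h i.1 i.2.1 i.2.2
    obtain ⟨c, hc, hvan⟩ := SpQ.spin_chain hw hφ' hm fun i hi => by
      have := hτ ⟨i, hi⟩
      exact this
    have hle : Subgroup.closure (Set.range (fun i : Fin m => φ' (a (Fin.castLE hm i))) ∪
        Set.range (fun i : Fin m => φ' (b (Fin.castLE hm i)))) ≤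
        Subgroup.closure (Set.range c) := by
      rw [hc]
      apply Subgroup.closure_mono
      rintro _ (⟨i, rfl⟩ | ⟨i, rfl⟩)
      · exact ⟨Fin.castLE hm i, i.2, Or.inl rfl⟩
      · exact ⟨Fin.castLE hm i, i.2, Or.inr rfl⟩
    exact ⟨c, hvan, fun j hj => ⟨hle (hmem j hj).1, hle (hmem j hj).2⟩⟩
  choose c hvan hgen using hex
  refine ⟨⋃ i : Fin g × Fin g × Fin g, FreeGroup.lift (c i) '' L,
    Set.finite_iUnion fun i => hfin.image _, ?_, ?_⟩
  · rintro x hx
    obtain ⟨i, u, hu, rfl⟩ := Set.mem_iUnion.1 hx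
    refine hvan i _ ?_
    have h1 := (hL u hu).map (FreeGroup.lift (c i))
    have e : (fun j => FreeGroup.lift (c i) (FreeGroup.of j)) = c i := by
      funext j
      exact FreeGroup.lift_apply_of
    rwa [e] at h1
  · intro K _ O t hU ρ hρ x
    let e : Fin (g + g) → Fin g := fun j => Sum.elim id id (finSumFinEquiv.symm j)
    let z : Fin (g + g) → SurfaceGroup g := fun j =>
      Sum.elim (fun i => φ (a i)) (fun i => φ (b i)) (finSumFinEquiv.symm j)
    have hB : ∀ i j k, Bd O {ρ (z i), ρ (z j), ρ (z k)} := by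
      intro j1 j2 j3
      obtain ⟨Λ, hΛ, hst⟩ := hmain K O t hU _ (c (e j1, e j2, e j3)) ρ
        (fun u hu => hρ _ (Set.mem_iUnion.2 ⟨_, u, hu, rfl⟩))
      have hgen' : ∀ j, e j = e j1 ∨ e j = e j2 ∨ e j = e j3 →
          z j ∈ Subgroup.closure (Set.range (c (e j1, e j2, e j3))) := by
        intro j hj
        have h1 := hgen (e j1, e j2, e j3) (e j) hj
        simp only [e, z] at h1 ⊢
        rcases h2 : finSumFinEquiv.symm j with i | i
        · rw [h2] at h1
          exact h1.1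
        · rw [h2] at h1
          exact h1.2
      refine ⟨Λ, hΛ, ?_⟩
      rintro γ (rfl | rfl | rfl)
      · exact hst _ ⟨z j1, hgen' j1 (Or.inl rfl), rfl⟩
      · exact hst _ ⟨z j2, hgen' j2 (Or.inr (Or.inl rfl)), rfl⟩
      · exact hst _ ⟨z j3, hgen' j3 (Or.inr (Or.inr rfl)), rfl⟩
    obtain ⟨Λ, hΛ, hst⟩ := (h3 K O).1 _ (h2 K O t hU (g + g) (fun j => ρ (z j)) hB)
    have hx : ρ x ∈ Subgroup.closure (Set.range fun j => ρ (z j)) := by
      have h4 : x ∈ Subgroup.closure (Set.range z) := by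
        rw [show Subgroup.closure (Set.range z) = ⊤ from Pool.Agent.H2G.closure_gens φ]
        exact Subgroup.mem_top x
      have h5 := Subgroup.mem_map_of_mem ρ h4
      rw [MonoidHom.map_closure, ← Set.range_comp] at h5
      exact h5
    refine ((h3 K O).2.1 (ρ x) ⟨Λ, hΛ, ?_⟩).1
    rintro _ rfl
    exact hst _ hx

end R3S
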