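import Pool.Agent.R3S.St
import Pool.Agent.R3S.Tool

/-!
# R3S [STB]: the members of the flag of two lattices are stable
-/

set_option autoImplicit false

namespace R3S

open Matrix

section

variable {K : Type} [Field K] {O : ValuationSubring K} {t : K}

/-- the vectors in `(L ∩ t ^ n L') + t L` -/
def STB_D (t : K) (L L' : Submodule O (V K)) (n : ℤ) (v : V K) : Prop :=
  ∃ x y : V K, x ∈ L ∧ t ^ (-n) • x ∈ L' ∧ y ∈ L ∧ v = x + t • y

theorem STB_fwd {L L' : Submodule O (V K)} {n : ℤ} {γ : GL (Fin 3) K} (h1 : Stb γ L)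
    (h2 : Stb γ L') {v : V K} (hv : STB_D t L L' n v) : STB_D t L L' n ((γ : M K) *ᵥ v) := by
  obtain ⟨x, y, hx, hx', hy, rfl⟩ := hv
  refine ⟨(γ : M K) *ᵥ x, (γ : M K) *ᵥ y, (h1 x).2 hx, ?_, (h1 y).2 hy, ?_⟩
  · rw [← Matrix.mulVec_smul]
    exact (h2 _).2 hx'
  · rw [Matrix.mulVec_add, Matrix.mulVec_smul]

theorem STB_iff {L L' : Submodule O (V K)} {n : ℤ} {γ : GL (Fin 3) K} (h1 : Stb γ L)
    (h2 : Stb γ L') (v : V K) : STB_D t L L' n ((γ : M K) *ᵥ v) ↔ STB_D t L L' n v := by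
  refine ⟨fun h => ?_, STB_fwd h1 h2⟩
  have h3 := STB_fwd h1.inv h2.inv h
  rwa [Matrix.mulVec_mulVec, ← Units.val_mul, inv_mul_cancel, Units.val_one,
    Matrix.one_mulVec] at h3

theorem STB_P (ht : Unif O t) {f : Fin 3 → V K} {L L' : Submodule O (V K)} {p q : ℕ} {s : ℤ}
    (h : Adp t f L L' ![p + q + s, q + s, s]) (hp : 0 < p) (v : V K) :
    v ∈ sp O ![f 0, t • f 1, t • f 2] ↔ STB_D t L L' (p + q + s) v := by
  obtain ⟨hf, rfl, rfl⟩ := h
  have h0 : f 0 ∈ sp O ![f 0, t • f 1, t • f 2] := self_mem_sp (O := O) ![f 0, t • f 1, t • f 2] 0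
  have h1 : t • f 1 ∈ sp O ![f 0, t • f 1, t • f 2] :=
    self_mem_sp (O := O) ![f 0, t • f 1, t • f 2] 1
  have h2 : t • f 2 ∈ sp O ![f 0, t • f 1, t • f 2] :=
    self_mem_sp (O := O) ![f 0, t • f 1, t • f 2] 2
  constructor
  · intro hv
    obtain ⟨c, hc, rfl⟩ := (mem_sp _ v).1 hv
    refine ⟨c 0 • f 0, c 1 • f 1 + c 2 • f 2, smul_mem_K _ (hc 0) (self_mem_sp f 0), ?_,
      (sp O f).add_mem (smul_mem_K _ (hc 1) (self_mem_sp f 1))
        (smul_mem_K _ (hc 2) (self_mem_sp f 2)), ?_⟩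
    · rw [smul_comm]
      exact smul_mem_K _ (hc 0) (self_mem_sp
        (O := O) (fun i => t ^ (-(![(p : ℤ) + q + s, q + s, s] : Fin 3 → ℤ) i) • f i) 0)
    · rw [Fin.sum_univ_three]
      show c 0 • f 0 + c 1 • t • f 1 + c 2 • t • f 2 = _
      rw [smul_add, smul_comm t (c 1), smul_comm t (c 2), add_assoc]
  · rintro ⟨x, y, hx, hx', hy, rfl⟩
    refine Submodule.add_mem _ ?_ ?_
    · obtain ⟨c, hc, rfl⟩ := (mem_sp _ x).1 hx
      rw [Finset.smul_sum, Finset.sum_congr rfl fun i _ => smul_smul (t ^ (-(p + q + s : ℤ))) (c i) (f i),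
        sum_mem_pow_iff hf ht.ne] at hx'
      have e1 := hx' 1
      have e2 := hx' 2
      rw [Fin.sum_univ_three]
      refine Submodule.add_mem _ (Submodule.add_mem _ (smul_mem_K _ (hc 0) h0) ?_) ?_
      · have e3 : c 1 • f 1 = (t ^ ((p : ℤ) - 1) * (t ^ (-(p + q + s : ℤ)) * c 1 *
            t ^ ((![(p : ℤ) + q + s, q + s, s] : Fin 3 → ℤ) 1))) • (t • f 1) := by
          rw [smul_smul]
          congr 1
          show c 1 = t ^ ((p : ℤ) - 1) * (t ^ (-(p + q + s : ℤ)) * c 1 * t ^ ((q : ℤ) + s)) * t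
          have e4 : t ^ ((p : ℤ) - 1) * (t ^ (-(p + q + s : ℤ)) * c 1 * t ^ ((q : ℤ) + s)) * t =
              (t ^ ((p : ℤ) - 1) * t ^ (-(p + q + s : ℤ)) * t ^ ((q : ℤ) + s) * t ^ (1 : ℤ)) * c 1 := by
            rw [zpow_one]; ring
          rw [e4, ← zpow_add₀ ht.ne, ← zpow_add₀ ht.ne, ← zpow_add₀ ht.ne]
          have e5 : (p : ℤ) - 1 + -(p + q + s : ℤ) + ((q : ℤ) + s) + 1 = 0 := by ring
          rw [e5, zpow_zero, one_mul]
        rw [e3]
        exact smul_mem_K _ (mul_mem (ht.zpow_mem_of (by omega)) e1) h1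
      · have e3 : c 2 • f 2 = (t ^ ((p : ℤ) + q - 1) * (t ^ (-(p + q + s : ℤ)) * c 2 *
            t ^ ((![(p : ℤ) + q + s, q + s, s] : Fin 3 → ℤ) 2))) • (t • f 2) := by
          rw [smul_smul]
          congr 1
          show c 2 = t ^ ((p : ℤ) + q - 1) * (t ^ (-(p + q + s : ℤ)) * c 2 * t ^ s) * t
          have e4 : t ^ ((p : ℤ) + q - 1) * (t ^ (-(p + q + s : ℤ)) * c 2 * t ^ s) * t =
              (t ^ ((p : ℤ) + q - 1) * t ^ (-(p + q + s : ℤ)) * t ^ s * t ^ (1 : ℤ)) * c 2 := by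
            rw [zpow_one]; ring
          rw [e4, ← zpow_add₀ ht.ne, ← zpow_add₀ ht.ne, ← zpow_add₀ ht.ne]
          have e5 : (p : ℤ) + q - 1 + -(p + q + s : ℤ) + s + 1 = 0 := by ring
          rw [e5, zpow_zero, one_mul]
        rw [e3]
        exact smul_mem_K _ (mul_mem (ht.zpow_mem_of (by omega)) e2) h2
    · obtain ⟨c, hc, rfl⟩ := (mem_sp _ y).1 hy
      rw [Finset.smul_sum, Fin.sum_univ_three, smul_comm t (c 0), smul_comm t (c 1),
        smul_comm t (c 2)]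
      exact Submodule.add_mem _ (Submodule.add_mem _ (smul_mem_K _ (hc 0)
        (smul_mem_K _ ht.mem h0)) (smul_mem_K _ (hc 1) h1)) (smul_mem_K _ (hc 2) h2)

theorem STB_l (ht : Unif O t) {f : Fin 3 → V K} {L L' : Submodule O (V K)} {p q : ℕ} {s : ℤ}
    (h : Adp t f L L' ![p + q + s, q + s, s]) (hq : 0 < q) (v : V K) :
    v ∈ sp O ![f 0, f 1, t • f 2] ↔ STB_D t L L' (q + s) v := by
  obtain ⟨hf, rfl, rfl⟩ := h
  have h0 : f 0 ∈ sp O ![f 0, f 1, t • f 2] := self_mem_sp (O := O) ![f 0, f 1, t • f 2] 0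
  have h1 : f 1 ∈ sp O ![f 0, f 1, t • f 2] := self_mem_sp (O := O) ![f 0, f 1, t • f 2] 1
  have h2 : t • f 2 ∈ sp O ![f 0, f 1, t • f 2] :=
    self_mem_sp (O := O) ![f 0, f 1, t • f 2] 2
  constructor
  · intro hv
    obtain ⟨c, hc, rfl⟩ := (mem_sp _ v).1 hv
    refine ⟨c 0 • f 0 + c 1 • f 1, c 2 • f 2, (sp O f).add_mem
      (smul_mem_K _ (hc 0) (self_mem_sp f 0)) (smul_mem_K _ (hc 1) (self_mem_sp f 1)), ?_,
      smul_mem_K _ (hc 2) (self_mem_sp f 2), ?_⟩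
    · rw [smul_add, smul_comm, smul_comm _ (c 1)]
      refine Submodule.add_mem _ (smul_mem_K _ (hc 0) ?_) (smul_mem_K _ (hc 1) (self_mem_sp
        (O := O) (fun i => t ^ (-(![(p : ℤ) + q + s, q + s, s] : Fin 3 → ℤ) i) • f i) 1))
      have e1 : t ^ (-((q : ℤ) + s)) • f 0 = t ^ p • (t ^ (-((p : ℤ) + q + s)) • f 0) := by
        rw [smul_smul, ← zpow_natCast, ← zpow_add₀ ht.ne]
        congr 2
        ring
      rw [e1]
      exact smul_mem_K _ (ht.pow_mem p) (self_mem_sp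
        (O := O) (fun i => t ^ (-(![(p : ℤ) + q + s, q + s, s] : Fin 3 → ℤ) i) • f i) 0)
    · rw [Fin.sum_univ_three]
      show c 0 • f 0 + c 1 • f 1 + c 2 • t • f 2 = _
      rw [smul_comm t (c 2)]
  · rintro ⟨x, y, hx, hx', hy, rfl⟩
    refine Submodule.add_mem _ ?_ ?_
    · obtain ⟨c, hc, rfl⟩ := (mem_sp _ x).1 hx
      rw [Finset.smul_sum, Finset.sum_congr rfl fun i _ => smul_smul (t ^ (-(q + s : ℤ))) (c i) (f i),
        sum_mem_pow_iff hf ht.ne] at hx'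
      have e2 := hx' 2
      rw [Fin.sum_univ_three]
      refine Submodule.add_mem _ (Submodule.add_mem _ (smul_mem_K _ (hc 0) h0)
        (smul_mem_K _ (hc 1) h1)) ?_
      have e3 : c 2 • f 2 = (t ^ ((q : ℤ) - 1) * (t ^ (-(q + s : ℤ)) * c 2 *
          t ^ ((![(p : ℤ) + q + s, q + s, s] : Fin 3 → ℤ) 2))) • (t • f 2) := by
        rw [smul_smul]
        congr 1
        show c 2 = t ^ ((q : ℤ) - 1) * (t ^ (-(q + s : ℤ)) * c 2 * t ^ s) * t
        have e4 : t ^ ((q : ℤ) - 1) * (t ^ (-(q + s : ℤ)) * c 2 * t ^ s) * t =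
            (t ^ ((q : ℤ) - 1) * t ^ (-(q + s : ℤ)) * t ^ s * t ^ (1 : ℤ)) * c 2 := by
          rw [zpow_one]; ring
        rw [e4, ← zpow_add₀ ht.ne, ← zpow_add₀ ht.ne, ← zpow_add₀ ht.ne]
        have e5 : (q : ℤ) - 1 + -(q + s : ℤ) + s + 1 = 0 := by ring
        rw [e5, zpow_zero, one_mul]
      rw [e3]
      exact smul_mem_K _ (mul_mem (ht.zpow_mem_of (by omega)) e2) h2
    · obtain ⟨c, hc, rfl⟩ := (mem_sp _ y).1 hy
      rw [Finset.smul_sum, Fin.sum_univ_three, smul_comm t (c 0), smul_comm t (c 1),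
        smul_comm t (c 2)]
      exact Submodule.add_mem _ (Submodule.add_mem _ (smul_mem_K _ (hc 0)
        (smul_mem_K _ ht.mem h0)) (smul_mem_K _ (hc 1) (smul_mem_K _ ht.mem h1)))
        (smul_mem_K _ (hc 2) h2)

end

theorem thm_STB : St_STB := by
  intro K _ O t ht L L' p q P l hD γ hL hL'
  obtain ⟨f, s, hA, rfl, rfl⟩ := hD
  refine ⟨fun hp v => ?_, fun hq v => ?_⟩
  · rw [STB_P ht hA hp, STB_P ht hA hp, STB_iff hL hL']
  · rw [STB_l ht hA hq, STB_l ht hA hq, STB_iff hL hL']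

end R3S
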