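import Pool.Agent.R3S.St
import Pool.Agent.R3S.Tool

/-!
# R3S: symmetry of the distance of lattices, lattices at distance zero
-/

set_option autoImplicit false

namespace R3S

open Matrix

section

variable {K : Type} [Field K] {O : ValuationSubring K} {t : K}

theorem SYM_scale (ht : t ≠ 0) (f : Fin 3 → V K) (s : ℤ) (v : V K) :
    v ∈ sp O (fun i => t ^ (-s) • f i) ↔ t ^ s • v ∈ sp O f := by
  have e1 : t ^ s * t ^ (-s) = 1 := by rw [← zpow_add₀ ht, add_neg_cancel, zpow_zero]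
  rw [mem_sp, mem_sp]
  constructor
  · rintro ⟨c, hc, rfl⟩
    refine ⟨c, hc, ?_⟩
    rw [Finset.smul_sum]
    refine Finset.sum_congr rfl fun i _ => ?_
    rw [smul_comm (t ^ s) (c i), smul_smul (t ^ s), e1, one_smul]
  · rintro ⟨c, hc, h⟩
    refine ⟨c, hc, ?_⟩
    have h1 : v = t ^ (-s) • (t ^ s • v) := by rw [smul_smul, mul_comm, e1, one_smul]
    rw [h1, h, Finset.smul_sum]
    exact Finset.sum_congr rfl fun i _ => smul_comm _ _ _

end

theorem thm_SYM (hSNF : St_SNF) (hEV : St_EV) : St_SYM := by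
  intro K _ O t h L L' hL hL'
  obtain ⟨p, q, P, l, f, s, hA, -, -⟩ := hSNF K O t h L L' hL hL'
  have e1 := hEV K O t h _ _ _ _ hA
  have e2 := hEV K O t h _ _ _ _ (hA.symm h.ne)
  have e3 : (en t L L' : ℤ) = en t L' L := by
    rw [e1, e2]
    simp only [Fin.sum_univ_three]
    ring
  refine ⟨by exact_mod_cast e3, fun h0 γ hγ => ?_⟩
  rw [h0] at e1
  simp only [Fin.sum_univ_three, Matrix.cons_val_zero, Matrix.cons_val_one,
    Matrix.cons_val] at e1
  push_cast at e1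
  have e4 : 2 * ((p : ℤ) ^ 2 + p * q + q ^ 2) = 0 := by linarith
  have hp : (0 : ℤ) ≤ p := Int.natCast_nonneg p
  have hq : (0 : ℤ) ≤ q := Int.natCast_nonneg q
  have hp0 : (p : ℤ) = 0 := by
    by_contra hc
    have : (0 : ℤ) < p := lt_of_le_of_ne hp (Ne.symm hc)
    nlinarith [mul_nonneg hp hq, sq_nonneg (q : ℤ), pow_pos this 2]
  have hq0 : (q : ℤ) = 0 := by
    by_contra hc
    have : (0 : ℤ) < q := lt_of_le_of_ne hq (Ne.symm hc)
    nlinarith [mul_nonneg hp hq, sq_nonneg (p : ℤ), pow_pos this 2]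
  have ha : (![(p : ℤ) + q + s, q + s, s] : Fin 3 → ℤ) = fun _ => s := by
    funext i
    fin_cases i <;> simp [hp0, hq0]
  rw [ha] at hA
  obtain ⟨-, hLf, hL'f⟩ := hA
  refine stb_smul (c := t ^ s) (fun v => ?_) hγ
  rw [hL'f, hLf]
  exact SYM_scale h.ne f s v

end R3S
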