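import Pool.Agent.R3S.St
import Pool.Agent.R3S.Tool

/-!
# R3S, TR0: the inequality of CAT(0) type for congruent adapted bases
-/

set_option autoImplicit false

namespace R3S

open Matrix

section

variable {K : Type} [Field K] {O : ValuationSubring K} {t : K}

theorem TR0_det (ht : t ≠ 0) (f : Fin 3 → V K) (e : Fin 3 → ℤ) :
    (mat fun i => t ^ e i • f i).det = t ^ (∑ i, e i) * (mat f).det := by
  have h1 : (mat fun i => t ^ e i • f i) = mat f * Matrix.diagonal fun i => t ^ e i := by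
    ext k j
    rw [Matrix.mul_diagonal, mat_apply, mat_apply, Pi.smul_apply, smul_eq_mul, mul_comm]
  rw [h1, Matrix.det_mul, Matrix.det_diagonal, Fin.prod_univ_three, Fin.sum_univ_three,
    zpow_add₀ ht, zpow_add₀ ht, mul_comm]

theorem TR0_max (hU : Unif O t) {f : Fin 3 → V K} {L L' : Submodule O (V K)} {c : Fin 3 → ℤ}
    (h : Adp t f L L' c) {N : ℤ} (hN : ∀ j, c j ≤ N) (v : V K) (hv : v ∈ L') : t ^ N • v ∈ L := by
  obtain ⟨-, h2, h3⟩ := h
  rw [h3] at hv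
  obtain ⟨d, hd, rfl⟩ := (mem_sp _ _).1 hv
  rw [h2, mem_sp]
  refine ⟨fun i => d i * t ^ (N - c i), fun i => mul_mem (hd i) (hU.zpow_mem_of ?_), ?_⟩
  · have := hN i
    omega
  · rw [Finset.smul_sum]
    refine Finset.sum_congr rfl fun i _ => ?_
    rw [smul_smul, smul_smul]
    congr 1
    show t ^ N * d i * t ^ (-c i) = d i * t ^ (N - c i)
    rw [zpow_sub₀ hU.ne, _root_.zpow_neg]
    ring

theorem TR0_unit (hU : Unif O t) {d : K} (hd : d ∈ O) : 1 - t * d ∈ O ∧ (1 - t * d)⁻¹ ∈ O := by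
  have h1 : 1 - t * d ∈ O := sub_mem O.one_mem (mul_mem hU.mem hd)
  refine ⟨h1, ?_⟩
  rcases hU.unit_or h1 with h | ⟨y, hy, h⟩
  · exact h.1
  · exfalso
    apply hU.nu
    have h2 : t * (y + d) = 1 := by
      rw [mul_add, ← h]
      ring
    rw [inv_eq_of_mul_eq_one_right h2]
    exact add_mem hy hd

theorem TR0_B (hU : Unif O t) {g h : Fin 3 → V K} {L L' L'' : Submodule O (V K)}
    {a b : Fin 3 → ℤ} (hg : Adp t g L L' a) (hh : Adp t h L L'' b)
    (hc : ∀ i, ∃ u ∈ L, g i - h i = t • u) {N : ℤ} (hN : ∀ v ∈ L'', t ^ N • v ∈ L')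
    (i : Fin 3) : b i - a i ≤ N := by
  obtain ⟨u, hu, e⟩ := hc i
  rw [hg.2.1] at hu
  obtain ⟨d, hd, rfl⟩ := (mem_sp _ _).1 hu
  have h1 : t ^ (-b i) • h i ∈ L'' := by
    rw [hh.2.2]
    exact self_mem_sp (fun i => t ^ (-b i) • h i) i
  have h2 := hN _ h1
  rw [smul_smul, ← zpow_add₀ hU.ne] at h2
  have h3 : h i = ∑ j, ((if j = i then 1 else 0) - t * d j) • g j := by
    have : h i = g i - t • ∑ j, d j • g j := by rw [← e]; abel
    rw [this, Finset.smul_sum]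
    have h4 : g i = ∑ j, (if j = i then (1 : K) else 0) • g j := by
      rw [Finset.sum_eq_single i]
      · rw [if_pos rfl, one_smul]
      · intro j _ hj
        rw [if_neg hj, zero_smul]
      · intro hi
        exact absurd (Finset.mem_univ i) hi
    conv_lhs => rw [h4]
    rw [← Finset.sum_sub_distrib]
    refine Finset.sum_congr rfl fun j _ => ?_
    rw [smul_smul, ← sub_smul]
  rw [h3, Finset.smul_sum] at h2
  simp only [smul_smul] at h2
  rw [hg.2.2, sum_mem_pow_iff hg.1 hU.ne] at h2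
  have h5 := h2 i
  rw [if_pos rfl] at h5
  have h6 := (TR0_unit hU (hd i)).2
  have h7 : 1 - t * d i ≠ 0 := by
    intro h0
    have h8 : t * d i = 1 := by linear_combination -h0
    apply hU.nu
    rw [inv_eq_of_mul_eq_one_right h8]
    exact hd i
  have h8 : t ^ (N + -b i + a i) = t ^ (N + -b i) * (1 - t * d i) * t ^ a i * (1 - t * d i)⁻¹ := by
    rw [zpow_add₀ hU.ne (N + -b i) (a i)]
    field_simp
  have h9 : t ^ (N + -b i + a i) ∈ O := by
    rw [h8]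
    exact mul_mem h5 h6
  rw [hU.zpow_mem] at h9
  omega

theorem TR0_A (hU : Unif O t) {f g h : Fin 3 → V K} {L L' L'' : Submodule O (V K)}
    {a b c : Fin 3 → ℤ} (hg : Adp t g L L' a) (hh : Adp t h L L'' b) (hf : Adp t f L' L'' c) :
    ∑ i, c i = ∑ i, b i - ∑ i, a i := by
  obtain ⟨g1, g2, g3⟩ := hg
  obtain ⟨h1, h2, h3⟩ := hh
  obtain ⟨f1, f2, f3⟩ := hf
  obtain ⟨U, -, -, hU0, hU1, hU2, hU3, -⟩ := exists_change (O := O) g1 h1 (h2.symm.trans g2)
  obtain ⟨W, -, -, hW0, hW1, hW2, hW3, -⟩ := exists_change (O := O) (li_pow g1 hU.ne fun i => -a i)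
    f1 (f2.symm.trans g3)
  obtain ⟨Z, -, -, hZ0, hZ1, hZ2, hZ3, -⟩ := exists_change (O := O) (li_pow f1 hU.ne fun i => -c i)
    (li_pow h1 hU.ne fun i => -b i) (h3.symm.trans f3)
  have e1 := congrArg Matrix.det hU3
  have e2 := congrArg Matrix.det hW3
  have e3 := congrArg Matrix.det hZ3
  rw [Matrix.det_mul] at e1 e2 e3
  rw [TR0_det hU.ne] at e2 e3
  rw [TR0_det hU.ne, e1, e2] at e3
  have g0 := (li_iff_det g).1 g1
  rw [Finset.sum_neg_distrib, Finset.sum_neg_distrib, Finset.sum_neg_distrib] at e3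
  -- the power of `t` is a unit
  have key : t ^ (∑ i, c i - (∑ i, b i - ∑ i, a i)) * U.det = W.det * Z.det := by
    have e4 : t ^ (∑ i, c i - (∑ i, b i - ∑ i, a i)) =
        t ^ (∑ i, c i) * t ^ (-∑ i, b i) * t ^ (∑ i, a i) := by
      rw [← zpow_add₀ hU.ne, ← zpow_add₀ hU.ne]
      congr 1
      ring
    have e5 : t ^ (∑ i, c i) * t ^ (-∑ i, c i) = 1 := by
      rw [← zpow_add₀ hU.ne, add_neg_cancel, zpow_zero]
    have e6 : t ^ (∑ i, a i) * t ^ (-∑ i, a i) = 1 := by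
      rw [← zpow_add₀ hU.ne, add_neg_cancel, zpow_zero]
    apply mul_left_cancel₀ g0
    rw [e4]
    calc (mat g).det * (t ^ (∑ i, c i) * t ^ (-∑ i, b i) * t ^ (∑ i, a i) * U.det)
        = t ^ (∑ i, c i) * t ^ (∑ i, a i) * (t ^ (-∑ i, b i) * ((mat g).det * U.det)) := by ring
      _ = t ^ (∑ i, c i) * t ^ (∑ i, a i) * (t ^ (-∑ i, c i) *
          (t ^ (-∑ i, a i) * (mat g).det * W.det) * Z.det) := by rw [e3]
      _ = (t ^ (∑ i, c i) * t ^ (-∑ i, c i)) * (t ^ (∑ i, a i) * t ^ (-∑ i, a i)) *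
          ((mat g).det * (W.det * Z.det)) := by ring
      _ = (mat g).det * (W.det * Z.det) := by rw [e5, e6]; ring
  have k1 : t ^ (∑ i, c i - (∑ i, b i - ∑ i, a i)) = W.det * Z.det * (U.det)⁻¹ := by
    rw [← key]
    field_simp
  have k2 : (t ^ (∑ i, c i - (∑ i, b i - ∑ i, a i)))⁻¹ = (W.det)⁻¹ * (Z.det)⁻¹ * U.det := by
    rw [k1]
    field_simp
  have k3 := hU.zpow_unit (n := ∑ i, c i - (∑ i, b i - ∑ i, a i))
    (by rw [k1]; exact mul_mem (mul_mem hW1 hZ1) hU2)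
    (by rw [k2]; exact mul_mem (mul_mem hW2 hZ2) hU1)
  omega

end

theorem TR0_D (x0 x1 x2 c0 c1 c2 : ℤ) (hs : c0 + c1 + c2 = x0 + x1 + x2) (h0 : x0 ≤ c0)
    (h1 : x1 ≤ c0) (h2 : x2 ≤ c0) (k0 : c2 ≤ x0) (k1 : c2 ≤ x1) (k2 : c2 ≤ x2) :
    x0 ^ 2 + x1 ^ 2 + x2 ^ 2 ≤ c0 ^ 2 + c1 ^ 2 + c2 ^ 2 := by
  have key : ∀ y0 y1 y2 : ℤ, c0 + c1 + c2 = y0 + y1 + y2 → y0 ≤ c0 → c2 ≤ y2 → y1 ≤ y0 →
      y2 ≤ y1 → y0 ^ 2 + y1 ^ 2 + y2 ^ 2 ≤ c0 ^ 2 + c1 ^ 2 + c2 ^ 2 := by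
    intro y0 y1 y2 hs h0 h2 h3 h4
    have e : c1 = y0 + y1 + y2 - c0 - c2 := by omega
    subst e
    nlinarith [mul_nonneg (sub_nonneg.2 h0) (sub_nonneg.2 h3),
      mul_nonneg (sub_nonneg.2 h2) (sub_nonneg.2 h4), sq_nonneg (c0 - y0), sq_nonneg (y2 - c2),
      sq_nonneg (y2 - c2 - (c0 - y0))]
  rcases le_total x0 x1 with a1 | a1 <;> rcases le_total x1 x2 with a2 | a2 <;>
    rcases le_total x0 x2 with a3 | a3
  · have := key x2 x1 x0 (by omega) h2 k0 a2 a1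
    omega
  · have := key x2 x1 x0 (by omega) h2 k0 a2 a1
    omega
  · have := key x1 x2 x0 (by omega) h1 k0 a2 a3
    omega
  · have := key x1 x0 x2 (by omega) h1 k2 a1 a3
    omega
  · have := key x2 x0 x1 (by omega) h2 k1 a3 a1
    omega
  · have := key x0 x2 x1 (by omega) h0 k1 a3 a2
    omega
  · have := key x0 x1 x2 (by omega) h0 k2 a1 a2
    omega
  · have := key x0 x1 x2 (by omega) h0 k2 a1 a2
    omega

theorem thm_TR0 (h1 : St_SNF) (h2 : St_EV) : St_TR0 := by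
  intro K _ O t hU g h L L' L'' a b hg hh hc
  have i1 := (hg.isLat hU.ne).2
  have i2 := (hh.isLat hU.ne).2
  obtain ⟨p, q, P, l, f, s, hf, -, -⟩ := h1 K O t hU L' L'' i1 i2
  have eA := TR0_A hU hg hh hf
  have eB := fun i => TR0_B hU hg hh hc (N := p + q + s) (TR0_max hU hf (by
    intro j
    fin_cases j
    · exact le_refl _
    · show (q : ℤ) + s ≤ p + q + s
      omega
    · show s ≤ (p : ℤ) + q + s
      omega)) i
  have eC := fun i => TR0_B hU hh hg (fun i => by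
    obtain ⟨u, hu, e⟩ := hc i
    refine ⟨-u, neg_mem hu, ?_⟩
    rw [smul_neg, ← e, neg_sub]) (N := -s) (TR0_max hU (hf.symm hU.ne) (by
    intro j
    fin_cases j
    · show -((p : ℤ) + q + s) ≤ -s
      omega
    · show -((q : ℤ) + s) ≤ -s
      omega
    · exact le_refl _)) i
  rw [h2 K O t hU f L' L'' _ hf]
  simp only [Fin.sum_univ_three, Matrix.cons_val_zero, Matrix.cons_val_one, Matrix.cons_val_two,
    Matrix.head_cons, Matrix.tail_cons, Matrix.cons_val] at eA ⊢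
  have := TR0_D (b 0 - a 0) (b 1 - a 1) (b 2 - a 2) (p + q + s) (q + s) s (by omega) (eB 0) (eB 1)
    (eB 2) (by have := eC 0; omega) (by have := eC 1; omega) (by have := eC 2; omega)
  have e1 : (a 0 - b 0 + (a 1 - b 1) + (a 2 - b 2)) ^ 2 =
      ((p : ℤ) + q + s + (q + s) + s) ^ 2 := by
    rw [eA]
    ring
  rw [e1]
  nlinarith [this]

end R3S
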