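import Pool.Agent.R3S.St

/-!
# TRI: the inequality of CAT(0) type
-/

set_option autoImplicit false

namespace R3S

open Matrix

/-- The inequality of CAT(0) type (`St_TRI`), from common adapted bases (`St_CAB`), the inequality
for congruent adapted bases (`St_TR0`) and the value of `en` in adapted bases (`St_EV`). -/
theorem thm_TRI (h1 : St_EV) (h2 : St_TR0) (h3 : St_CAB) : St_TRI := by
  intro K _ O t ht L L' L'' p q p' q' P l P' l' hd hd'
  obtain ⟨g, h, a, b, ha, hb, hgh, hab⟩ := h3 K O t ht L L' L'' p q p' q' P l P' l' hd hd'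
  have e1 := h1 K O t ht g L L' a ha
  have e2 := h1 K O t ht h L L'' b hb
  have e3 := h2 K O t ht g h L L' L'' a b ha hb hgh
  have e4 : 3 * ∑ i, (a i - b i) ^ 2 - (∑ i, (a i - b i)) ^ 2 =
      (3 * ∑ i, a i ^ 2 - (∑ i, a i) ^ 2) + (3 * ∑ i, b i ^ 2 - (∑ i, b i) ^ 2) -
        2 * (3 * ∑ i, a i * b i - (∑ i, a i) * ∑ i, b i) := by
    simp only [Fin.sum_univ_three]
    ring
  rw [← hab, e1, e2]
  rw [e4] at e3
  exact e3

end R3S
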