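import Pool.Agent.R3S.St
import Pool.Agent.R3S.Tool

/-!
# R3S: module TT, Lemma T

Two elements `a`, `b` with stable lattices and integral traces of `a b`, `a b⁻¹`, `a⁻¹ b`, `a⁻¹ b⁻¹`
stabilise a common lattice.
-/

set_option autoImplicit false
set_option maxHeartbeats 400000

namespace R3S

open Matrix

section

variable {K : Type} [Field K] {O : ValuationSubring K} {t : K}

/-! ### The matrix of an element in a basis -/

/-- the matrix of `γ` in the basis `f` -/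
noncomputable def TT_cj (f : Fin 3 → V K) (γ : GL (Fin 3) K) : M K :=
  (mat f)⁻¹ * (γ : M K) * mat f

theorem TT_mul_inv {f : Fin 3 → V K} (hf : LinearIndependent K f) : mat f * (mat f)⁻¹ = 1 :=
  Matrix.mul_nonsing_inv _ (isUnit_iff_ne_zero.2 ((li_iff_det f).1 hf))

theorem TT_inv_mul {f : Fin 3 → V K} (hf : LinearIndependent K f) : (mat f)⁻¹ * mat f = 1 :=
  Matrix.nonsing_inv_mul _ (isUnit_iff_ne_zero.2 ((li_iff_det f).1 hf))

theorem TT_cj_mul {f : Fin 3 → V K} (hf : LinearIndependent K f) (γ δ : GL (Fin 3) K) :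
    TT_cj f (γ * δ) = TT_cj f γ * TT_cj f δ := by
  unfold TT_cj
  rw [Units.val_mul]
  calc (mat f)⁻¹ * ((γ : M K) * (δ : M K)) * mat f
      = (mat f)⁻¹ * (γ : M K) * 1 * (δ : M K) * mat f := by
        rw [Matrix.mul_one]
        simp only [Matrix.mul_assoc]
    _ = (mat f)⁻¹ * (γ : M K) * mat f * ((mat f)⁻¹ * (δ : M K) * mat f) := by
        rw [← TT_mul_inv hf]
        simp only [Matrix.mul_assoc]

theorem TT_cj_one {f : Fin 3 → V K} (hf : LinearIndependent K f) :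
    TT_cj f (1 : GL (Fin 3) K) = 1 := by
  unfold TT_cj
  rw [Units.val_one, Matrix.mul_one, TT_inv_mul hf]

theorem TT_cj_inv {f : Fin 3 → V K} (hf : LinearIndependent K f) (γ : GL (Fin 3) K) :
    TT_cj f γ * TT_cj f γ⁻¹ = 1 := by
  rw [← TT_cj_mul hf, mul_inv_cancel, TT_cj_one hf]

theorem TT_cj_inv' {f : Fin 3 → V K} (hf : LinearIndependent K f) (γ : GL (Fin 3) K) :
    TT_cj f γ⁻¹ * TT_cj f γ = 1 := by
  rw [← TT_cj_mul hf, inv_mul_cancel, TT_cj_one hf]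

theorem TT_cj_trace {f : Fin 3 → V K} (hf : LinearIndependent K f) (γ : GL (Fin 3) K) :
    (γ : M K).trace = (TT_cj f γ).trace := by
  unfold TT_cj
  rw [Matrix.trace_mul_comm, ← Matrix.mul_assoc, TT_mul_inv hf, Matrix.one_mul]

theorem TT_cj_apply {f : Fin 3 → V K} (hf : LinearIndependent K f) (γ : GL (Fin 3) K)
    (j : Fin 3) : (γ : M K) *ᵥ f j = ∑ i, TT_cj f γ i j • f i := by
  refine change_of_mat (g := fun j => (γ : M K) *ᵥ f j) (U := TT_cj f γ) ?_ j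
  have h1 : mat f * TT_cj f γ = (γ : M K) * mat f := by
    unfold TT_cj
    rw [← Matrix.mul_assoc, ← Matrix.mul_assoc, TT_mul_inv hf, Matrix.one_mul]
  rw [h1]
  ext k j
  rw [mat_apply, Matrix.mul_apply, Matrix.mulVec, dotProduct]
  rfl

theorem TT_cj_unique {f : Fin 3 → V K} (hf : LinearIndependent K f) {γ : GL (Fin 3) K}
    {c : Fin 3 → K} {j : Fin 3} (h : (γ : M K) *ᵥ f j = ∑ i, c i • f i) (i : Fin 3) :
    TT_cj f γ i j = c i := by
  rw [TT_cj_apply hf] at h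
  exact congrFun (coord_unique hf h) i

theorem TT_cj_pow (ht : t ≠ 0) {f : Fin 3 → V K} (hf : LinearIndependent K f) (n : Fin 3 → ℤ)
    (γ : GL (Fin 3) K) (i j : Fin 3) :
    TT_cj (fun i => t ^ n i • f i) γ i j = t ^ (n j - n i) * TT_cj f γ i j := by
  refine TT_cj_unique (li_pow hf ht n) (c := fun i => t ^ (n j - n i) * TT_cj f γ i j) ?_ i
  rw [Matrix.mulVec_smul, TT_cj_apply hf, Finset.smul_sum]
  refine Finset.sum_congr rfl fun k _ => ?_
  rw [smul_smul, smul_smul]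
  congr 1
  have : t ^ n j = t ^ (n j - n k) * t ^ n k := by
    rw [← zpow_add₀ ht]
    congr 1
    ring
  rw [this]
  ring

theorem TT_cj_rev {f : Fin 3 → V K} (hf : LinearIndependent K f)
    (γ : GL (Fin 3) K) (i j : Fin 3) :
    TT_cj (fun i => f (Fin.rev i)) γ i j = TT_cj f γ (Fin.rev i) (Fin.rev j) := by
  refine TT_cj_unique (f := fun i => f (Fin.rev i)) (hf.comp _ Fin.rev_injective)
    (c := fun i => TT_cj f γ (Fin.rev i) (Fin.rev j)) ?_ i
  rw [TT_cj_apply hf]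
  exact (Equiv.sum_comp Fin.revPerm fun i => TT_cj f γ i (Fin.rev j) • f i).symm

theorem TT_sp_rev (f : Fin 3 → V K) : sp O (fun i => f (Fin.rev i)) = sp O f := by
  refine le_antisymm ((sp_le_iff _ _).2 fun i => self_mem_sp f _) ((sp_le_iff _ _).2 fun i => ?_)
  have := self_mem_sp (O := O) (fun i => f (Fin.rev i)) (Fin.rev i)
  simpa using this

theorem TT_adp_rev {f : Fin 3 → V K} {L L' : Submodule O (V K)} {a : Fin 3 → ℤ}
    (h : Adp t f L L' a) : Adp t (fun i => f (Fin.rev i)) L L' (fun i => a (Fin.rev i)) := by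
  obtain ⟨h1, h2, h3⟩ := h
  refine ⟨h1.comp _ Fin.rev_injective, ?_, ?_⟩
  · rw [h2, TT_sp_rev]
  · rw [h3]
    exact (TT_sp_rev fun i => t ^ (-a i) • f i).symm

/-- the stabiliser of a lattice in terms of matrices -/
theorem TT_stb_iff {f : Fin 3 → V K} (hf : LinearIndependent K f) (γ : GL (Fin 3) K) :
    Stb γ (sp O f) ↔ MO O (TT_cj f γ) ∧ MO O (TT_cj f γ⁻¹) := by
  have key : ∀ δ : GL (Fin 3) K, (∀ j, (δ : M K) *ᵥ f j ∈ sp O f) ↔ MO O (TT_cj f δ) := by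
    intro δ
    constructor
    · intro h i j
      have := h j
      rw [TT_cj_apply hf, sum_mem_sp_iff hf] at this
      exact this i
    · intro h j
      rw [TT_cj_apply hf, sum_mem_sp_iff hf]
      exact fun i => h i j
  constructor
  · intro h
    exact ⟨(key γ).1 fun j => (h _).2 (self_mem_sp f j),
      (key γ⁻¹).1 fun j => (h.inv _).2 (self_mem_sp f j)⟩
  · rintro ⟨h1, h2⟩
    exact stb_of ((key γ).2 h1) ((key γ⁻¹).2 h2)

theorem TT_tr (ht : t ≠ 0) {f : Fin 3 → V K} (hf : LinearIndependent K f) (w : Fin 3 → ℤ)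
    (γ δ : GL (Fin 3) K) (e : ℤ) :
    t ^ e * ((γ * δ : GL (Fin 3) K) : M K).trace =
      ∑ i, ∑ j, t ^ (w i - w j + e) *
        (TT_cj f γ i j * TT_cj (fun i => t ^ (-w i) • f i) δ j i) := by
  rw [TT_cj_trace hf, TT_cj_mul hf, Matrix.trace, Finset.mul_sum]
  refine Finset.sum_congr rfl fun i _ => ?_
  rw [Matrix.diag_apply, Matrix.mul_apply, Finset.mul_sum]
  refine Finset.sum_congr rfl fun j _ => ?_
  rw [TT_cj_pow ht hf (fun i => -w i)]
  have : t ^ e = t ^ (w i - w j + e) * t ^ (-w i - -w j) := by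
    rw [← zpow_add₀ ht]
    congr 1
    ring
  rw [this]
  ring

/-! ### Congruences modulo `t` -/

/-- `x` is a multiple of `t` -/
def TT_z (O : ValuationSubring K) (t x : K) : Prop := t⁻¹ * x ∈ O

theorem TT_z_zero : TT_z O t 0 := by
  unfold TT_z
  rw [mul_zero]
  exact O.zero_mem

theorem TT_z_add {x y : K} (hx : TT_z O t x) (hy : TT_z O t y) : TT_z O t (x + y) := by
  unfold TT_z at *
  rw [mul_add]
  exact add_mem hx hy

theorem TT_z_neg {x : K} (hx : TT_z O t x) : TT_z O t (-x) := by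
  unfold TT_z at *
  rw [mul_neg]
  exact neg_mem hx

theorem TT_z_mul {x y : K} (hx : TT_z O t x) (hy : y ∈ O) : TT_z O t (x * y) := by
  unfold TT_z at *
  rw [← mul_assoc]
  exact mul_mem hx hy

theorem TT_z_mul' {x y : K} (hy : y ∈ O) (hx : TT_z O t x) : TT_z O t (y * x) := by
  rw [mul_comm]
  exact TT_z_mul hx hy

theorem TT_not_one (h : Unif O t) : ¬ TT_z O t 1 := by
  unfold TT_z
  rw [mul_one]
  exact h.nu

theorem TT_prime (h : Unif O t) {x y : K} (hx : x ∈ O) (hz : TT_z O t (x * y)) :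
    TT_z O t x ∨ TT_z O t y := by
  rcases h.unit_or hx with ⟨h1, h2⟩ | ⟨z, hz', rfl⟩
  · right
    have : y = x * y * x⁻¹ := by
      field_simp
    rw [this]
    exact TT_z_mul hz h1
  · left
    unfold TT_z
    rw [← mul_assoc, inv_mul_cancel₀ h.ne, one_mul]
    exact hz'

theorem TT_unit (h : Unif O t) {x : K} (hx : x ∈ O) (hz : ¬ TT_z O t x) : x⁻¹ ∈ O ∧ x ≠ 0 := by
  rcases h.unit_or hx with h1 | ⟨z, hz', rfl⟩
  · exact h1
  · exfalso
    apply hz
    unfold TT_z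
    rw [← mul_assoc, inv_mul_cancel₀ h.ne, one_mul]
    exact hz'

/-- the invariant subspace generated by a vector -/
theorem TT_C (h : Unif O t) {x y : M K} (hx : MO O x) (hy : MO O y) (hxy : x * y = 1)
    (hyx : y * x = 1) {i j k : Fin 3} (hs : ∀ F : Fin 3 → K, ∑ m, F m = F i + F j + F k)
    (hki : k ≠ i) (hkj : k ≠ j) (h1 : TT_z O t (x k i)) (h2 : TT_z O t (y k i)) :
    (TT_z O t (x j i) ∧ TT_z O t (y j i)) ∨ (TT_z O t (x k j) ∧ TT_z O t (y k j)) := by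
  have key : ∀ x y : M K, MO O x → MO O y → x * y = 1 → TT_z O t (x k i) → TT_z O t (y k i) →
      ¬ TT_z O t (y j i) → TT_z O t (x k j) ∧ TT_z O t (y k j) := by
    intro x y hx hy hxy h1 h2 h3
    have e1 : x k i * y i i + x k j * y j i + x k k * y k i = 0 := by
      have := congrFun (congrFun hxy k) i
      rw [Matrix.mul_apply, hs, Matrix.one_apply_ne hki] at this
      exact this
    have e2 : x k i * y i j + x k j * y j j + x k k * y k j = 0 := by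
      have := congrFun (congrFun hxy k) j
      rw [Matrix.mul_apply, hs, Matrix.one_apply_ne hkj] at this
      exact this
    have e3 : x k i * y i k + x k j * y j k + x k k * y k k = 1 := by
      have := congrFun (congrFun hxy k) k
      rw [Matrix.mul_apply, hs, Matrix.one_apply_eq] at this
      exact this
    have h4 : TT_z O t (x k j) := by
      have e4 : x k j * y j i = -(x k i * y i i + x k k * y k i) := by
        linear_combination e1
      have h5 : TT_z O t (x k j * y j i) := by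
        rw [e4]
        exact TT_z_neg (TT_z_add (TT_z_mul h1 (hy i i)) (TT_z_mul' (hx k k) h2))
      exact (TT_prime h (hx k j) h5).resolve_right h3
    refine ⟨h4, ?_⟩
    have h5 : TT_z O t (x k k * y k j) := by
      have e4 : x k k * y k j = -(x k i * y i j + x k j * y j j) := by
        linear_combination e2
      rw [e4]
      exact TT_z_neg (TT_z_add (TT_z_mul h1 (hy i j)) (TT_z_mul h4 (hy j j)))
    refine (TT_prime h (hx k k) h5).resolve_left fun h6 => TT_not_one h ?_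
    rw [← e3]
    exact TT_z_add (TT_z_add (TT_z_mul h1 (hy i k)) (TT_z_mul h4 (hy j k)))
      (TT_z_mul h6 (hy k k))
  by_cases h3 : TT_z O t (x j i)
  · by_cases h4 : TT_z O t (y j i)
    · exact Or.inl ⟨h3, h4⟩
    · exact Or.inr (key x y hx hy hxy h1 h2 h4)
  · exact Or.inr (key y x hy hx hyx h2 h1 h3).symm

/-! ### The point and the line of a basis -/

theorem TT_pt_eq (f : Fin 3 → V K) :
    sp O ![f 0, t • f 1, t • f 2] = sp O fun i => t ^ (![0, 1, 1] : Fin 3 → ℤ) i • f i := by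
  congr 1
  funext i
  fin_cases i <;> simp

theorem TT_ln_eq (f : Fin 3 → V K) :
    sp O ![f 0, f 1, t • f 2] = sp O fun i => t ^ (![0, 0, 1] : Fin 3 → ℤ) i • f i := by
  congr 1
  funext i
  fin_cases i <;> simp

theorem TT_stb_pow (h : Unif O t) {f : Fin 3 → V K} (hf : LinearIndependent K f)
    (n : Fin 3 → ℤ) {γ : GL (Fin 3) K}
    (h1 : ∀ i j, t ^ (n j - n i) * TT_cj f γ i j ∈ O)
    (h2 : ∀ i j, t ^ (n j - n i) * TT_cj f γ⁻¹ i j ∈ O) :
    Stb γ (sp O fun i => t ^ n i • f i) := by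
  rw [TT_stb_iff (li_pow hf h.ne n)]
  constructor
  · intro i j
    rw [TT_cj_pow h.ne hf]
    exact h1 i j
  · intro i j
    rw [TT_cj_pow h.ne hf]
    exact h2 i j

theorem TT_pow_mem (h : Unif O t) {x : K} (hx : x ∈ O) {n : ℤ} (hn : 0 ≤ n) : t ^ n * x ∈ O :=
  mul_mem (h.zpow_mem_of hn) hx

theorem TT_pow_mem' {x : K} (hx : TT_z O t x) {n : ℤ} (hn : n = -1) :
    t ^ n * x ∈ O := by
  rw [hn, _root_.zpow_neg_one]
  exact hx

theorem TT_stb_pt (h : Unif O t) {f : Fin 3 → V K} (hf : LinearIndependent K f)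
    {γ : GL (Fin 3) K} (hs : Stb γ (sp O f)) (h1 : TT_z O t (TT_cj f γ 1 0))
    (h2 : TT_z O t (TT_cj f γ 2 0)) (h3 : TT_z O t (TT_cj f γ⁻¹ 1 0))
    (h4 : TT_z O t (TT_cj f γ⁻¹ 2 0)) : Stb γ (sp O ![f 0, t • f 1, t • f 2]) := by
  rw [TT_stb_iff hf] at hs
  rw [TT_pt_eq]
  have key : ∀ x : M K, MO O x → TT_z O t (x 1 0) → TT_z O t (x 2 0) → ∀ i j,
      t ^ ((![0, 1, 1] : Fin 3 → ℤ) j - (![0, 1, 1] : Fin 3 → ℤ) i) * x i j ∈ O := by
    intro x hx h1 h2 i j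
    fin_cases i <;> fin_cases j
    all_goals first
      | (refine TT_pow_mem h (hx _ _) ?_; simp; done)
      | (refine TT_pow_mem' h1 ?_; simp)
      | (refine TT_pow_mem' h2 ?_; simp)
  exact TT_stb_pow h hf _ (key _ hs.1 h1 h2) (key _ hs.2 h3 h4)

theorem TT_stb_ln (h : Unif O t) {f : Fin 3 → V K} (hf : LinearIndependent K f)
    {γ : GL (Fin 3) K} (hs : Stb γ (sp O f)) (h1 : TT_z O t (TT_cj f γ 2 0))
    (h2 : TT_z O t (TT_cj f γ 2 1)) (h3 : TT_z O t (TT_cj f γ⁻¹ 2 0))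
    (h4 : TT_z O t (TT_cj f γ⁻¹ 2 1)) : Stb γ (sp O ![f 0, f 1, t • f 2]) := by
  rw [TT_stb_iff hf] at hs
  rw [TT_ln_eq]
  have key : ∀ x : M K, MO O x → TT_z O t (x 2 0) → TT_z O t (x 2 1) → ∀ i j,
      t ^ ((![0, 0, 1] : Fin 3 → ℤ) j - (![0, 0, 1] : Fin 3 → ℤ) i) * x i j ∈ O := by
    intro x hx h1 h2 i j
    fin_cases i <;> fin_cases j
    all_goals first
      | (refine TT_pow_mem h (hx _ _) ?_; simp; done)
      | (refine TT_pow_mem' h1 ?_; simp)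
      | (refine TT_pow_mem' h2 ?_; simp)
  exact TT_stb_pow h hf _ (key _ hs.1 h1 h2) (key _ hs.2 h3 h4)

theorem TT_pt_le (h : Unif O t) (f : Fin 3 → V K) :
    sp O ![f 0, t • f 1, t • f 2] ≤ sp O ![f 0, f 1, t • f 2] := by
  rw [sp_le_iff]
  intro i
  fin_cases i
  · exact self_mem_sp (O := O) ![f 0, f 1, t • f 2] 0
  · exact smul_mem_K _ h.mem (self_mem_sp (O := O) ![f 0, f 1, t • f 2] 1)
  · exact self_mem_sp (O := O) ![f 0, f 1, t • f 2] 2

/-! ### The situation of Lemma T -/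

/-- the assumptions, in a symmetric form -/
structure TT_S (O : ValuationSubring K) (t : K) (a b : GL (Fin 3) K)
    (L L' : Submodule O (V K)) : Prop where
  sa : Stb a L
  sb : Stb b L'
  m1 : ∀ p q P l, Dat t L L' p q P l →
    (∀ W, Pt t L W → Stb a W → (p : ℤ) * e2 W P + q * i1 (W ≤ l) ≤ 1) ∧
    ∀ W, Ln t L W → Stb a W → (q : ℤ) * e2 W l + p * i1 (P ≤ W) ≤ 1
  m2 : ∀ p q P l, Dat t L' L p q P l →
    (∀ W, Pt t L' W → Stb b W → (p : ℤ) * e2 W P + q * i1 (W ≤ l) ≤ 1) ∧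
    ∀ W, Ln t L' W → Stb b W → (q : ℤ) * e2 W l + p * i1 (P ≤ W) ≤ 1
  t1 : ((a * b : GL (Fin 3) K) : M K).trace ∈ O
  t2 : ((a * b⁻¹ : GL (Fin 3) K) : M K).trace ∈ O
  t3 : ((a⁻¹ * b : GL (Fin 3) K) : M K).trace ∈ O
  t4 : ((a⁻¹ * b⁻¹ : GL (Fin 3) K) : M K).trace ∈ O

theorem TT_trace_comm (γ δ : GL (Fin 3) K) :
    ((γ * δ : GL (Fin 3) K) : M K).trace = ((δ * γ : GL (Fin 3) K) : M K).trace := by
  rw [Units.val_mul, Units.val_mul, Matrix.trace_mul_comm]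

theorem TT_S.symm {a b : GL (Fin 3) K} {L L' : Submodule O (V K)} (h : TT_S O t a b L L') :
    TT_S O t b a L' L where
  sa := h.sb
  sb := h.sa
  m1 := h.m2
  m2 := h.m1
  t1 := by rw [TT_trace_comm]; exact h.t1
  t2 := by rw [TT_trace_comm]; exact h.t3
  t3 := by rw [TT_trace_comm]; exact h.t2
  t4 := by rw [TT_trace_comm]; exact h.t4

theorem TT_stb_inv {γ : GL (Fin 3) K} {L : Submodule O (V K)} : Stb γ⁻¹ L → Stb γ L := by
  intro h
  have := h.inv
  rwa [inv_inv] at this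

theorem TT_S.inv {a b : GL (Fin 3) K} {L L' : Submodule O (V K)} (h : TT_S O t a b L L') :
    TT_S O t a⁻¹ b L L' where
  sa := h.sa.inv
  sb := h.sb
  m1 := fun p q P l hd => ⟨fun W hW hs => (h.m1 p q P l hd).1 W hW (TT_stb_inv hs),
    fun W hW hs => (h.m1 p q P l hd).2 W hW (TT_stb_inv hs)⟩
  m2 := h.m2
  t1 := h.t3
  t2 := h.t4
  t3 := by rw [inv_inv]; exact h.t1
  t4 := by rw [inv_inv]; exact h.t2

theorem TT_bd_inv {a b : GL (Fin 3) K} (h : Bd O ({a⁻¹, b} : Set (GL (Fin 3) K))) :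
    Bd O ({a, b} : Set (GL (Fin 3) K)) := by
  obtain ⟨L, h1, h2⟩ := h
  refine ⟨L, h1, ?_⟩
  rintro γ (rfl | rfl)
  · exact TT_stb_inv (h2 _ (Or.inl rfl))
  · exact h2 _ (Or.inr rfl)

/-- the reversed basis -/
theorem TT_adp_symm (ht : t ≠ 0) {f : Fin 3 → V K} {L L' : Submodule O (V K)} {p q : ℕ}
    {s : ℤ} (h : Adp t f L L' ![p + q + s, q + s, s]) :
    Adp t (fun i => t ^ (-(![p + q + s, q + s, s] : Fin 3 → ℤ) (Fin.rev i)) • f (Fin.rev i)) L' L
      ![q + p + -(p + q + s), p + -(p + q + s), -(p + q + s)] := by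
  have h1 := TT_adp_rev (h.symm ht)
  have h2 : (fun i => -(![p + q + s, q + s, s] : Fin 3 → ℤ) (Fin.rev i)) =
      ![(q : ℤ) + p + -(p + q + s), p + -(p + q + s), -(p + q + s)] := by
    funext i
    fin_cases i
    · show -s = (q : ℤ) + p + -(p + q + s)
      ring
    · show -(q + s) = (p : ℤ) + -(p + q + s)
      ring
    · rfl
  rw [← h2]
  exact h1

/-- CASE `p, q ≥ 1`: the entry `2 0` is not zero -/
theorem TT_A1 (h : Unif O t) {a : GL (Fin 3) K} {L : Submodule O (V K)} {p q : ℕ}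
    {f : Fin 3 → V K} (hf : LinearIndependent K f) (hL : L = sp O f) (hs : Stb a L)
    (hp : 0 < p) (hq : 0 < q)
    (m : (∀ W, Pt t L W → Stb a W → (p : ℤ) * e2 W (sp O ![f 0, t • f 1, t • f 2]) +
        q * i1 (W ≤ sp O ![f 0, f 1, t • f 2]) ≤ 1) ∧
      ∀ W, Ln t L W → Stb a W → (q : ℤ) * e2 W (sp O ![f 0, f 1, t • f 2]) +
        p * i1 (sp O ![f 0, t • f 1, t • f 2] ≤ W) ≤ 1)
    (h1 : TT_z O t (TT_cj f a 2 0)) (h2 : TT_z O t (TT_cj f a⁻¹ 2 0)) : False := by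
  have hs' := hs
  rw [hL] at hs'
  have hm := (TT_stb_iff hf a).1 hs'
  have hle := TT_pt_le h f
  rcases TT_C h hm.1 hm.2 (TT_cj_inv hf a) (TT_cj_inv' hf a) (i := 0) (j := 1) (k := 2)
    (fun F => Fin.sum_univ_three F) (by decide) (by decide) h1 h2 with ⟨h3, h4⟩ | ⟨h3, h4⟩
  · have := m.1 _ ⟨f, hf, hL, rfl⟩ (TT_stb_pt h hf hs' h3 h1 h4 h2)
    rw [e2, if_pos rfl, i1, if_pos hle] at this
    omega
  · have := m.2 _ ⟨f, hf, hL, rfl⟩ (TT_stb_ln h hf hs' h1 h3 h2 h4)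
    rw [e2, if_pos rfl, i1, if_pos hle] at this
    omega

theorem TT_A2 (h : Unif O t) {f : Fin 3 → V K} (hf : LinearIndependent K f) {p q : ℕ} {s : ℤ}
    (hp : 0 < p) (hq : 0 < q) {γ δ : GL (Fin 3) K} (h1 : MO O (TT_cj f γ))
    (h2 : MO O (TT_cj (fun i => t ^ (-(![p + q + s, q + s, s] : Fin 3 → ℤ) i) • f i) δ))
    (h3 : ((γ * δ : GL (Fin 3) K) : M K).trace ∈ O) :
    TT_z O t (TT_cj f γ 2 0 *
      TT_cj (fun i => t ^ (-(![p + q + s, q + s, s] : Fin 3 → ℤ) i) • f i) δ 0 2) := by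
  have e := TT_tr h.ne hf ![p + q + s, q + s, s] γ δ (p + q - 1)
  have h4 := TT_pow_mem h h3 (n := (p : ℤ) + q - 1) (by omega)
  rw [e] at h4
  simp only [Fin.sum_univ_three] at h4
  generalize TT_cj (fun i => t ^ (-(![p + q + s, q + s, s] : Fin 3 → ℤ) i) • f i) δ = y at h2 h4 ⊢
  generalize TT_cj f γ = x at h1 h4 ⊢
  have key : ∀ i j, ¬ (i = 2 ∧ j = 0) → t ^ ((![p + q + s, q + s, s] : Fin 3 → ℤ) i -
      (![p + q + s, q + s, s] : Fin 3 → ℤ) j + (p + q - 1)) * (x i j * y j i) ∈ O := by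
    intro i j hij
    refine TT_pow_mem h (mul_mem (h1 i j) (h2 j i)) ?_
    fin_cases i <;> fin_cases j
    all_goals first
      | (exfalso; exact hij ⟨rfl, rfl⟩)
      | (simp; omega)
  have h5 := key 0 0 (by decide)
  have h6 := key 0 1 (by decide)
  have h7 := key 0 2 (by decide)
  have h8 := key 1 0 (by decide)
  have h9 := key 1 1 (by decide)
  have h10 := key 1 2 (by decide)
  have h11 := key 2 1 (by decide)
  have h12 := key 2 2 (by decide)
  have e2 : t ^ ((![p + q + s, q + s, s] : Fin 3 → ℤ) 2 -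
      (![p + q + s, q + s, s] : Fin 3 → ℤ) 0 + (p + q - 1)) = t⁻¹ := by
    rw [← _root_.zpow_neg_one]
    congr 1
    show s - (p + q + s) + ((p : ℤ) + q - 1) = -1
    ring
  rw [e2] at h4
  have h13 := sub_mem (sub_mem (sub_mem (sub_mem (sub_mem (sub_mem (sub_mem (sub_mem h4 h5) h6) h7)
    h8) h9) h10) h11) h12
  unfold TT_z
  have e3 := h13
  ring_nf at e3 ⊢
  exact e3

/-- CASE `p, q ≥ 1` -/
theorem TT_caseA (h : Unif O t) {a b : GL (Fin 3) K} {L L' : Submodule O (V K)}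
    (hS : TT_S O t a b L L') {p q : ℕ} {P l : Submodule O (V K)} (hd : Dat t L L' p q P l)
    (hp : 0 < p) (hq : 0 < q) : False := by
  have m := hS.m1 p q P l hd
  obtain ⟨f, s, hf, rfl, rfl⟩ := hd
  have hf' := li_pow hf.1 h.ne (fun i => -(![p + q + s, q + s, s] : Fin 3 → ℤ) i)
  have ma := (TT_stb_iff (O := O) hf.1 a).1 (hf.2.1 ▸ hS.sa)
  have mb := (TT_stb_iff (O := O) hf' b).1 (hf.2.2 ▸ hS.sb)
  by_cases hA : TT_z O t (TT_cj f a 2 0) ∧ TT_z O t (TT_cj f a⁻¹ 2 0)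
  · exact TT_A1 h hf.1 hf.2.1 hS.sa hp hq m hA.1 hA.2
  · have key : ∀ δ, MO O (TT_cj (fun i => t ^ (-(![p + q + s, q + s, s] : Fin 3 → ℤ) i) • f i) δ) →
        ((a * δ : GL (Fin 3) K) : M K).trace ∈ O → ((a⁻¹ * δ : GL (Fin 3) K) : M K).trace ∈ O →
        TT_z O t (TT_cj (fun i => t ^ (-(![p + q + s, q + s, s] : Fin 3 → ℤ) i) • f i) δ 0 2) := by
      intro δ hδ h1 h2
      by_contra hc
      exact hA ⟨(TT_prime h (ma.1 2 0) (TT_A2 h hf.1 hp hq ma.1 hδ h1)).resolve_right hc,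
        (TT_prime h (ma.2 2 0) (TT_A2 h hf.1 hp hq ma.2 hδ h2)).resolve_right hc⟩
    have hg := TT_adp_symm h.ne hf
    refine TT_A1 h hg.1 hg.2.1 hS.sb hq hp (hS.m2 q p _ _ ⟨_, _, hg, rfl, rfl⟩) ?_ ?_
    · have e := TT_cj_rev hf' b 2 0
      have e' : TT_z O t (TT_cj (fun i => (fun i => t ^ (-(![p + q + s, q + s, s] :
          Fin 3 → ℤ) i) • f i) (Fin.rev i)) b 2 0) := by
        rw [e]
        exact key b mb.1 hS.t1 hS.t3
      exact e'
    · have e := TT_cj_rev hf' b⁻¹ 2 0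
      have e' : TT_z O t (TT_cj (fun i => (fun i => t ^ (-(![p + q + s, q + s, s] :
          Fin 3 → ℤ) i) • f i) (Fin.rev i)) b⁻¹ 2 0) := by
        rw [e]
        exact key b⁻¹ mb.2 hS.t2 hS.t4
      exact e'

/-! ### The case `q = 0` -/

theorem TT_B2 (h : Unif O t) {f : Fin 3 → V K} (hf : LinearIndependent K f) {p q : ℕ} {s : ℤ}
    (hp : 0 < p) (hq : q = 0) {γ δ : GL (Fin 3) K} (h1 : MO O (TT_cj f γ))
    (h2 : MO O (TT_cj (fun i => t ^ (-(![p + q + s, q + s, s] : Fin 3 → ℤ) i) • f i) δ))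
    (h3 : ((γ * δ : GL (Fin 3) K) : M K).trace ∈ O) :
    TT_z O t (TT_cj f γ 1 0 *
        TT_cj (fun i => t ^ (-(![p + q + s, q + s, s] : Fin 3 → ℤ) i) • f i) δ 0 1 +
      TT_cj f γ 2 0 *
        TT_cj (fun i => t ^ (-(![p + q + s, q + s, s] : Fin 3 → ℤ) i) • f i) δ 0 2) := by
  subst hq
  have e := TT_tr h.ne hf ![p + (0 : ℕ) + s, (0 : ℕ) + s, s] γ δ (p - 1)
  have h4 := TT_pow_mem h h3 (n := (p : ℤ) - 1) (by omega)
  rw [e] at h4
  simp only [Fin.sum_univ_three] at h4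
  generalize TT_cj (fun i => t ^ (-(![p + (0 : ℕ) + s, (0 : ℕ) + s, s] : Fin 3 → ℤ) i) • f i) δ = y
    at h2 h4 ⊢
  generalize TT_cj f γ = x at h1 h4 ⊢
  have key : ∀ i j, ¬ (i = 1 ∧ j = 0) → ¬ (i = 2 ∧ j = 0) →
      t ^ ((![p + (0 : ℕ) + s, (0 : ℕ) + s, s] : Fin 3 → ℤ) i -
      (![p + (0 : ℕ) + s, (0 : ℕ) + s, s] : Fin 3 → ℤ) j + (p - 1)) * (x i j * y j i) ∈ O := by
    intro i j hij hij'
    refine TT_pow_mem h (mul_mem (h1 i j) (h2 j i)) ?_
    fin_cases i <;> fin_cases j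
    all_goals first
      | (exfalso; exact hij ⟨rfl, rfl⟩)
      | (exfalso; exact hij' ⟨rfl, rfl⟩)
      | (simp; omega)
  have h5 := key 0 0 (by decide) (by decide)
  have h6 := key 0 1 (by decide) (by decide)
  have h7 := key 0 2 (by decide) (by decide)
  have h9 := key 1 1 (by decide) (by decide)
  have h10 := key 1 2 (by decide) (by decide)
  have h11 := key 2 1 (by decide) (by decide)
  have h12 := key 2 2 (by decide) (by decide)
  have e1 : t ^ ((![p + (0 : ℕ) + s, (0 : ℕ) + s, s] : Fin 3 → ℤ) 1 -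
      (![p + (0 : ℕ) + s, (0 : ℕ) + s, s] : Fin 3 → ℤ) 0 + (p - 1)) = t⁻¹ := by
    rw [← _root_.zpow_neg_one]
    congr 1
    show ((0 : ℕ) : ℤ) + s - (p + (0 : ℕ) + s) + ((p : ℤ) - 1) = -1
    ring
  have e2 : t ^ ((![p + (0 : ℕ) + s, (0 : ℕ) + s, s] : Fin 3 → ℤ) 2 -
      (![p + (0 : ℕ) + s, (0 : ℕ) + s, s] : Fin 3 → ℤ) 0 + (p - 1)) = t⁻¹ := by
    rw [← _root_.zpow_neg_one]
    congr 1
    show s - (p + (0 : ℕ) + s) + ((p : ℤ) - 1) = -1
    push_cast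
    ring
  rw [e1, e2] at h4
  have h13 := sub_mem (sub_mem (sub_mem (sub_mem (sub_mem (sub_mem (sub_mem h4 h5) h6) h7)
    h9) h10) h11) h12
  unfold TT_z
  have e3 := h13
  ring_nf at e3 ⊢
  exact e3

theorem TT_B4 (h : Unif O t) {f : Fin 3 → V K} {L L' : Submodule O (V K)} {w : Fin 3 → ℤ}
    (hA : Adp t f L L' w) {U : M K} (hU : MO O U) (h0 : U.det ≠ 0) (hd : (U.det)⁻¹ ∈ O)
    (hw : ∀ i j, U i j = 0 ∨ w i = w j) : Adp t (fun j => ∑ i, U i j • f i) L L' w := by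
  obtain ⟨h1, h2, h3⟩ := hA
  have e1 := sp_change (O := O) h1 hU h0 hd (g := fun j => ∑ i, U i j • f i) fun j => rfl
  have e2 := sp_change (O := O) (li_pow h1 h.ne fun i => -w i) hU h0 hd
    (g := fun j => t ^ (-w j) • ∑ i, U i j • f i) (by
      intro j
      rw [Finset.smul_sum]
      refine Finset.sum_congr rfl fun i _ => ?_
      rw [smul_smul, smul_smul]
      rcases hw i j with h4 | h4
      · rw [h4, mul_zero, zero_mul]
      · rw [h4, mul_comm])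
  exact ⟨e1.1, by rw [h2, e1.2], by rw [h3, e2.2]⟩

theorem TT_B3 (h : Unif O t) {f : Fin 3 → V K} {L L' : Submodule O (V K)} {p q : ℕ} {s : ℤ}
    (hA : Adp t f L L' ![p + q + s, q + s, s]) (hq : q = 0) {x y : K} (hx : x ∈ O) (hy : y ∈ O)
    (hz : ¬ (TT_z O t x ∧ TT_z O t y)) :
    ∃ g : Fin 3 → V K, Adp t g L L' ![p + q + s, q + s, s] ∧ g 0 = f 0 ∧
      g 1 = x • f 1 + y • f 2 := by
  subst hq
  by_cases h1 : TT_z O t x
  · have h2 : ¬ TT_z O t y := fun h2 => hz ⟨h1, h2⟩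
    have h3 := TT_unit h hy h2
    have hdet : (!![1, 0, 0; 0, x, 1; 0, y, 0] : M K).det = -y := by
      rw [Matrix.det_fin_three]
      simp
    have h4 := TT_B4 h hA (U := !![1, 0, 0; 0, x, 1; 0, y, 0]) (by
      intro i j
      fin_cases i <;> fin_cases j <;> simp [hx, hy, O.zero_mem, O.one_mem]) (by
      rw [hdet]
      exact neg_ne_zero.2 h3.2) (by
      rw [hdet, inv_neg]
      exact neg_mem h3.1) (by
      intro i j
      fin_cases i <;> fin_cases j <;> simp)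
    refine ⟨_, h4, ?_, ?_⟩
    · simp [Fin.sum_univ_three]
    · simp [Fin.sum_univ_three]
  · have h3 := TT_unit h hx h1
    have hdet : (!![1, 0, 0; 0, x, 0; 0, y, 1] : M K).det = x := by
      rw [Matrix.det_fin_three]
      simp
    have h4 := TT_B4 h hA (U := !![1, 0, 0; 0, x, 0; 0, y, 1]) (by
      intro i j
      fin_cases i <;> fin_cases j <;> simp [hx, hy, O.zero_mem, O.one_mem]) (by
      rw [hdet]
      exact h3.2) (by
      rw [hdet]
      exact h3.1) (by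
      intro i j
      fin_cases i <;> fin_cases j <;> simp)
    refine ⟨_, h4, ?_, ?_⟩
    · simp [Fin.sum_univ_three]
    · simp [Fin.sum_univ_three]

/-- the main case -/
theorem TT_B1 (h : Unif O t) {a b : GL (Fin 3) K} {L L' : Submodule O (V K)}
    (hS : TT_S O t a b L L') {p q : ℕ} {s : ℤ} (hp : 0 < p) (hq : q = 0) {f : Fin 3 → V K}
    (hA : Adp t f L L' ![p + q + s, q + s, s])
    (hz : ¬ (TT_z O t (TT_cj f a 1 0) ∧ TT_z O t (TT_cj f a 2 0))) :
    Bd O ({a, b} : Set (GL (Fin 3) K)) := by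
  have ma0 := (TT_stb_iff (O := O) hA.1 a).1 (hA.2.1 ▸ hS.sa)
  obtain ⟨g, hg, g0, g1⟩ := TT_B3 h hA hq (ma0.1 1 0) (ma0.1 2 0) hz
  have e : (a : M K) *ᵥ g 0 = ∑ i, (![TT_cj f a 0 0, 1, 0] : Fin 3 → K) i • g i := by
    rw [g0, TT_cj_apply hA.1, Fin.sum_univ_three, Fin.sum_univ_three, g1, g0]
    simp [add_assoc]
  have c10 : TT_cj g a 1 0 = 1 := TT_cj_unique hg.1 e 1
  have c20 : TT_cj g a 2 0 = 0 := TT_cj_unique hg.1 e 2
  have hg' := li_pow hg.1 h.ne (fun i => -(![p + q + s, q + s, s] : Fin 3 → ℤ) i)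
  have sa : Stb a (sp O g) := hg.2.1 ▸ hS.sa
  have sb : Stb b (sp O fun i => t ^ (-(![p + q + s, q + s, s] : Fin 3 → ℤ) i) • g i) :=
    hg.2.2 ▸ hS.sb
  have ma := (TT_stb_iff (O := O) hg.1 a).1 sa
  have mb := (TT_stb_iff (O := O) hg' b).1 sb
  have o1 := TT_B2 h hg.1 hp hq ma.1 mb.1 hS.t1
  have o2 := TT_B2 h hg.1 hp hq ma.1 mb.2 hS.t2
  have o3 := TT_B2 h hg.1 hp hq ma.2 mb.1 hS.t3
  have o4 := TT_B2 h hg.1 hp hq ma.2 mb.2 hS.t4
  rw [c10, c20, one_mul, zero_mul, add_zero] at o1 o2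
  -- the reversed basis
  have hr := TT_adp_symm h.ne hg
  have m2 := (hS.m2 q p _ _ ⟨_, _, hr, rfl, rfl⟩).2
  have rev : ∀ δ : GL (Fin 3) K, ∀ i j : Fin 3,
      TT_cj (fun i => t ^ (-(![p + q + s, q + s, s] : Fin 3 → ℤ) (Fin.rev i)) •
        g (Fin.rev i)) δ i j =
      TT_cj (fun i => t ^ (-(![p + q + s, q + s, s] : Fin 3 → ℤ) i) • g i) δ (Fin.rev i)
        (Fin.rev j) := fun δ i j => TT_cj_rev hg' δ i j
  have hX : ¬ (TT_z O t (TT_cj (fun i => t ^ (-(![p + q + s, q + s, s] : Fin 3 → ℤ) i) • g i)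
      b 0 2) ∧ TT_z O t (TT_cj (fun i => t ^ (-(![p + q + s, q + s, s] : Fin 3 → ℤ) i) • g i)
      b⁻¹ 0 2)) := by
    rintro ⟨h1, h2⟩
    have h3 := m2 _ ⟨_, hr.1, hr.2.1, rfl⟩ (TT_stb_ln h hr.1 (hr.2.1 ▸ hS.sb)
      (by rw [rev]; exact h1) (by rw [rev]; exact o1) (by rw [rev]; exact h2)
      (by rw [rev]; exact o2))
    have hq' : (q : ℤ) = 0 := by omega
    rw [e2, if_pos rfl, hq', zero_mul, add_zero] at h3
    omega
  have d20 : TT_z O t (TT_cj g a⁻¹ 2 0) := by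
    by_contra hc
    apply hX
    have key : ∀ y z : K, TT_z O t (TT_cj g a⁻¹ 1 0 * y + TT_cj g a⁻¹ 2 0 * z) → TT_z O t y →
        TT_z O t z := by
      intro y z h1 h2
      have h3 : TT_cj g a⁻¹ 2 0 * z =
          (TT_cj g a⁻¹ 1 0 * y + TT_cj g a⁻¹ 2 0 * z) + -(TT_cj g a⁻¹ 1 0 * y) := by ring
      refine (TT_prime h (ma.2 2 0) (y := z) ?_).resolve_left hc
      rw [h3]
      exact TT_z_add h1 (TT_z_neg (TT_z_mul' (ma.2 1 0) h2))
    exact ⟨key _ _ o3 o1, key _ _ o4 o2⟩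
  -- the line is stable under `a`
  have z20 : TT_z O t (TT_cj g a 2 0) := by
    rw [c20]
    exact TT_z_zero
  have hl : TT_z O t (TT_cj g a 2 1) ∧ TT_z O t (TT_cj g a⁻¹ 2 1) := by
    rcases TT_C h ma.1 ma.2 (TT_cj_inv hg.1 a) (TT_cj_inv' hg.1 a) (i := 0) (j := 1) (k := 2)
      (fun F => Fin.sum_univ_three F) (by decide) (by decide) z20 d20 with ⟨h3, -⟩ | h3
    · exfalso
      rw [c10] at h3
      exact TT_not_one h h3
    · exact h3
  have la : Stb a (sp O ![g 0, g 1, t • g 2]) := TT_stb_ln h hg.1 sa z20 hl.1 d20 hl.2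
  have hp1 : p = 1 := by
    have h3 := (hS.m1 p q _ _ ⟨g, s, hg, rfl, rfl⟩).2 _ ⟨g, hg.1, hg.2.1, rfl⟩ la
    rw [e2, if_pos rfl, i1, if_pos (TT_pt_le h _)] at h3
    omega
  -- the line is stable under `b`
  have hb : TT_z O t (TT_cj (fun i => t ^ (-(![p + q + s, q + s, s] : Fin 3 → ℤ) i) • g i)
      b 2 1) ∧ TT_z O t (TT_cj (fun i => t ^ (-(![p + q + s, q + s, s] : Fin 3 → ℤ) i) • g i)
      b⁻¹ 2 1) := by
    rcases TT_C h mb.1 mb.2 (TT_cj_inv hg' b) (TT_cj_inv' hg' b) (i := 1) (j := 2) (k := 0)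
      (fun F => by rw [Fin.sum_univ_three]; ring) (by decide) (by decide) o1 o2 with h3 | h3
    · exact h3
    · exact absurd h3 hX
  have lb : Stb b (sp O ![g 0, g 1, t • g 2]) := by
    rw [TT_ln_eq]
    have key : ∀ δ, MO O (TT_cj (fun i => t ^ (-(![p + q + s, q + s, s] : Fin 3 → ℤ) i) • g i)
        δ) → TT_z O t (TT_cj (fun i => t ^ (-(![p + q + s, q + s, s] : Fin 3 → ℤ) i) • g i)
        δ 0 1) → TT_z O t (TT_cj (fun i => t ^ (-(![p + q + s, q + s, s] : Fin 3 → ℤ) i) • g i)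
        δ 2 1) → ∀ i j, t ^ ((![0, 0, 1] : Fin 3 → ℤ) j - (![0, 0, 1] : Fin 3 → ℤ) i) *
          TT_cj g δ i j ∈ O := by
      intro δ h1 h2 h3 i j
      have h4 : TT_cj g δ i j = t ^ ((![p + q + s, q + s, s] : Fin 3 → ℤ) j -
          (![p + q + s, q + s, s] : Fin 3 → ℤ) i) *
          TT_cj (fun i => t ^ (-(![p + q + s, q + s, s] : Fin 3 → ℤ) i) • g i) δ i j := by
        rw [TT_cj_pow h.ne hg.1 (fun i => -(![p + q + s, q + s, s] : Fin 3 → ℤ) i), ← mul_assoc,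
          ← zpow_add₀ h.ne]
        have : (![p + q + s, q + s, s] : Fin 3 → ℤ) j - (![p + q + s, q + s, s] : Fin 3 → ℤ) i +
            (-(![p + q + s, q + s, s] : Fin 3 → ℤ) j - -(![p + q + s, q + s, s] : Fin 3 → ℤ) i)
            = 0 := by ring
        rw [this, zpow_zero, one_mul]
      rw [h4, ← mul_assoc, ← zpow_add₀ h.ne]
      generalize TT_cj (fun i => t ^ (-(![p + q + s, q + s, s] : Fin 3 → ℤ) i) • g i) δ = y
        at h1 h2 h3
      subst hp1 hq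
      fin_cases i <;> fin_cases j
      all_goals first
        | (refine TT_pow_mem h (h1 _ _) ?_; simp; done)
        | (refine TT_pow_mem' h2 ?_; simp)
        | (refine TT_pow_mem' h3 ?_; simp)
    exact TT_stb_pow h hg.1 _ (key b mb.1 o1 hb.1) (key b⁻¹ mb.2 o2 hb.2)
  refine ⟨sp O ![g 0, g 1, t • g 2], ⟨_, ?_, TT_ln_eq g⟩, ?_⟩
  · exact li_pow hg.1 h.ne _
  · rintro γ (rfl | rfl)
    · exact la
    · exact lb

theorem TT_caseB (h : Unif O t) {a b : GL (Fin 3) K} {L L' : Submodule O (V K)}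
    (hS : TT_S O t a b L L') {p q : ℕ} {P l : Submodule O (V K)} (hd : Dat t L L' p q P l)
    (hp : 0 < p) (hq : q = 0) : Bd O ({a, b} : Set (GL (Fin 3) K)) := by
  have m := hS.m1 p q P l hd
  obtain ⟨f, s, hf, rfl, rfl⟩ := hd
  by_cases h1 : TT_z O t (TT_cj f a 1 0) ∧ TT_z O t (TT_cj f a 2 0)
  · by_cases h2 : TT_z O t (TT_cj f a⁻¹ 1 0) ∧ TT_z O t (TT_cj f a⁻¹ 2 0)
    · exfalso
      have := m.1 _ ⟨f, hf.1, hf.2.1, rfl⟩
        (TT_stb_pt h hf.1 (hf.2.1 ▸ hS.sa) h1.1 h1.2 h2.1 h2.2)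
      rw [e2, if_pos rfl, i1, if_pos (TT_pt_le h _)] at this
      omega
    · exact TT_bd_inv (TT_B1 h hS.inv hp hq hf h2)
  · exact TT_B1 h hS hp hq hf h1

theorem TT_dat_symm (ht : t ≠ 0) {L L' : Submodule O (V K)} {p q : ℕ}
    {P l : Submodule O (V K)} (hd : Dat t L L' p q P l) : ∃ P' l', Dat t L' L q p P' l' := by
  obtain ⟨f, s, hf, -, -⟩ := hd
  exact ⟨_, _, _, _, TT_adp_symm ht hf, rfl, rfl⟩

/-- equal weights -/
theorem TT_caseD (h : Unif O t) {a b : GL (Fin 3) K} {L L' : Submodule O (V K)}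
    (hS : TT_S O t a b L L') {p q : ℕ} {P l : Submodule O (V K)} (hd : Dat t L L' p q P l)
    (hp : p = 0) (hq : q = 0) : Bd O ({a, b} : Set (GL (Fin 3) K)) := by
  obtain ⟨f, s, hf, -, -⟩ := hd
  have hf' := li_pow hf.1 h.ne (fun i => -(![p + q + s, q + s, s] : Fin 3 → ℤ) i)
  have ma := (TT_stb_iff (O := O) hf.1 a).1 (hf.2.1 ▸ hS.sa)
  subst hp hq
  refine ⟨L', ⟨_, hf', hf.2.2⟩, ?_⟩
  have key : Stb a L' := by
    rw [hf.2.2]
    refine TT_stb_pow h hf.1 _ ?_ ?_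
    · intro i j
      refine TT_pow_mem h (ma.1 i j) ?_
      fin_cases i <;> fin_cases j <;> simp
    · intro i j
      refine TT_pow_mem h (ma.2 i j) ?_
      fin_cases i <;> fin_cases j <;> simp
  rintro γ (rfl | rfl)
  · exact key
  · exact hS.sb

end

theorem thm_TT (h1 : St_SNF) (h3 : St_SYM) (h4 : St_TTM) : St_TT := by
  intro K _ O t h a b ha hb t1 t2 t3 t4
  classical
  -- a pair with minimal distance
  have hex : ∃ n : ℕ, ∃ L L' : Submodule O (V K), IsLat O L ∧ IsLat O L' ∧ Stb a L ∧ Stb b L' ∧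
      en t L L' = n := by
    obtain ⟨L, hL, hs⟩ := ha
    obtain ⟨L', hL', hs'⟩ := hb
    exact ⟨_, L, L', hL, hL', hs _ rfl, hs' _ rfl, rfl⟩
  obtain ⟨L, L', hL, hL', hs, hs', hn⟩ := Nat.find_spec hex
  have hmin : ∀ N N' : Submodule O (V K), IsLat O N → IsLat O N' → Stb a N → Stb b N' →
      en t L L' ≤ en t N N' := by
    intro N N' e1 e2 e3 e4
    rw [hn]
    exact Nat.find_min' hex ⟨N, N', e1, e2, e3, e4, rfl⟩
  have hS : TT_S O t a b L L' :=
    { sa := hs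
      sb := hs'
      m1 := h4 K O t h a b L L' hL hs hs' fun N e1 e2 => hmin N L' e1 hL' e2 hs'
      m2 := h4 K O t h b a L' L hL' hs' hs fun N e1 e2 => by
        rw [(h3 K O t h L' L hL' hL).1, (h3 K O t h N L e1 hL).1]
        exact hmin L N hL e1 hs e2
      t1 := t1
      t2 := t2
      t3 := t3
      t4 := t4 }
  obtain ⟨p, q, P, l, hd⟩ := h1 K O t h L L' hL hL'
  rcases Nat.eq_zero_or_pos p with hp | hp
  · rcases Nat.eq_zero_or_pos q with hq | hq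
    · exact TT_caseD h hS hd hp hq
    · obtain ⟨P', l', hd'⟩ := TT_dat_symm h.ne hd
      have := TT_caseB h hS.symm hd' hq hp
      rwa [Set.pair_comm]
  · rcases Nat.eq_zero_or_pos q with hq | hq
    · exact TT_caseB h hS hd hp hq
    · exact (TT_caseA h hS hd hp hq).elim

end R3S
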