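import Pool.Agent.R3S.St
import Pool.Agent.R3S.Tool

/-!
# R3S: Lemma T, minimality
-/

set_option autoImplicit false

namespace R3S

open Matrix

theorem thm_TTM (h1 : St_MVP) (h2 : St_MVL) : St_TTM := by
  intro K _ O t ht a b L L' _ _ _ hmin p q P l hD
  refine ⟨fun W hW hs => ?_, fun W hW hs => ?_⟩
  · obtain ⟨hL, he⟩ := h1 K O t ht L L' p q P l hD W hW
    have hm : (en t L L' : ℤ) ≤ (en t (up t W) L' : ℤ) := by
      exact_mod_cast hmin (up t W) hL (stb_up hs)
    omega
  · obtain ⟨hL, he⟩ := h2 K O t ht L L' p q P l hD W hW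
    have hm : (en t L L' : ℤ) ≤ (en t (up t W) L' : ℤ) := by
      exact_mod_cast hmin (up t W) hL (stb_up hs)
    omega

end R3S
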