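import Pool.Agent.R3S.St2

/-!
# R3S, module VAN: vanishing cycles of a chain (helper82)
-/

set_option autoImplicit false

namespace R3S

open Pool.Agent.H2R (IsVanishing Twisted twist)

section

variable {G : Type} [Group G] {n : ℕ}

/-- `g` is a sequence of products for `c` -/
private def VAN_Sq (c : Fin n → G) (g : ℕ → G) : Prop := ∀ i : Fin n, g (i + 1) = g i * c i

/-- a member of the sequence moves to the left -/
private theorem VAN_left {c : Fin n → G} {g : ℕ → G} (h : VAN_Sq c g) (m : Fin n) :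
    VAN_Sq (twist m c) (fun j => if j = m then g (m + 1) else if j = m + 1 then
      g (m + 1) * (g m)⁻¹ * g (m + 1) else g j) := by
  intro i
  have hm := h m
  have hi := h i
  simp only [twist]
  by_cases h1 : (i : ℕ) + 1 = m
  · rw [if_pos h1, if_pos h1, if_neg (by omega), if_neg (by omega), ← mul_assoc, ← hi, h1, hm]
  · by_cases h2 : (i : ℕ) = m
    · have e : i = m := Fin.ext h2
      subst e
      rw [if_neg (by omega), if_pos rfl, if_pos rfl, if_neg (by omega), if_neg (by omega), hm]
      group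
    · by_cases h3 : (i : ℕ) = m + 1
      · rw [if_neg (by omega), if_neg (by omega), if_neg h2, if_pos h3, if_neg h1, if_pos h3]
        rw [hi, h3, hm]
        group
      · rw [if_neg (by omega), if_neg (by omega), if_neg h2, if_neg h3, if_neg h1, if_neg h3]
        exact hi

/-- a member of the sequence moves to the right -/
private theorem VAN_right {c : Fin n → G} {g : ℕ → G} (h : VAN_Sq c g) (m : Fin n) :
    ∃ c' : Fin n → G, twist m c' = c ∧
      VAN_Sq c' (fun j => if j = m then g m * (g (m + 1))⁻¹ * g m else if j = m + 1 then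
        g m else g j) := by
  obtain ⟨c', hc'⟩ : ∃ c' : Fin n → G, c' = fun j : Fin n =>
    if (j : ℕ) + 1 = m then c j * (c m)⁻¹ else if (j : ℕ) = m + 1 then c m * c j else c j :=
    ⟨_, rfl⟩
  have hcm : c' m = c m := by
    rw [hc']
    simp only
    rw [if_neg (by omega), if_neg (by omega)]
  refine ⟨c', ?_, fun i => ?_⟩
  · funext j
    simp only [twist, hcm]
    simp only [hc']
    split_ifs with h1 h2
    · rw [inv_mul_cancel_right]
    · rw [inv_mul_cancel_left]
    · rfl
  · have hm := h m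
    have hi := h i
    rw [hc']
    simp only
    by_cases h1 : (i : ℕ) + 1 = m
    · rw [if_pos h1, if_pos h1, if_neg (by omega), if_neg (by omega), ← mul_assoc, ← hi, h1, hm]
      group
    · by_cases h2 : (i : ℕ) = m
      · have e : i = m := Fin.ext h2
        subst e
        rw [if_neg (by omega), if_pos rfl, if_pos rfl, if_neg (by omega), if_neg (by omega), hm]
        group
      · by_cases h3 : (i : ℕ) = m + 1
        · rw [if_neg (by omega), if_neg (by omega), if_neg h2, if_pos h3, if_neg h1, if_pos h3]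
          rw [hi, h3, hm]
          group
        · rw [if_neg (by omega), if_neg (by omega), if_neg h2, if_neg h3, if_neg h1, if_neg h3]
          exact hi

/-- the member `j` moves to the position `i + 1` -/
private theorem VAN_move (c : Fin n → G) (i d : ℕ) : ∀ (c' : Fin n → G) (g : ℕ → G),
    Twisted c c' → VAN_Sq c' g → i + 1 + d ≤ n →
    ∃ (c'' : Fin n → G) (g'' : ℕ → G), Twisted c c'' ∧ VAN_Sq c'' g'' ∧
      (∀ m, m ≤ i → g'' m = g m) ∧ g'' (i + 1) = g (i + 1 + d) ∧
      ∀ m, i + 1 + d < m → g'' m = g m := by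
  induction d with
  | zero => exact fun c' g hc hg _ => ⟨c', g, hc, hg, fun _ _ => rfl, rfl, fun _ _ => rfl⟩
  | succ d ih =>
    intro c' g hc hg hn
    have h1 := VAN_left hg ⟨i + 1 + d, by omega⟩
    obtain ⟨c'', g'', h2, h3, h4, h5, h6⟩ := ih _ _ (Twisted.twist _ hc) h1 (by omega)
    refine ⟨c'', g'', h2, h3, fun m hm => ?_, ?_, fun m hm => ?_⟩
    · rw [h4 m hm]
      simp only
      rw [if_neg (by omega), if_neg (by omega)]
    · rw [h5]
      simp only
      rw [if_pos trivial]
      rfl
    · rw [h6 m (by omega)]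
      simp only
      rw [if_neg (by omega), if_neg (by omega)]

end

theorem thm_VAN : St_VAN := by
  intro G _ n c g hg
  refine ⟨fun i j hij hj => ?_, fun i j k hij hjk hk => ?_⟩
  · obtain ⟨d, rfl⟩ : ∃ d, j = i + 1 + d := ⟨j - (i + 1), by omega⟩
    obtain ⟨c', g', h1, h2, h3, h4, -⟩ := VAN_move c i d c g Twisted.refl hg hj
    refine ⟨c', h1, ⟨i, by omega⟩, ?_⟩
    have h5 := h2 ⟨i, by omega⟩
    simp only at h5
    rw [h4, h3 i le_rfl] at h5
    rw [h5, inv_mul_cancel_left]
  · obtain ⟨d, rfl⟩ : ∃ d, j = i + 1 + d := ⟨j - (i + 1), by omega⟩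
    obtain ⟨e, rfl⟩ : ∃ e, k = i + 1 + 1 + e := ⟨k - (i + 1 + 1), by omega⟩
    obtain ⟨c', g', h1, h2, h3, h4, h5⟩ := VAN_move c i d c g Twisted.refl hg (by omega)
    obtain ⟨c'', g'', k1, k2, k3, k4, -⟩ := VAN_move c (i + 1) e c' g' h1 h2 hk
    obtain ⟨c₃, l1, l2⟩ := VAN_right k2 ⟨i + 1, by omega⟩
    refine ⟨c₃, Twisted.untwist _ (by rw [l1]; exact k1), ⟨i, by omega⟩, ?_⟩
    have l3 := l2 ⟨i, by omega⟩
    simp only at l3
    rw [if_pos trivial, if_neg (by omega), if_neg (by omega), k3 (i + 1) le_rfl, k4,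
      k3 i (by omega), h4, h3 i le_rfl, h5 _ (by omega)] at l3
    have l4 : c₃ ⟨i, by omega⟩ = (g i)⁻¹ * (g i * c₃ ⟨i, by omega⟩) := by
      rw [inv_mul_cancel_left]
    rw [l4, ← l3]
    simp only [mul_assoc]

end R3S
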