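import Pool.Agent.R3S.LAT
import Pool.Agent.R3S.SNF
import Pool.Agent.R3S.EV
import Pool.Agent.R3S.SYM
import Pool.Agent.R3S.LFT
import Pool.Agent.R3S.STB
import Pool.Agent.R3S.MVP
import Pool.Agent.R3S.MVL
import Pool.Agent.R3S.TR0
import Pool.Agent.R3S.CAB
import Pool.Agent.R3S.TRI
import Pool.Agent.R3S.LOC
import Pool.Agent.R3S.BAS
import Pool.Agent.R3S.CHB
import Pool.Agent.R3S.GG
import Pool.Agent.R3S.HEL
import Pool.Agent.R3S.TTM
import Pool.Agent.R3S.TT
import Pool.Agent.R3S.ARC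
import Pool.Agent.R3S.VAN
import Pool.Agent.R3S.CHI
import Pool.Agent.R3S.DVU
import Pool.Agent.R3S.ENT
import Pool.Agent.R3S.FIN
import Pool.Agent.R3S.AIN
import Pool.Agent.R3S.QUI
import Pool.Agent.R3S.SPI
import Pool.Agent.R3S.SPC
import Pool.Agent.R3S.HYI
import Pool.Agent.H2T.Final

/-!
# R3S: assembly
-/

set_option autoImplicit false

namespace R3S

open Matrix
open Pool.Agent.H2R (IsVanishing Twisted twist)
open Helper12.Sc Helper12.Sc.SurfaceGroup SpQ
open Pool.Agent.Helper33.RT (evenSub IsLoopAround IsSymmetric)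

theorem symm : St_SYM := thm_SYM thm_SNF thm_EV

theorem mvp : St_MVP := thm_MVP thm_EV thm_LFT

theorem mvl : St_MVL := thm_MVL thm_EV thm_LFT

theorem tri : St_TRI := thm_TRI thm_EV (thm_TR0 thm_SNF thm_EV) (thm_CAB thm_LFT)

/-- Lemma G -/
theorem gg : St_GG := thm_GG thm_SNF thm_EV symm thm_STB mvp mvl tri thm_LOC

/-- Helly property -/
theorem hel : St_HEL := thm_HEL gg thm_BAS

/-- Lemma T -/
theorem tt : St_TT := thm_TT thm_SNF symm (thm_TTM mvp mvl)

/-- **Theorem A.** -/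
theorem arc : St_ARC := thm_ARC gg hel tt (thm_CHB thm_LAT) thm_BAS

theorem chi : St_CHI := thm_CHI arc thm_BAS thm_VAN

theorem fin : St_FIN := thm_FIN thm_DVU thm_ENT

theorem ain : St_AIN := thm_AIN thm_DVU thm_ENT

theorem spi : St_SPI := thm_SPI chi hel thm_BAS

theorem spc : St_SPC := thm_SPC spi

theorem hyi : St_HYI := thm_HYI chi thm_BAS

end R3S
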