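import Pool.Agent.R3S.St
import Pool.Agent.R3S.Tool

/-!
# R3S: a submodule between two lattices is a lattice
-/

set_option autoImplicit false

namespace R3S

open Matrix Module

section

variable {K : Type} [Field K] {O : ValuationSubring K} {t : K}

theorem LAT_irr (h : Unif O t) : Irreducible (⟨t, h.mem⟩ : O) := by
  have hu : ∀ x : O, IsUnit x ↔ ((x : K) ≠ 0 ∧ (x : K)⁻¹ ∈ O) := by
    intro x
    constructor
    · intro hx
      obtain ⟨u, rfl⟩ := hx
      have h1 : ((u : O) : K) * ((u⁻¹ : Oˣ) : O) = 1 := by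
        have := congrArg (fun z : O => (z : K)) u.mul_inv
        exact this
      have h0 : ((u : O) : K) ≠ 0 := left_ne_zero_of_mul_eq_one h1
      refine ⟨h0, ?_⟩
      rw [inv_eq_of_mul_eq_one_right h1]
      exact ((u⁻¹ : Oˣ) : O).2
    · rintro ⟨h0, h1⟩
      exact IsUnit.of_mul_eq_one ⟨(x : K)⁻¹, h1⟩ (Subtype.ext (mul_inv_cancel₀ h0))
  refine ⟨fun hc => h.nu ((hu _).1 hc).2, fun a b hab => ?_⟩
  by_contra hcon
  rw [not_or] at hcon
  obtain ⟨ha, hb⟩ := hcon
  have hab' : t = (a : K) * b := congrArg (fun z : O => (z : K)) hab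
  rcases h.unit_or a.2 with ⟨h1, h2⟩ | ⟨y, hy, hy'⟩
  · exact ha ((hu a).2 ⟨h2, h1⟩)
  rcases h.unit_or b.2 with ⟨h1, h2⟩ | ⟨z, hz, hz'⟩
  · exact hb ((hu b).2 ⟨h2, h1⟩)
  rw [hy', hz'] at hab'
  apply h.nu
  have h3 : t⁻¹ = y * z := by
    have h4 := h.ne
    have h5 : t * (t * (y * z)) = t * 1 := by
      rw [mul_one]
      calc t * (t * (y * z)) = t * y * (t * z) := by ring
        _ = t := hab'.symm
    have h6 := mul_left_cancel₀ h4 h5
    exact inv_eq_of_mul_eq_one_right h6
  rw [h3]
  exact mul_mem hy hz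

theorem LAT_pid (h : Unif O t) : IsPrincipalIdealRing O := by
  have h1 : IsDiscreteValuationRing O := by
    apply IsDiscreteValuationRing.ofHasUnitMulPowIrreducibleFactorization
    refine ⟨⟨t, h.mem⟩, LAT_irr h, fun {x} hx => ?_⟩
    have hx0 : (x : K) ≠ 0 := fun hc => hx (Subtype.ext hc)
    obtain ⟨n, u, hu, hu', hu0, hxu⟩ := h.exists_unit hx0
    have hn : 0 ≤ n := by
      rw [← h.zpow_mem]
      have : t ^ n = u⁻¹ * x := by
        rw [hxu, ← mul_assoc, inv_mul_cancel₀ hu0, one_mul]
      rw [this]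
      exact mul_mem hu' x.2
    obtain ⟨m, rfl⟩ := Int.eq_ofNat_of_zero_le hn
    refine ⟨m, Units.mk ⟨u, hu⟩ ⟨u⁻¹, hu'⟩ (Subtype.ext (mul_inv_cancel₀ hu0))
      (Subtype.ext (inv_mul_cancel₀ hu0)), ?_⟩
    apply Subtype.ext
    change t ^ m * u = x
    rw [hxu, zpow_natCast, mul_comm]
  infer_instance

end

theorem thm_LAT : St_LAT := by
  intro K _ O t h f n N hf h1 h2
  have := LAT_pid h
  set φ : (Fin 3 → O) →ₗ[O] V K := Fintype.linearCombination O (fun i => t ^ (-(n : ℤ)) • f i)
    with hφ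
  have hφa : ∀ c : Fin 3 → O, φ c = ∑ i, (c i : K) • (t ^ (-(n : ℤ)) • f i) := fun c => rfl
  have hli : LinearIndependent K fun i => t ^ (-(n : ℤ)) • f i := li_pow hf h.ne fun _ => -(n : ℤ)
  have hinj : Function.Injective φ := by
    intro c d hcd
    rw [hφa, hφa] at hcd
    have := coord_unique hli hcd
    funext i
    exact Subtype.ext (congrFun this i)
  have hle : N ≤ LinearMap.range φ := by
    intro v hv
    obtain ⟨c, hc, hv'⟩ := (mem_sp f _).1 (h2 v hv)
    refine ⟨fun i => ⟨c i, hc i⟩, ?_⟩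
    rw [hφa]
    have h3 : v = t ^ (-(n : ℤ)) • (t ^ n • v) := by
      rw [smul_smul, ← zpow_natCast, ← zpow_add₀ h.ne, neg_add_cancel, zpow_zero, one_smul]
    rw [h3, hv', Finset.smul_sum]
    exact Finset.sum_congr rfl fun i _ => smul_comm _ _ _
  obtain ⟨m, ⟨b⟩⟩ := Submodule.nonempty_basis_of_pid (Pi.basisFun O (Fin 3)) (N.comap φ)
  set g : Fin m → V K := fun j => φ (b j : Fin 3 → O) with hg
  have hgO : LinearIndependent O g := by
    have e1 : LinearIndependent O fun j => ((b j : N.comap φ) : Fin 3 → O) :=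
      b.linearIndependent.map' (N.comap φ).subtype (Submodule.ker_subtype _)
    exact e1.map' φ (LinearMap.ker_eq_bot.2 hinj)
  have hgK : LinearIndependent K g := (LinearIndependent.iff_fractionRing O K).1 hgO
  have hspan : Submodule.span O (Set.range g) = N := by
    have e1 : Submodule.span O (Set.range fun j => ((b j : N.comap φ) : Fin 3 → O)) =
        N.comap φ := by
      have e2 := congrArg (Submodule.map (N.comap φ).subtype) b.span_eq
      rw [Submodule.map_span, Submodule.map_top, Submodule.range_subtype, ← Set.range_comp] at e2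
      exact e2
    have e3 := congrArg (Submodule.map φ) e1
    rw [Submodule.map_span, ← Set.range_comp, Submodule.map_comap_eq, inf_eq_right.2 hle] at e3
    exact e3
  have htop : Submodule.span K (Set.range g) = ⊤ := by
    rw [eq_top_iff]
    intro v _
    obtain ⟨c, hc⟩ := exists_coord hf v
    rw [hc]
    refine Submodule.sum_mem _ fun i _ => Submodule.smul_mem _ _ ?_
    have e1 : t ^ n • f i ∈ Submodule.span K (Set.range g) := by
      have e2 : t ^ n • f i ∈ Submodule.span O (Set.range g) := by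
        rw [hspan]
        exact h1 i
      exact Submodule.span_le_restrictScalars O K _ e2
    have e3 : f i = (t ^ n)⁻¹ • (t ^ n • f i) := by
      rw [smul_smul, inv_mul_cancel₀ (pow_ne_zero _ h.ne), one_smul]
    rw [e3]
    exact Submodule.smul_mem _ _ e1
  have hm : m = 3 := by
    have e1 := Module.finrank_eq_card_basis (Basis.mk hgK (by rw [htop]))
    rw [Module.finrank_fin_fun, Fintype.card_fin] at e1
    exact e1.symm
  subst hm
  exact ⟨g, hgK, hspan.symm⟩

end R3S
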