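import Pool.Agent.R3S.Thm

/-!
# R3S: from rank three to smaller ranks

A representation of rank at most three is completed by a trivial representation.
-/

set_option autoImplicit false

namespace R3S

open Matrix Polynomial
open Pool.Agent.H2R (Quasi CRed)

section

variable {G : Type} [Group G] {r s t : ℕ}

/-- The sum of a matrix and an identity matrix. -/
def padHom (e : Fin r ⊕ Fin s ≃ Fin t) :
    Matrix (Fin r) (Fin r) ℂ →* Matrix (Fin t) (Fin t) ℂ where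
  toFun A := reindex e e (fromBlocks A 0 0 1)
  map_one' := by
    rw [fromBlocks_one]
    exact submatrix_one_equiv e.symm
  map_mul' A B := by
    have h : fromBlocks (A * B) 0 0 (1 : Matrix (Fin s) (Fin s) ℂ) =
        fromBlocks A 0 0 1 * fromBlocks B 0 0 1 := by
      rw [fromBlocks_multiply]
      simp
    rw [h]
    exact (submatrix_mul_equiv (fromBlocks A 0 0 (1 : Matrix (Fin s) (Fin s) ℂ))
      (fromBlocks B 0 0 1) e.symm e.symm e.symm).symm

/-- The sum of a representation and a trivial representation. -/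
def pad (e : Fin r ⊕ Fin s ≃ Fin t) (ρ : G →* GL (Fin r) ℂ) : G →* GL (Fin t) ℂ :=
  (Units.map (padHom e)).comp ρ

theorem pad_coe (e : Fin r ⊕ Fin s ≃ Fin t) (ρ : G →* GL (Fin r) ℂ) (x : G) :
    (pad e ρ x : Matrix (Fin t) (Fin t) ℂ) =
      reindex e e (fromBlocks (ρ x : Matrix (Fin r) (Fin r) ℂ) 0 0 1) := rfl

theorem pad_charpoly (e : Fin r ⊕ Fin s ≃ Fin t) (ρ : G →* GL (Fin r) ℂ) (x : G) :
    (pad e ρ x : Matrix (Fin t) (Fin t) ℂ).charpoly =
      (ρ x : Matrix (Fin r) (Fin r) ℂ).charpoly * (X - 1) ^ s := by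
  rw [pad_coe, charpoly_reindex, charpoly_fromBlocks_zero₁₂, charpoly_one, Fintype.card_fin]

theorem pad_trace (e : Fin r ⊕ Fin s ≃ Fin t) (ρ : G →* GL (Fin r) ℂ) (x : G) :
    (pad e ρ x : Matrix (Fin t) (Fin t) ℂ).trace =
      (ρ x : Matrix (Fin r) (Fin r) ℂ).trace + s := by
  rw [pad_coe]
  unfold trace
  rw [← Equiv.sum_comp e, Fintype.sum_sum_type]
  simp

/-- `A` has only roots of unity as eigenvalues. -/
def Rou {n : ℕ} (A : Matrix (Fin n) (Fin n) ℂ) : Prop :=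
  ∀ z : ℂ, A.charpoly.IsRoot z → ∃ m : ℕ, 0 < m ∧ z ^ m = 1

theorem pad_rou (e : Fin r ⊕ Fin s ≃ Fin t) (ρ : G →* GL (Fin r) ℂ) (x : G)
    (h : Rou (ρ x : Matrix (Fin r) (Fin r) ℂ)) : Rou (pad e ρ x : Matrix (Fin t) (Fin t) ℂ) := by
  intro z hz
  rw [pad_charpoly, root_mul] at hz
  rcases hz with hz | hz
  · exact h z hz
  · refine ⟨1, one_pos, ?_⟩
    have h1 : (z - 1) ^ s = 0 := by simpa [IsRoot] using hz
    have h2 : z - 1 = 0 := by
      by_contra h3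
      exact pow_ne_zero s h3 h1
    rw [pow_one, ← sub_eq_zero]
    exact h2

/-- Finite orbits in rank three give finite orbits in smaller rank. -/
theorem orbit_of_three {H : Type} [Group H] {V : Set G} {Φ : Set (H →* G)}
    (h3 : ∀ ρ : G →* GL (Fin 3) ℂ,
      ((∀ x ∈ V, Rou (ρ x : Matrix (Fin 3) (Fin 3) ℂ)) ∨
        {P : ℂ[X] | ∃ x ∈ V, P = (ρ x : Matrix (Fin 3) (Fin 3) ℂ).charpoly}.Finite) →
      {χ : H → ℂ | ∃ φ ∈ Φ,
        χ = fun x => (ρ (φ x) : Matrix (Fin 3) (Fin 3) ℂ).trace}.Finite)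
    (hr : r ≤ 3) (ρ : G →* GL (Fin r) ℂ)
    (hρ : (∀ x ∈ V, Rou (ρ x : Matrix (Fin r) (Fin r) ℂ)) ∨
        {P : ℂ[X] | ∃ x ∈ V, P = (ρ x : Matrix (Fin r) (Fin r) ℂ).charpoly}.Finite) :
    {χ : H → ℂ | ∃ φ ∈ Φ, χ = fun x => (ρ (φ x) : Matrix (Fin r) (Fin r) ℂ).trace}.Finite := by
  obtain ⟨s, hs⟩ := Nat.exists_eq_add_of_le hr
  have e : Fin r ⊕ Fin s ≃ Fin 3 := finSumFinEquiv.trans (finCongr hs.symm)
  have h1 := h3 (pad e ρ) (hρ.imp (fun h x hx => pad_rou e ρ x (h x hx)) fun h =>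
    (h.image fun P => P * (X - 1) ^ s).subset (by
      rintro P ⟨x, hx, rfl⟩
      exact ⟨_, ⟨x, hx, rfl⟩, (pad_charpoly e ρ x).symm⟩))
  refine (h1.image fun χ x => χ x - (s : ℂ)).subset ?_
  rintro χ ⟨φ, hφ, rfl⟩
  refine ⟨_, ⟨φ, hφ, rfl⟩, ?_⟩
  funext x
  change (pad e ρ (φ x) : Matrix (Fin 3) (Fin 3) ℂ).trace - (s : ℂ) = _
  rw [pad_trace]
  ring

/-- Finite image in rank at most two. -/
theorem finite_of_two {V L : Set G} (hL : L ⊆ V) (h : Rank2 L) (hr : r ≤ 2)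
    (ρ : G →* GL (Fin r) ℂ)
    (hρ : ∀ x ∈ V, Rou (ρ x : Matrix (Fin r) (Fin r) ℂ))
    (hc : ∀ W : Submodule ℂ (Fin r → ℂ),
      (∀ x, ∀ v ∈ W, (ρ x : Matrix (Fin r) (Fin r) ℂ).mulVec v ∈ W) →
      ∃ W' : Submodule ℂ (Fin r → ℂ),
        (∀ x, ∀ v ∈ W', (ρ x : Matrix (Fin r) (Fin r) ℂ).mulVec v ∈ W') ∧ IsCompl W W') :
    Finite ρ.range := by
  interval_cases r
  · have h0 : ∀ A B : GL (Fin 0) ℂ, A = B := fun A B => Units.ext (Subsingleton.elim _ _)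
    have : Subsingleton ρ.range := ⟨fun A B => Subtype.ext (h0 _ _)⟩
    infer_instance
  · have e : Fin 1 ⊕ Fin 1 ≃ Fin 2 := finSumFinEquiv
    obtain ⟨⟨N, hN, hi, hN'⟩, -, -⟩ := h (pad e ρ) fun x hx => pad_rou e ρ x (hρ x (hL hx))
    have hk : N ≤ ρ.ker := by
      intro x hx
      have h1 : IsNilpotent ((pad e ρ x : Matrix (Fin 2) (Fin 2) ℂ) - 1) := ⟨2, hN' x hx⟩
      have h2 := (Matrix.isNilpotent_trace_of_isNilpotent h1).eq_zero
      rw [trace_sub, pad_trace, trace_one, Fintype.card_fin, trace_fin_one] at h2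
      have h3 : (ρ x : Matrix (Fin 1) (Fin 1) ℂ) 0 0 = 1 := by
        push_cast at h2
        linear_combination h2
      rw [MonoidHom.mem_ker]
      refine Units.ext ?_
      ext i j
      rw [Subsingleton.elim i 0, Subsingleton.elim j 0, h3]
      simp
    have : ρ.ker.FiniteIndex := Subgroup.finiteIndex_of_le hk
    exact Finite.of_equiv _ (QuotientGroup.quotientKerEquivRange ρ).toEquiv
  · exact (h ρ fun x hx => hρ x (hL hx)).2.2 hc

end

end R3S
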