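import Pool.Agent.R3S.St2

/-!
# R3S, module RSA: groups which are generated by a chain

`thm_RSA : St_RSA`.
-/

set_option autoImplicit false

namespace R3S

open Matrix
open Pool.Agent.H2R (IsVanishing Twisted twist)

private lemma RSA_trans {G : Type} [Group G] {n : ℕ} {c c' c'' : Fin n → G} (h : Twisted c c')
    (h' : Twisted c' c'') : Twisted c c'' := by
  induction h' with
  | refl => exact h
  | twist i _ ih => exact Twisted.twist i ih
  | untwist i _ ih => exact Twisted.untwist i ih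

private lemma RSA_lift {G : Type} [Group G] {n : ℕ} (c : Fin n → G) {w : FreeGroup (Fin n)}
    (h : IsVanishing FreeGroup.of w) : IsVanishing c (FreeGroup.lift c w) := by
  have h1 := h.map (FreeGroup.lift c)
  have h2 : (fun j => FreeGroup.lift c (FreeGroup.of j)) = c := by
    funext j
    exact FreeGroup.lift_apply_of
  rwa [h2] at h1

/-- [RSA] -/
theorem thm_RSA (h1 : St_CHI) (h2 : St_BAS) (h3 : St_FIN) (h4 : St_AIN) (h5 : St_QUI) :
    St_RSA := by
  intro n
  obtain ⟨L, hL, hv, hb⟩ := h1 n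
  have key : ∀ (G : Type) [Group G] (c : Fin n → G), Subgroup.closure (Set.range c) = ⊤ →
      Suf3 (FreeGroup.lift c '' L) := by
    intro G _ c hc
    have hI : Int3 (FreeGroup.lift c '' L) := by
      intro K _ O t ht ρ hρ w
      obtain ⟨Λ, hΛ, hs⟩ := hb K O t ht G c ρ fun w hw => hρ _ ⟨w, hw, rfl⟩
      have h6 : Bd O {ρ w} := ⟨Λ, hΛ, fun γ hγ => hs γ ⟨w, by
        rw [hc]
        trivial, hγ⟩⟩
      exact ((h2 K O).2.1 _ h6).1
    exact ⟨fun F hF => h3 G n c _ hc (hL.image _) hI F hF, fun ρ hρ => h4 G n c _ hc hI ρ hρ⟩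
  refine ⟨L, hL, hv, fun G _ c hc => ⟨key G c hc, fun ρ hρ => ?_⟩⟩
  have h6 := (key (FreeGroup (Fin n)) FreeGroup.of (FreeGroup.closure_range_of _)).1 _
    (h5.2 G n c hc ρ)
  refine h6.subset ?_
  rintro χ ⟨c', hc', rfl⟩
  refine ⟨ρ.comp (FreeGroup.lift c'), ?_, rfl⟩
  rintro x ⟨w, hw, rfl⟩
  have h7 : FreeGroup.lift FreeGroup.of w = w := by
    rw [FreeGroup.lift_of_eq_id]
    rfl
  rw [h7]
  refine ⟨FreeGroup.lift c' w, hρ _ ?_, rfl⟩
  obtain ⟨c'', hc'', i, hi⟩ := RSA_lift c' (hv w hw)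
  exact ⟨c'', RSA_trans hc' hc'', i, hi⟩

end R3S
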