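import Pool.Agent.R3S.St2

/-!
# R3S, module RSB: hyperelliptic curves
-/

set_option autoImplicit false

namespace R3S

open Matrix
open Pool.Agent.Helper33.RT

private theorem RSB_loop {n : ℕ} {ψ : evenSub n ≃* evenSub n} (hψ : IsSymmetric ψ)
    {y : evenSub n} (hy : IsLoopAround 2 y) : IsLoopAround 2 (ψ y) := by
  obtain ⟨ψ', h', y₀, h₀, rfl⟩ := hy
  exact ⟨ψ'.trans ψ, IsSymmetric.comp h' hψ, y₀, h₀, rfl⟩

theorem thm_RSB (h1 : St_HYI) (h2 : St_FIN) (h3 : St_AIN) (h4 : St_QUI) : St_RSB := by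
  intro g hg
  obtain ⟨L, hfin, hL, hI⟩ := h1 g hg
  have h0 : 2 * g < 2 * g + 2 := by omega
  have hcl := closure_cC g h0
  have hF := h2 _ _ (cC (2 * g + 2) (2 * g) h0) L hcl hfin hI
  refine ⟨L, hfin, hL, ⟨hF, h3 _ _ (cC (2 * g + 2) (2 * g) h0) L hcl hI⟩, fun ρ hρ => ?_⟩
  have hQ := h4.2 _ _ (cC (2 * g + 2) (2 * g) h0) hcl ρ
  refine (hF _ hQ).subset ?_
  rintro χ ⟨ψ, hψ, rfl⟩
  refine ⟨ρ.comp ψ.toMonoidHom, fun x hx => ?_, rfl⟩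
  exact ⟨ψ x, hρ _ (RSB_loop hψ (hL x hx)), rfl⟩

end R3S
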