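import Pool.Agent.R3S.St2

/-!
# R3S, module RSC: spin structures, the finite set
-/

set_option autoImplicit false

namespace R3S

open Matrix
open Helper12.Sc Helper12.Sc.SurfaceGroup SpQ

/-- [RSC] -/
theorem thm_RSC (h1 : St_SPI) (h2 : St_FIN) (h3 : St_AIN) : St_RSC := by
  intro g k w hg hw h5
  obtain ⟨L, hfin, hL, hI⟩ := h1 g k w hg hw h5
  have hcl := Pool.Agent.H2G.closure_gens (MulEquiv.refl (SurfaceGroup g))
  exact ⟨L, hfin, hL, h2 (SurfaceGroup g) (g + g) _ L hcl hfin hI,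
    h3 (SurfaceGroup g) (g + g) _ L hcl hI⟩

end R3S
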