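import Pool.Agent.R3S.St2

/-!
# R3S, RSD: spin structures, the orbit under the mapping class group
-/

set_option autoImplicit false

namespace R3S

open Matrix
open Helper12.Sc Helper12.Sc.SurfaceGroup SpQ

/-- [RSD] -/
theorem thm_RSD (h1 : St_SPC) (h2 : St_FIN) (h3 : St_QUI) : St_RSD := by
  intro g k w hg hk hw h5 ρ hρ
  have hcl := Pool.Agent.H2G.closure_gens (MulEquiv.refl (SurfaceGroup g))
  obtain ⟨S, hS, hL, hφ⟩ := h1 g k w hg hk hw h5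
  have hF := h3.2 (SurfaceGroup g) (g + g) _ hcl ρ
  refine Set.Finite.subset (hS.biUnion fun L hLS =>
    h2 (SurfaceGroup g) (g + g) _ L hcl (hL L hLS).1 (hL L hLS).2 _ hF) ?_
  rintro χ ⟨φ, hφo, rfl⟩
  obtain ⟨L, hLS, hx⟩ := hφ φ hφo
  refine Set.mem_biUnion hLS ⟨ρ.comp φ.toMonoidHom, fun x hxL => ?_, rfl⟩
  obtain ⟨⟨ψ, i, hψ⟩, hwx⟩ := hx x hxL
  have hns : IsNonseparatingSimple (φ x) := ⟨ψ.trans φ, i, by rw [hψ]; rfl⟩
  exact ⟨φ x, hρ (φ x) hns hwx, rfl⟩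

end R3S
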