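import Pool.Agent.R3S.Defs

/-!
# R3S: statements of the modules, part 1 (lattices), with complete proofs in the docstrings

Conventions. `v` is the valuation, `v t = 1`. `GL_3(O)`: matrices with entries in `O` whose inverse has
entries in `O` (equivalently: entries in `O`, determinant a unit). If `f`, `g` are bases of the same
lattice then `g = f U` with `U` in `GL_3(O)`. File of module XYZ: `Pool/Agent/R3S/XYZ.lean`,
`import Pool.Agent.R3S.St`, `theorem thm_XYZ ... : St_XYZ`, other statements may be hypotheses. Helper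
lemmas: prefixed by the module name.
-/

set_option autoImplicit false

namespace R3S

open Matrix

/-! ### Lattices -/

/-- [LAT] A submodule between two lattices is a lattice.

PROOF. `O` is a principal ideal domain (every nonzero element is a unit times a power of `t`, `Unif.gen`). `L = sp f`; a submodule `N` of `t⁻ⁿ L` is a submodule of a
free module of rank 3, so it is free of rank at most 3 (`Submodule.basisOfPid`, `Submodule.nonempty_basis_of_pid`), and it contains the `K`-basis `t ^ n f i` of `V`, so a basis of `N` has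
three elements which are independent over `K` (independent over `O` implies independent over `K`: clear denominators, `LinearIndependent.iff_fractionRing` or by hand).
(Alternatively by hand: column operations.) -/
def St_LAT : Prop := ∀ (K : Type) [Field K] (O : ValuationSubring K) (t : K), Unif O t →
  ∀ (f : Fin 3 → V K) (n : ℕ) (N : Submodule O (V K)), LinearIndependent K f →
    (∀ i, t ^ n • f i ∈ N) → (∀ v ∈ N, t ^ n • v ∈ sp O f) → IsLat O N

/-- [SNF] Two lattices have adapted bases (elementary divisors).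

PROOF. `L = sp f`, `L' = sp g`, `g j = ∑ i, A i j • f i`, `A` in `GL_3(K)`. By row and column operations over `O` (`f` replaced by `f U`, `g` by `g W`, `U`, `W` in `GL_3(O)`) `A` becomes
diagonal: take an entry of smallest valuation, bring it to the first place, clear its row and column; the same with the remaining `2 × 2` matrix. Every diagonal entry is a unit times `t ^ (- a i)`
(`Unif.gen`). Or: Smith normal form over a principal ideal domain (`Submodule.smithNormalForm`) for `t ^ n L' ≤ L`. Order the `a i`: `a 0 ≥ a 1 ≥ a 2`, `s = a 2`, `q = a 1 - a 2`, `p = a 0 - a 1`. -/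
def St_SNF : Prop := ∀ (K : Type) [Field K] (O : ValuationSubring K) (t : K), Unif O t →
  ∀ L L' : Submodule O (V K), IsLat O L → IsLat O L' → ∃ p q P l, Dat t L L' p q P l

/-- [EV] The value of `en` does not depend on the adapted basis.

PROOF. Let `f, a` and `g, b` be adapted for `L, L'`. `g = f U`, and `t ^ (-b j) g j = ∑ i W i j t ^ (- a i) f i`, `U, W` in `GL_3(O)`, so `W i j = t ^ (a i - b j) U i j`. Determinants:
`∑ a = ∑ b` (valuations of `det W`, `det U` are 0). `max a` is the smallest `n` with `t ^ n L' ≤ L`, `- min a` the smallest `n` with `t ^ n L ≤ L'`, so `max a = max b`, `min a = min b`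
(or: some `U i j` is a unit in every row and column, ..). The third number is then also determined, and so is `3 ∑ a ^ 2 - (∑ a) ^ 2`, which is nonnegative. -/
def St_EV : Prop := ∀ (K : Type) [Field K] (O : ValuationSubring K) (t : K), Unif O t →
  ∀ (f : Fin 3 → V K) (L L' : Submodule O (V K)) (a : Fin 3 → ℤ), Adp t f L L' a →
    (en t L L' : ℤ) = 3 * ∑ i, a i ^ 2 - (∑ i, a i) ^ 2

/-- [SYM] Symmetry, and lattices at distance 0.

PROOF. By `SNF` there is an adapted basis `f, a`; then the `t ^ (- a i) f i` and `- a` are adapted for `L', L`; `EV`. If `en = 0` then `2 (p ^ 2 + p q + q ^ 2) = 0`, so `p = q = 0`,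
all weights are equal to `s` and `L' = t ^ (- s) L`; `γ` commutes with scalars. -/
def St_SYM : Prop := ∀ (K : Type) [Field K] (O : ValuationSubring K) (t : K), Unif O t →
  ∀ L L' : Submodule O (V K), IsLat O L → IsLat O L' → en t L L' = en t L' L ∧
    (en t L L' = 0 → ∀ γ : GL (Fin 3) K, Stb γ L → Stb γ L')

/-- [LFT] Lifting of adapted bases.

PROOF. `g = f U`, `U` in `GL_3(O)` (two bases of `L`). `t ^ (- b j) g j = ∑ i, t ^ (a i - b j) U i j • t ^ (- a i) f i` is in `L'`, so `W i j = t ^ (a i - b j) U i j` is in `O`, and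
`det W = t ^ (∑ a - ∑ b) det U = det U` is a unit. So the `t ^ (- b j) g j` are a basis of `L'`. -/
def St_LFT : Prop := ∀ (K : Type) [Field K] (O : ValuationSubring K) (t : K), Unif O t →
  ∀ (f g : Fin 3 → V K) (L L' : Submodule O (V K)) (a b : Fin 3 → ℤ), Adp t f L L' a →
    LinearIndependent K g → L = sp O g → (∀ i, t ^ (-b i) • g i ∈ L') → ∑ i, a i = ∑ i, b i →
    Adp t g L L' b

/-- [STB] The members of the flag are stable.

PROOF. Weights `a 0 = p + q + s`, `a 1 = q + s`, `a 2 = s`. If `0 < p` then `P = (L ∩ t ^ (a 0) L') + t L`: in the basis `f`, `L ∩ t ^ (a 0) L'` is spanned by the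
`t ^ (a 0 - a i) f i`, and `a 0 - a i > 0` for `i = 1, 2`. If `0 < q` then `l = (L ∩ t ^ (a 1) L') + t L`, similarly (`a 1 - a 0 ≤ 0`, `a 1 - a 2 > 0`). These descriptions are invariant under
`γ` (use `Stb` for `v` and for scalar multiples). -/
def St_STB : Prop := ∀ (K : Type) [Field K] (O : ValuationSubring K) (t : K), Unif O t →
  ∀ (L L' : Submodule O (V K)) (p q : ℕ) (P l : Submodule O (V K)), Dat t L L' p q P l →
    ∀ γ : GL (Fin 3) K, Stb γ L → Stb γ L' → (0 < p → Stb γ P) ∧ (0 < q → Stb γ l)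

/-- [MVP] Moving `L` towards a point `W` of `L / t L`.

PROOF. `f, s` from `Dat`, `a = (p + q + s, q + s, s)`. `W = t L + O w`, `w = ∑ c i f i` in `L`, not in `t L`: some `c i` is a unit. There is a basis `g` of `L`, adapted with the same weights `a`, one of
whose members is `w`: (1) `c 1`, `c 2` in `t O`: then `W = P`, `g = f`. (2) `c 2` in `t O`, `c 1` a unit: then `W ≤ l`, `W ≠ P`, `g = (f 0, c 0 f 0 + c 1 f 1, f 2)`. (3) `c 2` a unit: then `W ≤ l` is false,
`W ≠ P`, `g = (f 0, f 1, w)`. In (2), (3) `LFT` (`a 0 ≥ a 1 ≥ a 2`). `up W` is spanned by `t⁻¹ g m` and the other `g i` (`m = 0, 1, 2`), so it is a lattice, and the weights of `L'` with respect to it are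
`a i` for `i ≠ m` and `a m - 1` (`Adp t g' (up W) L'`). `EV`: `3 ∑ (a - δ_m) ^ 2 - (∑ a - 1) ^ 2 = (3 ∑ a ^ 2 - (∑ a) ^ 2) - 2 (3 a m - ∑ a) + 2`, and `3 a m - ∑ a` is `2 p + q`, `q - p`, `- p - 2 q`. -/
def St_MVP : Prop := ∀ (K : Type) [Field K] (O : ValuationSubring K) (t : K), Unif O t →
  ∀ (L L' : Submodule O (V K)) (p q : ℕ) (P l : Submodule O (V K)), Dat t L L' p q P l →
    ∀ W, Pt t L W → IsLat O (up t W) ∧
      (en t (up t W) L' : ℤ) = en t L L' - 2 * (p * e2 W P + q * i1 (W ≤ l)) + 2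

/-- [MVL] Moving `L` towards a line `W` of `L / t L`.

PROOF. As `MVP`: there is a basis `g` of `L`, adapted to `L'` with the weights `a`, and two indices `m, m'` such that `W = t L + O g m + O g m'`. (1) `W = l`: `g = f`, `{m, m'} = {0, 1}`. (2) `W ≠ l`, `P ≤ W`:
`g = (f 0, f 1, w)` with `w` in `W` not in `l`, `{0, 2}`. (3) `P ≤ W` is false: `W ∩ l` is a point `t L + O r`, `r = c 0 f 0 + c 1 f 1` with `c 1` a unit, and there is `w` in `W` not in `l`
(`W ≠ l` as `P ≤ l`), `g = (f 0, r, w)`, `{1, 2}`. The weights of `L'` with respect to `up W` are `a - δ_m - δ_m'`, and `3 ∑ (a - δ_m - δ_m') ^ 2 - (∑ a - 2) ^ 2 = (3 ∑ a ^ 2 - (∑ a) ^ 2)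
- 2 (3 a m + 3 a m' - 2 ∑ a) + 2`; `3 a m + 3 a m' - 2 ∑ a` is `p + 2 q`, `p - q`, `- 2 p - q`. -/
def St_MVL : Prop := ∀ (K : Type) [Field K] (O : ValuationSubring K) (t : K), Unif O t →
  ∀ (L L' : Submodule O (V K)) (p q : ℕ) (P l : Submodule O (V K)), Dat t L L' p q P l →
    ∀ W, Ln t L W → IsLat O (up t W) ∧
      (en t (up t W) L' : ℤ) = en t L L' - 2 * (q * e2 W l + p * i1 (P ≤ W)) + 2

/-- [TR0] The inequality of CAT(0) type for congruent adapted bases.

PROOF. `SNF`: `k, c` adapted for `L', L''`. Let `x i = b i - a i`. (A) `∑ c = ∑ x` (valuation of the determinant of the change of basis from `t ^ (-a) g` to `t ^ (-b) h`, `h = g U`, `U` in `GL_3(O)`). (B) `max c ≥ x i`: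
`t ^ (max c) L'' ≤ L'`, so `t ^ (max c - b i) h i` is in `L' = sp (t ^ (- a j) g j)`, and the coefficient of `g i` in `h i` is `≡ 1` modulo `t`, a unit: `max c - b i ≥ - a i`. (C) `min c ≤ x i`:
`t ^ (- min c) L' ≤ L''` and the coefficient of `h i` in `g i` is a unit. (D) if `c 0 ≥ c 1 ≥ c 2`, `x 0 ≥ x 1 ≥ x 2` (after a permutation), `c 0 = x 0 + u`, `c 2 = x 2 - w`, `u, w ≥ 0`,
`c 1 = x 1 - u + w`: `∑ c ^ 2 - ∑ x ^ 2 = 2 u (x 0 - x 1) + 2 w (x 1 - x 2) + u ^ 2 + w ^ 2 + (w - u) ^ 2 ≥ 0`. `EV`. -/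
def St_TR0 : Prop := ∀ (K : Type) [Field K] (O : ValuationSubring K) (t : K), Unif O t →
  ∀ (g h : Fin 3 → V K) (L L' L'' : Submodule O (V K)) (a b : Fin 3 → ℤ), Adp t g L L' a →
    Adp t h L L'' b → (∀ i, ∃ u ∈ L, g i - h i = t • u) →
    3 * ∑ i, (a i - b i) ^ 2 - (∑ i, (a i - b i)) ^ 2 ≤ (en t L' L'' : ℤ)

/-- [CAB] Common adapted bases of two flags.

PROOF. Two flags `(P, l)`, `(P', l')` in the three dimensional space `L / t L` have a common basis `e 0, e 1, e 2`: (1) `P = P'`, `l = l'`: `e 0` in `P`, `e 1` in `l`; `b = (b0, b1, b2)` (`b0 = p' + q' + s'`, `b1 = q' + s'`,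
`b2 = s'`). (2) `P = P'`, `l ≠ l'`: `e 0` in `P`, `e 1` in `l`, `e 2` in `l'`; `b = (b0, b2, b1)`. (3) `P ≠ P'`, `l = l'`: `e 0` in `P`, `e 1` in `P'`; `b = (b1, b0, b2)`. (4) `P ≠ P'`, `l ≠ l'`, `P ≤ l'` (then `P'` is not
in `l`): `e 0` in `P`, `e 1` in `l`, `e 2` in `P'`; `b = (b1, b2, b0)`. (5) `P ≠ P'`, `l ≠ l'`, `P' ≤ l` (then `P` is not in `l'`): `e 0` in `P`, `e 1` in `P'`, `e 2` in `l'`; `b = (b2, b0, b1)`. (6) `P` not in `l'`, `P'` not in `l`:
`e 0` in `P`, `e 1` in `l ∩ l'`, `e 2` in `P'`; `b = (b2, b1, b0)`. Always `a = (p + q + s, q + s, s)`. Lifts: `e i` is in the image of `L ∩ t ^ (a i) L'` and of `L ∩ t ^ (b i) L''` (`f 0` has weight `a 0`, elements of `O f 0 + O f 1`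
have weight at least `a 1`, all elements at least `a 2`), so there are `g i` in `L ∩ t ^ (a i) L'` and `h i` in `L ∩ t ^ (b i) L''` with the class `e i`; they are bases of `L` (invertible modulo `t`); `LFT`. The last equation is a
calculation in each case (it does not depend on `s, s'`). -/
def St_CAB : Prop := ∀ (K : Type) [Field K] (O : ValuationSubring K) (t : K), Unif O t →
  ∀ (L L' L'' : Submodule O (V K)) (p q p' q' : ℕ) (P l P' l' : Submodule O (V K)),
    Dat t L L' p q P l → Dat t L L'' p' q' P' l' → ∃ (g h : Fin 3 → V K) (a b : Fin 3 → ℤ),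
      Adp t g L L' a ∧ Adp t h L L'' b ∧ (∀ i, ∃ u ∈ L, g i - h i = t • u) ∧
      3 * ∑ i, a i * b i - (∑ i, a i) * ∑ i, b i =
        p * p' * e2 P P' + p * q' * i1 (P ≤ l') + q * p' * i1 (P' ≤ l) + q * q' * e2 l l'

/-- [TRI] The inequality of CAT(0) type. PROOF. `CAB`, `TR0`, `EV`. -/
def St_TRI : Prop := ∀ (K : Type) [Field K] (O : ValuationSubring K) (t : K), Unif O t →
  ∀ (L L' L'' : Submodule O (V K)) (p q p' q' : ℕ) (P l P' l' : Submodule O (V K)),
    Dat t L L' p q P l → Dat t L L'' p' q' P' l' →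
    (en t L L' : ℤ) + en t L L'' - 2 * (p * p' * e2 P P' + p * q' * i1 (P ≤ l') +
      q * p' * i1 (P' ≤ l) + q * q' * e2 l l') ≤ en t L' L''

/-! ### The local inequality -/

/-- three times the inner product of two weighted flags -/
noncomputable def sc {X Y : Type} (R : X → Y → Prop) (P : Fin 3 → X) (l : Fin 3 → Y)
    (p q : Fin 3 → ℕ) (i j : Fin 3) : ℤ :=
  p i * p j * e2 (P i) (P j) + p i * q j * i1 (R (P i) (l j)) + q i * p j * i1 (R (P j) (l i)) +
    q i * q j * e2 (l i) (l j)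

/-- [LOC] The local inequality: three weighted flags at a vertex, semistable for the members shared by two of them.

PROOF. Checked by computer (in the stronger form `4 S ≤ N`) for all relations and weights up to 8 and at random up to 40. `S = sc 01 + sc 02 + sc 12`, `N = ∑ 2 (p ^ 2 + p q + q ^ 2)`, `d k = p k - q k`, `D = ∑ d k`.
`G = (N - 2 S) / 6 = (1/6)(∑ d ^ 2 + D ^ 2) + ∑ p k q k + ∑_{i ≠ j, not R (P i) (l j)} p i q j - ∑_{i < j, P i = P j} p i p j - ∑_{i < j, l i = l j} q i q j`.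
No coincidence (of relevant members): `G ≥ (1/6) ∑ d ^ 2 + ∑ p q > 0`. Three points equal (all `p k > 0`): the condition gives `2 ∑ p + ∑ q ≤ 3`, impossible. Dually three lines. Exactly two points equal, `P 0 = P 1 = R`, `p 0, p 1 > 0`, no
coincidence of lines: `A = p 0 + p 1 ≥ 2`. (a) `R` on `l 2` or `q 2 = 0`: `p 2 ≥ 2 A + ∑ q - 3`, `d 2 ≥ 2 A - 3`, `D ≥ 3 A - 3`, `G ≥ (1/6)((2A-3)^2 + (3A-3)^2) - A^2/4 > 0`. (b) `R` not on `l 2`, `q 2 ≥ 1`: `G ≥ (p2^2 + q2^2)/6 +
(2/3) p2 q2 + A q2 - A^2/4`, and `p 2 ≥ 2 A - 2 q 2 - 3`; if `q 2 ≥ A / 4` clear, else `A ≥ 5` and `p 2 ≥ 3A/2 - 3`. Two points and two lines: if the pairs of indices are different, say `P 0 = P 1 = R`, `l 0 = l 2 = m`: `R` is on all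
three lines and all three points are on `m`: `2 A + ∑ q ≤ p 2 + 3`, `2 (q 0 + q 2) + ∑ p ≤ q 1 + 3`, the sum gives `3 A + 3 (q 0 + q 2) ≤ 6`, impossible. The same pair `0, 1`: `B = q 0 + q 1 ≥ 2`, `a = p 2`, `b = q 2`. `R` on `l 2` and `P 2` on `m`:
`2 A + B + b ≤ a + 3`, `2 B + A + a ≤ b + 3`: impossible. `R` not on `l 2`, `P 2` on `m`: `b ≥ 2 B + A + a - 3`, `G ≥ A b - A^2/4 + (1/6)(b - a)^2 - B^2/4 > 0`; dually. `R` not on `l 2`, `P 2` not on `m`: `a + 2 b ≥ 2 A + B - 3`,
`2 a + b ≥ A + 2 B - 3`, `G ≥ (1/6)(a-b)^2 + a b + A b + B a - (A^2 + B^2)/4 + p 0 q 0 + p 1 q 1 > 0`. (If a weight is `0` the member is irrelevant: treat `q 2 = 0` as `R` on `l 2`.) In Lean: case distinction over the (finitely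
many) truth values, `nlinarith`; you may assume by symmetry that the coincidence is `0, 1`. -/
def St_LOC : Prop := ∀ (X Y : Type) (R : X → Y → Prop) (P : Fin 3 → X) (l : Fin 3 → Y)
  (p q : Fin 3 → ℕ), (∀ i, R (P i) (l i)) →
  (∀ i j, i ≠ j → P i = P j → 0 < p i → 0 < p j →
    ∑ k, ((p k : ℤ) * e2 (P i) (P k) + q k * i1 (R (P i) (l k))) ≤ 3) →
  (∀ i j, i ≠ j → l i = l j → 0 < q i → 0 < q j →
    ∑ k, ((q k : ℤ) * e2 (l i) (l k) + p k * i1 (R (P k) (l i))) ≤ 3) →
  0 < ∑ k, (2 * (p k ^ 2 + p k * q k + q k ^ 2) : ℤ) →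
  2 * (sc R P l p q 0 1 + sc R P l p q 0 2 + sc R P l p q 1 2) <
    ∑ k, (2 * (p k ^ 2 + p k * q k + q k ^ 2) : ℤ)

/-! ### Bounded groups -/

/-- [BAS] Basic facts on stable lattices.

PROOF. `Stb` is closed under products and inverses, and `Stb 1 L`. `L = sp f`, `f⁻¹ γ f` and its inverse have entries in `O` (`f` as a matrix), so the characteristic polynomial of `γ` (the one of `f⁻¹ γ f`) has coefficients in
`O`, the trace is in `O`, the determinant a unit. `CP γ⁻¹`: the same for `γ⁻¹` when it has a stable lattice; in general the coefficients of the characteristic polynomial of `γ⁻¹` are up to sign the coefficients of `γ` divided by the determinant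
(for `3 × 3` matrices: `tr γ⁻¹ = e₂ / det`, `e₂ γ⁻¹ = tr γ / det`). -/
def St_BAS : Prop := ∀ (K : Type) [Field K] (O : ValuationSubring K),
  (∀ S : Set (GL (Fin 3) K), Bd O S → Bd O (Subgroup.closure S : Set (GL (Fin 3) K))) ∧
  (∀ γ : GL (Fin 3) K, Bd O {γ} → (γ : M K).trace ∈ O ∧ CP O γ) ∧
  ∀ γ : GL (Fin 3) K, CP O γ → CP O γ⁻¹ ∧ ((γ⁻¹ : GL (Fin 3) K) : M K).trace ∈ O ∧
    ∀ δ : GL (Fin 3) K, CP O (δ * γ * δ⁻¹)

/-- [CHB] An element with integral characteristic polynomial and unit determinant stabilises a lattice.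

PROOF. `N = O ^ 3 + γ O ^ 3 + γ ^ 2 O ^ 3`. By Cayley-Hamilton `γ N ≤ N`, and `γ⁻¹ = (det γ)⁻¹ (γ ^ 2 - c γ + c' )` with `c, c'` in `O`, so `γ⁻¹ N ≤ N` too (`γ⁻¹ v` for `v` in `O ^ 3`: in `N`; `γ⁻¹ γ v = v`; `γ⁻¹ γ ^ 2 v = γ v`). `N` is
a lattice by `LAT` (the entries of `γ`, `γ ^ 2` have bounded denominators `t ^ n`, `Unif.gen`). -/
def St_CHB : Prop := ∀ (K : Type) [Field K] (O : ValuationSubring K) (t : K), Unif O t →
  ∀ γ : GL (Fin 3) K, CP O γ → Bd O {γ}

/-- [GG] **Lemma G.** Four bounded groups, any two of which share a subgroup, such that the shared subgroups generate.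

PROOF. Among the `L : Fin 4 → Submodule O V` with `L i` a lattice stable under `H i` take one with `T = ∑_{i < j} en (L i) (L j)` minimal. Fix `i`; for the three `j ≠ i` take data `p j, q j, P j, l j` of `L j` with respect to `L i` (`SNF`); `EV`: `en (L i) (L j) = 2 (p ^ 2 + p q + q ^ 2)`.
The elements of `E i j` stabilise `L i` and `L j` (`E i j = E j i ≤ H j`), so by `STB` they stabilise `P j` if `0 < p j`, `l j` if `0 < q j`. If `P j = P k`, `j ≠ k`, `p j, p k > 0`, then `W = P j` is stable under `E i j ⊔ E i k ≥ H i`, `up W` is a lattice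
stable under `H i`, and by minimality and `MVP` (with `SYM`): `0 ≤ ∑_k (en (up W) (L k) - en (L i) (L k)) = - 2 ∑_k (p k e2 W (P k) + q k i1 (W ≤ l k)) + 6`. Similarly for lines (`MVL`). So `LOC` (`X = Y = Submodule`, `R` = `≤`) applies:
`2 S i ≤ N i`, strictly if `N i > 0`, where `S i` is the sum of the three `sc`, `N i = ∑_j en (L i) (L j)` (if `N i = 0` all weights are `0` and `S i = 0`). `TRI` for the 12 corners, sum: every `en (L j) (L k)` is on the right for the two corners `i ≠ j, k`,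
every `en (L i) (L j)` on the left four times: `4 T - 2 ∑ S i ≤ 2 T`, so `T ≤ ∑ S i`. And `∑ N i = 2 T`. If `T > 0` then some `N i > 0` and `2 ∑ S i < ∑ N i = 2 T`, contradiction. So `T = 0`, and `L 0` is stable under all `H j` (`SYM`). -/
def St_GG : Prop := ∀ (K : Type) [Field K] (O : ValuationSubring K) (t : K), Unif O t →
  ∀ (H : Fin 4 → Subgroup (GL (Fin 3) K)) (E : Fin 4 → Fin 4 → Subgroup (GL (Fin 3) K)),
    (∀ i, Bd O (H i : Set (GL (Fin 3) K))) → (∀ i j, E i j = E j i) →
    (∀ i j, i ≠ j → E i j ≤ H i) →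
    (∀ i j k, i ≠ j → i ≠ k → j ≠ k → H i ≤ E i j ⊔ E i k) →
    Bd O {γ : GL (Fin 3) K | ∃ i, γ ∈ H i}

/-- [HEL] Helly property: triples are enough.

PROOF. For a finite set `I` of indices: `Bd O (y '' I)` by induction on the number of elements of `I`. At most three elements: hypothesis (for the empty set any lattice, for one or two elements take equal indices). At least four: take different `i 0, .., i 3` in `I`,
`H m` = the group generated by the `y i`, `i` in `I` without `i m`, `E m m'` = the same without `i m` and `i m'`; `Bd (H m)` by induction and `BAS`; `E m m' ⊔ E m m''` contains all the generators of `H m`. `GG`. -/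
def St_HEL : Prop := ∀ (K : Type) [Field K] (O : ValuationSubring K) (t : K), Unif O t →
  ∀ (n : ℕ) (y : Fin n → GL (Fin 3) K), (∀ i j k, Bd O {y i, y j, y k}) → Bd O (Set.range y)

/-- [TTM] Lemma T, minimality. If `L` is stable under `a`, `L'` under `b`, and the distance is minimal, then a point or line of `L / t L` stable under `a` has small weight; for all data.

PROOF. `up W` is a lattice stable under `a`; `MVP`, `MVL`: `en (up W) L' = en L L' - 2 c + 2 ≥ en L L'`, so `c ≤ 1`. -/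
def St_TTM : Prop := ∀ (K : Type) [Field K] (O : ValuationSubring K) (t : K), Unif O t →
  ∀ (a b : GL (Fin 3) K) (L L' : Submodule O (V K)), IsLat O L → Stb a L → Stb b L' →
    (∀ N : Submodule O (V K), IsLat O N → Stb a N → en t L L' ≤ en t N L') →
    ∀ p q P l, Dat t L L' p q P l →
      (∀ W, Pt t L W → Stb a W → (p : ℤ) * e2 W P + q * i1 (W ≤ l) ≤ 1) ∧
      ∀ W, Ln t L W → Stb a W → (q : ℤ) * e2 W l + p * i1 (P ≤ W) ≤ 1

/-- [TT] **Lemma T.** Two elements `a`, `b`.

PROOF. Take `L` stable under `a`, `L'` stable under `b` with `en L L'` minimal, `f, s`, weights `a0 ≥ a1 ≥ a2` (`SNF`), `p = a0 - a1`, `q = a1 - a2`, `f' i = t ^ (- a i) f i` a basis of `L'`. If `p = q = 0`: `L' = t ^ (-s) L`, done. `α` = matrix of `a` in the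
basis `f`, in `GL_3(O)`; `β` = matrix of `b` in the basis `f'`, in `GL_3(O)`; the matrix of `b` in the basis `f` is `b i j = t ^ (a j - a i) β i j`. So `tr (a b) = ∑ α j i β i j t ^ (a j - a i)`; the same for `a⁻¹`, `b⁻¹` (`α'`, `β'`). Bars: modulo `t`.
CASE `p, q ≥ 1`. The term `j = 2, i = 0` has the only smallest exponent `- (p + q)`: so `ᾱ 2 0 * β̄ 0 2 = 0`, and the same for the four pairs from `α, α'` and `β, β'`. So `ᾱ 2 0 = ᾱ' 2 0 = 0` or `β̄ 0 2 = β̄' 0 2 = 0`. In the first case `k[ā] f 0` (spanned by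
`f 0, ā f 0, ā⁻¹ f 0`: Cayley-Hamilton) is contained in `l`: it is `P` or `l`, a stable point or line `W` with `c = 2 p + q` or `p + 2 q`, at least `3`: contradiction to `TTM`. In the second case the same for `L'`, `b`: with respect to `L'` the lattice `L` has
the weights `- a2 ≥ - a1 ≥ - a0` in the basis `f' 2, f' 1, f' 0`, data `q, p`, point `f' 2`, line `f' 2, f' 1`; `k[b̄] f' 2` is in this line. CASE `q = 0, p ≥ 1` (the case `p = 0, q ≥ 1` is this one with the roles of `a, b` exchanged). Let `s = 0` (scale `L'`).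
`L' = sp (t ^ (-p) f 0, f 1, f 2)`, `tr (a b) ∈ O` gives `ᾱ 1 0 β̄ 0 1 + ᾱ 2 0 β̄ 0 2 = 0`, and the same for `α'`, `β'`. So the vectors `(ᾱ 1 0, ᾱ 2 0)`, `(ᾱ' 1 0, ᾱ' 2 0)` are orthogonal to `(β̄ 0 1, β̄ 0 2)`, `(β̄' 0 1, β̄' 0 2)`. If the first two
are zero `P` is stable under `a` and has `c = 2 p ≥ 2`. If the last two are zero: the line `f' 1, f' 2` of `L'` is stable under `b`, `c = 2 p ≥ 2`. Otherwise the first two are multiples of `u = (u1, u2) ≠ 0`, the last two of a nonzero vector orthogonal to `u`.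
`W = ⟨f 0, u1 f 1 + u2 f 2⟩` is stable under `a` (it contains `f 0, ā f 0, ā⁻¹ f 0`, which span `k[ā] f 0`), a line with `c = p`, so `p = 1`. The point `R = u1 f' 1 + u2 f' 2` of `L' / t L'` is the common kernel of the functionals `f'0*, f'0* b̄, f'0* b̄⁻¹`, which span
`f'0* k[b̄]`, so it is stable under `b̄`. The preimage of `W` in `L` is `N = sp (f 0, u1 f 1 + u2 f 2, t L)`, the preimage of `R` in `L'` is `sp (u1 f 1 + u2 f 2, t L')`, and `t L' = sp (f 0, t f 1, t f 2)` (`p = 1`): it is the same lattice `N`, stable under `a`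
and `b`. (Stability of the preimage `N` of a stable subspace: if `ā W ≤ W` then `a N ≤ N`, and `a⁻¹ N ≤ N` as `ā` is invertible; here both `ā`, `ā⁻¹` are handled symmetrically.) -/
def St_TT : Prop := ∀ (K : Type) [Field K] (O : ValuationSubring K) (t : K), Unif O t →
  ∀ a b : GL (Fin 3) K, Bd O {a} → Bd O {b} → ((a * b : GL (Fin 3) K) : M K).trace ∈ O →
    ((a * b⁻¹ : GL (Fin 3) K) : M K).trace ∈ O → ((a⁻¹ * b : GL (Fin 3) K) : M K).trace ∈ O →
    ((a⁻¹ * b⁻¹ : GL (Fin 3) K) : M K).trace ∈ O → Bd O {a, b}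

/-- [ARC] **Theorem A.** The group of the `g i⁻¹ g j`.

PROOF. For a set `I` of indices let `Γ I` be generated by the `g i⁻¹ g j`, `i, j` in `I`. Two elements: `CHB`. Three elements `i < j < k`: `a = g i⁻¹ g j`, `b = g j⁻¹ g k`, `a b = g i⁻¹ g k`, `a b⁻¹ = g i⁻¹ g j g k⁻¹ g j`, traces of these and of their inverses
(conjugate to `a⁻¹ b⁻¹`, `a⁻¹ b`: `tr (a⁻¹ b⁻¹) = tr (b a)⁻¹ = tr (a b)⁻¹`, `tr (a⁻¹ b) = tr (b⁻¹ a)⁻¹ = tr (a b⁻¹)⁻¹`) are in `O` (`BAS`): `TT`, and `a, b` generate `Γ {i, j, k}`. Four elements: `GG` with `H m = Γ (I without i m)`, `E m m' = Γ (I without i m, i m')`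
(cyclic groups): two different pairs in a set of three elements generate its group. So `Γ I` is bounded for `I` with at most four elements. If `n > 0`: `HEL` for `y j = g 0⁻¹ g j` (any three of them are in a `Γ I` with four elements), and `g i⁻¹ g j = y i⁻¹ y j`
(`BAS`). -/
def St_ARC : Prop := ∀ (K : Type) [Field K] (O : ValuationSubring K) (t : K), Unif O t →
  ∀ (n : ℕ) (g : Fin n → GL (Fin 3) K), (∀ i j, i < j → CP O ((g i)⁻¹ * g j)) →
    (∀ i j k, i < j → j < k → CP O ((g i)⁻¹ * g j * (g k)⁻¹ * g j)) →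
    Bd O {γ : GL (Fin 3) K | ∃ i j, γ = (g i)⁻¹ * g j}

end R3S
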