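import Pool.Agent.R3S.St
import Pool.Agent.R3S.FinDVR
import Pool.Agent.H2R.ME
import Pool.Agent.H2G.Spin
import Pool.Agent.Helper33.RT.H2Bridge

/-!
# R3S: statements of the modules, part 2 (chains, characters, surfaces)

Conventions as in `Pool/Agent/R3S/St.lean`. File of module XYZ: `Pool/Agent/R3S/XYZ.lean`,
`import Pool.Agent.R3S.St2`, `theorem thm_XYZ ... : St_XYZ`.
-/

set_option autoImplicit false

namespace R3S

open Matrix
open Pool.Agent.H2R (IsVanishing Twisted twist)
open Pool.Agent.R3S (IsDVRIn)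
open Helper12.Sc Helper12.Sc.SurfaceGroup SpQ
open Pool.Agent.Helper33.RT (evenSub IsLoopAround IsSymmetric)

/-- the characteristic polynomial has integral coefficients, the determinant is a unit -/
def AInt (A : M ℂ) : Prop :=
  (∀ n, IsIntegral ℤ (A.charpoly.coeff n)) ∧ IsIntegral ℤ (A.det)⁻¹

/-- The elements of `L` suffice in rank three: finitely many characters have given characteristic
polynomials on `L`, and the traces are integral if the characteristic polynomials on `L` are
integral and the determinants are units. -/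
def Suf3 {G : Type} [Group G] (L : Set G) : Prop :=
  (∀ F : Set (Polynomial ℂ), F.Finite → {χ : G → ℂ | ∃ ρ : G →* GL (Fin 3) ℂ,
    (∀ x ∈ L, (ρ x : M ℂ).charpoly ∈ F) ∧ χ = chr ρ}.Finite) ∧
  ∀ ρ : G →* GL (Fin 3) ℂ, (∀ x ∈ L, AInt (ρ x : M ℂ)) → ∀ x, IsIntegral ℤ (ρ x : M ℂ).trace

/-! ### Chains -/

/-- [VAN] Vanishing cycles of a chain and partial products.

PROOF. Let `T c` be the set of sequences `g` with `g (i + 1) = g i * c i`. If `c' = twist m c` then `g'` with `g' m = g (m + 1)`, `g' (m + 1) = g (m + 1) * (g m)⁻¹ * g (m + 1)`, else `g' = g`, is a sequence for `c'`: `c' (m - 1) = (g (m - 1))⁻¹ * g (m + 1)`,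
`c' m = c m = (g m)⁻¹ * g (m + 1)`, `c' (m + 1) = (g (m + 1))⁻¹ * g m * (g (m + 1))⁻¹ * g (m + 2)`. So `g (m + 1)` moves one step to the left without change; the inverse (`Twisted.untwist`: `twist m c'' = c`) is `(g m, g (m + 1)) ↦ (g m * (g (m + 1))⁻¹ * g m, g m)`.
First claim: move `g j` to the left (twists `j - 1, .., i + 1`) until it is at position `i + 1`; then the chain has the member `(g i)⁻¹ * g j` at `i`. Second claim: move `g j` to position `i + 1`, then `g k` to position `i + 2` (twists `k - 1, .., i + 2`); untwist at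
`i + 1`: position `i + 1` is now `g j * (g k)⁻¹ * g j`, and the member at `i` is `(g i)⁻¹ * g j * (g k)⁻¹ * g j`. In Lean: prove by induction a statement of the form: if `g` is a sequence for `c'`, `Twisted c c'`, `i < j`, then there are `c''`, `g''` with `Twisted c c''`,
`g'' m = g m` for `m ≤ i`, `g'' (i + 1) = g j` and `g'' m = g m` for `m > j` (sequences `ℕ → G` or `Fin (n + 1) → G`, as you like). -/
def St_VAN : Prop := ∀ (G : Type) [Group G] (n : ℕ) (c : Fin n → G) (g : ℕ → G),
  (∀ i : Fin n, g (i + 1) = g i * c i) →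
  (∀ i j : ℕ, i < j → j ≤ n → IsVanishing c ((g i)⁻¹ * g j)) ∧
  ∀ i j k : ℕ, i < j → j < k → k ≤ n → IsVanishing c ((g i)⁻¹ * g j * (g k)⁻¹ * g j)

/-- [CHI] Chains of any length: finitely many vanishing cycles detect boundedness.

PROOF. In `FreeGroup (Fin n)` let `g 0 = 1`, `g (i + 1) = g i * of i` (`i < n`; `g (i + 1) = g i` else), `L` the set of the elements `(g i)⁻¹ * g j`, `i < j ≤ n`, and `(g i)⁻¹ * g j * (g k)⁻¹ * g j`, `i < j < k ≤ n`: finite, vanishing by `VAN`. Given `ρ`, `c` let `h i = ρ (lift c (g i))`,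
`i : Fin (n + 1)`. By hypothesis `CP` for the products of `ARC`, so `Bd O {(h i)⁻¹ * h j}`; this set contains `ρ (c i) = (h i)⁻¹ * h (i + 1)`. A lattice stable under the `ρ (c i)` is stable under the images of all elements of the closure (`BAS`, or directly: the stabiliser is a subgroup). -/
def St_CHI : Prop := ∀ n : ℕ, ∃ L : Set (FreeGroup (Fin n)), L.Finite ∧
  (∀ w ∈ L, IsVanishing FreeGroup.of w) ∧
  ∀ (K : Type) [Field K] (O : ValuationSubring K) (t : K), Unif O t →
  ∀ (G : Type) [Group G] (c : Fin n → G) (ρ : G →* GL (Fin 3) K),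
    (∀ w ∈ L, CP O (ρ (FreeGroup.lift c w))) →
    Bd O {γ : GL (Fin 3) K | ∃ x ∈ Subgroup.closure (Set.range c), γ = ρ x}

/-! ### Characters -/

/-- [DVU] Discrete valuation rings.

PROOF. `O` is a discrete valuation ring with fraction field `K`. Let `ϖ` be irreducible, `t = ϖ`. Every nonzero element of `O` is a unit times `ϖ ^ n` (`IsDiscreteValuationRing.eq_unit_mul_pow_irreducible`), so every nonzero `x` in `K` is a quotient of such elements, `x = u * t ^ m` with `m : ℤ`,
`u` a unit of `O`: `x ∈ O` or `x⁻¹ ∈ O`; `O'` is `O` as a valuation subring. `t⁻¹ ∉ O` as `ϖ` is not a unit. -/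
def St_DVU : Prop := ∀ (K : Type) [Field K] (O : Subring K), IsDVRIn O →
  ∃ (O' : ValuationSubring K) (t : K), Unif O' t ∧ ∀ x, x ∈ O' ↔ x ∈ O

/-- [ENT] Representations with entries in a subring.

PROOF. `H` = the set of `z` such that all entries of `ρ z` and `ρ z⁻¹` are in `A`: a subgroup which contains the `c i`, so `H = ⊤`. Let `m z : Matrix (Fin 3) (Fin 3) A` be the matrix with the entries of `ρ z`; `m` is multiplicative, `m 1 = 1` (compare entries in `B`), so `MonoidHom.toHomUnits`. -/
def St_ENT : Prop := ∀ (B : Type) [CommRing B] (A : Subring B) (G : Type) [Group G] (n : ℕ)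
  (c : Fin n → G) (ρ : G →* GL (Fin 3) B), Subgroup.closure (Set.range c) = ⊤ →
  (∀ i k l, (ρ (c i) : Matrix (Fin 3) (Fin 3) B) k l ∈ A ∧
    ((ρ (c i))⁻¹ : Matrix (Fin 3) (Fin 3) B) k l ∈ A) →
  ∃ ρ' : G →* GL (Fin 3) A, ∀ z k l, (((ρ' z : Matrix (Fin 3) (Fin 3) A) k l : A) : B) =
    (ρ z : Matrix (Fin 3) (Fin 3) B) k l

/-- [FIN] Finitely many characters with given characteristic polynomials on `L`.

PROOF. (1) It is enough to fix a function `p : L → F` (finitely many) and to consider `T = {τ : G →* GL (Fin 3) ℂ | ∀ x ∈ L, charpoly (τ x) = p x}` (a type), nonempty. Let `B = T → ℂ`, `ρ : G →* GL (Fin 3) B` the tautological representation (entry `k l` of `ρ z` is `τ ↦ τ z k l`), `A` the `ℂ`-subalgebra of `B` generated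
by the (finitely many) entries of `ρ (c i)` and `ρ (c i)⁻¹`: of finite type over `ℂ`. `ENT`: `ρ' : G →* GL (Fin 3) A`. (2) For every `z` the function `u = trace (ρ' z)` in `A` takes finitely many values on `T`: otherwise `u` is transcendental (`aeval u q = 0`, `q ≠ 0` gives that the values are roots of `q`), so by
`Pool.Agent.R3S.exists_point ℂ` there are a field `K`, a DVR `O ⊇ ℂ` in `K` and `θ : A →ₐ[ℂ] K` with `θ u ∉ O`. Let `ρθ = θ ∘ ρ'` (`Matrix.GeneralLinearGroup.map` or `Units.map`). For `x ∈ L`: `charpoly (ρ' x)` is the image of `p x` (compare coefficients at every `τ`), so the coefficients of `charpoly (ρθ x)` are images of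
complex numbers, in `O`; `det (ρθ x)` is the image of the complex number `d = det (τ x) = ± (p x).coeff 0`, not zero, and its inverse is the image of `d⁻¹`. So `CP O' (ρθ x)` (`DVU`), and `Int3` gives `trace (ρθ z) = θ u ∈ O'`, a contradiction. (3) So for every `z` there is a nonzero polynomial `q z` with `aeval (u z) (q z) = 0` in `A`, a product of
`X - C y`, `y` in the finite set of values. `A` is noetherian, so it has finitely many minimal primes (`minimalPrimes.finite_of_isNoetherianRing` or similar), and the kernel of the evaluation `A → ℂ` at `τ` is a prime, contains a minimal prime `P` (`Ideal.exists_minimalPrimes_le`). For every `z` some `u z - y` is in `P`, so `u z τ = y`: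
the character of `τ` is determined by `P` (if `P` is contained in the kernels for `τ` and `τ'` then `u z τ = y = u z τ'`). So there are finitely many characters. -/
def St_FIN : Prop := ∀ (G : Type) [Group G] (n : ℕ) (c : Fin n → G) (L : Set G),
  Subgroup.closure (Set.range c) = ⊤ → L.Finite → Int3 L → ∀ F : Set (Polynomial ℂ), F.Finite →
    {χ : G → ℂ | ∃ ρ : G →* GL (Fin 3) ℂ,
      (∀ x ∈ L, (ρ x : M ℂ).charpoly ∈ F) ∧ χ = chr ρ}.Finite

/-- [AIN] The traces are algebraic integers.

PROOF. `S` = the entries of `ρ (c i)` and `ρ (c i)⁻¹`, finite; `R = Algebra.adjoin ℤ S`, `ENT`: `ρ' : G →* GL (Fin 3) R`. `z = trace (ρ w)` is in `R`. `Pool.Agent.R3S.int_of_dvr`: let `θ : R →+* K`, `O` a DVR in `K`; `ρθ = θ ∘ ρ'`. For `x ∈ L`: the coefficients of `charpoly (ρθ x)` are the `θ e`, `e` the coefficients of `charpoly (ρ' x)`, which are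
integral over `ℤ` in `R` (they are in `ℂ`, and `R → ℂ` is injective: `isIntegral_algHom_iff` or similar), so `θ e` is integral over `ℤ`, and is in `O'` (`DVU`; valuation rings are integrally closed: `x⁻¹ ∈ O`, divide the equation by `x ^ (n - 1)`; or `ValuationSubring` / `IsIntegrallyClosed` in Mathlib). `(det (ρθ x))⁻¹ = θ (det (ρ' x⁻¹))` and
`det (ρ x⁻¹) = (det (ρ x))⁻¹` is an algebraic integer by hypothesis. So `CP O' (ρθ x)`, `Int3`: `trace (ρθ w) = θ (trace (ρ' w)) ∈ O'`. -/
def St_AIN : Prop := ∀ (G : Type) [Group G] (n : ℕ) (c : Fin n → G) (L : Set G),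
  Subgroup.closure (Set.range c) = ⊤ → Int3 L → ∀ ρ : G →* GL (Fin 3) ℂ,
    (∀ x ∈ L, AInt (ρ x : M ℂ)) → ∀ x, IsIntegral ℤ (ρ x : M ℂ).trace

/-- [QUI] Roots of unity.

PROOF. (1) `charpoly = ∏ (X - C z)` over the three roots (`IsAlgClosed.splits`), all coefficients are sums of products of roots of unity up to sign; `det` is the product of the roots (`Matrix.det_eq_prod_roots_charpoly`), its inverse is a product of roots of unity. (For the coefficients: a product of polynomials with
integral coefficients, e.g. the image of a polynomial over `integralClosure ℤ ℂ`.) (2) As `SpQ.finite_traces` (Pool/Agent/SpQ/Orbit.lean): by `Helper12`'s `exists_finite_quotient` for `ρ.range` there is `N > 0` such that all eigenvalues of the `ρ x` which are roots of unity are `N`-th roots of unity, so `charpoly (ρ x)` is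
one of finitely many products. -/
def St_QUI : Prop := (∀ A : M ℂ, Qu A → AInt A) ∧
  ∀ (G : Type) [Group G] (n : ℕ) (c : Fin n → G), Subgroup.closure (Set.range c) = ⊤ →
    ∀ ρ : G →* GL (Fin 3) ℂ, {P : Polynomial ℂ | ∃ x, Qu (ρ x : M ℂ) ∧
      P = (ρ x : M ℂ).charpoly}.Finite

/-! ### Surfaces -/

/-- [SPI] Spin structures.

PROOF. Copy of `Pool.Agent.H2T.spin` (Pool/Agent/H2T/Final.lean): `SpQ.exists_three`, `SpQ.spin_chain` give for every triple of handles a chain `c` of length `2 m` whose vanishing cycles are non-separating simple with `w = 0` and whose closure contains the images `φ (a j)`, `φ (b j)` of the three handles. `L` = the union of the images of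
the finite set of `CHI` (`n = 2 m`). Given `K, O, t, ρ` with `CP` on `L`: `y j = ρ (generator j)`, `j : Fin (g + g)` (`H2G.closure_gens φ`); any three `y i, y j, y k` are in the image of the closure of one chain, `Bd` by `CHI`; `HEL`: `Bd O (Set.range y)`; `BAS`: the closure of `Set.range y` is the image of `ρ`, so `ρ w` has a stable
lattice and its trace is in `O`. -/
def St_SPI : Prop := ∀ (g k : ℕ) (w : SurfaceGroup g → ZMod k), 2 ≤ g → IsSpinStructure k w →
  (5 ≤ g ∨ Odd k ∨ ∃ h2 : 2 ∣ k,
    ∑ i, (ZMod.castHom h2 (ZMod 2) (w (a i)) + 1) * (ZMod.castHom h2 (ZMod 2) (w (b i)) + 1) =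
      (SpQ.tri g : ZMod 2)) →
  ∃ L : Set (SurfaceGroup g), L.Finite ∧ (∀ x ∈ L, IsNonseparatingSimple x ∧ w x = 0) ∧ Int3 L

/-- [SPC] Compactness: finitely many finite sets for all spin structures.

PROOF. `ZMod k` is finite (`0 < k`); with the discrete topology `SurfaceGroup g → ZMod k` is compact. The set `X` of all `k`-spin structures is closed (all the conditions of `IsSpinStructure` involve finitely many values and are closed conditions: an intersection of closed sets), so it is compact. For `w'` in `X` let `L w'` be the set of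
`SPI` (`5 ≤ g ∨ Odd k`); `U w' = {w'' | w'' x = 0 for x ∈ L w'}` is open (`L w'` is finite) and contains `w'`. Finitely many `U w'` cover `X` (`IsCompact.elim_nhds_subcover` or `IsCompact.elim_finite_subcover`). The function `x ↦ w (φ x)` is in `X` for every orientation preserving `φ` (`SpQ.spin_comp`). The family: the finite set of
the `L w'` of the subcover. -/
def St_SPC : Prop := ∀ (g k : ℕ) (w : SurfaceGroup g → ZMod k), 2 ≤ g → 0 < k →
  IsSpinStructure k w → (5 ≤ g ∨ Odd k) →
  ∃ S : Set (Set (SurfaceGroup g)), S.Finite ∧ (∀ L ∈ S, L.Finite ∧ Int3 L) ∧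
    ∀ φ : SurfaceGroup g ≃* SurfaceGroup g, IsOrientationPreserving φ →
      ∃ L ∈ S, ∀ x ∈ L, IsNonseparatingSimple x ∧ w (φ x) = 0

/-- [HYI] Hyperelliptic curves.

PROOF. Copy of `Pool.Agent.H2T.hyp`: the chain `cC (2 * g + 2) (2 * g)` generates (`closure_cC`), its vanishing cycles are loops around two points (`loop_of_vanishing`). `L` = the image of the finite set of `CHI`. `Bd` for the image of `ρ` gives integral traces (`BAS`). -/
def St_HYI : Prop := ∀ g : ℕ, 1 ≤ g → ∃ L : Set (evenSub (2 * g + 2)), L.Finite ∧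
  (∀ y ∈ L, IsLoopAround 2 y) ∧ Int3 L

/-! ### Results -/

/-- [RSA] Groups which are generated by a chain.

PROOF. `L` from `CHI`; its image `L'` under `lift c` is finite and `Int3 L'` (`CHI`, `BAS`), so `Suf3 L'` by `FIN`, `AIN`. Last part: for `Twisted c c'` the representation `ρ.comp (lift c')` of the free group has on `w ∈ L` the value `ρ (lift c' w)`, and `lift c' w` is vanishing for `c'` (`IsVanishing.map`), so for `c` (transitivity of `Twisted`), so its
characteristic polynomial is in the finite set of `QUI`; `Suf3` for `L` in the free group itself (`c = of`). -/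
def St_RSA : Prop := ∀ n : ℕ, ∃ L : Set (FreeGroup (Fin n)), L.Finite ∧
  (∀ w ∈ L, IsVanishing FreeGroup.of w) ∧
  ∀ (G : Type) [Group G] (c : Fin n → G), Subgroup.closure (Set.range c) = ⊤ →
    Suf3 (FreeGroup.lift c '' L) ∧
    ∀ ρ : G →* GL (Fin 3) ℂ, (∀ x, IsVanishing c x → Qu (ρ x : M ℂ)) →
      {χ : FreeGroup (Fin n) → ℂ | ∃ c' : Fin n → G, Twisted c c' ∧
        χ = chr (ρ.comp (FreeGroup.lift c'))}.Finite

/-- [RSB] Hyperelliptic curves.

PROOF. `HYI`, `FIN`, `AIN` (generators: `closure_cC`). Orbit: for symmetric `ψ` and `x ∈ L` the element `ψ x` is a loop around two points (`IsSymmetric.comp`), so `charpoly (ρ (ψ x))` is in the finite set of `QUI`; `ρ.comp ψ`; `Suf3`. -/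
def St_RSB : Prop := ∀ g : ℕ, 1 ≤ g → ∃ L : Set (evenSub (2 * g + 2)), L.Finite ∧
  (∀ y ∈ L, IsLoopAround 2 y) ∧ Suf3 L ∧
  ∀ ρ : evenSub (2 * g + 2) →* GL (Fin 3) ℂ, (∀ y, IsLoopAround 2 y → Qu (ρ y : M ℂ)) →
    {χ : evenSub (2 * g + 2) → ℂ | ∃ ψ : evenSub (2 * g + 2) ≃* evenSub (2 * g + 2),
      IsSymmetric ψ ∧ χ = fun y => (ρ (ψ y) : M ℂ).trace}.Finite

/-- [RSC] Spin structures, the finite set. PROOF. `SPI`, `FIN`, `AIN` (generators: `H2G.closure_gens`). -/
def St_RSC : Prop := ∀ (g k : ℕ) (w : SurfaceGroup g → ZMod k), 2 ≤ g → IsSpinStructure k w →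
  (5 ≤ g ∨ Odd k ∨ ∃ h2 : 2 ∣ k,
    ∑ i, (ZMod.castHom h2 (ZMod 2) (w (a i)) + 1) * (ZMod.castHom h2 (ZMod 2) (w (b i)) + 1) =
      (SpQ.tri g : ZMod 2)) →
  ∃ L : Set (SurfaceGroup g), L.Finite ∧ (∀ x ∈ L, IsNonseparatingSimple x ∧ w x = 0) ∧ Suf3 L

/-- [RSD] Spin structures, the orbit under the mapping class group.

PROOF. `SPC`: for every orientation preserving `φ` there is `L` in the finite set `S` with `w (φ x) = 0` and `x`, so `φ x`, non-separating simple for `x ∈ L`; so `charpoly (ρ (φ x))` is in the finite set `F` of `QUI`, and the character of `ρ.comp φ` is in the finite set of `FIN` for `L`, `F`. A finite union of finite sets. -/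
def St_RSD : Prop := ∀ (g k : ℕ) (w : SurfaceGroup g → ZMod k), 2 ≤ g → 0 < k →
  IsSpinStructure k w → (5 ≤ g ∨ Odd k) → ∀ ρ : SurfaceGroup g →* GL (Fin 3) ℂ,
    (∀ x, IsNonseparatingSimple x → w x = 0 → Qu (ρ x : M ℂ)) →
    {χ : SurfaceGroup g → ℂ | ∃ φ : SurfaceGroup g ≃* SurfaceGroup g,
      IsOrientationPreserving φ ∧ χ = fun x => (ρ (φ x) : M ℂ).trace}.Finite

end R3S
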