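import Pool.Agent.R3S.Final

/-!
# R3S: results in rank two and three

Finite sets of vanishing cycles which suffice in rank two and in rank three.
-/

set_option autoImplicit false

namespace R3S

open Matrix Polynomial
open Pool.Agent.H2R (IsVanishing Twisted Quasi CRed M2)
open Helper12.Sc Helper12.Sc.SurfaceGroup SpQ
open Pool.Agent.Helper33.RT (evenSub IsLoopAround IsSymmetric cC closure_cC)

section

variable {G : Type} [Group G]

/-- `L` suffices in rank three. -/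
def Rank3 (L : Set G) : Prop :=
  (∀ F : Set ℂ[X], F.Finite → {χ : G → ℂ | ∃ ρ : G →* GL (Fin 3) ℂ,
    (∀ x ∈ L, (ρ x : Matrix (Fin 3) (Fin 3) ℂ).charpoly ∈ F) ∧
      χ = fun x => (ρ x : Matrix (Fin 3) (Fin 3) ℂ).trace}.Finite) ∧
  ∀ ρ : G →* GL (Fin 3) ℂ,
    (∀ x ∈ L, ∀ z : ℂ, (ρ x : Matrix (Fin 3) (Fin 3) ℂ).charpoly.IsRoot z →
      IsIntegral ℤ z ∧ IsIntegral ℤ z⁻¹) →
    ∀ x, IsIntegral ℤ (ρ x : Matrix (Fin 3) (Fin 3) ℂ).trace

/-- `L` suffices in rank two. -/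
def Rank2 (L : Set G) : Prop :=
  ∀ ρ : G →* GL (Fin 2) ℂ, (∀ x ∈ L, Quasi (ρ x : Matrix (Fin 2) (Fin 2) ℂ)) →
    (∃ H : Subgroup G, H.Normal ∧ H.FiniteIndex ∧
      ∀ x ∈ H, ((ρ x : Matrix (Fin 2) (Fin 2) ℂ) - 1) ^ 2 = 0) ∧
    {χ : G → ℂ | ∃ φ : G ≃* G,
      χ = fun x => (ρ (φ x) : Matrix (Fin 2) (Fin 2) ℂ).trace}.Finite ∧
    (CRed ρ → Finite ρ.range)

theorem charpoly_prod (A : M ℂ) :
    A.charpoly = (A.charpoly.roots.map fun z => (X - C z : ℂ[X])).prod :=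
  (IsAlgClosed.splits A.charpoly).eq_prod_roots_of_monic A.charpoly_monic

theorem prod_coeff (s : Multiset ℂ) (hs : ∀ z ∈ s, IsIntegral ℤ z) :
    ∀ n, IsIntegral ℤ ((s.map fun z => (X - C z : ℂ[X])).prod.coeff n) := by
  induction s using Multiset.induction_on with
  | empty =>
    intro n
    rw [Multiset.map_zero, Multiset.prod_zero, coeff_one]
    split_ifs
    · exact isIntegral_one
    · exact isIntegral_zero
  | cons a s ih =>
    intro n
    have h1 := ih fun z hz => hs z (Multiset.mem_cons_of_mem hz)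
    have h2 := hs a (Multiset.mem_cons_self a s)
    rw [Multiset.map_cons, Multiset.prod_cons, sub_mul, coeff_sub, coeff_C_mul]
    refine IsIntegral.sub ?_ (h2.mul (h1 n))
    cases n with
    | zero =>
      rw [coeff_X_mul_zero]
      exact isIntegral_zero
    | succ n =>
      rw [coeff_X_mul]
      exact h1 n

/-- matrices whose eigenvalues are units -/
theorem aint_of_units {A : M ℂ}
    (h : ∀ z : ℂ, A.charpoly.IsRoot z → IsIntegral ℤ z ∧ IsIntegral ℤ z⁻¹) : AInt A := by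
  refine ⟨?_, ?_⟩
  · rw [charpoly_prod A]
    exact prod_coeff _ fun z hz => (h z (isRoot_of_mem_roots hz)).1
  · rw [Matrix.det_eq_prod_roots_charpoly A]
    refine Multiset.prod_induction (fun z : ℂ => IsIntegral ℤ z⁻¹) _ ?_ ?_
      fun z hz => (h z (isRoot_of_mem_roots hz)).2
    · intro a b ha hb
      rw [_root_.mul_inv]
      exact ha.mul hb
    · rw [_root_.inv_one]
      exact isIntegral_one

theorem Rank3.mono {L L' : Set G} (h : Rank3 L) (hL : L ⊆ L') : Rank3 L' := by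
  refine ⟨fun F hF => (h.1 F hF).subset ?_, fun ρ hρ => h.2 ρ fun x hx => hρ x (hL hx)⟩
  rintro χ ⟨ρ, hρ, rfl⟩
  exact ⟨ρ, fun x hx => hρ x (hL hx), rfl⟩

theorem Rank2.mono {L L' : Set G} (h : Rank2 L) (hL : L ⊆ L') : Rank2 L' :=
  fun ρ hρ => h ρ fun x hx => hρ x (hL hx)

theorem rank3_of_int3 {n : ℕ} (c : Fin n → G) (hc : Subgroup.closure (Set.range c) = ⊤)
    {L : Set G} (hL : L.Finite) (h : Int3 L) : Rank3 L :=
  ⟨fun F hF => fin G n c L hc hL h F hF,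
    fun ρ hρ => ain G n c L hc h ρ fun x hx => aint_of_units (hρ x hx)⟩

end

/-! ### Chains -/

theorem Twisted_trans {G : Type} [Group G] {n : ℕ} {c c' c'' : Fin n → G} (h : Twisted c c')
    (h' : Twisted c' c'') : Twisted c c'' := by
  induction h' with
  | refl => exact h
  | twist i _ ih => exact Twisted.twist i ih
  | untwist i _ ih => exact Twisted.untwist i ih

theorem vanishing_lift {G : Type} [Group G] {n : ℕ} (c : Fin n → G) {w : FreeGroup (Fin n)}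
    (h : IsVanishing FreeGroup.of w) : IsVanishing c (FreeGroup.lift c w) := by
  have h1 := h.map (FreeGroup.lift c)
  have h2 : (fun j => FreeGroup.lift c (FreeGroup.of j)) = c := by
    funext j
    exact FreeGroup.lift_apply_of
  rwa [h2] at h1

theorem chain_int3 (n : ℕ) : ∃ L : Set (FreeGroup (Fin n)), L.Finite ∧
    (∀ w ∈ L, IsVanishing FreeGroup.of w) ∧
    ∀ (G : Type) [Group G] (c : Fin n → G), Subgroup.closure (Set.range c) = ⊤ →
      Int3 (FreeGroup.lift c '' L) := by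
  obtain ⟨L, hL, hv, hb⟩ := chi n
  refine ⟨L, hL, hv, fun G _ c hc K _ O t ht ρ hρ w => ?_⟩
  obtain ⟨Λ, hΛ, hs⟩ := hb K O t ht G c ρ fun w hw => hρ _ ⟨w, hw, rfl⟩
  have h6 : Bd O {ρ w} := ⟨Λ, hΛ, fun γ hγ => hs γ ⟨w, by
    rw [hc]
    trivial, hγ⟩⟩
  exact ((thm_BAS K O).2.1 _ h6).1

/-- Groups which are generated by a chain. -/
theorem chains (n : ℕ) (hn : 4 ≤ n) : ∃ L : Set (FreeGroup (Fin n)), L.Finite ∧
    (∀ w ∈ L, IsVanishing FreeGroup.of w) ∧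
    ∀ (G : Type) [Group G] (c : Fin n → G), Subgroup.closure (Set.range c) = ⊤ →
      Rank3 (FreeGroup.lift c '' L) ∧ Rank2 (FreeGroup.lift c '' L) := by
  obtain ⟨L, hL, hv, h3⟩ := chain_int3 n
  obtain ⟨L', hL', hv', h2⟩ := Pool.Agent.H2T.chain n hn
  refine ⟨L ∪ L', hL.union hL', ?_, fun G _ c hc => ⟨?_, ?_⟩⟩
  · rintro w (hw | hw)
    · exact hv w hw
    · exact hv' w hw
  · exact (rank3_of_int3 c hc (hL.image _) (h3 G c hc)).mono
      (Set.image_mono Set.subset_union_left)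
  · have h : Rank2 (FreeGroup.lift c '' L') := fun ρ hρ => Pool.Agent.H2T.concl c hc ρ fun x =>
      h2 G c ρ (fun w hw => hρ _ ⟨w, hw, rfl⟩) x (by rw [hc]; exact Subgroup.mem_top x)
    exact h.mono (Set.image_mono Set.subset_union_right)

/-! ### Hyperelliptic curves -/

theorem loop_symm {n : ℕ} {ψ : evenSub n ≃* evenSub n} (hψ : IsSymmetric ψ)
    {y : evenSub n} (hy : IsLoopAround 2 y) : IsLoopAround 2 (ψ y) := by
  obtain ⟨ψ', h', y₀, h₀, rfl⟩ := hy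
  exact ⟨ψ'.trans ψ, Pool.Agent.Helper33.RT.IsSymmetric.comp h' hψ, y₀, h₀, rfl⟩

theorem hyps (g : ℕ) (hg : 2 ≤ g) : ∃ L : Set (evenSub (2 * g + 2)), L.Finite ∧
    (∀ y ∈ L, IsLoopAround 2 y) ∧ Rank3 L ∧ Rank2 L := by
  have h0 : 2 * g < 2 * g + 2 := by omega
  have hc := closure_cC g h0
  obtain ⟨L, hL, hv, h3⟩ := hyi g (by omega)
  obtain ⟨L', hL', hv', h2⟩ := Pool.Agent.H2T.hyp g hg
  refine ⟨L ∪ L', hL.union hL', ?_, ?_, ?_⟩
  · rintro w (hw | hw)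
    · exact hv w hw
    · exact hv' w hw
  · exact (rank3_of_int3 _ hc hL h3).mono Set.subset_union_left
  · have h : Rank2 L' := fun ρ hρ => Pool.Agent.H2T.concl _ hc ρ (h2 ρ hρ)
    exact h.mono Set.subset_union_right

/-- The orbit under the hyperelliptic mapping class group. -/
theorem hyp_orbit (g : ℕ) (hg : 1 ≤ g) (ρ : evenSub (2 * g + 2) →* GL (Fin 3) ℂ)
    (hρ : {P : ℂ[X] | ∃ y, IsLoopAround 2 y ∧
      P = (ρ y : Matrix (Fin 3) (Fin 3) ℂ).charpoly}.Finite) :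
    {χ : evenSub (2 * g + 2) → ℂ | ∃ ψ : evenSub (2 * g + 2) ≃* evenSub (2 * g + 2),
      IsSymmetric ψ ∧ χ = fun y => (ρ (ψ y) : Matrix (Fin 3) (Fin 3) ℂ).trace}.Finite := by
  have h0 : 2 * g < 2 * g + 2 := by omega
  obtain ⟨L, hL, hv, h3⟩ := hyi g hg
  refine ((rank3_of_int3 _ (closure_cC g h0) hL h3).1 _ hρ).subset ?_
  rintro χ ⟨ψ, hψ, rfl⟩
  exact ⟨ρ.comp ψ.toMonoidHom, fun x hx => ⟨ψ x, loop_symm hψ (hv x hx), rfl⟩, rfl⟩

/-! ### Spin structures -/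

/-- the condition on the genus, the order and the Arf invariant -/
def SpinOk (g k : ℕ) (w : SurfaceGroup g → ZMod k) : Prop :=
  5 ≤ g ∨ Odd k ∨ ∃ h2 : 2 ∣ k,
    ∑ i, (ZMod.castHom h2 (ZMod 2) (w (a i)) + 1) *
      (ZMod.castHom h2 (ZMod 2) (w (b i)) + 1) = ((g * (g + 1) / 2 : ℕ) : ZMod 2)

theorem spins (g k : ℕ) (w : SurfaceGroup g → ZMod k) (hg : 2 ≤ g) (hw : IsSpinStructure k w)
    (hok : SpinOk g k w) : ∃ L : Set (SurfaceGroup g), L.Finite ∧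
      (∀ x ∈ L, x.IsNonseparatingSimple ∧ w x = 0) ∧ Rank3 L ∧ Rank2 L := by
  unfold SpinOk at hok
  rw [← Pool.Agent.H2T.tri_eq] at hok
  obtain ⟨L, hL, hv, h3⟩ := spi g k w hg hw hok
  obtain ⟨L', hL', hv', h2⟩ := Pool.Agent.H2T.spin hg hw hok
  have hc := Pool.Agent.H2G.closure_gens (MulEquiv.refl (SurfaceGroup g))
  refine ⟨L ∪ L', hL.union hL', ?_, ?_, ?_⟩
  · rintro x (hx | hx)
    · exact hv x hx
    · exact hv' x hx
  · exact (rank3_of_int3 _ hc hL h3).mono Set.subset_union_left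
  · have h : Rank2 L' := fun ρ hρ => Pool.Agent.H2T.concl _ hc ρ (h2 ρ hρ)
    exact h.mono Set.subset_union_right

/-- The orbit under the mapping class group. -/
theorem spin_orbit (g k : ℕ) (w : SurfaceGroup g → ZMod k) (hg : 2 ≤ g) (hk : 0 < k)
    (hw : IsSpinStructure k w) (h5 : 5 ≤ g ∨ Odd k) (ρ : SurfaceGroup g →* GL (Fin 3) ℂ)
    (hρ : {P : ℂ[X] | ∃ x, x.IsNonseparatingSimple ∧ w x = 0 ∧
      P = (ρ x : Matrix (Fin 3) (Fin 3) ℂ).charpoly}.Finite) :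
    {χ : SurfaceGroup g → ℂ | ∃ φ : SurfaceGroup g ≃* SurfaceGroup g,
      IsOrientationPreserving φ ∧
        χ = fun x => (ρ (φ x) : Matrix (Fin 3) (Fin 3) ℂ).trace}.Finite := by
  have hcl := Pool.Agent.H2G.closure_gens (MulEquiv.refl (SurfaceGroup g))
  obtain ⟨S, hS, hL, hφ⟩ := spc g k w hg hk hw h5
  refine Set.Finite.subset (hS.biUnion fun L hLS =>
    fin (SurfaceGroup g) (g + g) _ L hcl (hL L hLS).1 (hL L hLS).2 _ hρ) ?_
  rintro χ ⟨φ, hφo, rfl⟩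
  obtain ⟨L, hLS, hx⟩ := hφ φ hφo
  refine Set.mem_biUnion hLS ⟨ρ.comp φ.toMonoidHom, fun x hxL => ?_, rfl⟩
  obtain ⟨⟨ψ, i, hψ⟩, hwx⟩ := hx x hxL
  have hns : IsNonseparatingSimple (φ x) := ⟨ψ.trans φ, i, by rw [hψ]; rfl⟩
  exact ⟨φ x, hns, hwx, rfl⟩

/-- Roots of unity: finitely many characteristic polynomials. -/
theorem finite_of_qu {G : Type} [Group G] {n : ℕ} (c : Fin n → G)
    (hc : Subgroup.closure (Set.range c) = ⊤) (ρ : G →* GL (Fin 3) ℂ) (S : Set G)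
    (hS : ∀ x ∈ S, ∀ z : ℂ, (ρ x : Matrix (Fin 3) (Fin 3) ℂ).charpoly.IsRoot z →
      ∃ m : ℕ, 0 < m ∧ z ^ m = 1) :
    {P : ℂ[X] | ∃ x ∈ S, P = (ρ x : Matrix (Fin 3) (Fin 3) ℂ).charpoly}.Finite := by
  refine (thm_QUI.2 G n c hc ρ).subset ?_
  rintro P ⟨x, hx, rfl⟩
  exact ⟨x, hS x hx, rfl⟩

end R3S
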