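import Pool.Agent.R3S.Thm

/-!
# Vanishing cycles suffice in ranks two and three

Local systems of rank two or three on a curve, whose monodromies along vanishing cycles have only
roots of unity as eigenvalues: curves in a family which preserves a spin structure, like the generic
curve or smooth plane curves (a), (b), hyperelliptic curves (c), surfaces with a chain of vanishing
cycles (d).
-/

set_option autoImplicit false

namespace Pool.Agent.R3S.VC

open Matrix Pool.Agent.H2R Pool.Agent.Helper33.RT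
open Helper12.Sc Helper12.Sc.SurfaceGroup SpQ

/-- All eigenvalues are roots of unity. -/
def RootsOfUnity {r : ℕ} (A : Matrix (Fin r) (Fin r) ℂ) : Prop :=
  ∀ z : ℂ, A.charpoly.IsRoot z → ∃ m : ℕ, 0 < m ∧ z ^ m = 1

/-- All eigenvalues are units in the ring of algebraic integers. -/
def AlgUnits {r : ℕ} (A : Matrix (Fin r) (Fin r) ℂ) : Prop :=
  ∀ z : ℂ, A.charpoly.IsRoot z → IsIntegral ℤ z ∧ IsIntegral ℤ z⁻¹

section

variable {G : Type} [Group G]

/-- On `S` the representation has only roots of unity as eigenvalues, or it takes only finitely many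
characteristic polynomials on `S`. -/
def Tame (ρ : G →* GL (Fin 3) ℂ) (S : Set G) : Prop :=
  (∀ x ∈ S, RootsOfUnity (ρ x : Matrix (Fin 3) (Fin 3) ℂ)) ∨
    {P : Polynomial ℂ | ∃ x ∈ S, P = (ρ x : Matrix (Fin 3) (Fin 3) ℂ).charpoly}.Finite

/-- The character of the representation has finitely many pull backs under the homomorphisms in
`Φ`. -/
def FiniteOrbit {H : Type} [Group H] (ρ : G →* GL (Fin 3) ℂ) (Φ : Set (H →* G)) : Prop :=
  {χ : H → ℂ | ∃ φ ∈ Φ, χ = fun x => (ρ (φ x) : Matrix (Fin 3) (Fin 3) ℂ).trace}.Finite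

/-- `L` suffices in rank three: only finitely many characters have their characteristic polynomials
on `L` in a given finite set, and all traces are algebraic integers if the eigenvalues on `L` are
units. -/
def Three (L : Set G) : Prop :=
  (∀ F : Set (Polynomial ℂ), F.Finite → {χ : G → ℂ | ∃ ρ : G →* GL (Fin 3) ℂ,
    (∀ x ∈ L, (ρ x : Matrix (Fin 3) (Fin 3) ℂ).charpoly ∈ F) ∧
      χ = fun x => (ρ x : Matrix (Fin 3) (Fin 3) ℂ).trace}.Finite) ∧
  ∀ ρ : G →* GL (Fin 3) ℂ, (∀ x ∈ L, AlgUnits (ρ x : Matrix (Fin 3) (Fin 3) ℂ)) →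
    ∀ x, IsIntegral ℤ (ρ x : Matrix (Fin 3) (Fin 3) ℂ).trace

/-- `L` suffices in rank two: if `ρ` is a representation of rank two and the eigenvalues of `ρ x` are
roots of unity for all `x ∈ L`, then `ρ` is unipotent on a normal subgroup of finite index, the orbit
of its character under all automorphisms of `G` is finite, and its image is finite if it is
completely reducible. -/
def Two (L : Set G) : Prop :=
  ∀ ρ : G →* GL (Fin 2) ℂ, (∀ x ∈ L, RootsOfUnity (ρ x : Matrix (Fin 2) (Fin 2) ℂ)) →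
    (∃ H : Subgroup G, H.Normal ∧ H.FiniteIndex ∧
      ∀ x ∈ H, ((ρ x : Matrix (Fin 2) (Fin 2) ℂ) - 1) ^ 2 = 0) ∧
    {χ : G → ℂ | ∃ φ : G ≃* G,
      χ = fun x => (ρ (φ x) : Matrix (Fin 2) (Fin 2) ℂ).trace}.Finite ∧
    (CRed ρ → Finite ρ.range)

end

/-- Non-separating simple closed curves with winding number zero. -/
def Zero {g k : ℕ} (w : SurfaceGroup g → ZMod k) : Set (SurfaceGroup g) :=
  {x | x.IsNonseparatingSimple ∧ w x = 0}

/-- The genus is at least `5`, or `k` is odd, or the Arf invariant is `g (g + 1) / 2`. -/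
def Arf {g k : ℕ} (w : SurfaceGroup g → ZMod k) : Prop :=
  5 ≤ g ∨ Odd k ∨ ∃ h2 : 2 ∣ k,
    ∑ i, (ZMod.castHom h2 (ZMod 2) (w (a i)) + 1) *
      (ZMod.castHom h2 (ZMod 2) (w (b i)) + 1) = ((g * (g + 1) / 2 : ℕ) : ZMod 2)

theorem result :
    -- (a) rank three, the orbit under the mapping class group
    (∀ (g k : ℕ) (w : SurfaceGroup g → ZMod k), 2 ≤ g → 0 < k → IsSpinStructure k w →
      (5 ≤ g ∨ Odd k) → ∀ ρ : SurfaceGroup g →* GL (Fin 3) ℂ, Tame ρ (Zero w) →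
        FiniteOrbit ρ {φ | ∃ ψ : SurfaceGroup g ≃* SurfaceGroup g,
          IsOrientationPreserving ψ ∧ φ = ψ.toMonoidHom}) ∧
    -- (b) ranks two and three, finitely many non-separating simple closed curves suffice
    (∀ (g k : ℕ) (w : SurfaceGroup g → ZMod k), 2 ≤ g → IsSpinStructure k w → Arf w →
      ∃ L ⊆ Zero w, L.Finite ∧ Three L ∧ Two L) ∧
    -- (c) the hyperelliptic curve of genus `g`
    (∀ g : ℕ, 2 ≤ g → (∃ L ⊆ {y : evenSub (2 * g + 2) | IsLoopAround 2 y},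
        L.Finite ∧ Three L ∧ Two L) ∧
      ∀ ρ : evenSub (2 * g + 2) →* GL (Fin 3) ℂ, Tame ρ {y | IsLoopAround 2 y} →
        FiniteOrbit ρ {φ | ∃ ψ : evenSub (2 * g + 2) ≃* evenSub (2 * g + 2),
          IsSymmetric ψ ∧ φ = ψ.toMonoidHom}) ∧
    -- (d) groups which are generated by a chain of `n ≥ 4` elements
    ∀ n : ℕ, 4 ≤ n → ∃ L ⊆ {w : FreeGroup (Fin n) | IsVanishing FreeGroup.of w}, L.Finite ∧
      ∀ (G : Type) [Group G] (c : Fin n → G), Subgroup.closure (Set.range c) = ⊤ →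
        Three (FreeGroup.lift c '' L) ∧ Two (FreeGroup.lift c '' L) ∧
        ∀ ρ : G →* GL (Fin 3) ℂ, Tame ρ {x | IsVanishing c x} →
          FiniteOrbit ρ {φ | ∃ c' : Fin n → G, Twisted c c' ∧ φ = FreeGroup.lift c'} := by
  refine ⟨fun g k w hg hk hw h5 ρ hρ => ?_, fun g k w hg hw hok => ?_,
    fun g hg => ⟨?_, fun ρ hρ => ?_⟩, fun n hn => ?_⟩
  · have hcl := Pool.Agent.H2G.closure_gens (MulEquiv.refl (SurfaceGroup g))
    have hfin : {P : Polynomial ℂ | ∃ x ∈ Zero w,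
        P = (ρ x : Matrix (Fin 3) (Fin 3) ℂ).charpoly}.Finite :=
      hρ.elim (fun h => _root_.R3S.finite_of_qu _ hcl ρ _ h) id
    refine (_root_.R3S.spin_orbit g k w hg hk hw h5 ρ (hfin.subset ?_)).subset ?_
    · rintro P ⟨x, hx, hx', rfl⟩
      exact ⟨x, ⟨hx, hx'⟩, rfl⟩
    · rintro χ ⟨φ, ⟨ψ, hψ, rfl⟩, rfl⟩
      exact ⟨ψ, hψ, rfl⟩
  · obtain ⟨L, hL, hv, h3, h2⟩ := _root_.R3S.spins g k w hg hw hok
    exact ⟨L, hv, hL, h3, h2⟩
  · obtain ⟨L, hL, hv, h3, h2⟩ := _root_.R3S.hyps g hg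
    exact ⟨L, hv, hL, h3, h2⟩
  · have hcl := closure_cC g (by omega)
    have hfin : {P : Polynomial ℂ | ∃ y ∈ {y : evenSub (2 * g + 2) | IsLoopAround 2 y},
        P = (ρ y : Matrix (Fin 3) (Fin 3) ℂ).charpoly}.Finite :=
      hρ.elim (fun h => _root_.R3S.finite_of_qu _ hcl ρ _ h) id
    refine (_root_.R3S.hyp_orbit g (by omega) ρ hfin).subset ?_
    rintro χ ⟨φ, ⟨ψ, hψ, rfl⟩, rfl⟩
    exact ⟨ψ, hψ, rfl⟩
  · obtain ⟨L, hL, hv, h⟩ := _root_.R3S.chains n hn
    refine ⟨L, hv, hL, fun G _ c hc => ⟨(h G c hc).1, (h G c hc).2, fun ρ hρ => ?_⟩⟩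
    have hfin : {P : Polynomial ℂ | ∃ x ∈ {x | IsVanishing c x},
        P = (ρ x : Matrix (Fin 3) (Fin 3) ℂ).charpoly}.Finite :=
      hρ.elim (fun h => _root_.R3S.finite_of_qu _ hc ρ _ h) id
    have h3 := (h (FreeGroup (Fin n)) FreeGroup.of (FreeGroup.closure_range_of _)).1.1 _ hfin
    refine h3.subset ?_
    rintro χ ⟨φ, ⟨c', hc', rfl⟩, rfl⟩
    refine ⟨ρ.comp (FreeGroup.lift c'), ?_, rfl⟩
    rintro x ⟨u, hu, rfl⟩
    have h7 : FreeGroup.lift FreeGroup.of u = u := by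
      rw [FreeGroup.lift_of_eq_id]
      rfl
    rw [h7]
    obtain ⟨c'', hc'', i, hi⟩ := _root_.R3S.vanishing_lift c' (hv u hu)
    exact ⟨FreeGroup.lift c' u, ⟨c'', _root_.R3S.Twisted_trans hc' hc'', i, hi⟩, rfl⟩

end Pool.Agent.R3S.VC
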